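import Pool.Agent.W755.GlN

set_option autoImplicit false

open MeasureTheory Filter Topology Set
open scoped ENNReal NNReal

namespace Pool.Agent.W755.Gl

open Pool.Agent.W755.Mz

theorem measurable_Gst {lam : ℝ} {H : ℝ × ℝ → ℝ≥0∞} (hH : Measurable H) : Measurable (Gst lam H) := by
  unfold Gst
  have : Measurable (fun q : ℝ × (ℝ × ℝ) =>
      ENNReal.ofReal ((q.2.2 / (|q.1 - q.2.1| + q.2.2)) ^ lam) * H q.2) :=
    (by fun_prop : Measurable (fun q : ℝ × (ℝ × ℝ) =>
      ENNReal.ofReal ((q.2.2 / (|q.1 - q.2.1| + q.2.2)) ^ lam))).mul (hH.comp measurable_snd)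
  exact this.lintegral_prod_right'

theorem pois_congr {f f' : ℝ → ℝ} (h : f =ᵐ[volume] f') (z y : ℝ) : pois f z y = pois f' z y := by
  unfold pois
  congr 1
  refine integral_congr_ae ?_
  have h1 := (Measure.measurePreserving_sub_left volume z).quasiMeasurePreserving.ae_eq_comp h
  filter_upwards [h1] with x hx
  simp only [Function.comp_apply] at hx
  rw [hx]

theorem gstar_congr {f f' : ℝ → ℝ} (h : f =ᵐ[volume] f') (lam x : ℝ) :
    gstar lam f x = gstar lam f' x := by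
  unfold gstar gradSq
  simp only [pois_congr h]

section

variable {p : ℝ} (hp : 1 < p) (hp2 : p < 2) {U : ℝ → ℝ} (hU : Br.IsWt U) (hA : MemAp p U)
  (hne : ¬ U =ᵐ[volume] 0)
include hp hp2 hU hA hne

theorem conv_pois {f : ℝ → ℝ} (hf : AEMeasurable f) (hfin : ∫⁻ x, ENNReal.ofReal (|f x| ^ p * U x) < ⊤)
    (z y : ℝ) (hy : 0 < y) : Integrable (fun x => y * f (z - x) / (x ^ 2 + y ^ 2)) := by
  have hp0 : 0 < p := by linarith
  have hpos := pos_of_memAp hp hU.meas hU.nonneg hne hA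
  obtain ⟨K, hK⟩ := hA
  obtain ⟨C, hC⟩ := area_Lp hp hp2 hU.meas hU.nonneg hpos (K := K) hK
  set f' := hf.mk f with hf'
  have hff : f =ᵐ[volume] f' := hf.ae_eq_mk
  have hfm : Measurable f' := hf.measurable_mk
  have e1 : ∫⁻ x, ENNReal.ofReal |f' x| ^ p ∂(mU U) = ∫⁻ x, ENNReal.ofReal (|f x| ^ p * U x) := by
    have h1 := lint_mU hU.meas MeasurableSet.univ
      (w := fun x => ENNReal.ofReal |f' x| ^ p) (by fun_prop)
    simp only [Measure.restrict_univ] at h1
    rw [h1]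
    refine lintegral_congr_ae ?_
    filter_upwards [hff] with x hx
    rw [hx, ENNReal.ofReal_mul (by positivity), ENNReal.ofReal_rpow_of_nonneg (abs_nonneg _) hp0.le]
  have h2 := (hC f' hfm (by rw [e1]; exact hfin.ne)).1
  have h3 := (int_pk h2 (z := z) hy).const_mul Real.pi
  have h4 : Integrable (fun t => y * f t / ((z - t) ^ 2 + y ^ 2)) := by
    refine h3.congr ?_
    filter_upwards [hff] with t ht
    rw [ht]
    unfold pk
    have : (z - t) ^ 2 = (t - z) ^ 2 := by ring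
    rw [this]
    have := Real.pi_ne_zero
    have : (t - z) ^ 2 + y ^ 2 ≠ 0 := by positivity
    field_simp
  have h5 := h4.comp_sub_left z
  refine h5.congr (Eventually.of_forall fun x => ?_)
  simp only [sub_sub_cancel]

theorem suff_ne {lam : ℝ} (hlam : 0 < lam) (hB : Br.MemB (lam * p / 2) U) : Star lam p U := by
  have hp0 : 0 < p := by linarith
  have hpos := pos_of_memAp hp hU.meas hU.nonneg hne hA
  obtain ⟨K, hK⟩ := hA
  obtain ⟨C, hC⟩ := area_Lp hp hp2 hU.meas hU.nonneg hpos (K := K) hK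
  obtain ⟨q, hq0, hq1, hBq⟩ := Br.self_improve (by positivity) hU hB
  obtain ⟨D, hD1, hD⟩ := dbl_of_memB hq0 hU hBq
  have : IsLocallyFiniteMeasure (mU U) := lf_mU hp hU.meas hpos (K := K) hK
  obtain ⟨C2, hC2⟩ := suff_meas hq0 hD1 hD (s := p / 2) (lam := lam) (by positivity) (by linarith) hlam
    (by linarith)
  refine ⟨C2 * C, fun f hf hfin => ?_⟩
  set f' := hf.mk f with hf'
  have hff : f =ᵐ[volume] f' := hf.ae_eq_mk
  have hfm : Measurable f' := hf.measurable_mk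
  have e1 : ∫⁻ x, ENNReal.ofReal |f' x| ^ p ∂(mU U) = ∫⁻ x, ENNReal.ofReal (|f x| ^ p * U x) := by
    have h1 := lint_mU hU.meas MeasurableSet.univ
      (w := fun x => ENNReal.ofReal |f' x| ^ p) (by fun_prop)
    simp only [Measure.restrict_univ] at h1
    rw [h1]
    refine lintegral_congr_ae ?_
    filter_upwards [hff] with x hx
    rw [hx, ENNReal.ofReal_mul (by positivity), ENNReal.ofReal_rpow_of_nonneg (abs_nonneg _) hp0.le]
  obtain ⟨h2, h3⟩ := hC f' hfm (by rw [e1]; exact hfin.ne)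
  have hHm := measurable_Hh h2
  have e2 : ∫⁻ x, gstar lam f x ^ p * ENNReal.ofReal (U x) =
      ∫⁻ x, Gst lam (Hh f') x ^ (p / 2) ∂(mU U) := by
    have h4 := lint_mU hU.meas MeasurableSet.univ
      (w := fun x => Gst lam (Hh f') x ^ (p / 2)) ((measurable_Gst hHm).pow_const _)
    simp only [Measure.restrict_univ] at h4
    rw [h4]
    refine lintegral_congr fun x => ?_
    rw [gstar_congr hff, gstar_eq h2, ← ENNReal.rpow_mul]
    congr 2
    ring
  rw [e2]
  calc _ ≤ C2 * ∫⁻ x, Ar 1 (Hh f') x ^ (p / 2) ∂(mU U) := hC2 _ hHm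
    _ ≤ C2 * (C * ∫⁻ x, ENNReal.ofReal |f' x| ^ p ∂(mU U)) := mul_le_mul' le_rfl h3
    _ = _ := by rw [e1]; push_cast; ring

end

theorem sufficiency {lam p : ℝ} (hlam : 0 < lam) (hp : 1 < p) (hp2 : p < 2) {U : ℝ → ℝ}
    (hU : Br.IsWt U) (hA : MemAp p U) (hB : Br.MemB (lam * p / 2) U) : Star lam p U := by
  by_cases hz : U =ᵐ[volume] 0
  · refine ⟨0, fun f _ _ => ?_⟩
    have : ∫⁻ x, gstar lam f x ^ p * ENNReal.ofReal (U x) = 0 := by
      have h1 : (fun x => gstar lam f x ^ p * ENNReal.ofReal (U x)) =ᵐ[volume] fun _ => 0 := by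
        filter_upwards [hz] with x hx
        rw [hx]; simp
      rw [lintegral_congr_ae h1, lintegral_zero]
    rw [this]; exact bot_le
  · exact suff_ne hp hp2 hU hA hz hlam hB

/-! ### weights that are only almost everywhere measurable -/

theorem exists_meas {U : ℝ → ℝ} (h0 : ∀ x, 0 ≤ U x) (hl : LocallyIntegrable U) :
    ∃ U' : ℝ → ℝ, Br.IsWt U' ∧ U =ᵐ[volume] U' := by
  have hm : AEMeasurable U := hl.aestronglyMeasurable.aemeasurable
  refine ⟨fun x => |hm.mk U x|, ⟨?_, ?_, ?_⟩, ?_⟩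
  · have := hm.measurable_mk
    fun_prop
  · exact fun x => abs_nonneg _
  · have hUU : U =ᵐ[volume] fun x => |hm.mk U x| := by
      filter_upwards [hm.ae_eq_mk] with x hx
      rw [← hx, abs_of_nonneg (h0 x)]
    intro x
    obtain ⟨s, hs, hi⟩ := hl x
    exact ⟨s, hs, hi.congr (ae_restrict_of_ae hUU)⟩
  · filter_upwards [hm.ae_eq_mk] with x hx
    rw [← hx, abs_of_nonneg (h0 x)]

theorem star_congr {lam p : ℝ} {U U' : ℝ → ℝ} (h : U =ᵐ[volume] U') (hs : Star lam p U) :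
    Star lam p U' := by
  obtain ⟨C, hC⟩ := hs
  refine ⟨C, fun f hf hfin => ?_⟩
  have e1 : ∫⁻ x, ENNReal.ofReal (|f x| ^ p * U x) = ∫⁻ x, ENNReal.ofReal (|f x| ^ p * U' x) := by
    refine lintegral_congr_ae ?_
    filter_upwards [h] with x hx
    rw [hx]
  have e2 : ∫⁻ x, gstar lam f x ^ p * ENNReal.ofReal (U x) =
      ∫⁻ x, gstar lam f x ^ p * ENNReal.ofReal (U' x) := by
    refine lintegral_congr_ae ?_
    filter_upwards [h] with x hx
    rw [hx]
  have := hC f hf (by rw [e1]; exact hfin)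
  rwa [e1, e2] at this

theorem memAp_congr {p : ℝ} {U U' : ℝ → ℝ} (h : U =ᵐ[volume] U') (hs : MemAp p U) :
    MemAp p U' := by
  obtain ⟨C, hC⟩ := hs
  refine ⟨C, fun a b hab => ?_⟩
  have e1 : ∫⁻ x in Ioo a b, ENNReal.ofReal (U x) = ∫⁻ x in Ioo a b, ENNReal.ofReal (U' x) := by
    refine lintegral_congr_ae (ae_restrict_of_ae ?_)
    filter_upwards [h] with x hx
    rw [hx]
  have e2 : ∫⁻ x in Ioo a b, ENNReal.ofReal (U x) ^ (-(1 / (p - 1))) =
      ∫⁻ x in Ioo a b, ENNReal.ofReal (U' x) ^ (-(1 / (p - 1))) := by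
    refine lintegral_congr_ae (ae_restrict_of_ae ?_)
    filter_upwards [h] with x hx
    rw [hx]
  have := hC a b hab
  rwa [e1, e2] at this

theorem memB_congr {r : ℝ} {U U' : ℝ → ℝ} (h : U =ᵐ[volume] U') (hs : Br.MemB r U) :
    Br.MemB r U' := by
  obtain ⟨C, hC⟩ := hs
  refine ⟨C, fun a b hab => ?_⟩
  have e1 : ∫⁻ x in Ioo a b, ENNReal.ofReal (U x) = ∫⁻ x in Ioo a b, ENNReal.ofReal (U' x) := by
    refine lintegral_congr_ae (ae_restrict_of_ae ?_)
    filter_upwards [h] with x hx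
    rw [hx]
  have e2 : ∫⁻ x, ENNReal.ofReal ((b - a) ^ (r - 1) * U x / ((b - a) ^ r + |x - (a + b) / 2| ^ r)) =
      ∫⁻ x, ENNReal.ofReal ((b - a) ^ (r - 1) * U' x / ((b - a) ^ r + |x - (a + b) / 2| ^ r)) := by
    refine lintegral_congr_ae ?_
    filter_upwards [h] with x hx
    rw [hx]
  have := hC a b hab
  rwa [e1, e2] at this

theorem main {lam p : ℝ} (hlam : 0 < lam) (hp : 1 < p) (hp2 : p < 2) {U : ℝ → ℝ}
    (h0 : ∀ x, 0 ≤ U x) (hl : LocallyIntegrable U) :
    (Star lam p U ↔ MemAp p U ∧ Br.MemB (lam * p / 2) U) ∧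
    (MemAp p U → ¬ U =ᵐ[volume] 0 → ∀ f : ℝ → ℝ, AEMeasurable f →
      ∫⁻ x, ENNReal.ofReal (|f x| ^ p * U x) < ⊤ → ∀ z y : ℝ, 0 < y →
        Integrable (fun x => y * f (z - x) / (x ^ 2 + y ^ 2))) := by
  obtain ⟨U', hU', hUU⟩ := exists_meas h0 hl
  refine ⟨⟨fun h => ?_, fun h => ?_⟩, fun hA hne f hf hfin z y hy => ?_⟩
  · have := necessity hlam hp hU' (star_congr hUU h)
    exact ⟨memAp_congr hUU.symm this.1, memB_congr hUU.symm this.2⟩
  · exact star_congr hUU.symm (sufficiency hlam hp hp2 hU' (memAp_congr hUU h.1) (memB_congr hUU h.2))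
  · refine conv_pois hp hp2 hU' (memAp_congr hUU hA) (fun h => hne (hUU.trans h)) hf ?_ z y hy
    refine lt_of_le_of_lt (le_of_eq ?_) hfin
    refine lintegral_congr_ae ?_
    filter_upwards [hUU] with x hx
    rw [hx]

end Pool.Agent.W755.Gl
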