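import Mathlib

set_option autoImplicit false

open MeasureTheory Filter Topology Set
open scoped ENNReal NNReal

namespace Pool.Agent.W755.Mz

/-- Truncated Hilbert transform `(1/π) ∫_{|y-x|>δ} f(y)/(x-y) dy`. -/
noncomputable def truncH (f : ℝ → ℝ) (δ x : ℝ) : ℝ :=
  (1 / Real.pi) * ∫ y in {y : ℝ | δ < |y - x|}, f y / (x - y)

open Classical in
/-- The Hilbert transform `Hf(x)`: the principal value, that is the limit of the truncations as
`δ ↓ 0`, where it exists (for integrable `f` this is almost everywhere), and `0` elsewhere. -/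
noncomputable def hilbert (f : ℝ → ℝ) (x : ℝ) : ℝ :=
  if h : ∃ v : ℝ, Tendsto (fun δ : ℝ => truncH f δ x) (𝓝[>] (0 : ℝ)) (𝓝 v) then h.choose else 0

/-- A weight: a measurable, locally integrable function with values in `[0,∞)`, not almost
everywhere zero. -/
structure IsWeight (U : ℝ → ℝ) : Prop where
  meas : Measurable U
  nonneg : ∀ x, 0 ≤ U x
  locInt : LocallyIntegrable U
  ne_zero : ¬ U =ᵐ[volume] 0

/-- `U` is admissible for the exponent `p`: there is a constant `C` with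
`∫ |Hf|^p U ≤ C ∫ |f|^p U` for all integrable `f` with `∫ f = 0`. -/
def Admissible (p : ℝ) (U : ℝ → ℝ) : Prop :=
  ∃ C : ℝ≥0, ∀ f : ℝ → ℝ, Integrable f → ∫ x, f x = 0 →
    ∫⁻ x, ENNReal.ofReal (|hilbert f x| ^ p) * ENNReal.ofReal (U x) ≤
      C * ∫⁻ x, ENNReal.ofReal (|f x| ^ p) * ENNReal.ofReal (U x)

/-- The Muckenhoupt condition `A_p`: the supremum over all bounded intervals `I` of
`(1/|I| ∫_I W) (1/|I| ∫_I W^{-1/(p-1)})^{p-1}` is finite (with `0^{-1/(p-1)} = ∞`). -/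
def MemAp (p : ℝ) (W : ℝ → ℝ) : Prop :=
  ∃ K : ℝ≥0, ∀ a b : ℝ, a < b →
    ((ENNReal.ofReal (b - a))⁻¹ * ∫⁻ x in Ioo a b, ENNReal.ofReal (W x)) *
      ((ENNReal.ofReal (b - a))⁻¹ *
        ∫⁻ x in Ioo a b, ENNReal.ofReal (W x) ^ (-(1 / (p - 1)))) ^ (p - 1) ≤ K

theorem hilbert_eq_of_tendsto {f : ℝ → ℝ} {x v : ℝ}
    (h : Tendsto (fun δ : ℝ => truncH f δ x) (𝓝[>] (0 : ℝ)) (𝓝 v)) : hilbert f x = v := by
  have h' : ∃ v : ℝ, Tendsto (fun δ : ℝ => truncH f δ x) (𝓝[>] (0 : ℝ)) (𝓝 v) := ⟨v, h⟩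
  unfold hilbert
  rw [dif_pos h']
  exact tendsto_nhds_unique h'.choose_spec h

theorem hilbert_eq_of_far {f : ℝ → ℝ} {x d : ℝ} (hd : 0 < d) (h : ∀ y, |y - x| ≤ d → f y = 0) :
    hilbert f x = (1 / Real.pi) * ∫ y, f y / (x - y) := by
  apply hilbert_eq_of_tendsto
  refine Tendsto.congr' ?_ tendsto_const_nhds
  have : Set.Ioo 0 d ∈ 𝓝[>] (0:ℝ) := Ioo_mem_nhdsGT hd
  filter_upwards [this] with δ hδ
  unfold truncH
  congr 1
  symm
  apply setIntegral_eq_integral_of_forall_compl_eq_zero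
  intro y hy
  have hy' : |y - x| ≤ δ := by
    by_contra hc
    exact hy (not_le.1 hc)
  rw [h y (hy'.trans hδ.2.le), zero_div]

end Pool.Agent.W755.Mz
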