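import Mathlib
import Pool.Agent.W755.MzDefs

set_option autoImplicit false

open MeasureTheory Filter Topology Set
open scoped ENNReal NNReal

namespace Pool.Agent.W755.Mz

/-- the dual weight `U^{-1/(p-1)}` with values in `[0,∞]` -/
noncomputable def ss (p : ℝ) (U : ℝ → ℝ) (x : ℝ) : ℝ≥0∞ := ENNReal.ofReal (U x) ^ (-(1 / (p - 1)))

theorem measurable_ss {p : ℝ} {U : ℝ → ℝ} (hU : Measurable U) : Measurable (ss p U) :=
  (hU.ennreal_ofReal).pow_const _

theorem ss_pos {p : ℝ} (hp : 1 < p) {U : ℝ → ℝ} (x : ℝ) : 0 < ss p U x := by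
  unfold ss
  rw [ENNReal.rpow_neg, ENNReal.inv_pos]
  exact (ENNReal.rpow_lt_top_of_nonneg (by have : 0 < p - 1 := by linarith
                                           positivity) ENNReal.ofReal_ne_top).ne

theorem ss_mul {p : ℝ} (hp : 1 < p) {U : ℝ → ℝ} (x : ℝ) :
    ss p U x ^ (p - 1) * ENNReal.ofReal (U x) ≤ 1 := by
  unfold ss
  have h1 : p - 1 ≠ 0 := by linarith
  rw [← ENNReal.rpow_mul]
  have : -(1 / (p - 1)) * (p - 1) = -1 := by field_simp
  rw [this, ENNReal.rpow_neg_one]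
  exact ENNReal.inv_mul_le_one _

/-- truncated dual weight, `[0,∞]`-valued -/
noncomputable def tE (p : ℝ) (U : ℝ → ℝ) (k : ℕ) (x : ℝ) : ℝ≥0∞ := min (k : ℝ≥0∞) (ss p U x)

/-- truncated dual weight, real valued -/
noncomputable def tk (p : ℝ) (U : ℝ → ℝ) (k : ℕ) (x : ℝ) : ℝ := (tE p U k x).toReal

theorem tE_ne_top {p : ℝ} {U : ℝ → ℝ} (k : ℕ) (x : ℝ) : tE p U k x ≠ ⊤ :=
  (lt_of_le_of_lt (min_le_left _ _) (ENNReal.natCast_lt_top k)).ne

theorem ofReal_tk {p : ℝ} {U : ℝ → ℝ} (k : ℕ) (x : ℝ) : ENNReal.ofReal (tk p U k x) = tE p U k x :=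
  ENNReal.ofReal_toReal (tE_ne_top k x)

theorem tk_nonneg {p : ℝ} {U : ℝ → ℝ} (k : ℕ) (x : ℝ) : 0 ≤ tk p U k x := ENNReal.toReal_nonneg

theorem tk_le {p : ℝ} {U : ℝ → ℝ} (k : ℕ) (x : ℝ) : tk p U k x ≤ k := by
  unfold tk tE
  have := ENNReal.toReal_mono (ENNReal.natCast_ne_top k) (min_le_left (k : ℝ≥0∞) (ss p U x))
  simpa using this

theorem measurable_tE {p : ℝ} {U : ℝ → ℝ} (hU : Measurable U) (k : ℕ) : Measurable (tE p U k) :=
  measurable_const.min (measurable_ss hU)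

theorem measurable_tk {p : ℝ} {U : ℝ → ℝ} (hU : Measurable U) (k : ℕ) : Measurable (tk p U k) :=
  (measurable_tE hU k).ennreal_toReal

theorem tE_pow {p : ℝ} (hp : 1 < p) {U : ℝ → ℝ} (k : ℕ) (x : ℝ) :
    tE p U k x ^ p * ENNReal.ofReal (U x) ≤ tE p U k x := by
  have h0 : ∀ z : ℝ≥0∞, z ^ p = z * z ^ (p - 1) := by
    intro z
    conv_lhs => rw [show p = 1 + (p - 1) by ring]
    rw [ENNReal.rpow_add_of_nonneg _ _ zero_le_one (by linarith), ENNReal.rpow_one]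
  have h1 : tE p U k x ^ p = tE p U k x * tE p U k x ^ (p - 1) := h0 _
  rw [h1, mul_assoc]
  calc tE p U k x * (tE p U k x ^ (p - 1) * ENNReal.ofReal (U x))
      ≤ tE p U k x * (ss p U x ^ (p - 1) * ENNReal.ofReal (U x)) := by
        have h3 : tE p U k x ≤ ss p U x := min_le_right _ _
        gcongr
    _ ≤ tE p U k x * 1 := by gcongr; exact ss_mul hp x
    _ = _ := mul_one _

theorem iSup_tE {p : ℝ} {U : ℝ → ℝ} (x : ℝ) : ⨆ k, tE p U k x = ss p U x := by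
  unfold tE
  apply le_antisymm
  · exact iSup_le fun k => min_le_right _ _
  · apply le_of_forall_lt
    intro c hc
    obtain ⟨k, hk⟩ := ENNReal.exists_nat_gt (ne_top_of_lt hc)
    exact lt_of_lt_of_le (lt_min hk hc) (le_iSup (fun k : ℕ => min (k : ℝ≥0∞) (ss p U x)) k)

theorem monotone_tE {p : ℝ} {U : ℝ → ℝ} (x : ℝ) : Monotone (fun k => tE p U k x) := by
  intro a b hab
  exact min_le_min_right _ (by exact_mod_cast hab)

theorem lintegral_ss {p : ℝ} {U : ℝ → ℝ} (hU : Measurable U) (w : ℝ → ℝ≥0∞) (hw : Measurable w)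
    (S : Set ℝ) : ∫⁻ x in S, w x * ss p U x = ⨆ k, ∫⁻ x in S, w x * tE p U k x := by
  rw [← lintegral_iSup]
  · congr 1
    ext x
    rw [← ENNReal.mul_iSup, iSup_tE]
  · intro k
    exact hw.mul (measurable_tE hU k)
  · intro a b hab x
    exact mul_le_mul_right (monotone_tE x hab) _

theorem lintegral_ss' {p : ℝ} {U : ℝ → ℝ} (hU : Measurable U)
    (S : Set ℝ) : ∫⁻ x in S, ss p U x = ⨆ k, ∫⁻ x in S, tE p U k x := by
  have := lintegral_ss hU (fun _ => (1 : ℝ≥0∞)) measurable_const S (p := p)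
  simpa using this

end Pool.Agent.W755.Mz
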