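import Mathlib
import Pool.Agent.W755.MzTest

set_option autoImplicit false

open MeasureTheory Filter Topology Set
open scoped ENNReal NNReal

namespace Pool.Agent.W755.Mz

theorem rpow_split {p : ℝ} (hp : 1 < p) (z : ℝ≥0∞) : z ^ p = z * z ^ (p - 1) := by
  conv_lhs => rw [show p = 1 + (p - 1) by ring]
  rw [ENNReal.rpow_add_of_nonneg _ _ zero_le_one (by linarith), ENNReal.rpow_one]

/-- the bound with one truncation level on each side -/
theorem gtl_step {p : ℝ} (hp : 1 < p) {U : ℝ → ℝ} (hU : Measurable U) (C : ℝ≥0)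
    (hC : ∀ f : ℝ → ℝ, Integrable f → ∫ x, f x = 0 →
      ∫⁻ x, ENNReal.ofReal (|hilbert f x| ^ p) * ENNReal.ofReal (U x) ≤
        C * ∫⁻ x, ENNReal.ofReal (|f x| ^ p) * ENNReal.ofReal (U x))
    {I J K : Set ℝ} (hI : MeasurableSet I) (hJ : MeasurableSet J) (hK : MeasurableSet K)
    {R : ℝ} (hIb : I ⊆ Icc (-R) R) (hJb : J ⊆ Icc (-R) R)
    {d : ℝ} (hd : 0 < d) (hKI : ∀ x ∈ K, ∀ y ∈ I, d < |y - x|) (hKJ : ∀ x ∈ K, ∀ y ∈ J, d < |y - x|)
    {κ θ : ℝ → ℝ} (hθm : Measurable θ) {B : ℝ} (hκ0 : ∀ x ∈ K, 0 ≤ κ x)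
    (hθ0 : ∀ y ∈ I, 0 ≤ θ y) (hθB : ∀ y ∈ I, θ y ≤ B)
    {σ : ℝ} (hσ : |σ| = 1)
    (hker : ∀ x ∈ K, ∀ y ∈ I, ∀ z ∈ J, κ x * θ y ≤ σ * (1 / (x - y) - 1 / (x - z)))
    (k k' : ℕ) (hJpos : 0 < ∫⁻ z in J, tE p U k' z) (A : ℝ≥0)
    (hA : ∫⁻ y in I, tE p U k y ≤ A * ∫⁻ z in J, tE p U k' z) :
    (∫⁻ x in K, ENNReal.ofReal (κ x) ^ p * ENNReal.ofReal (U x)) *
      (∫⁻ y in I, ENNReal.ofReal (θ y) ^ (p / (p - 1)) * tE p U k y) ^ (p - 1) ≤
      C * ENNReal.ofReal Real.pi ^ p * 2 ^ (p - 1) * (1 + (A : ℝ≥0∞) ^ (p - 1)) := by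
  classical
  have hp0 : 0 < p := by linarith
  have hp1 : 0 < p - 1 := by linarith
  set e : ℝ := 1 / (p - 1) with he
  have he0 : 0 < e := by positivity
  set f1 : ℝ → ℝ := I.indicator (fun y => tk p U k y * θ y ^ e) with hf1
  set g : ℝ → ℝ := J.indicator (tk p U k') with hg
  have hf1m : Measurable f1 := ((measurable_tk hU k).mul (hθm.pow_const e)).indicator hI
  have hgm : Measurable g := (measurable_tk hU k').indicator hJ
  have hf1nn : ∀ y, 0 ≤ f1 y := by
    intro y
    by_cases hy : y ∈ I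
    · rw [hf1, indicator_of_mem hy]
      exact mul_nonneg (tk_nonneg k y) (Real.rpow_nonneg (hθ0 y hy) _)
    · rw [hf1, indicator_of_notMem hy]
  have hgnn : ∀ y, 0 ≤ g y := by
    intro y
    by_cases hy : y ∈ J
    · rw [hg, indicator_of_mem hy]
      exact tk_nonneg k' y
    · rw [hg, indicator_of_notMem hy]
  -- integrability helper
  have hbdd : ∀ (h : ℝ → ℝ) (M : ℝ), Measurable h → (∀ y, ‖h y‖ ≤ M) →
      (∀ y, y ∉ Icc (-R) R → h y = 0) → Integrable h := by
    intro h M hm hM h0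
    have : Integrable ((Icc (-R) R).indicator (fun _ : ℝ => M)) := by
      rw [integrable_indicator_iff measurableSet_Icc]
      exact integrableOn_const (hs := by simp)
    refine this.mono' hm.aestronglyMeasurable ?_
    refine Eventually.of_forall fun y => ?_
    by_cases hy : y ∈ Icc (-R) R
    · rw [indicator_of_mem hy]; exact hM y
    · rw [indicator_of_notMem hy, h0 y hy, norm_zero]
  have hf1B : ∀ y, ‖f1 y‖ ≤ k * (max B 0) ^ e := by
    intro y
    rw [Real.norm_eq_abs, abs_of_nonneg (hf1nn y)]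
    by_cases hy : y ∈ I
    · rw [hf1, indicator_of_mem hy]
      have h1 : θ y ^ e ≤ (max B 0) ^ e :=
        Real.rpow_le_rpow (hθ0 y hy) ((hθB y hy).trans (le_max_left _ _)) he0.le
      exact mul_le_mul (tk_le k y) h1 (Real.rpow_nonneg (hθ0 y hy) _) (Nat.cast_nonneg k)
    · rw [hf1, indicator_of_notMem hy]; positivity
  have hgB : ∀ y, ‖g y‖ ≤ k' := by
    intro y
    rw [Real.norm_eq_abs, abs_of_nonneg (hgnn y)]
    by_cases hy : y ∈ J
    · rw [hg, indicator_of_mem hy]
      exact tk_le k' y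
    · rw [hg, indicator_of_notMem hy]; positivity
  have hf1z : ∀ y, y ∉ I → f1 y = 0 := fun y hy => by rw [hf1, indicator_of_notMem hy]
  have hgz : ∀ y, y ∉ J → g y = 0 := fun y hy => by rw [hg, indicator_of_notMem hy]
  have hf1i : Integrable f1 := hbdd f1 _ hf1m hf1B (fun y hy => hf1z y (fun h => hy (hIb h)))
  have hgi : Integrable g := hbdd g _ hgm hgB (fun y hy => hgz y (fun h => hy (hJb h)))
  set m : ℝ := ∫ y, f1 y with hm
  set mJ : ℝ := ∫ y, g y with hmJ
  set mE : ℝ≥0∞ := ∫⁻ y in I, tE p U k y * ENNReal.ofReal (θ y) ^ e with hmE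
  set JE : ℝ≥0∞ := ∫⁻ z in J, tE p U k' z with hJE
  set IE : ℝ≥0∞ := ∫⁻ y in I, tE p U k y with hIE
  set ME : ℝ≥0∞ := ∫⁻ y in I, ENNReal.ofReal (θ y) ^ (p / (p - 1)) * tE p U k y with hME
  have hof1 : ∀ y, ENNReal.ofReal (f1 y) = I.indicator (fun y => tE p U k y * ENNReal.ofReal (θ y) ^ e) y := by
    intro y
    by_cases hy : y ∈ I
    · rw [hf1, indicator_of_mem hy, indicator_of_mem hy, ENNReal.ofReal_mul (tk_nonneg k y), ofReal_tk,
        ENNReal.ofReal_rpow_of_nonneg (hθ0 y hy) he0.le]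
    · rw [hf1, indicator_of_notMem hy, indicator_of_notMem hy, ENNReal.ofReal_zero]
  have hog : ∀ y, ENNReal.ofReal (g y) = J.indicator (tE p U k') y := by
    intro y
    by_cases hy : y ∈ J
    · rw [hg, indicator_of_mem hy, indicator_of_mem hy, ofReal_tk]
    · rw [hg, indicator_of_notMem hy, indicator_of_notMem hy, ENNReal.ofReal_zero]
  have hmE' : ENNReal.ofReal m = mE := by
    rw [hm, ofReal_integral_eq_lintegral_ofReal hf1i (Eventually.of_forall hf1nn), hmE,
      ← lintegral_indicator hI]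
    exact lintegral_congr hof1
  have hJE' : ENNReal.ofReal mJ = JE := by
    rw [hmJ, ofReal_integral_eq_lintegral_ofReal hgi (Eventually.of_forall hgnn), hJE,
      ← lintegral_indicator hJ]
    exact lintegral_congr hog
  have hmJ0 : 0 < mJ := by
    rw [← ENNReal.ofReal_pos, hJE']; exact hJpos
  have hm0 : 0 ≤ m := integral_nonneg hf1nn
  have hJEt : JE ≠ ⊤ := by rw [← hJE']; exact ENNReal.ofReal_ne_top
  -- the function f1 * θ
  set M : ℝ := ∫ y, f1 y * θ y with hM
  have hf1θnn : ∀ y, 0 ≤ f1 y * θ y := by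
    intro y
    by_cases hy : y ∈ I
    · exact mul_nonneg (hf1nn y) (hθ0 y hy)
    · rw [hf1z y hy, zero_mul]
  have hf1θi : Integrable (fun y => f1 y * θ y) := by
    refine hbdd _ (k * (max B 0) ^ e * max B 0) (hf1m.mul hθm) ?_ ?_
    · intro y
      rw [Real.norm_eq_abs, abs_of_nonneg (hf1θnn y)]
      by_cases hy : y ∈ I
      · have := hf1B y
        rw [Real.norm_eq_abs, abs_of_nonneg (hf1nn y)] at this
        exact mul_le_mul this ((hθB y hy).trans (le_max_left _ _)) (hθ0 y hy) (by positivity)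
      · rw [hf1z y hy, zero_mul]; positivity
    · intro y hy
      rw [hf1z y (fun h => hy (hIb h)), zero_mul]
  have hMnn : 0 ≤ M := integral_nonneg hf1θnn
  have hee : e + 1 = p / (p - 1) := by rw [he]; field_simp; ring
  have hME' : ENNReal.ofReal M = ME := by
    rw [hM, ofReal_integral_eq_lintegral_ofReal hf1θi (Eventually.of_forall hf1θnn), hME,
      ← lintegral_indicator hI]
    refine lintegral_congr fun y => ?_
    by_cases hy : y ∈ I
    · rw [indicator_of_mem hy, ENNReal.ofReal_mul (hf1nn y), hof1, indicator_of_mem hy, ← hee,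
        ENNReal.rpow_add_of_nonneg _ _ he0.le zero_le_one, ENNReal.rpow_one]
      ring
    · rw [indicator_of_notMem hy, hf1z y hy, zero_mul, ENNReal.ofReal_zero]
  have hMEt : ME ≠ ⊤ := by rw [← hME']; exact ENNReal.ofReal_ne_top
  -- the test function
  set f : ℝ → ℝ := fun y => f1 y - (m / mJ) * g y with hf
  have hfi : Integrable f := hf1i.sub (hgi.const_mul _)
  have hf0 : ∫ y, f y = 0 := by
    rw [hf, integral_sub hf1i (hgi.const_mul _), integral_const_mul, ← hm, ← hmJ]
    field_simp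
    ring
  have hmain := hC f hfi hf0
  -- pointwise lower bound
  have hlow : ∀ x ∈ K, κ x * M ≤ Real.pi * |hilbert f x| := by
    intro x hx
    have hfar : ∀ y, |y - x| ≤ d → f y = 0 := by
      intro y hy
      have h1 : y ∉ I := fun h => absurd (hKI x hx y h) (not_lt.2 hy)
      have h2 : y ∉ J := fun h => absurd (hKJ x hx y h) (not_lt.2 hy)
      simp only [hf]
      rw [hf1z y h1, hgz y h2]; ring
    rw [hilbert_eq_of_far hd hfar]
    have hdiv : ∀ (h : ℝ → ℝ) (S : Set ℝ), Integrable h → Measurable h → (∀ y, y ∉ S → h y = 0) →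
        (∀ y ∈ S, d < |y - x|) → Integrable (fun y => h y / (x - y)) := by
      intro h S hi hmm hz hS
      refine Integrable.mono' (hi.norm.const_mul (1 / d)) ?_ ?_
      · exact (hmm.div (measurable_const.sub measurable_id)).aestronglyMeasurable
      · refine Eventually.of_forall fun y => ?_
        by_cases hy : y ∈ S
        · have h3 := hS y hy
          rw [norm_div, Real.norm_eq_abs (x - y), abs_sub_comm x y]
          rw [div_le_iff₀ (hd.trans h3)]
          calc ‖h y‖ = 1 / d * ‖h y‖ * d := by field_simp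
            _ ≤ 1 / d * ‖h y‖ * |y - x| := by gcongr
        · rw [hz y hy]; simp
    have i1 := hdiv f1 I hf1i hf1m hf1z (hKI x hx)
    have i2 := hdiv g J hgi hgm hgz (hKJ x hx)
    set G : ℝ := ∫ z, g z / (x - z) with hG
    set F : ℝ := ∫ y, f1 y / (x - y) with hF
    have e1 : ∫ y, f y / (x - y) = F - (m / mJ) * G := by
      rw [hF, hG, ← integral_const_mul, ← integral_sub i1 (i2.const_mul _)]
      refine integral_congr_ae (Eventually.of_forall fun y => ?_)
      simp only [hf]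
      ring
    rw [e1]
    -- for y in I
    have h1 : ∀ y ∈ I, κ x * θ y * mJ ≤ σ * (mJ / (x - y) - G) := by
      intro y hy
      have h2 : ∫ z, κ x * θ y * g z ≤ ∫ z, σ * (1 / (x - y) * g z - g z / (x - z)) := by
        refine integral_mono (hgi.const_mul _) (((hgi.const_mul _).sub i2).const_mul _) ?_
        intro z
        by_cases hz : z ∈ J
        · have h3 := hker x hx y hy z hz
          have h4 := mul_le_mul_of_nonneg_right h3 (hgnn z)
          calc κ x * θ y * g z ≤ _ := h4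
            _ = _ := by ring
        · show κ x * θ y * g z ≤ σ * (1 / (x - y) * g z - g z / (x - z))
          rw [hgz z hz]; simp
      rw [integral_const_mul, integral_const_mul, integral_sub (hgi.const_mul _) i2,
        integral_const_mul, ← hmJ, ← hG] at h2
      calc κ x * θ y * mJ ≤ _ := h2
        _ = _ := by ring
    have h2 : ∫ y, κ x * mJ * (f1 y * θ y) ≤ ∫ y, σ * (mJ * (f1 y / (x - y)) - G * f1 y) := by
      refine integral_mono (hf1θi.const_mul _) (((i1.const_mul _).sub (hf1i.const_mul _)).const_mul _) ?_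
      intro y
      by_cases hy : y ∈ I
      · have h4 := mul_le_mul_of_nonneg_right (h1 y hy) (hf1nn y)
        calc κ x * mJ * (f1 y * θ y) = κ x * θ y * mJ * f1 y := by ring
          _ ≤ _ := h4
          _ = _ := by ring
      · show κ x * mJ * (f1 y * θ y) ≤ σ * (mJ * (f1 y / (x - y)) - G * f1 y)
        rw [hf1z y hy]; simp
    rw [integral_const_mul, integral_const_mul, integral_sub (i1.const_mul _) (hf1i.const_mul _),
      integral_const_mul, integral_const_mul, ← hM, ← hF, ← hm] at h2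
    have h3 : κ x * M ≤ σ * (F - m / mJ * G) := by
      have : κ x * mJ * M = mJ * (κ x * M) := by ring
      have h4 : σ * (mJ * F - G * m) = mJ * (σ * (F - m / mJ * G)) := by field_simp
      rw [this, h4] at h2
      exact le_of_mul_le_mul_left h2 hmJ0
    calc κ x * M ≤ σ * (F - m / mJ * G) := h3
      _ ≤ |σ * (F - m / mJ * G)| := le_abs_self _
      _ = |F - m / mJ * G| := by rw [abs_mul, hσ, one_mul]
      _ = Real.pi * |1 / Real.pi * (F - m / mJ * G)| := by
          rw [abs_mul, abs_of_pos (by positivity : (0:ℝ) < 1 / Real.pi)]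
          field_simp
  -- left side
  have hL : (∫⁻ x in K, ENNReal.ofReal (κ x) ^ p * ENNReal.ofReal (U x)) * ME ^ p ≤
      ENNReal.ofReal Real.pi ^ p * ∫⁻ x, ENNReal.ofReal (|hilbert f x| ^ p) * ENNReal.ofReal (U x) := by
    have hMEpt : ME ^ p ≠ ⊤ := (ENNReal.rpow_lt_top_of_nonneg hp0.le hMEt).ne
    have hπt : ENNReal.ofReal Real.pi ^ p ≠ ⊤ :=
      (ENNReal.rpow_lt_top_of_nonneg hp0.le ENNReal.ofReal_ne_top).ne
    rw [← lintegral_mul_const' _ _ hMEpt, ← lintegral_const_mul' _ _ hπt]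
    refine (lintegral_mono_ae ?_).trans (setLIntegral_le_lintegral K _)
    rw [Filter.eventually_iff, mem_ae_iff]
    refine le_antisymm ?_ (bot_le)
    have : {x | ENNReal.ofReal (κ x) ^ p * ENNReal.ofReal (U x) * ME ^ p ≤ ENNReal.ofReal Real.pi ^ p *
        (ENNReal.ofReal (|hilbert f x| ^ p) * ENNReal.ofReal (U x))}ᶜ ⊆ Kᶜ := by
      intro x hx hxK
      apply hx
      show ENNReal.ofReal (κ x) ^ p * ENNReal.ofReal (U x) * ME ^ p ≤ ENNReal.ofReal Real.pi ^ p *
        (ENNReal.ofReal (|hilbert f x| ^ p) * ENNReal.ofReal (U x))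
      have h1 : ENNReal.ofReal (κ x) ^ p * ME ^ p ≤
          ENNReal.ofReal Real.pi ^ p * ENNReal.ofReal (|hilbert f x| ^ p) := by
        rw [← ENNReal.ofReal_rpow_of_nonneg (abs_nonneg _) hp0.le, ← hME',
          ← ENNReal.mul_rpow_of_nonneg _ _ hp0.le, ← ENNReal.mul_rpow_of_nonneg _ _ hp0.le,
          ← ENNReal.ofReal_mul (hκ0 x hxK), ← ENNReal.ofReal_mul Real.pi_pos.le]
        exact ENNReal.rpow_le_rpow (ENNReal.ofReal_le_ofReal (hlow x hxK)) hp0.le
      calc ENNReal.ofReal (κ x) ^ p * ENNReal.ofReal (U x) * ME ^ p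
          = (ENNReal.ofReal (κ x) ^ p * ME ^ p) * ENNReal.ofReal (U x) := by ring
        _ ≤ (ENNReal.ofReal Real.pi ^ p * ENNReal.ofReal (|hilbert f x| ^ p)) * ENNReal.ofReal (U x) := by
            gcongr
        _ = _ := by ring
    calc (volume.restrict K) _ ≤ (volume.restrict K) Kᶜ := measure_mono this
      _ = 0 := by rw [Measure.restrict_apply hK.compl]; simp
  -- right side
  have hR : ∫⁻ x, ENNReal.ofReal (|f x| ^ p) * ENNReal.ofReal (U x) ≤
      2 ^ (p - 1) * (ME + (mE / JE) ^ p * JE) := by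
    have hc0 : 0 ≤ m / mJ := by positivity
    have hcE : ENNReal.ofReal (m / mJ) = mE / JE := by
      rw [ENNReal.ofReal_div_of_pos hmJ0, hmE', hJE']
    have hpt : ∀ x, ENNReal.ofReal (|f x| ^ p) * ENNReal.ofReal (U x) ≤
        2 ^ (p - 1) * (I.indicator (fun y => ENNReal.ofReal (θ y) ^ (p / (p - 1)) * tE p U k y) x +
          (mE / JE) ^ p * J.indicator (tE p U k') x) := by
      intro x
      have h1 : ENNReal.ofReal (|f x| ^ p) ≤
          2 ^ (p - 1) * (ENNReal.ofReal (f1 x) ^ p + (ENNReal.ofReal (m / mJ) * ENNReal.ofReal (g x)) ^ p) := by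
        rw [← ENNReal.ofReal_rpow_of_nonneg (abs_nonneg _) hp0.le]
        refine le_trans ?_ (ENNReal.rpow_add_le_mul_rpow_add_rpow _ _ hp.le)
        refine ENNReal.rpow_le_rpow ?_ hp0.le
        rw [← ENNReal.ofReal_mul hc0, ← ENNReal.ofReal_add (hf1nn x) (mul_nonneg hc0 (hgnn x))]
        apply ENNReal.ofReal_le_ofReal
        simp only [hf]
        calc |f1 x - m / mJ * g x| ≤ |f1 x| + |m / mJ * g x| := abs_sub _ _
          _ = f1 x + m / mJ * g x := by
            rw [abs_of_nonneg (hf1nn x), abs_of_nonneg (mul_nonneg hc0 (hgnn x))]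
      have h2 : ENNReal.ofReal (f1 x) ^ p * ENNReal.ofReal (U x) ≤
          I.indicator (fun y => ENNReal.ofReal (θ y) ^ (p / (p - 1)) * tE p U k y) x := by
        by_cases hx : x ∈ I
        · rw [hof1, indicator_of_mem hx, indicator_of_mem hx, ENNReal.mul_rpow_of_nonneg _ _ hp0.le,
            ← ENNReal.rpow_mul]
          have : e * p = p / (p - 1) := by rw [he]; ring
          rw [this]
          calc tE p U k x ^ p * ENNReal.ofReal (θ x) ^ (p / (p - 1)) * ENNReal.ofReal (U x)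
              = ENNReal.ofReal (θ x) ^ (p / (p - 1)) * (tE p U k x ^ p * ENNReal.ofReal (U x)) := by ring
            _ ≤ _ := by gcongr; exact tE_pow hp k x
        · rw [hof1, indicator_of_notMem hx, indicator_of_notMem hx, ENNReal.zero_rpow_of_pos hp0, zero_mul]
      have h3 : ENNReal.ofReal (g x) ^ p * ENNReal.ofReal (U x) ≤ J.indicator (tE p U k') x := by
        by_cases hx : x ∈ J
        · rw [hog, indicator_of_mem hx]
          exact tE_pow hp k' x
        · rw [hog, indicator_of_notMem hx, ENNReal.zero_rpow_of_pos hp0, zero_mul]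
      calc ENNReal.ofReal (|f x| ^ p) * ENNReal.ofReal (U x)
          ≤ 2 ^ (p - 1) * (ENNReal.ofReal (f1 x) ^ p +
            (ENNReal.ofReal (m / mJ) * ENNReal.ofReal (g x)) ^ p) * ENNReal.ofReal (U x) := by gcongr
        _ = 2 ^ (p - 1) * (ENNReal.ofReal (f1 x) ^ p * ENNReal.ofReal (U x) +
            (mE / JE) ^ p * (ENNReal.ofReal (g x) ^ p * ENNReal.ofReal (U x))) := by
            rw [ENNReal.mul_rpow_of_nonneg _ _ hp0.le, hcE]; ring
        _ ≤ _ := by gcongr
    refine (lintegral_mono hpt).trans ?_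
    have h2t : (2:ℝ≥0∞) ^ (p - 1) ≠ ⊤ := (ENNReal.rpow_lt_top_of_nonneg hp1.le (by simp)).ne
    rw [lintegral_const_mul' _ _ h2t, lintegral_add_left, lintegral_indicator hI, ← hME]
    · gcongr
      rw [lintegral_const_mul]
      · rw [lintegral_indicator hJ]
      · exact (measurable_tE hU k').indicator hJ
    · exact ((hθm.ennreal_ofReal.pow_const _).mul (measurable_tE hU k)).indicator hI
  -- Hölder
  have hH : mE ^ p ≤ ME * IE ^ (p - 1) := by
    have hpq : p.HolderConjugate (p / (p - 1)) := Real.HolderConjugate.conjExponent hp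
    have h1 : mE ≤ (∫⁻ y in I, ((ENNReal.ofReal (θ y) ^ (p / (p - 1)) * tE p U k y) ^ (1 / p)) ^ p) ^ (1 / p) *
        (∫⁻ y in I, (tE p U k y ^ (1 / (p / (p - 1)))) ^ (p / (p - 1))) ^ (1 / (p / (p - 1))) := by
      have := ENNReal.lintegral_mul_le_Lp_mul_Lq (volume.restrict I) hpq
        (f := fun y => (ENNReal.ofReal (θ y) ^ (p / (p - 1)) * tE p U k y) ^ (1 / p))
        (g := fun y => tE p U k y ^ (1 / (p / (p - 1))))
        (((hθm.ennreal_ofReal.pow_const _).mul (measurable_tE hU k)).pow_const _).aemeasurable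
        ((measurable_tE hU k).pow_const _).aemeasurable
      refine le_trans (le_of_eq ?_) this
      rw [hmE]
      refine lintegral_congr fun y => ?_
      simp only [Pi.mul_apply]
      rw [ENNReal.mul_rpow_of_nonneg _ _ (by positivity), ← ENNReal.rpow_mul]
      have e1 : p / (p - 1) * (1 / p) = e := by rw [he]; field_simp
      rw [e1, mul_assoc, ← ENNReal.rpow_add_of_nonneg _ _ (by positivity) (by positivity)]
      have e2 : 1 / p + 1 / (p / (p - 1)) = 1 := by field_simp; ring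
      rw [e2, ENNReal.rpow_one, mul_comm]
    have s1 : ∀ y, ((ENNReal.ofReal (θ y) ^ (p / (p - 1)) * tE p U k y) ^ (1 / p)) ^ p =
        ENNReal.ofReal (θ y) ^ (p / (p - 1)) * tE p U k y := by
      intro y
      rw [← ENNReal.rpow_mul, one_div_mul_cancel hp0.ne', ENNReal.rpow_one]
    have s2 : ∀ y, (tE p U k y ^ (1 / (p / (p - 1)))) ^ (p / (p - 1)) = tE p U k y := by
      intro y
      rw [← ENNReal.rpow_mul, one_div_mul_cancel (by positivity), ENNReal.rpow_one]
    simp only [s1, s2] at h1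
    rw [← hME, ← hIE] at h1
    calc mE ^ p ≤ (ME ^ (1 / p) * IE ^ (1 / (p / (p - 1)))) ^ p := ENNReal.rpow_le_rpow h1 hp0.le
      _ = ME * IE ^ (p - 1) := by
        rw [ENNReal.mul_rpow_of_nonneg _ _ hp0.le, ← ENNReal.rpow_mul, ← ENNReal.rpow_mul,
          one_div_mul_cancel hp0.ne', ENNReal.rpow_one]
        congr 2
        field_simp
  have hsecond : (mE / JE) ^ p * JE ≤ ME * (A : ℝ≥0∞) ^ (p - 1) := by
    rw [ENNReal.div_rpow_of_nonneg _ _ hp0.le, rpow_split hp JE]
    have hJp0 : JE ^ (p - 1) ≠ 0 := (ENNReal.rpow_pos hJpos hJEt).ne'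
    have hJpt : JE ^ (p - 1) ≠ ⊤ := (ENNReal.rpow_lt_top_of_nonneg hp1.le hJEt).ne
    calc mE ^ p / (JE * JE ^ (p - 1)) * JE = mE ^ p / JE ^ (p - 1) := by
          rw [div_eq_mul_inv, ENNReal.mul_inv (Or.inl hJpos.ne') (Or.inl hJEt), div_eq_mul_inv]
          calc mE ^ p * (JE⁻¹ * (JE ^ (p - 1))⁻¹) * JE = mE ^ p * (JE ^ (p - 1))⁻¹ * (JE⁻¹ * JE) := by ring
            _ = _ := by rw [ENNReal.inv_mul_cancel hJpos.ne' hJEt, mul_one]
      _ ≤ ME * IE ^ (p - 1) / JE ^ (p - 1) := by gcongr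
      _ ≤ ME * ((A : ℝ≥0∞) * JE) ^ (p - 1) / JE ^ (p - 1) := by gcongr
      _ = ME * (A : ℝ≥0∞) ^ (p - 1) := by
          rw [ENNReal.mul_rpow_of_nonneg _ _ hp1.le, ← mul_assoc, mul_div_assoc,
            ENNReal.div_self hJp0 hJpt, mul_one]
  have htotal : (∫⁻ x in K, ENNReal.ofReal (κ x) ^ p * ENNReal.ofReal (U x)) * ME ^ p ≤
      C * ENNReal.ofReal Real.pi ^ p * 2 ^ (p - 1) * (1 + (A : ℝ≥0∞) ^ (p - 1)) * ME := by
    calc (∫⁻ x in K, ENNReal.ofReal (κ x) ^ p * ENNReal.ofReal (U x)) * ME ^ p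
        ≤ ENNReal.ofReal Real.pi ^ p * (C * (2 ^ (p - 1) * (ME + (mE / JE) ^ p * JE))) :=
          hL.trans (by gcongr; exact hmain.trans (by gcongr))
      _ ≤ ENNReal.ofReal Real.pi ^ p * (C * (2 ^ (p - 1) * (ME + ME * (A : ℝ≥0∞) ^ (p - 1)))) := by
          gcongr
      _ = _ := by ring
  rcases eq_or_ne ME 0 with h0 | h0
  · rw [h0, ENNReal.zero_rpow_of_pos hp1, mul_zero]; exact bot_le
  · rw [rpow_split hp ME] at htotal
    have : (∫⁻ x in K, ENNReal.ofReal (κ x) ^ p * ENNReal.ofReal (U x)) * ME ^ (p - 1) * ME ≤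
        C * ENNReal.ofReal Real.pi ^ p * 2 ^ (p - 1) * (1 + (A : ℝ≥0∞) ^ (p - 1)) * ME := by
      calc _ = (∫⁻ x in K, ENNReal.ofReal (κ x) ^ p * ENNReal.ofReal (U x)) * (ME * ME ^ (p - 1)) := by ring
        _ ≤ _ := htotal
    exact (ENNReal.mul_le_mul_iff_left h0 hMEt).1 this

end Pool.Agent.W755.Mz
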