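import Mathlib
import Pool.Agent.W755.MzGtl

set_option autoImplicit false

open MeasureTheory Filter Topology Set
open scoped ENNReal NNReal

namespace Pool.Agent.W755.Mz

/-- admissibility with constant `C` -/
def AdmC (p : ℝ) (U : ℝ → ℝ) (C : ℝ≥0) : Prop :=
  ∀ f : ℝ → ℝ, Integrable f → ∫ x, f x = 0 →
      ∫⁻ x, ENNReal.ofReal (|hilbert f x| ^ p) * ENNReal.ofReal (U x) ≤
        C * ∫⁻ x, ENNReal.ofReal (|f x| ^ p) * ENNReal.ofReal (U x)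

/-- the measure `U dx` -/
noncomputable def mU (U : ℝ → ℝ) : Measure ℝ := volume.withDensity (fun x => ENNReal.ofReal (U x))

/-- the measure `U^{-1/(p-1)} dx` -/
noncomputable def mS (p : ℝ) (U : ℝ → ℝ) : Measure ℝ := volume.withDensity (ss p U)

theorem mU_apply {U : ℝ → ℝ} {S : Set ℝ} (hS : MeasurableSet S) :
    mU U S = ∫⁻ x in S, ENNReal.ofReal (U x) := withDensity_apply _ hS

theorem mS_apply {p : ℝ} {U : ℝ → ℝ} {S : Set ℝ} (hS : MeasurableSet S) :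
    mS p U S = ∫⁻ x in S, ss p U x := withDensity_apply _ hS

theorem lint_mU {U : ℝ → ℝ} (hU : Measurable U) {S : Set ℝ} (hS : MeasurableSet S) {w : ℝ → ℝ≥0∞}
    (hw : Measurable w) : ∫⁻ x in S, w x ∂(mU U) = ∫⁻ x in S, w x * ENNReal.ofReal (U x) := by
  unfold mU
  rw [setLIntegral_withDensity_eq_setLIntegral_mul _ hU.ennreal_ofReal hw hS]
  exact lintegral_congr fun x => by rw [Pi.mul_apply, mul_comm]

theorem lint_mS {p : ℝ} {U : ℝ → ℝ} (hU : Measurable U) {S : Set ℝ} (hS : MeasurableSet S)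
    {w : ℝ → ℝ≥0∞} (hw : Measurable w) : ∫⁻ x in S, w x ∂(mS p U) = ∫⁻ x in S, w x * ss p U x := by
  unfold mS
  rw [setLIntegral_withDensity_eq_setLIntegral_mul _ (measurable_ss hU) hw hS]
  exact lintegral_congr fun x => by rw [Pi.mul_apply, mul_comm]

/-- the constant -/
noncomputable def cst (p : ℝ) (C A : ℝ≥0) : ℝ≥0∞ :=
  C * ENNReal.ofReal Real.pi ^ p * 2 ^ (p - 1) * (1 + ((2 * A : ℝ≥0) : ℝ≥0∞) ^ (p - 1))

theorem cst_ne_top {p : ℝ} (hp : 1 < p) (C A : ℝ≥0) : cst p C A ≠ ⊤ := by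
  unfold cst
  have h1 : ENNReal.ofReal Real.pi ^ p ≠ ⊤ :=
    (ENNReal.rpow_lt_top_of_nonneg (by linarith) ENNReal.ofReal_ne_top).ne
  have h2 : (2 : ℝ≥0∞) ^ (p - 1) ≠ ⊤ := (ENNReal.rpow_lt_top_of_nonneg (by linarith) (by simp)).ne
  have h3 : ((2 * A : ℝ≥0) : ℝ≥0∞) ^ (p - 1) ≠ ⊤ :=
    (ENNReal.rpow_lt_top_of_nonneg (by linarith) ENNReal.coe_ne_top).ne
  exact ENNReal.mul_ne_top (ENNReal.mul_ne_top (ENNReal.mul_ne_top ENNReal.coe_ne_top h1) h2)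
    (ENNReal.add_ne_top.2 ⟨ENNReal.one_ne_top, h3⟩)

theorem gtl {p : ℝ} (hp : 1 < p) {U : ℝ → ℝ} (hU : Measurable U) {C : ℝ≥0}
    (hC : AdmC p U C)
    {I J K : Set ℝ} (hI : MeasurableSet I) (hJ : MeasurableSet J) (hK : MeasurableSet K)
    {R : ℝ} (hIb : I ⊆ Icc (-R) R) (hJb : J ⊆ Icc (-R) R)
    {d : ℝ} (hd : 0 < d) (hKI : ∀ x ∈ K, ∀ y ∈ I, d < |y - x|) (hKJ : ∀ x ∈ K, ∀ y ∈ J, d < |y - x|)
    {κ θ : ℝ → ℝ} (hκm : Measurable κ) (hθm : Measurable θ) {B : ℝ} (hκ0 : ∀ x ∈ K, 0 ≤ κ x)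
    (hθ0 : ∀ y ∈ I, 0 ≤ θ y) (hθB : ∀ y ∈ I, θ y ≤ B)
    {σ : ℝ} (hσ : |σ| = 1)
    (hker : ∀ x ∈ K, ∀ y ∈ I, ∀ z ∈ J, κ x * θ y ≤ σ * (1 / (x - y) - 1 / (x - z)))
    (hJpos : 0 < volume J) {A : ℝ≥0} (hA0 : 0 < A) (hA : mS p U I ≤ A * mS p U J) :
    (∫⁻ x in K, ENNReal.ofReal (κ x) ^ p ∂(mU U)) *
      (∫⁻ y in I, ENNReal.ofReal (θ y) ^ (p / (p - 1)) ∂(mS p U)) ^ (p - 1) ≤ cst p C A := by
  have hp1 : 0 < p - 1 := by linarith
  have hm1 : Measurable (fun x => ENNReal.ofReal (κ x) ^ p) := hκm.ennreal_ofReal.pow_const _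
  have hm2 : Measurable (fun y => ENNReal.ofReal (θ y) ^ (p / (p - 1))) :=
    hθm.ennreal_ofReal.pow_const _
  rw [lint_mU hU hK hm1, lint_mS hU hI hm2]
  rw [mS_apply hI, mS_apply hJ] at hA
  have hSJ : 0 < ∫⁻ z in J, ss p U z := by
    rw [setLIntegral_pos_iff (measurable_ss hU)]
    have : Function.support (ss p U) = univ := by
      ext x
      simp [Function.mem_support, (ss_pos hp x).ne']
    rw [this, univ_inter]
    exact hJpos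
  have hAne : ((2 * A : ℝ≥0) : ℝ≥0∞) ≠ 0 := by
    rw [ENNReal.coe_ne_zero]
    exact (by positivity : (0:ℝ≥0) < 2 * A).ne'
  -- pick k'
  have hstep : ∀ k : ℕ, (∫⁻ x in K, ENNReal.ofReal (κ x) ^ p * ENNReal.ofReal (U x)) *
      (∫⁻ y in I, ENNReal.ofReal (θ y) ^ (p / (p - 1)) * tE p U k y) ^ (p - 1) ≤ cst p C A := by
    intro k
    have hIEt : ∫⁻ y in I, tE p U k y ≠ ⊤ := by
      have h1 : ∫⁻ y in I, tE p U k y ≤ ∫⁻ y in I, (k : ℝ≥0∞) :=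
        lintegral_mono fun y => min_le_left _ _
      have h2 : ∫⁻ y in I, (k : ℝ≥0∞) ≠ ⊤ := by
        rw [setLIntegral_const]
        refine ENNReal.mul_ne_top (ENNReal.natCast_ne_top k) ?_
        exact ((measure_mono hIb).trans_lt (by simp)).ne
      exact ne_top_of_le_ne_top h2 h1
    set x : ℝ≥0∞ := (∫⁻ y in I, tE p U k y) / ((2 * A : ℝ≥0) : ℝ≥0∞) with hx
    have hx2 : ((2 * A : ℝ≥0) : ℝ≥0∞) * x = ∫⁻ y in I, tE p U k y :=
      ENNReal.mul_div_cancel hAne ENNReal.coe_ne_top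
    have hxt : x ≠ ⊤ := ENNReal.div_ne_top hIEt hAne
    have hxlt : x < ∫⁻ z in J, ss p U z := by
      rcases eq_or_ne x 0 with h0 | h0
      · rw [h0]; exact hSJ
      · have h1 : (A : ℝ≥0∞) * (2 * x) ≤ A * ∫⁻ z in J, ss p U z := by
          calc (A : ℝ≥0∞) * (2 * x) = ((2 * A : ℝ≥0) : ℝ≥0∞) * x := by
                push_cast; ring
            _ = ∫⁻ y in I, tE p U k y := hx2
            _ ≤ ∫⁻ y in I, ss p U y := lintegral_mono fun y => min_le_right _ _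
            _ ≤ _ := hA
        have hAne' : (A : ℝ≥0∞) ≠ 0 := by rw [ENNReal.coe_ne_zero]; exact hA0.ne'
        have h2 : 2 * x ≤ ∫⁻ z in J, ss p U z :=
          (ENNReal.mul_le_mul_iff_right hAne' ENNReal.coe_ne_top).1 h1
        refine lt_of_lt_of_le ?_ h2
        rw [two_mul]
        exact ENNReal.lt_add_right hxt h0
    rw [lintegral_ss' hU, lt_iSup_iff] at hxlt
    obtain ⟨k', hk'⟩ := hxlt
    have hle : ∫⁻ y in I, tE p U k y ≤ ((2 * A : ℝ≥0) : ℝ≥0∞) * ∫⁻ z in J, tE p U k' z := by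
      rw [← hx2]; gcongr
    exact gtl_step hp hU C hC hI hJ hK hIb hJb hd hKI hKJ hθm hκ0 hθ0 hθB hσ hker k k'
      (lt_of_le_of_lt bot_le hk') (2 * A) hle
  rw [lintegral_ss hU _ hm2]
  have : (⨆ k, ∫⁻ x in I, ENNReal.ofReal (θ x) ^ (p / (p - 1)) * tE p U k x) ^ (p - 1) =
      ⨆ k, (∫⁻ x in I, ENNReal.ofReal (θ x) ^ (p / (p - 1)) * tE p U k x) ^ (p - 1) :=
    OrderIso.map_iSup (ENNReal.orderIsoRpow (p - 1) hp1) _
  rw [this, ENNReal.mul_iSup]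
  exact iSup_le hstep

end Pool.Agent.W755.Mz
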