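import Mathlib
import Pool.Agent.W755.MzGtl2

set_option autoImplicit false

open MeasureTheory Filter Topology Set
open scoped ENNReal NNReal

namespace Pool.Agent.W755.Mz

/-- the test inequality with constant kernels -/
theorem gtl_const {p : ℝ} (hp : 1 < p) {U : ℝ → ℝ} (hU : Measurable U) {C : ℝ≥0}
    (hC : AdmC p U C)
    {I J K : Set ℝ} (hI : MeasurableSet I) (hJ : MeasurableSet J) (hK : MeasurableSet K)
    {R : ℝ} (hIb : I ⊆ Icc (-R) R) (hJb : J ⊆ Icc (-R) R)
    {d : ℝ} (hd : 0 < d) (hKI : ∀ x ∈ K, ∀ y ∈ I, d < |y - x|) (hKJ : ∀ x ∈ K, ∀ y ∈ J, d < |y - x|)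
    {κ : ℝ} (hκ0 : 0 ≤ κ)
    {σ : ℝ} (hσ : |σ| = 1)
    (hker : ∀ x ∈ K, ∀ y ∈ I, ∀ z ∈ J, κ ≤ σ * (1 / (x - y) - 1 / (x - z)))
    (hJpos : 0 < volume J) {A : ℝ≥0} (hA0 : 0 < A) (hA : mS p U I ≤ A * mS p U J) :
    ENNReal.ofReal κ ^ p * (mU U K * mS p U I ^ (p - 1)) ≤ cst p C A := by
  have h := gtl hp hU hC hI hJ hK hIb hJb hd hKI hKJ (κ := fun _ => κ) (θ := fun _ => 1)
    measurable_const measurable_const (B := 1) (fun _ _ => hκ0) (fun _ _ => zero_le_one)
    (fun _ _ => le_rfl) hσ (by intro x hx y hy z hz; rw [mul_one]; exact hker x hx y hy z hz) hJpos hA0 hA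
  simp only [ENNReal.ofReal_one, ENNReal.one_rpow, setLIntegral_const, one_mul] at h
  rw [← mul_assoc]
  exact h

theorem U_pos_ae {p : ℝ} (hp : 1 < p) {U : ℝ → ℝ} (hW : IsWeight U) {C : ℝ≥0}
    (hC : AdmC p U C) : ∀ᵐ x, 0 < U x := by
  by_contra hcon
  set Z : Set ℝ := {x | U x = 0} with hZ
  set P : Set ℝ := {x | 0 < U x} with hP
  have hZm : MeasurableSet Z := hW.meas (measurableSet_singleton 0)
  have hPm : MeasurableSet P := measurableSet_lt measurable_const hW.meas
  have hZpos : volume Z ≠ 0 := by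
    intro h0
    apply hcon
    rw [ae_iff]
    refine measure_mono_null ?_ h0
    intro x hx
    simp only [mem_setOf_eq, not_lt] at hx
    exact le_antisymm hx (hW.nonneg x)
  have hPpos : volume P ≠ 0 := by
    intro h0
    apply hW.ne_zero
    rw [Filter.EventuallyEq, ae_iff]
    refine measure_mono_null ?_ h0
    intro x hx
    simp only [mem_setOf_eq, Pi.zero_apply] at hx
    exact lt_of_le_of_ne (hW.nonneg x) (Ne.symm hx)
  obtain ⟨z1, hz1Z, hz1⟩ := exists_mem_forall_mem_nhdsWithin_pos_measure hZpos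
  have hZ1pos : volume (Z \ {z1}) ≠ 0 := by
    rw [measure_sdiff_null (measure_singleton z1)]
    exact hZpos
  obtain ⟨z2, hz2Z, hz2⟩ := exists_mem_forall_mem_nhdsWithin_pos_measure hZ1pos
  obtain ⟨x1, hx1P, hx1⟩ := exists_mem_forall_mem_nhdsWithin_pos_measure hPpos
  have h12 : z2 ≠ z1 := hz2Z.2
  have hx1z1 : x1 ≠ z1 := by
    intro h
    have h1 : 0 < U x1 := hx1P
    rw [h] at h1
    exact h1.ne' hz1Z
  have hx1z2 : x1 ≠ z2 := by
    intro h
    have h1 : 0 < U x1 := hx1P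
    rw [h] at h1
    exact h1.ne' hz2Z.1
  -- continuity of the kernel difference
  set F : ℝ × ℝ × ℝ → ℝ := fun q => 1 / (q.1 - q.2.1) - 1 / (q.1 - q.2.2) with hF
  have hFc : ContinuousAt F (x1, z1, z2) := by
    have a1 : ContinuousAt (fun q : ℝ × ℝ × ℝ => q.1 - q.2.1) (x1, z1, z2) := by fun_prop
    have a2 : ContinuousAt (fun q : ℝ × ℝ × ℝ => q.1 - q.2.2) (x1, z1, z2) := by fun_prop
    exact (continuousAt_const.div a1 (sub_ne_zero.2 hx1z1)).sub
      (continuousAt_const.div a2 (sub_ne_zero.2 hx1z2))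
  set v : ℝ := F (x1, z1, z2) with hv
  have hv0 : v ≠ 0 := by
    rw [hv, hF]
    simp only
    intro h
    rw [sub_eq_zero, one_div, one_div, inv_inj] at h
    apply h12
    linarith
  set σ : ℝ := if 0 < v then 1 else -1 with hσd
  have hσ : |σ| = 1 := by
    rw [hσd]; split_ifs <;> simp
  have hσv : σ * v = |v| := by
    rw [hσd]
    split_ifs with h
    · rw [one_mul, abs_of_pos h]
    · rw [abs_of_nonpos (not_lt.1 h)]; ring
  have hcont : ContinuousAt (fun q => σ * F q) (x1, z1, z2) := continuousAt_const.mul hFc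
  have hev : ∀ᶠ q in 𝓝 (x1, z1, z2), |v| / 2 < σ * F q := by
    have hlt : |v| / 2 < σ * F (x1, z1, z2) := by
      rw [← hv, hσv]
      have : 0 < |v| := abs_pos.2 hv0
      linarith
    exact hcont.eventually (lt_mem_nhds hlt)
  obtain ⟨ε, hε, hball⟩ := Metric.eventually_nhds_iff.1 hev
  set δ : ℝ := min ε (min (|x1 - z1| / 3) (|x1 - z2| / 3)) with hδ
  have hδ0 : 0 < δ := by
    have a1 : 0 < |x1 - z1| := abs_pos.2 (sub_ne_zero.2 hx1z1)
    have a2 : 0 < |x1 - z2| := abs_pos.2 (sub_ne_zero.2 hx1z2)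
    rw [hδ]
    positivity
  have hδε : δ ≤ ε := min_le_left _ _
  have hδ1 : δ ≤ |x1 - z1| / 3 := (min_le_right _ _).trans (min_le_left _ _)
  have hδ2 : δ ≤ |x1 - z2| / 3 := (min_le_right _ _).trans (min_le_right _ _)
  set K : Set ℝ := Metric.ball x1 δ ∩ P with hK
  set I : Set ℝ := Metric.ball z1 δ ∩ Z with hI
  set J : Set ℝ := Metric.ball z2 δ ∩ Z with hJ
  have hKm : MeasurableSet K := measurableSet_ball.inter hPm
  have hIm : MeasurableSet I := measurableSet_ball.inter hZm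
  have hJm : MeasurableSet J := measurableSet_ball.inter hZm
  have hKpos : 0 < volume K := hx1 _ (by rw [hK, inter_comm]; exact inter_mem_nhdsWithin _ (Metric.ball_mem_nhds _ hδ0))
  have hIpos : 0 < volume I := hz1 _ (by rw [hI, inter_comm]; exact inter_mem_nhdsWithin _ (Metric.ball_mem_nhds _ hδ0))
  have hJpos : 0 < volume J := by
    refine lt_of_lt_of_le (hz2 ((Z \ {z1}) ∩ Metric.ball z2 δ) (inter_mem_nhdsWithin _ (Metric.ball_mem_nhds _ hδ0))) ?_
    refine measure_mono ?_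
    rintro x ⟨h1, h2⟩
    exact ⟨h2, h1.1⟩
  have hTop : ∀ S : Set ℝ, MeasurableSet S → S ⊆ Z → 0 < volume S → mS p U S = ⊤ := by
    intro S hSm hSZ hS
    rw [mS_apply hSm]
    have : ∫⁻ x in S, ss p U x = ∫⁻ x in S, (⊤ : ℝ≥0∞) := by
      refine setLIntegral_congr_fun hSm fun x hx => ?_
      have hx0 : U x = 0 := hSZ hx
      unfold ss
      rw [hx0, ENNReal.ofReal_zero, ENNReal.zero_rpow_of_neg]
      have : 0 < p - 1 := by linarith
      have : 0 < 1 / (p - 1) := by positivity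
      linarith
    rw [this, setLIntegral_const, ENNReal.top_mul hS.ne']
  have hSI := hTop I hIm inter_subset_right hIpos
  have hSJ := hTop J hJm inter_subset_right hJpos
  obtain ⟨R, hR⟩ : ∃ R : ℝ, I ⊆ Icc (-R) R ∧ J ⊆ Icc (-R) R := by
    refine ⟨|z1| + |z2| + δ, ?_, ?_⟩
    · rintro x ⟨hx, -⟩
      rw [Metric.mem_ball, Real.dist_eq] at hx
      have h1 := abs_lt.1 hx
      have h2 := abs_le.1 (le_refl |z1|)
      have h3 := abs_nonneg z2
      constructor <;> linarith [h2.1, h2.2]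
    · rintro x ⟨hx, -⟩
      rw [Metric.mem_ball, Real.dist_eq] at hx
      have h1 := abs_lt.1 hx
      have h2 := abs_le.1 (le_refl |z2|)
      have h3 := abs_nonneg z1
      constructor <;> linarith [h2.1, h2.2]
  have hfar : ∀ z : ℝ, δ ≤ |x1 - z| / 3 → ∀ x ∈ K, ∀ y ∈ Metric.ball z δ, δ / 2 < |y - x| := by
    intro z hz x hx y hy
    have h1 := hx.1
    rw [Metric.mem_ball, Real.dist_eq] at h1 hy
    have h2 : |x1 - z| ≤ |x - x1| + |y - x| + |y - z| := by
      have : x1 - z = -(x - x1) + -(y - x) + (y - z) := by ring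
      rw [this]
      refine (abs_add_le _ _).trans ?_
      gcongr
      refine (abs_add_le _ _).trans ?_
      rw [abs_neg, abs_neg]
    linarith
  have hmain := gtl_const hp hW.meas hC hIm hJm hKm hR.1 hR.2 (d := δ / 2) (by positivity)
    (fun x hx y hy => hfar z1 hδ1 x hx y hy.1) (fun x hx y hy => hfar z2 hδ2 x hx y hy.1)
    (κ := |v| / 2) (by positivity) hσ
    (by
      intro x hx y hy z hz
      have : dist (x, y, z) (x1, z1, z2) < ε := by
        rw [Prod.dist_eq, Prod.dist_eq]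
        have h1 : dist x x1 < ε := lt_of_lt_of_le hx.1 hδε
        have h2 : dist y z1 < ε := lt_of_lt_of_le hy.1 hδε
        have h3 : dist z z2 < ε := lt_of_lt_of_le hz.1 hδε
        exact max_lt h1 (max_lt h2 h3)
      exact (hball this).le)
    hJpos (A := 1) one_pos (by rw [hSI, hSJ]; simp)
  rw [hSI, ENNReal.top_rpow_of_pos (by linarith)] at hmain
  have hUK : mU U K ≠ 0 := by
    rw [mU_apply hKm]
    have : 0 < ∫⁻ x in K, ENNReal.ofReal (U x) := by
      rw [setLIntegral_pos_iff hW.meas.ennreal_ofReal]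
      have : Function.support (fun x => ENNReal.ofReal (U x)) ∩ K = K := by
        apply inter_eq_right.2
        rintro x ⟨-, hx⟩
        rw [Function.mem_support]
        exact (ENNReal.ofReal_pos.2 hx).ne'
      rw [this]
      exact hKpos
    exact this.ne'
  have hk0 : ENNReal.ofReal (|v| / 2) ^ p ≠ 0 := by
    have : 0 < |v| := abs_pos.2 hv0
    exact (ENNReal.rpow_pos (ENNReal.ofReal_pos.2 (by positivity)) ENNReal.ofReal_ne_top).ne'
  rw [ENNReal.mul_top hUK, ENNReal.mul_top hk0] at hmain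
  exact cst_ne_top hp C 1 (top_le_iff.1 hmain)

/-- Hölder: `|S|^p ≤ u(S) σ(S)^{p-1}` -/
theorem holder_w {p : ℝ} (hp : 1 < p) {U : ℝ → ℝ} (hU : Measurable U) (hpos : ∀ᵐ x, 0 < U x)
    {S : Set ℝ} (hS : MeasurableSet S) : volume S ^ p ≤ mU U S * mS p U S ^ (p - 1) := by
  have hp0 : 0 < p := by linarith
  have hp1 : 0 < p - 1 := by linarith
  rw [mU_apply hS, mS_apply hS]
  have hpq : p.HolderConjugate (p / (p - 1)) := Real.HolderConjugate.conjExponent hp
  have h1 : volume S ≤ (∫⁻ y in S, (ENNReal.ofReal (U y) ^ (1 / p)) ^ p) ^ (1 / p) *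
      (∫⁻ y in S, (ss p U y ^ (1 / (p / (p - 1)))) ^ (p / (p - 1))) ^ (1 / (p / (p - 1))) := by
    have := ENNReal.lintegral_mul_le_Lp_mul_Lq (volume.restrict S) hpq
      (f := fun y => ENNReal.ofReal (U y) ^ (1 / p))
      (g := fun y => ss p U y ^ (1 / (p / (p - 1))))
      (hU.ennreal_ofReal.pow_const _).aemeasurable
      ((measurable_ss hU).pow_const _).aemeasurable
    refine le_trans (le_of_eq ?_) this
    have h2 : volume S = ∫⁻ x in S, (1 : ℝ≥0∞) := by simp
    rw [h2]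
    refine lintegral_congr_ae ?_
    refine ae_restrict_of_ae ?_
    filter_upwards [hpos] with x hx
    simp only [Pi.mul_apply]
    unfold ss
    rw [← ENNReal.rpow_mul]
    have e1 : -(1 / (p - 1)) * (1 / (p / (p - 1))) = -(1 / p) := by field_simp
    rw [e1, ← ENNReal.rpow_add _ _ (ENNReal.ofReal_pos.2 hx).ne' ENNReal.ofReal_ne_top]
    simp
  have s1 : ∀ y, (ENNReal.ofReal (U y) ^ (1 / p)) ^ p = ENNReal.ofReal (U y) := by
    intro y
    rw [← ENNReal.rpow_mul, one_div_mul_cancel hp0.ne', ENNReal.rpow_one]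
  have s2 : ∀ y, (ss p U y ^ (1 / (p / (p - 1)))) ^ (p / (p - 1)) = ss p U y := by
    intro y
    rw [← ENNReal.rpow_mul, one_div_mul_cancel (by positivity), ENNReal.rpow_one]
  simp only [s1, s2] at h1
  calc volume S ^ p ≤ _ := ENNReal.rpow_le_rpow h1 hp0.le
    _ = _ := by
      rw [ENNReal.mul_rpow_of_nonneg _ _ hp0.le, ← ENNReal.rpow_mul, ← ENNReal.rpow_mul,
        one_div_mul_cancel hp0.ne', ENNReal.rpow_one]
      congr 2
      field_simp

end Pool.Agent.W755.Mz
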