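import Mathlib
import Pool.Agent.W755.MzLoc

set_option autoImplicit false

open MeasureTheory Filter Topology Set
open scoped ENNReal NNReal

namespace Pool.Agent.W755.Mz

theorem rp_ne_zero {p x : ℝ} (hx : 0 < x) : ENNReal.ofReal x ^ p ≠ 0 :=
  (ENNReal.rpow_pos (ENNReal.ofReal_pos.2 hx) ENNReal.ofReal_ne_top).ne'

theorem rp_ne_top {p x : ℝ} (hx : 0 < x) : ENNReal.ofReal x ^ p ≠ ⊤ := by
  rw [ENNReal.ofReal_rpow_of_pos hx]
  exact ENNReal.ofReal_ne_top

/-- the local bound -/
theorem N1 {p : ℝ} (hp : 1 < p) {U : ℝ → ℝ} (hW : IsWeight U) {C : ℝ≥0} (hC : AdmC p U C)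
    {A : ℝ≥0} (hA0 : 0 < A) :
    ∃ Q : ℝ≥0, ∀ a r : ℝ, 0 < r → ∀ J : Set ℝ, MeasurableSet J → (∃ R : ℝ, J ⊆ Icc (-R) R) →
      0 < volume J → (∀ z ∈ J, 10 * r ≤ |z - a|) →
      mS p U (Ioo (a - 10 * r) (a + 10 * r)) ≤ A * mS p U J →
      mU U (Ioo a (a + r)) * mS p U (Ioo a (a + r)) ^ (p - 1) ≤ Q * ENNReal.ofReal r ^ p := by
  have hp0 : 0 < p := by linarith
  have hpos := U_pos_ae hp hW hC
  set c : ℝ≥0∞ := cst p C A with hc
  have hct : c ≠ ⊤ := cst_ne_top hp C A
  set s : ℝ≥0∞ := ENNReal.ofReal (1 / 6) ^ p with hs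
  have hs0 : s ≠ 0 := rp_ne_zero (by norm_num)
  have hst : s ≠ ⊤ := rp_ne_top (by norm_num)
  refine ⟨(c * c / (s * s)).toNNReal, ?_⟩
  have hQt : c * c / (s * s) ≠ ⊤ := ENNReal.div_ne_top (ENNReal.mul_ne_top hct hct) (mul_ne_zero hs0 hs0)
  rw [ENNReal.coe_toNNReal hQt]
  intro a r hr J hJm hJb hJpos hJd hA
  obtain ⟨R, hR⟩ := hJb
  set I : Set ℝ := Ioo a (a + r) with hI
  set I' : Set ℝ := Ioo (a + 2 * r) (a + 3 * r) with hI'
  set M : ℝ := R + |a| + 4 * r with hM
  have ha := abs_le.1 (le_refl |a|)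
  have hRJ : J ⊆ Icc (-M) M := by
    intro x hx
    have h := hR hx
    have h0 := abs_nonneg a
    exact ⟨by have := h.1; rw [hM]; linarith, by have := h.2; rw [hM]; linarith⟩
  have hR0 : 0 ≤ R := by
    obtain ⟨x, hx⟩ : J.Nonempty := nonempty_of_measure_ne_zero hJpos.ne'
    have h := hR hx
    linarith [h.1, h.2]
  have hRI : I ⊆ Icc (-M) M := by
    intro x hx
    exact ⟨by have := hx.1; rw [hM]; linarith [ha.1, ha.2], by have := hx.2; rw [hM]; linarith [ha.1, ha.2]⟩
  have hRI' : I' ⊆ Icc (-M) M := by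
    intro x hx
    exact ⟨by have := hx.1; rw [hM]; linarith [ha.1, ha.2], by have := hx.2; rw [hM]; linarith [ha.1, ha.2]⟩
  have hIA : mS p U I ≤ A * mS p U J := (measure_mono (by
    intro x hx; exact ⟨by linarith [hx.1], by linarith [hx.2]⟩)).trans hA
  have hIA' : mS p U I' ≤ A * mS p U J := (measure_mono (by
    intro x hx; exact ⟨by linarith [hx.1], by linarith [hx.2]⟩)).trans hA
  -- position of J
  have hJpos' : ∀ z ∈ J, z ≤ a - 10 * r ∨ a + 10 * r ≤ z := by
    intro z hz
    have := hJd z hz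
    rcases le_abs.1 this with h | h
    · right; linarith
    · left; linarith
  have hsix : ENNReal.ofReal (1 / (6 * r)) ^ p * ENNReal.ofReal r ^ p = s := by
    rw [hs, ← ENNReal.mul_rpow_of_nonneg _ _ hp0.le, ← ENNReal.ofReal_mul (by positivity)]
    congr 2
    field_simp
  set ρ : ℝ≥0∞ := ENNReal.ofReal r ^ p with hρ
  set k : ℝ≥0∞ := ENNReal.ofReal (1 / (6 * r)) ^ p with hk
  -- first test
  have t1 : k * (mU U I' * mS p U I ^ (p - 1)) ≤ c := by
    refine gtl_const hp hW.meas hC measurableSet_Ioo hJm measurableSet_Ioo hRI hRJ (d := r / 2)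
      (by positivity) ?_ ?_ (κ := 1 / (6 * r)) (by positivity) (σ := 1) (by simp) ?_ hJpos hA0 hIA
    · intro x hx y hy
      rw [abs_sub_comm, abs_of_pos (by linarith [hx.1, hy.2])]
      linarith [hx.1, hy.2]
    · intro x hx y hy
      rcases hJpos' y hy with h | h
      · rw [abs_sub_comm, abs_of_pos (by linarith [hx.1])]
        linarith [hx.1]
      · rw [abs_of_pos (by linarith [hx.2])]
        linarith [hx.2]
    · intro x hx y hy z hz
      rw [one_mul]
      have h1 : 1 / (3 * r) ≤ 1 / (x - y) := by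
        apply one_div_le_one_div_of_le
        · linarith [hx.1, hy.2]
        · linarith [hx.2, hy.1]
      have h2 : 1 / (x - z) ≤ 1 / (12 * r) := by
        rcases hJpos' z hz with h | h
        · apply one_div_le_one_div_of_le
          · positivity
          · linarith [hx.1]
        · have h3 : x - z < 0 := by linarith [hx.2]
          have h4 : 1 / (x - z) < 0 := one_div_neg.2 h3
          have h5 : 0 < 1 / (12 * r) := by positivity
          linarith
      have h3 : 1 / (3 * r) - 1 / (12 * r) = 1 / (4 * r) := by field_simp; norm_num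
      have h4 : 1 / (6 * r) ≤ 1 / (4 * r) := one_div_le_one_div_of_le (by positivity) (by linarith)
      linarith
  -- second test
  have t2 : k * (mU U I * mS p U I' ^ (p - 1)) ≤ c := by
    refine gtl_const hp hW.meas hC measurableSet_Ioo hJm measurableSet_Ioo hRI' hRJ (d := r / 2)
      (by positivity) ?_ ?_ (κ := 1 / (6 * r)) (by positivity) (σ := -1) (by simp) ?_ hJpos hA0 hIA'
    · intro x hx y hy
      rw [abs_of_pos (by linarith [hx.2, hy.1])]
      linarith [hx.2, hy.1]
    · intro x hx y hy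
      rcases hJpos' y hy with h | h
      · rw [abs_sub_comm, abs_of_pos (by linarith [hx.1])]
        linarith [hx.1]
      · rw [abs_of_pos (by linarith [hx.2])]
        linarith [hx.2]
    · intro x hx y hy z hz
      have h1 : 1 / (3 * r) ≤ 1 / (y - x) := by
        apply one_div_le_one_div_of_le
        · linarith [hx.2, hy.1]
        · linarith [hx.1, hy.2]
      have h1' : 1 / (x - y) = - (1 / (y - x)) := by
        rw [← neg_sub y x, one_div_neg_eq_neg_one_div]
      have h2 : -(1 / (9 * r)) ≤ 1 / (x - z) := by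
        rcases hJpos' z hz with h | h
        · have h3 : 0 < x - z := by linarith [hx.1]
          have h4 : 0 < 1 / (x - z) := one_div_pos.2 h3
          have h5 : 0 < 1 / (9 * r) := by positivity
          linarith
        · have h3 : 9 * r ≤ z - x := by linarith [hx.2]
          have h4 : 1 / (z - x) ≤ 1 / (9 * r) := one_div_le_one_div_of_le (by positivity) h3
          have h5 : 1 / (x - z) = - (1 / (z - x)) := by
            rw [← neg_sub z x, one_div_neg_eq_neg_one_div]
          rw [h5]; linarith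
      have h3 : 1 / (3 * r) - 1 / (9 * r) = 2 / (9 * r) := by field_simp; norm_num
      have h4 : 1 / (6 * r) ≤ 2 / (9 * r) := by
        rw [div_le_div_iff₀ (by positivity) (by positivity)]
        linarith
      rw [h1']
      linarith
  have t3 : ρ ≤ mU U I' * mS p U I' ^ (p - 1) := by
    have := holder_w hp hW.meas hpos (S := I') measurableSet_Ioo
    rw [hI', Real.volume_Ioo] at this
    have e : a + 3 * r - (a + 2 * r) = r := by ring
    rw [e] at this
    exact this
  have hρ0 : ρ ≠ 0 := rp_ne_zero hr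
  have hρt : ρ ≠ ⊤ := rp_ne_top hr
  set P : ℝ≥0∞ := mU U I * mS p U I ^ (p - 1) with hP
  have key : (s * s) * P ≤ (c * c) * ρ := by
    have h1 : k * k * (P * ρ) ≤ c * c := by
      calc k * k * (P * ρ) ≤ k * k * (P * (mU U I' * mS p U I' ^ (p - 1))) := by gcongr
        _ = (k * (mU U I' * mS p U I ^ (p - 1))) * (k * (mU U I * mS p U I' ^ (p - 1))) := by
            rw [hP]; ring
        _ ≤ c * c := by gcongr
    calc (s * s) * P = k * k * (P * ρ) * ρ := by rw [← hsix]; ring
      _ ≤ _ := by gcongr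
  calc P = (s * s) * P / (s * s) := by
        rw [mul_comm (s * s) P, ENNReal.mul_div_cancel_right (mul_ne_zero hs0 hs0)
          (ENNReal.mul_ne_top hst hst)]
    _ ≤ (c * c) * ρ / (s * s) := by gcongr
    _ = c * c / (s * s) * ρ := by rw [div_eq_mul_inv, div_eq_mul_inv]; ring

theorem rpow_add_le' {q : ℝ} (hq : 0 < q) (a b : ℝ≥0∞) : (a + b) ^ q ≤ 2 ^ q * (a ^ q + b ^ q) := by
  rcases le_total a b with h | h
  · calc (a + b) ^ q ≤ (2 * b) ^ q := ENNReal.rpow_le_rpow (by rw [two_mul]; gcongr) hq.le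
      _ = 2 ^ q * b ^ q := ENNReal.mul_rpow_of_nonneg _ _ hq.le
      _ ≤ _ := by gcongr; exact le_add_self
  · calc (a + b) ^ q ≤ (2 * a) ^ q := ENNReal.rpow_le_rpow (by rw [two_mul]; gcongr) hq.le
      _ = 2 ^ q * a ^ q := ENNReal.mul_rpow_of_nonneg _ _ hq.le
      _ ≤ _ := by gcongr; exact le_self_add

end Pool.Agent.W755.Mz
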