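import Mathlib
import Pool.Agent.W755.MzN1

set_option autoImplicit false

open MeasureTheory Filter Topology Set
open scoped ENNReal NNReal

namespace Pool.Agent.W755.Mz

/-- the annulus bound -/
theorem AL {p : ℝ} (hp : 1 < p) {U : ℝ → ℝ} (hW : IsWeight U) {C : ℝ≥0} (hC : AdmC p U C)
    {A : ℝ≥0} (hA0 : 0 < A) :
    ∃ Q : ℝ≥0, ∀ c η η' R : ℝ, 0 < η → 2 * η ≤ η' → η' < R / 4 → ∀ J : Set ℝ, MeasurableSet J →
      J ⊆ Ioo (c - η) (c + η) → 0 < volume J →
      mS p U (Ioo (c - 2 * R) (c + 2 * R)) ≤ A * mS p U J →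
      ((∫⁻ x in Ioo (c + η') (c + R / 4), ENNReal.ofReal |x - c| ^ (-p) ∂(mU U)) +
        (∫⁻ x in Ioo (c - R / 4) (c - η'), ENNReal.ofReal |x - c| ^ (-p) ∂(mU U))) *
      ((∫⁻ x in Ioo (c + η') (c + R / 4), ENNReal.ofReal |x - c| ^ (p / (p - 1)) ∂(mS p U)) +
        (∫⁻ x in Ioo (c - R / 4) (c - η'), ENNReal.ofReal |x - c| ^ (p / (p - 1)) ∂(mS p U))) ^ (p - 1)
        ≤ Q * ENNReal.ofReal R ^ p := by
  have hp0 : 0 < p := by linarith
  have hp1 : 0 < p - 1 := by linarith
  have hpos := U_pos_ae hp hW hC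
  set C0 : ℝ≥0∞ := cst p C A with hC0
  have hct : C0 ≠ ⊤ := cst_ne_top hp C A
  set q : ℝ≥0∞ := ENNReal.ofReal (1 / 4) ^ p with hq
  have hq0 : q ≠ 0 := rp_ne_zero (by norm_num)
  have hqt : q ≠ ⊤ := rp_ne_top (by norm_num)
  set s : ℝ≥0∞ := ENNReal.ofReal (1 / 18) ^ p with hs
  have hs0 : s ≠ 0 := rp_ne_zero (by norm_num)
  have hst : s ≠ ⊤ := rp_ne_top (by norm_num)
  have h2t : (2 : ℝ≥0∞) ^ (p - 1) ≠ ⊤ := (ENNReal.rpow_lt_top_of_nonneg hp1.le (by simp)).ne
  set c3 : ℝ≥0∞ := (2 * C0) * (2 ^ (p - 1) * (2 * C0)) with hc3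
  have hc3t : c3 ≠ ⊤ := ENNReal.mul_ne_top (ENNReal.mul_ne_top (by simp) hct)
    (ENNReal.mul_ne_top h2t (ENNReal.mul_ne_top (by simp) hct))
  have hQt : c3 / (q * s) ≠ ⊤ := ENNReal.div_ne_top hc3t (mul_ne_zero hq0 hs0)
  refine ⟨(c3 / (q * s)).toNNReal, ?_⟩
  rw [ENNReal.coe_toNNReal hQt]
  intro c η η' R hη hηη' hη'R J hJm hJs hJpos hA
  have hR : 0 < R := by linarith
  set T : Set ℝ := Ioo (c + R) (c + 2 * R) with hT
  set Np : Set ℝ := Ioo (c + η') (c + R / 4) with hNp
  set Nm : Set ℝ := Ioo (c - R / 4) (c - η') with hNm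
  set M : ℝ := |c| + 2 * R with hM
  have hcc := abs_le.1 (le_refl |c|)
  have hRT : T ⊆ Icc (-M) M := fun x hx =>
    ⟨by linarith [hx.1, hcc.1], by linarith [hx.2, hcc.2]⟩
  have hRNp : Np ⊆ Icc (-M) M := fun x hx =>
    ⟨by linarith [hx.1, hcc.1], by linarith [hx.2, hcc.2]⟩
  have hRNm : Nm ⊆ Icc (-M) M := fun x hx =>
    ⟨by linarith [hx.1, hcc.1], by linarith [hx.2, hcc.2]⟩
  have hRJ : J ⊆ Icc (-M) M := fun x hx =>
    ⟨by linarith [(hJs hx).1, hcc.1], by linarith [(hJs hx).2, hcc.2]⟩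
  have hTA : mS p U T ≤ A * mS p U J := (measure_mono (by
    intro x hx; exact ⟨by linarith [hx.1], by linarith [hx.2]⟩)).trans hA
  have hNpA : mS p U Np ≤ A * mS p U J := (measure_mono (by
    intro x hx; exact ⟨by linarith [hx.1], by linarith [hx.2]⟩)).trans hA
  have hNmA : mS p U Nm ≤ A * mS p U J := (measure_mono (by
    intro x hx; exact ⟨by linarith [hx.1], by linarith [hx.2]⟩)).trans hA
  have hmk : Measurable (fun x : ℝ => 1 / (4 * |x - c|)) := by fun_prop
  have hmt : Measurable (fun x : ℝ => |x - c|) := by fun_prop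
  -- rewriting of the kernel
  have hker4 : ∀ x : ℝ, x ≠ c → ENNReal.ofReal (1 / (4 * |x - c|)) ^ p =
      q * ENNReal.ofReal |x - c| ^ (-p) := by
    intro x hx
    have h0 : 0 < |x - c| := abs_pos.2 (sub_ne_zero.2 hx)
    rw [ENNReal.rpow_neg, ← ENNReal.inv_rpow, hq, ← ENNReal.mul_rpow_of_nonneg _ _ hp0.le,
      ← ENNReal.ofReal_inv_of_pos h0, ← ENNReal.ofReal_mul (by norm_num)]
    congr 2
    field_simp
  have hint4 : ∀ S : Set ℝ, MeasurableSet S → (∀ x ∈ S, x ≠ c) →
      ∫⁻ x in S, ENNReal.ofReal (1 / (4 * |x - c|)) ^ p ∂(mU U) =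
        q * ∫⁻ x in S, ENNReal.ofReal |x - c| ^ (-p) ∂(mU U) := by
    intro S hS hSc
    rw [← lintegral_const_mul' _ _ hqt]
    exact setLIntegral_congr_fun hS fun x hx => hker4 x (hSc x hx)
  set Xp : ℝ≥0∞ := ∫⁻ x in Np, ENNReal.ofReal |x - c| ^ (-p) ∂(mU U) with hXp
  set Xm : ℝ≥0∞ := ∫⁻ x in Nm, ENNReal.ofReal |x - c| ^ (-p) ∂(mU U) with hXm
  set Yp : ℝ≥0∞ := ∫⁻ x in Np, ENNReal.ofReal |x - c| ^ (p / (p - 1)) ∂(mS p U) with hYp
  set Ym : ℝ≥0∞ := ∫⁻ x in Nm, ENNReal.ofReal |x - c| ^ (p / (p - 1)) ∂(mS p U) with hYm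
  have t1p : q * Xp * mS p U T ^ (p - 1) ≤ C0 := by
    have h := gtl hp hW.meas hC (I := T) (J := J) (K := Np) measurableSet_Ioo hJm measurableSet_Ioo
      hRT hRJ (d := η / 2) (by positivity) ?_ ?_ (κ := fun x => 1 / (4 * |x - c|)) (θ := fun _ => 1)
      hmk measurable_const (B := 1) (fun _ _ => by positivity) (fun _ _ => zero_le_one)
      (fun _ _ => le_rfl) (σ := -1) (by simp) ?_ hJpos hA0 hTA
    · rw [hint4 Np measurableSet_Ioo (fun x hx => by
        have := hx.1
        intro h; rw [h] at this; linarith)] at h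
      simpa using h
    · intro x hx y hy
      rw [abs_of_pos (by linarith [hx.2, hy.1])]
      linarith [hx.2, hy.1]
    · intro x hx y hy
      have := hJs hy
      rw [abs_sub_comm, abs_of_pos (by linarith [hx.1, this.2])]
      linarith [hx.1, this.2]
    · intro x hx y hy z hz
      have h1 := hJs hz
      have h2 : 1 / (x - y) < 0 := one_div_neg.2 (by linarith [hx.2, hy.1])
      have h3 : |x - c| = x - c := abs_of_pos (by linarith [hx.1])
      have h4 : 1 / (4 * |x - c|) ≤ 1 / (x - z) := by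
        rw [h3]
        apply one_div_le_one_div_of_le
        · linarith [hx.1, h1.2]
        · linarith [hx.1, h1.1]
      simp only [mul_one]
      linarith
  have t1m : q * Xm * mS p U T ^ (p - 1) ≤ C0 := by
    have h := gtl hp hW.meas hC (I := T) (J := J) (K := Nm) measurableSet_Ioo hJm measurableSet_Ioo
      hRT hRJ (d := η / 2) (by positivity) ?_ ?_ (κ := fun x => 1 / (4 * |x - c|)) (θ := fun _ => 1)
      hmk measurable_const (B := 1) (fun _ _ => by positivity) (fun _ _ => zero_le_one)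
      (fun _ _ => le_rfl) (σ := 1) (by simp) ?_ hJpos hA0 hTA
    · rw [hint4 Nm measurableSet_Ioo (fun x hx => by
        have := hx.2
        intro h; rw [h] at this; linarith)] at h
      simpa using h
    · intro x hx y hy
      rw [abs_of_pos (by linarith [hx.2, hy.1])]
      linarith [hx.2, hy.1]
    · intro x hx y hy
      have := hJs hy
      rw [abs_of_pos (by linarith [hx.2, this.1])]
      linarith [hx.2, this.1]
    · intro x hx y hy z hz
      have h1 := hJs hz
      have h3 : |x - c| = c - x := by rw [abs_sub_comm]; exact abs_of_pos (by linarith [hx.2])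
      have h0 : 0 < c - x := by linarith [hx.2]
      have h4 : 2 / (3 * (c - x)) ≤ 1 / (z - x) := by
        rw [div_le_div_iff₀ (by positivity) (by linarith [hx.2, h1.1])]
        linarith [hx.2, h1.2]
      have h4' : 1 / (x - z) = - (1 / (z - x)) := by
        rw [← neg_sub z x, one_div_neg_eq_neg_one_div]
      have h5 : 1 / (y - x) ≤ 1 / (4 * (c - x)) := by
        apply one_div_le_one_div_of_le (by positivity)
        linarith [hx.1, hy.1]
      have h5' : 1 / (x - y) = - (1 / (y - x)) := by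
        rw [← neg_sub y x, one_div_neg_eq_neg_one_div]
      have h6 : 2 / (3 * (c - x)) - 1 / (4 * (c - x)) = 5 / (12 * (c - x)) := by field_simp; norm_num
      have h7 : 1 / (4 * (c - x)) ≤ 5 / (12 * (c - x)) := by
        rw [div_le_div_iff₀ (by positivity) (by positivity)]; linarith
      simp only [mul_one, one_mul]
      rw [h3, h4', h5']
      linarith
  set k : ℝ≥0∞ := ENNReal.ofReal (1 / (18 * R ^ 2)) ^ p with hk
  set ρ : ℝ≥0∞ := ENNReal.ofReal R ^ p with hρ
  have hρ0 : ρ ≠ 0 := rp_ne_zero hR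
  have hρt : ρ ≠ ⊤ := rp_ne_top hR
  have hkρ : k * ρ * ρ = s := by
    rw [hk, hρ, hs, ← ENNReal.mul_rpow_of_nonneg _ _ hp0.le, ← ENNReal.mul_rpow_of_nonneg _ _ hp0.le,
      ← ENNReal.ofReal_mul (by positivity), ← ENNReal.ofReal_mul (by positivity)]
    congr 2
    field_simp
  have t2p : k * mU U T * Yp ^ (p - 1) ≤ C0 := by
    have h := gtl hp hW.meas hC (I := Np) (J := J) (K := T) measurableSet_Ioo hJm measurableSet_Ioo
      hRNp hRJ (d := η / 2) (by positivity) ?_ ?_ (κ := fun x => 1 / (18 * R ^ 2))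
      (θ := fun x => |x - c|)
      measurable_const hmt (B := R) (fun _ _ => by positivity) (fun _ _ => abs_nonneg _)
      ?_ (σ := 1) (by simp) ?_ hJpos hA0 hNpA
    · rw [setLIntegral_const] at h
      exact h
    · intro x hx y hy
      rw [abs_sub_comm, abs_of_pos (by linarith [hx.1, hy.2])]
      linarith [hx.1, hy.2]
    · intro x hx y hy
      have := hJs hy
      rw [abs_sub_comm, abs_of_pos (by linarith [hx.1, this.2])]
      linarith [hx.1, this.2]
    · intro y hy
      rw [abs_of_pos (by linarith [hy.1])]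
      linarith [hy.2]
    · intro x hx y hy z hz
      have h1 := hJs hz
      have h3 : |y - c| = y - c := abs_of_pos (by linarith [hy.1])
      have hxy : 0 < x - y := by linarith [hx.1, hy.2]
      have hxz : 0 < x - z := by linarith [hx.1, h1.2]
      have e1 : 1 / (x - y) - 1 / (x - z) = (y - z) / ((x - y) * (x - z)) := by
        field_simp; ring
      have h5 : (x - y) * (x - z) ≤ 9 * R ^ 2 := by
        have a1 : x - y ≤ 3 * R := by linarith [hx.2, hy.1]
        have a2 : x - z ≤ 3 * R := by linarith [hx.2, h1.1]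
        calc (x - y) * (x - z) ≤ (3 * R) * (3 * R) := mul_le_mul a1 a2 hxz.le (by positivity)
          _ = _ := by ring
      have h6 : (y - c) / 2 ≤ y - z := by linarith [hy.1, h1.2]
      have h7 : 0 < y - c := by linarith [hy.1]
      rw [one_mul, e1, h3]
      calc 1 / (18 * R ^ 2) * (y - c) = ((y - c) / 2) / (9 * R ^ 2) := by field_simp; ring
        _ ≤ (y - z) / ((x - y) * (x - z)) := by
          apply div_le_div₀ (by linarith) h6 (by positivity) h5
  have t2m : k * mU U T * Ym ^ (p - 1) ≤ C0 := by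
    have h := gtl hp hW.meas hC (I := Nm) (J := J) (K := T) measurableSet_Ioo hJm measurableSet_Ioo
      hRNm hRJ (d := η / 2) (by positivity) ?_ ?_ (κ := fun x => 1 / (18 * R ^ 2))
      (θ := fun x => |x - c|)
      measurable_const hmt (B := R) (fun _ _ => by positivity) (fun _ _ => abs_nonneg _)
      ?_ (σ := -1) (by simp) ?_ hJpos hA0 hNmA
    · rw [setLIntegral_const] at h
      exact h
    · intro x hx y hy
      rw [abs_sub_comm, abs_of_pos (by linarith [hx.1, hy.2])]
      linarith [hx.1, hy.2]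
    · intro x hx y hy
      have := hJs hy
      rw [abs_sub_comm, abs_of_pos (by linarith [hx.1, this.2])]
      linarith [hx.1, this.2]
    · intro y hy
      rw [abs_sub_comm, abs_of_pos (by linarith [hy.2])]
      linarith [hy.1]
    · intro x hx y hy z hz
      have h1 := hJs hz
      have h3 : |y - c| = c - y := by rw [abs_sub_comm]; exact abs_of_pos (by linarith [hy.2])
      have hxy : 0 < x - y := by linarith [hx.1, hy.2]
      have hxz : 0 < x - z := by linarith [hx.1, h1.2]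
      have e1 : -1 * (1 / (x - y) - 1 / (x - z)) = (z - y) / ((x - y) * (x - z)) := by
        field_simp; ring
      have h5 : (x - y) * (x - z) ≤ 9 * R ^ 2 := by
        have a1 : x - y ≤ 3 * R := by linarith [hx.2, hy.1]
        have a2 : x - z ≤ 3 * R := by linarith [hx.2, h1.1]
        calc (x - y) * (x - z) ≤ (3 * R) * (3 * R) := mul_le_mul a1 a2 hxz.le (by positivity)
          _ = _ := by ring
      have h6 : (c - y) / 2 ≤ z - y := by linarith [hy.2, h1.1]
      have h7 : 0 < c - y := by linarith [hy.2]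
      rw [e1, h3]
      calc 1 / (18 * R ^ 2) * (c - y) = ((c - y) / 2) / (9 * R ^ 2) := by field_simp; ring
        _ ≤ (z - y) / ((x - y) * (x - z)) := by
          apply div_le_div₀ (by linarith) h6 (by positivity) h5
  have t3 : ρ ≤ mU U T * mS p U T ^ (p - 1) := by
    have := holder_w hp hW.meas hpos (S := T) measurableSet_Ioo
    rw [hT, Real.volume_Ioo] at this
    have e : c + 2 * R - (c + R) = R := by ring
    rw [e] at this
    exact this
  have t1 : q * (Xp + Xm) * mS p U T ^ (p - 1) ≤ 2 * C0 := by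
    calc q * (Xp + Xm) * mS p U T ^ (p - 1) = q * Xp * mS p U T ^ (p - 1) + q * Xm * mS p U T ^ (p - 1) := by
          ring
      _ ≤ C0 + C0 := by gcongr
      _ = _ := by ring
  have t2 : k * mU U T * (Yp + Ym) ^ (p - 1) ≤ 2 ^ (p - 1) * (2 * C0) := by
    calc k * mU U T * (Yp + Ym) ^ (p - 1) ≤ k * mU U T * (2 ^ (p - 1) * (Yp ^ (p - 1) + Ym ^ (p - 1))) := by
          gcongr; exact rpow_add_le' hp1 _ _
      _ = 2 ^ (p - 1) * (k * mU U T * Yp ^ (p - 1) + k * mU U T * Ym ^ (p - 1)) := by ring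
      _ ≤ 2 ^ (p - 1) * (C0 + C0) := by gcongr
      _ = _ := by ring
  set P : ℝ≥0∞ := (Xp + Xm) * (Yp + Ym) ^ (p - 1) with hP
  have key : (q * s) * P ≤ c3 * ρ := by
    have h1 : q * k * P * ρ ≤ c3 := by
      calc q * k * P * ρ ≤ q * k * P * (mU U T * mS p U T ^ (p - 1)) := by gcongr
        _ = (q * (Xp + Xm) * mS p U T ^ (p - 1)) * (k * mU U T * (Yp + Ym) ^ (p - 1)) := by
            rw [hP]; ring
        _ ≤ c3 := by rw [hc3]; gcongr
    calc (q * s) * P = q * k * P * ρ * ρ := by rw [← hkρ]; ring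
      _ ≤ _ := by gcongr
  calc P = (q * s) * P / (q * s) := by
        rw [mul_comm (q * s) P, ENNReal.mul_div_cancel_right (mul_ne_zero hq0 hs0)
          (ENNReal.mul_ne_top hqt hst)]
    _ ≤ c3 * ρ / (q * s) := by gcongr
    _ = c3 / (q * s) * ρ := by rw [div_eq_mul_inv, div_eq_mul_inv]; ring

end Pool.Agent.W755.Mz
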