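import Mathlib
import Pool.Agent.W755.MzAL

set_option autoImplicit false

open MeasureTheory Filter Topology Set
open scoped ENNReal NNReal

namespace Pool.Agent.W755.Mz

theorem memAp_of {p : ℝ} (hp : 1 < p) {W : ℝ → ℝ} (Q : ℝ≥0)
    (h : ∀ a r : ℝ, 0 < r → (∫⁻ x in Ioo a (a + r), ENNReal.ofReal (W x)) *
      (∫⁻ x in Ioo a (a + r), ENNReal.ofReal (W x) ^ (-(1 / (p - 1)))) ^ (p - 1) ≤
      Q * ENNReal.ofReal r ^ p) : MemAp p W := by
  have hp1 : 0 < p - 1 := by linarith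
  refine ⟨Q, fun a b hab => ?_⟩
  have hr : 0 < b - a := sub_pos.2 hab
  have h1 := h a (b - a) hr
  rw [add_sub_cancel] at h1
  set ρ : ℝ≥0∞ := ENNReal.ofReal (b - a) with hρ
  have hρ0 : ρ ≠ 0 := (ENNReal.ofReal_pos.2 hr).ne'
  have hρt : ρ ≠ ⊤ := ENNReal.ofReal_ne_top
  rw [ENNReal.mul_rpow_of_nonneg _ _ hp1.le]
  calc ρ⁻¹ * (∫⁻ x in Ioo a b, ENNReal.ofReal (W x)) * (ρ⁻¹ ^ (p - 1) *
        (∫⁻ x in Ioo a b, ENNReal.ofReal (W x) ^ (-(1 / (p - 1)))) ^ (p - 1))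
      = (ρ⁻¹ * ρ⁻¹ ^ (p - 1)) * ((∫⁻ x in Ioo a b, ENNReal.ofReal (W x)) *
        (∫⁻ x in Ioo a b, ENNReal.ofReal (W x) ^ (-(1 / (p - 1)))) ^ (p - 1)) := by ring
    _ ≤ (ρ⁻¹ * ρ⁻¹ ^ (p - 1)) * (Q * ρ ^ p) := by gcongr
    _ = Q * ((ρ⁻¹) ^ p * ρ ^ p) := by rw [← rpow_split hp]; ring
    _ = Q := by
        rw [← ENNReal.mul_rpow_of_nonneg _ _ (by linarith), ENNReal.inv_mul_cancel hρ0 hρt,
          ENNReal.one_rpow, mul_one]

theorem wt1 {p : ℝ} {U φ : ℝ → ℝ} {x : ℝ} (hφ : 0 < φ x) :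
    ENNReal.ofReal (U x / φ x ^ p) = ENNReal.ofReal (φ x) ^ (-p) * ENNReal.ofReal (U x) := by
  rw [ENNReal.ofReal_div_of_pos (Real.rpow_pos_of_pos hφ p), ← ENNReal.ofReal_rpow_of_pos hφ,
    ENNReal.rpow_neg, div_eq_mul_inv, mul_comm]

theorem wt2 {p : ℝ} {U φ : ℝ → ℝ} {x : ℝ} (hφ : 0 < φ x) :
    ENNReal.ofReal (U x / φ x ^ p) ^ (-(1 / (p - 1))) =
      ENNReal.ofReal (φ x) ^ (p / (p - 1)) * ss p U x := by
  rw [wt1 hφ, ENNReal.mul_rpow_of_ne_top _ ENNReal.ofReal_ne_top, ← ENNReal.rpow_mul]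
  · unfold ss
    congr 2
    ring
  · rw [ENNReal.rpow_neg]
    exact ENNReal.inv_ne_top.2 (rp_ne_zero hφ)

theorem int_wt1 {p : ℝ} {U φ : ℝ → ℝ} (hU : Measurable U) (hφm : Measurable φ)
    (hφ : ∀ᵐ x, 0 < φ x) {S : Set ℝ} (hS : MeasurableSet S) :
    ∫⁻ x in S, ENNReal.ofReal (U x / φ x ^ p) = ∫⁻ x in S, ENNReal.ofReal (φ x) ^ (-p) ∂(mU U) := by
  rw [lint_mU hU hS (hφm.ennreal_ofReal.pow_const _)]
  refine lintegral_congr_ae (ae_restrict_of_ae ?_)
  filter_upwards [hφ] with x hx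
  exact wt1 hx

theorem int_wt2 {p : ℝ} {U φ : ℝ → ℝ} (hU : Measurable U) (hφm : Measurable φ)
    (hφ : ∀ᵐ x, 0 < φ x) {S : Set ℝ} (hS : MeasurableSet S) :
    ∫⁻ x in S, ENNReal.ofReal (U x / φ x ^ p) ^ (-(1 / (p - 1))) =
      ∫⁻ x in S, ENNReal.ofReal (φ x) ^ (p / (p - 1)) ∂(mS p U) := by
  rw [lint_mS hU hS (hφm.ennreal_ofReal.pow_const _)]
  refine lintegral_congr_ae (ae_restrict_of_ae ?_)
  filter_upwards [hφ] with x hx
  exact wt2 hx

/-- comparison when `φ` is essentially constant on the set -/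
theorem compar {p : ℝ} (hp : 1 < p) {U φ : ℝ → ℝ} {S : Set ℝ} (hS : MeasurableSet S) {α : ℝ}
    (hα : 0 < α) (h1 : ∀ x ∈ S, α ≤ φ x) (h2 : ∀ x ∈ S, φ x ≤ 3 * α) :
    (∫⁻ x in S, ENNReal.ofReal (φ x) ^ (-p) ∂(mU U)) *
      (∫⁻ x in S, ENNReal.ofReal (φ x) ^ (p / (p - 1)) ∂(mS p U)) ^ (p - 1) ≤
      3 ^ p * (mU U S * mS p U S ^ (p - 1)) := by
  have hp0 : 0 < p := by linarith
  have hp1 : 0 < p - 1 := by linarith
  have e1 : ∫⁻ x in S, ENNReal.ofReal (φ x) ^ (-p) ∂(mU U) ≤ ENNReal.ofReal α ^ (-p) * mU U S := by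
    rw [← setLIntegral_const]
    refine setLIntegral_mono' hS fun x hx => ?_
    rw [ENNReal.rpow_neg, ENNReal.rpow_neg, ENNReal.inv_le_inv]
    exact ENNReal.rpow_le_rpow (ENNReal.ofReal_le_ofReal (h1 x hx)) hp0.le
  have e2 : ∫⁻ x in S, ENNReal.ofReal (φ x) ^ (p / (p - 1)) ∂(mS p U) ≤
      ENNReal.ofReal (3 * α) ^ (p / (p - 1)) * mS p U S := by
    rw [← setLIntegral_const]
    refine setLIntegral_mono' hS fun x hx => ?_
    exact ENNReal.rpow_le_rpow (ENNReal.ofReal_le_ofReal (h2 x hx)) (by positivity)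
  calc _ ≤ (ENNReal.ofReal α ^ (-p) * mU U S) *
        (ENNReal.ofReal (3 * α) ^ (p / (p - 1)) * mS p U S) ^ (p - 1) := by gcongr
    _ = ENNReal.ofReal α ^ (-p) * ENNReal.ofReal (3 * α) ^ p * (mU U S * mS p U S ^ (p - 1)) := by
        rw [ENNReal.mul_rpow_of_nonneg _ _ hp1.le, ← ENNReal.rpow_mul]
        have : p / (p - 1) * (p - 1) = p := by field_simp
        rw [this]; ring
    _ = _ := by
        congr 1
        rw [ENNReal.ofReal_mul (by norm_num), ENNReal.mul_rpow_of_nonneg _ _ hp0.le, ENNReal.rpow_neg]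
        calc _ = ENNReal.ofReal 3 ^ p * ((ENNReal.ofReal α ^ p)⁻¹ * ENNReal.ofReal α ^ p) := by ring
          _ = _ := by
            rw [ENNReal.inv_mul_cancel (rp_ne_zero hα) (rp_ne_top hα), mul_one]
            norm_num

/-- the annulus bound, single set form -/
theorem AL' {p : ℝ} (hp : 1 < p) {U : ℝ → ℝ} (hW : IsWeight U) {C : ℝ≥0} (hC : AdmC p U C)
    {A : ℝ≥0} (hA0 : 0 < A) :
    ∃ Q : ℝ≥0, ∀ c η η' R : ℝ, 0 < η → 2 * η ≤ η' → η' < R / 4 → ∀ J : Set ℝ, MeasurableSet J →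
      J ⊆ Ioo (c - η) (c + η) → 0 < volume J →
      mS p U (Ioo (c - 2 * R) (c + 2 * R)) ≤ A * mS p U J →
      (∫⁻ x in {x : ℝ | η' < |x - c| ∧ |x - c| < R / 4}, ENNReal.ofReal |x - c| ^ (-p) ∂(mU U)) *
      (∫⁻ x in {x : ℝ | η' < |x - c| ∧ |x - c| < R / 4},
        ENNReal.ofReal |x - c| ^ (p / (p - 1)) ∂(mS p U)) ^ (p - 1)
        ≤ Q * ENNReal.ofReal R ^ p := by
  have hp1 : 0 < p - 1 := by linarith
  obtain ⟨Q, hQ⟩ := AL hp hW hC hA0
  refine ⟨Q, fun c η η' R h1 h2 h3 J hJ h4 h5 h6 => ?_⟩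
  refine le_trans ?_ (hQ c η η' R h1 h2 h3 J hJ h4 h5 h6)
  have hsub : {x : ℝ | η' < |x - c| ∧ |x - c| < R / 4} ⊆
      Ioo (c + η') (c + R / 4) ∪ Ioo (c - R / 4) (c - η') := by
    rintro x ⟨hx1, hx2⟩
    rcases lt_abs.1 hx1 with h | h
    · left
      have := abs_lt.1 hx2
      exact ⟨by linarith, by linarith [this.2]⟩
    · right
      have := abs_lt.1 hx2
      exact ⟨by linarith [this.1], by linarith⟩
  gcongr
  · exact (lintegral_mono_set hsub).trans (lintegral_union_le _ _ _)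
  · exact (lintegral_mono_set hsub).trans (lintegral_union_le _ _ _)

/-- Case A -/
theorem caseA {p : ℝ} (hp : 1 < p) {U : ℝ → ℝ} (hW : IsWeight U) {C : ℝ≥0} (hC : AdmC p U C)
    (hfin : ∀ a b : ℝ, mS p U (Ioo a b) < ⊤) (htot : mS p U univ = ⊤) : MemAp p U := by
  obtain ⟨Q, hQ⟩ := N1 hp hW hC (A := 1) one_pos
  refine memAp_of hp Q fun a r hr => ?_
  have key : mU U (Ioo a (a + r)) * mS p U (Ioo a (a + r)) ^ (p - 1) ≤ Q * ENNReal.ofReal r ^ p := by
    set J : ℕ → Set ℝ := fun n => {z : ℝ | 10 * r ≤ |z - a|} ∩ Icc (-(n:ℝ)) n with hJ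
    have hJm : ∀ n, MeasurableSet (J n) := by
      intro n
      refine MeasurableSet.inter ?_ measurableSet_Icc
      exact measurableSet_le measurable_const (by fun_prop)
    have hJmono : Monotone J := by
      intro n m hnm x hx
      have : (n : ℝ) ≤ m := by exact_mod_cast hnm
      exact ⟨hx.1, by linarith [hx.2.1], by linarith [hx.2.2]⟩
    have hun : (⋃ n, J n) ∪ Ioo (a - 10 * r) (a + 10 * r) = univ := by
      rw [eq_univ_iff_forall]
      intro x
      by_cases hx : 10 * r ≤ |x - a|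
      · left
        obtain ⟨n, hn⟩ := exists_nat_ge |x|
        have := abs_le.1 hn
        exact mem_iUnion.2 ⟨n, hx, this.1, this.2⟩
      · right
        have := abs_lt.1 (not_le.1 hx)
        exact ⟨by linarith [this.1], by linarith [this.2]⟩
    have hinf : mS p U (⋃ n, J n) = ⊤ := by
      have h1 : mS p U univ ≤ mS p U (⋃ n, J n) + mS p U (Ioo (a - 10 * r) (a + 10 * r)) := by
        rw [← hun]; exact measure_union_le _ _
      rw [htot, top_le_iff, ENNReal.add_eq_top] at h1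
      rcases h1 with h1 | h1
      · exact h1
      · exact absurd h1 (hfin _ _).ne
    rw [hJmono.measure_iUnion] at hinf
    have hlt : mS p U (Ioo (a - 10 * r) (a + 10 * r)) < ⨆ n, mS p U (J n) := by
      rw [hinf]; exact hfin _ _
    obtain ⟨n, hn⟩ := lt_iSup_iff.1 hlt
    refine hQ a r hr (J n) (hJm n) ⟨n, inter_subset_right⟩ ?_ (fun z hz => hz.1) ?_
    · rw [pos_iff_ne_zero]
      intro h0
      have : mS p U (J n) = 0 := withDensity_absolutelyContinuous volume (ss p U) h0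
      rw [this] at hn
      exact absurd hn not_lt_bot
    · rw [ENNReal.coe_one, one_mul]; exact hn.le
  rw [mU_apply measurableSet_Ioo, mS_apply measurableSet_Ioo] at key
  exact key

/-- Case B -/
theorem caseB {p : ℝ} (hp : 1 < p) {U : ℝ → ℝ} (hW : IsWeight U) {C : ℝ≥0} (hC : AdmC p U C)
    {x0 : ℝ} (hsing : ∀ ε : ℝ, 0 < ε → mS p U (Ioo (x0 - ε) (x0 + ε)) = ⊤) :
    MemAp p (fun x => U x / |x - x0| ^ p) := by
  have hp0 : 0 < p := by linarith
  have hp1 : 0 < p - 1 := by linarith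
  obtain ⟨Q1, hQ1⟩ := N1 hp hW hC (A := 1) one_pos
  obtain ⟨Q2, hQ2⟩ := AL' hp hW hC (A := 1) one_pos
  set φ : ℝ → ℝ := fun x => |x - x0| with hφ
  have hφm : Measurable φ := by rw [hφ]; fun_prop
  have hne : ∀ᵐ x : ℝ, x ≠ x0 := by
    rw [ae_iff]
    simp
  have hφpos : ∀ᵐ x, 0 < φ x := by
    filter_upwards [hne] with x hx
    exact abs_pos.2 (sub_ne_zero.2 hx)
  set Q : ℝ≥0 := (3:ℝ≥0) ^ p * Q1 + Q2 * (84:ℝ≥0) ^ p with hQ
  refine memAp_of hp Q fun a r hr => ?_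
  show (∫⁻ x in Ioo a (a + r), ENNReal.ofReal (U x / φ x ^ p)) *
      (∫⁻ x in Ioo a (a + r), ENNReal.ofReal (U x / φ x ^ p) ^ (-(1 / (p - 1)))) ^ (p - 1) ≤
      Q * ENNReal.ofReal r ^ p
  rw [int_wt1 hW.meas hφm hφpos measurableSet_Ioo, int_wt2 hW.meas hφm hφpos measurableSet_Ioo]
  have hQe : (Q : ℝ≥0∞) = 3 ^ p * Q1 + Q2 * 84 ^ p := by
    rw [hQ, ENNReal.coe_add, ENNReal.coe_mul, ENNReal.coe_mul,
      ENNReal.coe_rpow_of_nonneg _ hp0.le, ENNReal.coe_rpow_of_nonneg _ hp0.le]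
    norm_num
  rw [hQe]
  rcases le_or_gt (20 * r) |a - x0| with hfar | hnear
  · -- far interval
    have hα : 0 < |a - x0| / 2 := by linarith
    have h1 := compar hp (U := U) (φ := φ) (S := Ioo a (a + r)) measurableSet_Ioo hα
      (by
        intro x hx
        have : |a - x0| ≤ |x - x0| + |x - a| := by
          have e : a - x0 = (x - x0) - (x - a) := by ring
          rw [e]; exact abs_sub _ _
        have h2 : |x - a| ≤ r := by
          rw [abs_of_pos (by linarith [hx.1])]; linarith [hx.2]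
        simp only [hφ]
        linarith)
      (by
        intro x hx
        have : |x - x0| ≤ |a - x0| + |x - a| := by
          have e : x - x0 = (a - x0) + (x - a) := by ring
          rw [e]; exact abs_add_le _ _
        have h2 : |x - a| ≤ r := by
          rw [abs_of_pos (by linarith [hx.1])]; linarith [hx.2]
        simp only [hφ]
        linarith)
    have h2 := hQ1 a r hr (Ioo (x0 - 10 * r) (x0 + 10 * r)) measurableSet_Ioo
      ⟨|x0| + 10 * r, by
        intro x hx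
        have := abs_le.1 (le_refl |x0|)
        exact ⟨by linarith [hx.1, this.1], by linarith [hx.2, this.2]⟩⟩
      (by rw [Real.volume_Ioo]; exact ENNReal.ofReal_pos.2 (by linarith))
      (by
        intro z hz
        have : |a - x0| ≤ |z - x0| + |z - a| := by
          have e : a - x0 = (z - x0) - (z - a) := by ring
          rw [e]; exact abs_sub _ _
        have h3 : |z - x0| ≤ 10 * r := by
          rw [abs_le]; exact ⟨by linarith [hz.1], by linarith [hz.2]⟩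
        linarith)
      (by rw [hsing _ (by positivity)]; simp)
    calc _ ≤ 3 ^ p * (mU U (Ioo a (a + r)) * mS p U (Ioo a (a + r)) ^ (p - 1)) := h1
      _ ≤ 3 ^ p * (Q1 * ENNReal.ofReal r ^ p) := by gcongr
      _ = 3 ^ p * Q1 * ENNReal.ofReal r ^ p := by ring
      _ ≤ _ := by gcongr; exact le_self_add
  · -- near interval
    set η' : ℕ → ℝ := fun n => 21 * r / (n + 2) with hη'
    have hη'pos : ∀ n, 0 < η' n := fun n => by rw [hη']; positivity
    have hη'lt : ∀ n, η' n < 84 * r / 4 := by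
      intro n
      rw [hη']
      simp only
      rw [div_lt_iff₀ (by positivity)]
      have : (0:ℝ) ≤ n := Nat.cast_nonneg n
      nlinarith
    have hη'anti : Antitone η' := by
      intro n m hnm
      have : (n:ℝ) ≤ m := by exact_mod_cast hnm
      simp only [hη']
      gcongr
    set N : ℕ → Set ℝ := fun n => {x : ℝ | η' n < |x - x0| ∧ |x - x0| < 84 * r / 4} with hN
    have hNmono : Monotone N := by
      intro n m hnm x hx
      exact ⟨lt_of_le_of_lt (hη'anti hnm) hx.1, hx.2⟩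
    have hUn : Ioo a (a + r) \ {x0} ⊆ ⋃ n, N n := by
      rintro x ⟨hx, hx0⟩
      have hx0' : 0 < |x - x0| := abs_pos.2 (sub_ne_zero.2 hx0)
      obtain ⟨n, hn⟩ := exists_nat_gt (21 * r / |x - x0|)
      refine mem_iUnion.2 ⟨n, ?_, ?_⟩
      · simp only [hη']
        rw [div_lt_iff₀ (by positivity)]
        rw [div_lt_iff₀ hx0'] at hn
        nlinarith
      · have : |x - x0| ≤ |a - x0| + |x - a| := by
          have e : x - x0 = (a - x0) + (x - a) := by ring
          rw [e]; exact abs_add_le _ _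
        have h2 : |x - a| ≤ r := by
          rw [abs_of_pos (by linarith [hx.1])]; linarith [hx.2]
        linarith
    have hstep : ∀ n, (∫⁻ x in N n, ENNReal.ofReal |x - x0| ^ (-p) ∂(mU U)) *
        (∫⁻ x in N n, ENNReal.ofReal |x - x0| ^ (p / (p - 1)) ∂(mS p U)) ^ (p - 1) ≤
        Q2 * ENNReal.ofReal (84 * r) ^ p := by
      intro n
      refine hQ2 x0 (η' n / 2) (η' n) (84 * r) (by have := hη'pos n; positivity) (by linarith)
        (hη'lt n) (Ioo (x0 - η' n / 2) (x0 + η' n / 2)) measurableSet_Ioo le_rfl ?_ ?_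
      · rw [Real.volume_Ioo]; exact ENNReal.ofReal_pos.2 (by linarith [hη'pos n])
      · rw [hsing (η' n / 2) (by have := hη'pos n; positivity)]; simp
    have hnullU : mU U {x0} = 0 :=
      withDensity_absolutelyContinuous volume _ (by simp)
    have hnullS : mS p U {x0} = 0 :=
      withDensity_absolutelyContinuous volume _ (by simp)
    have b1 : ∫⁻ x in Ioo a (a + r), ENNReal.ofReal (φ x) ^ (-p) ∂(mU U) ≤
        ⨆ n, ∫⁻ x in N n, ENNReal.ofReal |x - x0| ^ (-p) ∂(mU U) := by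
      rw [← setLIntegral_iUnion_of_directed _ (directed_of_isDirected_le hNmono)]
      refine le_trans (le_of_eq ?_) (lintegral_mono_set hUn)
      exact (setLIntegral_congr (sdiff_null_ae_eq_self hnullU)).symm
    have b2 : ∫⁻ x in Ioo a (a + r), ENNReal.ofReal (φ x) ^ (p / (p - 1)) ∂(mS p U) ≤
        ⨆ n, ∫⁻ x in N n, ENNReal.ofReal |x - x0| ^ (p / (p - 1)) ∂(mS p U) := by
      rw [← setLIntegral_iUnion_of_directed _ (directed_of_isDirected_le hNmono)]
      refine le_trans (le_of_eq ?_) (lintegral_mono_set hUn)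
      exact (setLIntegral_congr (sdiff_null_ae_eq_self hnullS)).symm
    have hfinal : (⨆ n, ∫⁻ x in N n, ENNReal.ofReal |x - x0| ^ (-p) ∂(mU U)) *
        (⨆ n, ∫⁻ x in N n, ENNReal.ofReal |x - x0| ^ (p / (p - 1)) ∂(mS p U)) ^ (p - 1) ≤
        Q2 * ENNReal.ofReal (84 * r) ^ p := by
      have e : (⨆ n, ∫⁻ x in N n, ENNReal.ofReal |x - x0| ^ (p / (p - 1)) ∂(mS p U)) ^ (p - 1) =
          ⨆ n, (∫⁻ x in N n, ENNReal.ofReal |x - x0| ^ (p / (p - 1)) ∂(mS p U)) ^ (p - 1) :=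
        OrderIso.map_iSup (ENNReal.orderIsoRpow (p - 1) hp1) _
      rw [e, ENNReal.iSup_mul]
      refine iSup_le fun n => ?_
      rw [ENNReal.mul_iSup]
      refine iSup_le fun m => ?_
      refine le_trans ?_ (hstep (max n m))
      gcongr
      · exact hNmono (le_max_left n m)
      · exact hNmono (le_max_right n m)
    calc _ ≤ (⨆ n, ∫⁻ x in N n, ENNReal.ofReal |x - x0| ^ (-p) ∂(mU U)) *
        (⨆ n, ∫⁻ x in N n, ENNReal.ofReal |x - x0| ^ (p / (p - 1)) ∂(mS p U)) ^ (p - 1) := by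
          gcongr
      _ ≤ Q2 * ENNReal.ofReal (84 * r) ^ p := hfinal
      _ = Q2 * 84 ^ p * ENNReal.ofReal r ^ p := by
          rw [ENNReal.ofReal_mul (by norm_num), ENNReal.mul_rpow_of_nonneg _ _ hp0.le]
          norm_num
          ring
      _ ≤ _ := by gcongr; exact le_add_self

end Pool.Agent.W755.Mz
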