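import Mathlib
import Pool.Agent.W755.MzCases

set_option autoImplicit false

open MeasureTheory Filter Topology Set
open scoped ENNReal NNReal

namespace Pool.Agent.W755.Mz

theorem pos_int {S : Set ℝ} (hS : volume S ≠ 0) {f : ℝ → ℝ≥0∞} (hf : Measurable f)
    (h : ∀ᵐ x, 0 < f x) : ∫⁻ x in S, f x ≠ 0 := by
  intro h0
  rw [lintegral_eq_zero_iff hf] at h0
  have h1 : ∀ᵐ x ∂(volume.restrict S), False := by
    filter_upwards [h0, ae_restrict_of_ae h] with x hx1 hx2
    exact hx2.ne' hx1
  have h2 : volume.restrict S = 0 := by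
    rw [← Measure.measure_univ_eq_zero]
    have := ae_iff.1 h1
    simpa using this
  rw [Measure.restrict_eq_zero] at h2
  exact hS h2

theorem caseC {p : ℝ} (hp : 1 < p) {U : ℝ → ℝ} (hW : IsWeight U) {C : ℝ≥0} (hC : AdmC p U C)
    (hfin : mS p U univ < ⊤) : MemAp p (fun x => U x / (1 + |x|) ^ p) := by
  have hp0 : 0 < p := by linarith
  have hp1 : 0 < p - 1 := by linarith
  have hpos := U_pos_ae hp hW hC
  obtain ⟨Q1, hQ1⟩ := N1 hp hW hC (A := 4) (by norm_num)
  obtain ⟨Q2, hQ2⟩ := AL' hp hW hC (A := 4) (by norm_num)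
  set φ : ℝ → ℝ := fun x => 1 + |x| with hφ
  have hφm : Measurable φ := by rw [hφ]; fun_prop
  have hφpos' : ∀ x, 0 < φ x := fun x => by rw [hφ]; positivity
  have hφpos : ∀ᵐ x, 0 < φ x := Eventually.of_forall hφpos'
  set m : ℝ≥0∞ := mS p U univ with hm
  have hm0 : m ≠ 0 := by
    rw [hm, mS_apply MeasurableSet.univ]
    exact pos_int (by simp) (measurable_ss hW.meas) (Eventually.of_forall fun x => ss_pos hp x)
  have hmt : m ≠ ⊤ := hfin.ne
  -- choice of L
  obtain ⟨L, hL1, hL⟩ : ∃ L : ℝ, 1 ≤ L ∧ m < 2 * mS p U (Ioo (-L) L) := by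
    have hmono : Monotone (fun n : ℕ => Ioo (-(n:ℝ)) n) := by
      intro i j hij
      have : (i:ℝ) ≤ j := by exact_mod_cast hij
      exact Ioo_subset_Ioo (by linarith) this
    have hun : (⋃ n : ℕ, Ioo (-(n:ℝ)) n) = univ := by
      rw [eq_univ_iff_forall]
      intro x
      obtain ⟨n, hn⟩ := exists_nat_gt |x|
      exact mem_iUnion.2 ⟨n, abs_lt.1 hn⟩
    have h1 : m < 2 * ⨆ n : ℕ, mS p U (Ioo (-(n:ℝ)) n) := by
      rw [← hmono.measure_iUnion, hun, ← hm, two_mul]
      exact ENNReal.lt_add_right hmt hm0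
    rw [ENNReal.mul_iSup, lt_iSup_iff] at h1
    obtain ⟨n, hn⟩ := h1
    refine ⟨max n 1, le_max_right _ _, lt_of_lt_of_le hn ?_⟩
    gcongr
    · exact le_max_left _ _
    · exact le_max_left _ _
  -- absolute continuity
  obtain ⟨η0, hη0, hη0h, hη0s⟩ : ∃ η0 : ℝ, 0 < η0 ∧ η0 ≤ 1 / 2 ∧ ∀ a r : ℝ, 0 < r → r ≤ η0 →
      4 * mS p U (Ioo (a - 10 * r) (a + 10 * r)) < m := by
    have h1 : ∫⁻ x, ss p U x ∂volume ≠ ⊤ := by
      have := hmt
      rw [hm, mS_apply MeasurableSet.univ] at this
      simpa using this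
    have h2 : m / 4 ≠ 0 := (ENNReal.div_pos hm0 (by norm_num)).ne'
    obtain ⟨δ, hδ, hδs⟩ := exists_pos_setLIntegral_lt_of_measure_lt h1 h2
    have hmin0 : min δ 1 ≠ 0 := (lt_min hδ one_pos).ne'
    have hmint : min δ 1 ≠ ⊤ := ne_top_of_le_ne_top ENNReal.one_ne_top (min_le_right _ _)
    have hδ'0 : 0 < (min δ 1).toReal := ENNReal.toReal_pos hmin0 hmint
    have hδ' : ENNReal.ofReal (min δ 1).toReal ≤ δ := by
      rw [ENNReal.ofReal_toReal hmint]; exact min_le_left _ _
    set δ' : ℝ := (min δ 1).toReal with hδ'd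
    refine ⟨min (1 / 2) (δ' / 21), by positivity, min_le_left _ _, ?_⟩
    intro a r hr hrη
    have h3 : r ≤ δ' / 21 := hrη.trans (min_le_right _ _)
    have h4 : volume (Ioo (a - 10 * r) (a + 10 * r)) < δ := by
      rw [Real.volume_Ioo]
      refine lt_of_lt_of_le ?_ hδ'
      rw [ENNReal.ofReal_lt_ofReal_iff hδ'0]
      linarith
    have h5 := hδs _ h4
    rw [← mS_apply measurableSet_Ioo] at h5
    calc 4 * mS p U (Ioo (a - 10 * r) (a + 10 * r)) < 4 * (m / 4) := by
          rw [ENNReal.mul_lt_mul_iff_right (by norm_num) (by norm_num)]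
          exact h5
      _ = m := ENNReal.mul_div_cancel (by norm_num) (by norm_num)
  -- the constants of the large case
  set D : Set ℝ := Icc (-(2 * L)) (2 * L) with hD
  have hUD : mU U D ≠ ⊤ := by
    rw [mU_apply measurableSet_Icc]
    exact (hW.locInt.integrableOn_isCompact isCompact_Icc).lintegral_lt_top.ne
  set x1 : ℝ≥0∞ := min 1 (∫⁻ x in Ioo (2 * L) (2 * L + 1), ENNReal.ofReal |x| ^ (-p) ∂(mU U)) with hx1
  set y1 : ℝ≥0∞ := min 1 (∫⁻ x in Ioo (2 * L) (2 * L + 1),
    ENNReal.ofReal |x| ^ (p / (p - 1)) ∂(mS p U)) with hy1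
  have hmabs : Measurable (fun x : ℝ => |x|) := by fun_prop
  have hne : ∀ᵐ x : ℝ, x ≠ 0 := by
    rw [ae_iff]
    simp
  have hvolI : volume (Ioo (2 * L) (2 * L + 1)) ≠ 0 := by
    rw [Real.volume_Ioo]
    exact (ENNReal.ofReal_pos.2 (by linarith)).ne'
  have hx10 : x1 ≠ 0 := by
    rw [hx1, ← pos_iff_ne_zero, lt_min_iff]
    refine ⟨one_pos, ?_⟩
    rw [lint_mU hW.meas measurableSet_Ioo (hmabs.ennreal_ofReal.pow_const _), pos_iff_ne_zero]
    refine pos_int hvolI ((hmabs.ennreal_ofReal.pow_const _).mul hW.meas.ennreal_ofReal) ?_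
    filter_upwards [hpos, hne] with x hx hx0
    refine ENNReal.mul_pos ?_ (ENNReal.ofReal_pos.2 hx).ne'
    exact rp_ne_zero (abs_pos.2 hx0)
  have hx1t : x1 ≠ ⊤ := ne_top_of_le_ne_top ENNReal.one_ne_top (min_le_left _ _)
  have hy10 : y1 ≠ 0 := by
    rw [hy1, ← pos_iff_ne_zero, lt_min_iff]
    refine ⟨one_pos, ?_⟩
    rw [lint_mS hW.meas measurableSet_Ioo (hmabs.ennreal_ofReal.pow_const _), pos_iff_ne_zero]
    refine pos_int hvolI ((hmabs.ennreal_ofReal.pow_const _).mul (measurable_ss hW.meas)) ?_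
    filter_upwards [hne] with x hx0
    refine ENNReal.mul_pos ?_ (ss_pos hp x).ne'
    exact rp_ne_zero (abs_pos.2 hx0)
  have hy1t : y1 ≠ ⊤ := ne_top_of_le_ne_top ENNReal.one_ne_top (min_le_left _ _)
  set α1 : ℝ≥0∞ := mU U D / x1 + 1 with hα1
  set β1 : ℝ≥0∞ := ENNReal.ofReal (1 + 2 * L) ^ (p / (p - 1)) * m / y1 + 2 ^ (p / (p - 1)) with hβ1
  have hα1t : α1 ≠ ⊤ := ENNReal.add_ne_top.2 ⟨ENNReal.div_ne_top hUD hx10, ENNReal.one_ne_top⟩
  have hβ1t : β1 ≠ ⊤ := by
    refine ENNReal.add_ne_top.2 ⟨ENNReal.div_ne_top (ENNReal.mul_ne_top (rp_ne_top (by linarith)) hmt) hy10, ?_⟩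
    exact (ENNReal.rpow_lt_top_of_nonneg (by positivity) (by simp)).ne
  set Λ : ℝ := 4 * (21 + (2 * L + 1) / η0) with hΛ
  have hΛ0 : 0 < Λ := by positivity
  set Q : ℝ≥0∞ := 3 ^ p * Q1 + α1 * β1 ^ (p - 1) * Q2 * ENNReal.ofReal Λ ^ p with hQ
  have hQt : Q ≠ ⊤ := by
    refine ENNReal.add_ne_top.2 ⟨ENNReal.mul_ne_top ?_ ENNReal.coe_ne_top, ?_⟩
    · exact (ENNReal.rpow_lt_top_of_nonneg hp0.le (by simp)).ne
    · refine ENNReal.mul_ne_top (ENNReal.mul_ne_top (ENNReal.mul_ne_top hα1t ?_) ENNReal.coe_ne_top)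
        (rp_ne_top hΛ0)
      exact (ENNReal.rpow_lt_top_of_nonneg hp1.le hβ1t).ne
  refine memAp_of hp Q.toNNReal fun a r hr => ?_
  rw [ENNReal.coe_toNNReal hQt]
  show (∫⁻ x in Ioo a (a + r), ENNReal.ofReal (U x / φ x ^ p)) *
      (∫⁻ x in Ioo a (a + r), ENNReal.ofReal (U x / φ x ^ p) ^ (-(1 / (p - 1)))) ^ (p - 1) ≤
      Q * ENNReal.ofReal r ^ p
  rw [int_wt1 hW.meas hφm hφpos measurableSet_Ioo, int_wt2 hW.meas hφm hφpos measurableSet_Ioo]
  have hxa : ∀ x ∈ Ioo a (a + r), |x - a| ≤ r := by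
    intro x hx
    rw [abs_of_pos (by linarith [hx.1])]; linarith [hx.2]
  have hlo : ∀ x ∈ Ioo a (a + r), |a| ≤ |x| + r := by
    intro x hx
    have e : a = x - (x - a) := by ring
    have h1 : |a| ≤ |x| + |x - a| := by
      conv_lhs => rw [e]
      exact abs_sub _ _
    linarith [hxa x hx]
  have hhi : ∀ x ∈ Ioo a (a + r), |x| ≤ |a| + r := by
    intro x hx
    have e : x = a + (x - a) := by ring
    have h1 : |x| ≤ |a| + |x - a| := by
      conv_lhs => rw [e]
      exact abs_add_le _ _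
    linarith [hxa x hx]
  -- common treatment of cases (i) and (ii)
  have hcomp : r ≤ (1 + |a|) / 2 →
      mU U (Ioo a (a + r)) * mS p U (Ioo a (a + r)) ^ (p - 1) ≤ Q1 * ENNReal.ofReal r ^ p →
      (∫⁻ x in Ioo a (a + r), ENNReal.ofReal (φ x) ^ (-p) ∂(mU U)) *
      (∫⁻ x in Ioo a (a + r), ENNReal.ofReal (φ x) ^ (p / (p - 1)) ∂(mS p U)) ^ (p - 1) ≤
      Q * ENNReal.ofReal r ^ p := by
    intro hr2 h2
    have h1 := compar hp (U := U) (φ := φ) (S := Ioo a (a + r)) measurableSet_Ioo
      (α := (1 + |a|) / 2) (by positivity)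
      (by intro x hx; have := hlo x hx; simp only [hφ]; linarith)
      (by intro x hx; have := hhi x hx; simp only [hφ]; linarith)
    calc _ ≤ 3 ^ p * (mU U (Ioo a (a + r)) * mS p U (Ioo a (a + r)) ^ (p - 1)) := h1
      _ ≤ 3 ^ p * (Q1 * ENNReal.ofReal r ^ p) := by gcongr
      _ = 3 ^ p * Q1 * ENNReal.ofReal r ^ p := by ring
      _ ≤ _ := by gcongr; exact le_self_add
  rcases le_or_gt r η0 with hsmall | hbig
  · -- small intervals
    apply hcomp
    · have := abs_nonneg a
      linarith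
    · set J : Set ℝ := Ioo (-L) L \ Ioo (a - 10 * r) (a + 10 * r) with hJ
      have hJm : MeasurableSet J := measurableSet_Ioo.diff measurableSet_Ioo
      have hS := hη0s a r hr hsmall
      have hmJ : m ≤ 4 * mS p U J := by
        by_contra hcon
        rw [not_le] at hcon
        have h1 : m + m < 2 * mS p U (Ioo (-L) L) + 2 * mS p U (Ioo (-L) L) := ENNReal.add_lt_add hL hL
        have h2 : mS p U (Ioo (-L) L) ≤ mS p U J + mS p U (Ioo (a - 10 * r) (a + 10 * r)) := by
          refine (measure_mono ?_).trans (measure_union_le _ _)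
          intro x hx
          by_cases h : x ∈ Ioo (a - 10 * r) (a + 10 * r)
          · right; exact h
          · left; exact ⟨hx, h⟩
        have h3 : 2 * mS p U (Ioo (-L) L) + 2 * mS p U (Ioo (-L) L) ≤
            4 * mS p U J + 4 * mS p U (Ioo (a - 10 * r) (a + 10 * r)) := by
          calc 2 * mS p U (Ioo (-L) L) + 2 * mS p U (Ioo (-L) L) = 4 * mS p U (Ioo (-L) L) := by ring
            _ ≤ 4 * (mS p U J + mS p U (Ioo (a - 10 * r) (a + 10 * r))) := by gcongr
            _ = _ := by ring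
        have h4 : 4 * mS p U J + 4 * mS p U (Ioo (a - 10 * r) (a + 10 * r)) < m + m :=
          ENNReal.add_lt_add hcon hS
        exact absurd (h1.trans (lt_of_le_of_lt h3 h4)) (lt_irrefl _)
      refine hQ1 a r hr J hJm ⟨L, ?_⟩ ?_ ?_ ?_
      · intro x hx
        exact ⟨hx.1.1.le, hx.1.2.le⟩
      · rw [pos_iff_ne_zero]
        intro h0
        have : mS p U J = 0 := withDensity_absolutelyContinuous volume (ss p U) h0
        rw [this, mul_zero] at hmJ
        exact hm0 (le_antisymm hmJ bot_le)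
      · intro z hz
        by_contra hcon
        rw [not_le, abs_lt] at hcon
        exact hz.2 ⟨by linarith [hcon.1], by linarith [hcon.2]⟩
      · calc mS p U (Ioo (a - 10 * r) (a + 10 * r)) ≤ m := measure_mono (subset_univ _)
          _ ≤ _ := by rw [show ((4 : ℝ≥0) : ℝ≥0∞) = 4 by norm_num]; exact hmJ
  · have hmL : m ≤ 4 * mS p U (Ioo (-L) L) := by
      refine hL.le.trans ?_
      gcongr
      norm_num
    rcases le_or_gt (2 * L + 20 * r) |a| with hfar | hnear
    · -- far intervals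
      apply hcomp
      · linarith
      · refine hQ1 a r hr (Ioo (-L) L) measurableSet_Ioo ⟨L, ?_⟩ ?_ ?_ ?_
        · intro x hx
          exact ⟨hx.1.le, hx.2.le⟩
        · rw [Real.volume_Ioo]
          exact ENNReal.ofReal_pos.2 (by linarith)
        · intro z hz
          have h1 : |a| ≤ |z| + |z - a| := by
            have e : a = z - (z - a) := by ring
            conv_lhs => rw [e]
            exact abs_sub _ _
          have h2 : |z| ≤ L := abs_le.2 ⟨hz.1.le, hz.2.le⟩
          linarith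
        · calc mS p U (Ioo (a - 10 * r) (a + 10 * r)) ≤ m := measure_mono (subset_univ _)
            _ ≤ _ := by rw [show ((4 : ℝ≥0) : ℝ≥0∞) = 4 by norm_num]; exact hmL
    · -- large intervals near the origin
      set R : ℝ := 4 * (2 * L + 1 + 21 * r) with hR
      have hal := hQ2 0 L (2 * L) R (by linarith) le_rfl (by rw [hR]; linarith) (Ioo (-L) L)
        measurableSet_Ioo (by intro x hx; exact ⟨by linarith [hx.1], by linarith [hx.2]⟩)
        (by rw [Real.volume_Ioo]; exact ENNReal.ofReal_pos.2 (by linarith))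
        (by
          calc mS p U (Ioo (0 - 2 * R) (0 + 2 * R)) ≤ m := measure_mono (subset_univ _)
            _ ≤ _ := by rw [show ((4 : ℝ≥0) : ℝ≥0∞) = 4 by norm_num]; exact hmL)
      simp only [sub_zero] at hal
      set B : Set ℝ := {x : ℝ | 2 * L < |x| ∧ |x| < R / 4} with hB
      have hBm : MeasurableSet B := by
        have h1 : MeasurableSet {x : ℝ | 2 * L < |x|} := measurableSet_lt measurable_const hmabs
        have h2 : MeasurableSet {x : ℝ | |x| < R / 4} := measurableSet_lt hmabs measurable_const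
        exact h1.inter h2
      set X : ℝ≥0∞ := ∫⁻ x in B, ENNReal.ofReal |x| ^ (-p) ∂(mU U) with hX
      set Y : ℝ≥0∞ := ∫⁻ x in B, ENNReal.ofReal |x| ^ (p / (p - 1)) ∂(mS p U) with hY
      have hsub : Ioo (2 * L) (2 * L + 1) ⊆ B := by
        intro x hx
        have h1 : |x| = x := abs_of_pos (by linarith [hx.1])
        refine ⟨by rw [h1]; exact hx.1, ?_⟩
        rw [h1, hR]
        linarith [hx.2]
      have hxX : x1 ≤ X := (min_le_right _ _).trans (lintegral_mono_set hsub)
      have hyY : y1 ≤ Y := (min_le_right _ _).trans (lintegral_mono_set hsub)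
      have hIsub : Ioo a (a + r) ⊆ D ∪ B := by
        intro x hx
        rcases le_or_gt |x| (2 * L) with h | h
        · left; exact abs_le.1 h
        · right
          refine ⟨h, ?_⟩
          have := hhi x hx
          rw [hR]; linarith
      have b1 : ∫⁻ x in Ioo a (a + r), ENNReal.ofReal (φ x) ^ (-p) ∂(mU U) ≤ α1 * X := by
        calc _ ≤ ∫⁻ x in D ∪ B, ENNReal.ofReal (φ x) ^ (-p) ∂(mU U) := lintegral_mono_set hIsub
          _ ≤ ∫⁻ x in D, ENNReal.ofReal (φ x) ^ (-p) ∂(mU U) +
              ∫⁻ x in B, ENNReal.ofReal (φ x) ^ (-p) ∂(mU U) := lintegral_union_le _ _ _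
          _ ≤ mU U D + X := by
              gcongr
              · calc _ ≤ ∫⁻ x in D, 1 ∂(mU U) := by
                      refine lintegral_mono fun x => ?_
                      rw [ENNReal.rpow_neg, ENNReal.inv_le_one]
                      refine ENNReal.one_le_rpow ?_ hp0
                      rw [ENNReal.one_le_ofReal]
                      simp only [hφ]
                      linarith [abs_nonneg x]
                  _ = _ := by simp
              · refine setLIntegral_mono' hBm fun x hx => ?_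
                rw [ENNReal.rpow_neg, ENNReal.rpow_neg, ENNReal.inv_le_inv]
                refine ENNReal.rpow_le_rpow (ENNReal.ofReal_le_ofReal ?_) hp0.le
                simp only [hφ]
                linarith
          _ ≤ mU U D / x1 * X + X := by
              gcongr
              calc mU U D = mU U D / x1 * x1 := (ENNReal.div_mul_cancel hx10 hx1t).symm
                _ ≤ _ := by gcongr
          _ = α1 * X := by rw [hα1]; ring
      have b2 : ∫⁻ x in Ioo a (a + r), ENNReal.ofReal (φ x) ^ (p / (p - 1)) ∂(mS p U) ≤ β1 * Y := by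
        calc _ ≤ ∫⁻ x in D ∪ B, ENNReal.ofReal (φ x) ^ (p / (p - 1)) ∂(mS p U) :=
              lintegral_mono_set hIsub
          _ ≤ ∫⁻ x in D, ENNReal.ofReal (φ x) ^ (p / (p - 1)) ∂(mS p U) +
              ∫⁻ x in B, ENNReal.ofReal (φ x) ^ (p / (p - 1)) ∂(mS p U) := lintegral_union_le _ _ _
          _ ≤ ENNReal.ofReal (1 + 2 * L) ^ (p / (p - 1)) * m + 2 ^ (p / (p - 1)) * Y := by
              gcongr
              · calc _ ≤ ∫⁻ x in D, ENNReal.ofReal (1 + 2 * L) ^ (p / (p - 1)) ∂(mS p U) := by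
                      refine setLIntegral_mono' measurableSet_Icc fun x hx => ?_
                      refine ENNReal.rpow_le_rpow (ENNReal.ofReal_le_ofReal ?_) (by positivity)
                      have := abs_le.2 hx
                      simp only [hφ]
                      linarith
                  _ ≤ _ := by
                      rw [setLIntegral_const]
                      gcongr
                      exact measure_mono (subset_univ _)
              · have h2t : (2 : ℝ≥0∞) ^ (p / (p - 1)) ≠ ⊤ :=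
                  (ENNReal.rpow_lt_top_of_nonneg (by positivity) (by simp)).ne
                rw [hY, ← lintegral_const_mul' _ _ h2t]
                refine setLIntegral_mono' hBm fun x hx => ?_
                have h2 : ENNReal.ofReal (φ x) ≤ 2 * ENNReal.ofReal |x| := by
                  rw [show (2:ℝ≥0∞) = ENNReal.ofReal 2 by norm_num, ← ENNReal.ofReal_mul (by norm_num)]
                  apply ENNReal.ofReal_le_ofReal
                  have := hx.1
                  simp only [hφ]
                  linarith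
                calc ENNReal.ofReal (φ x) ^ (p / (p - 1)) ≤ (2 * ENNReal.ofReal |x|) ^ (p / (p - 1)) :=
                      ENNReal.rpow_le_rpow h2 (by positivity)
                  _ = _ := ENNReal.mul_rpow_of_nonneg _ _ (by positivity)
          _ ≤ ENNReal.ofReal (1 + 2 * L) ^ (p / (p - 1)) * m / y1 * Y + 2 ^ (p / (p - 1)) * Y := by
              refine add_le_add ?_ le_rfl
              calc ENNReal.ofReal (1 + 2 * L) ^ (p / (p - 1)) * m =
                  ENNReal.ofReal (1 + 2 * L) ^ (p / (p - 1)) * m / y1 * y1 :=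
                    (ENNReal.div_mul_cancel hy10 hy1t).symm
                _ ≤ _ := by gcongr
          _ = β1 * Y := by rw [hβ1]; ring
      have hRΛ : R ≤ Λ * r := by
        rw [hR, hΛ]
        have h1 : 2 * L + 1 ≤ (2 * L + 1) / η0 * r := by
          rw [div_mul_eq_mul_div, le_div_iff₀ hη0]
          nlinarith
        nlinarith
      calc _ ≤ (α1 * X) * (β1 * Y) ^ (p - 1) := by gcongr
        _ = α1 * β1 ^ (p - 1) * (X * Y ^ (p - 1)) := by
            rw [ENNReal.mul_rpow_of_nonneg _ _ hp1.le]; ring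
        _ ≤ α1 * β1 ^ (p - 1) * (Q2 * ENNReal.ofReal R ^ p) := by gcongr
        _ ≤ α1 * β1 ^ (p - 1) * (Q2 * (ENNReal.ofReal Λ ^ p * ENNReal.ofReal r ^ p)) := by
            gcongr
            rw [← ENNReal.mul_rpow_of_nonneg _ _ hp0.le, ← ENNReal.ofReal_mul hΛ0.le]
            exact ENNReal.rpow_le_rpow (ENNReal.ofReal_le_ofReal hRΛ) hp0.le
        _ = α1 * β1 ^ (p - 1) * Q2 * ENNReal.ofReal Λ ^ p * ENNReal.ofReal r ^ p := by ring
        _ ≤ _ := by gcongr; exact le_add_self

/-- Necessity. -/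
theorem necessity {p : ℝ} (hp : 1 < p) {U : ℝ → ℝ} (hW : IsWeight U) (h : Admissible p U) :
    MemAp p U ∨ MemAp p (fun x => U x / (1 + |x|) ^ p) ∨
      ∃ x0 : ℝ, MemAp p (fun x => U x / |x - x0| ^ p) := by
  obtain ⟨C, hC⟩ := h
  by_cases hs : ∃ x0 : ℝ, ∀ ε : ℝ, 0 < ε → mS p U (Ioo (x0 - ε) (x0 + ε)) = ⊤
  · obtain ⟨x0, hx0⟩ := hs
    right; right
    exact ⟨x0, caseB hp hW hC hx0⟩
  · push Not at hs
    by_cases ht : mS p U univ = ⊤
    · left
      refine caseA hp hW hC ?_ ht
      have hloc : IsLocallyFiniteMeasure (mS p U) := by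
        refine ⟨fun x => ?_⟩
        obtain ⟨ε, hε, h1⟩ := hs x
        exact ⟨Ioo (x - ε) (x + ε), Ioo_mem_nhds (by linarith) (by linarith), lt_top_iff_ne_top.2 h1⟩
      intro a b
      exact (measure_mono Ioo_subset_Icc_self).trans_lt isCompact_Icc.measure_lt_top
    · right; left
      exact caseC hp hW hC (lt_top_iff_ne_top.2 ht)

end Pool.Agent.W755.Mz
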