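import Mathlib

set_option autoImplicit false

open MeasureTheory Filter Topology Set
open scoped ENNReal NNReal

namespace Pool.Agent.W755.Mz

/-- the uncentred maximal function with respect to a measure -/
noncomputable def Mm (μ : Measure ℝ) (g : ℝ → ℝ≥0∞) (x : ℝ) : ℝ≥0∞ :=
  ⨆ a : ℝ, ⨆ b : ℝ, ⨆ (_ : a < x ∧ x < b), (μ (Ioo a b))⁻¹ * ∫⁻ y in Ioo a b, g y ∂μ

theorem Mm_ge (μ : Measure ℝ) (g : ℝ → ℝ≥0∞) {x a b : ℝ} (h : a < x ∧ x < b) :
    (μ (Ioo a b))⁻¹ * ∫⁻ y in Ioo a b, g y ∂μ ≤ Mm μ g x := by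
  unfold Mm
  exact le_iSup_of_le a (le_iSup_of_le b (le_iSup_of_le h le_rfl))

theorem lt_Mm {μ : Measure ℝ} {g : ℝ → ℝ≥0∞} {x : ℝ} {t : ℝ≥0∞} (h : t < Mm μ g x) :
    ∃ a b : ℝ, a < x ∧ x < b ∧ t < (μ (Ioo a b))⁻¹ * ∫⁻ y in Ioo a b, g y ∂μ := by
  unfold Mm at h
  simp only [lt_iSup_iff] at h
  obtain ⟨a, b, hab, h⟩ := h
  exact ⟨a, b, hab.1, hab.2, h⟩

theorem isOpen_Mm (μ : Measure ℝ) (g : ℝ → ℝ≥0∞) (t : ℝ≥0∞) : IsOpen {x | t < Mm μ g x} := by
  rw [isOpen_iff_mem_nhds]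
  intro x hx
  obtain ⟨a, b, ha, hb, h⟩ := lt_Mm hx
  refine mem_of_superset (Ioo_mem_nhds ha hb) ?_
  intro y hy
  exact lt_of_lt_of_le h (Mm_ge μ g hy)

theorem measurable_Mm (μ : Measure ℝ) (g : ℝ → ℝ≥0∞) : Measurable (Mm μ g) :=
  measurable_of_Ioi fun t => (isOpen_Mm μ g t).measurableSet

/-- covering lemma: a finite family of open intervals has a subfamily with the same union and
overlap at most two -/
theorem cover2 {ι : Type} (A B : ι → ℝ) (s : Finset ι) :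
    ∃ t ⊆ s, (⋃ i ∈ s, Ioo (A i) (B i)) ⊆ (⋃ i ∈ t, Ioo (A i) (B i)) ∧
      ∀ x : ℝ, (t.filter (fun i => x ∈ Ioo (A i) (B i))).card ≤ 2 := by
  classical
  -- take a subfamily of minimal cardinality
  set P : Finset ι → Prop := fun t => t ⊆ s ∧ (⋃ i ∈ s, Ioo (A i) (B i)) ⊆ (⋃ i ∈ t, Ioo (A i) (B i))
    with hP
  have hne : (s.powerset.filter P).Nonempty := ⟨s, by
    rw [Finset.mem_filter, Finset.mem_powerset]
    exact ⟨le_rfl, le_rfl, le_rfl⟩⟩
  obtain ⟨t, ht, hmin⟩ := Finset.exists_min_image _ Finset.card hne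
  rw [Finset.mem_filter, Finset.mem_powerset] at ht
  refine ⟨t, ht.1, ht.2.2, ?_⟩
  intro x
  by_contra hcon
  push Not at hcon
  set F := t.filter (fun i => x ∈ Ioo (A i) (B i)) with hF
  have hFne : F.Nonempty := Finset.card_pos.1 (by omega)
  obtain ⟨i1, hi1, h1⟩ := Finset.exists_min_image F A hFne
  obtain ⟨i2, hi2, h2⟩ := Finset.exists_max_image F B hFne
  have h3 : ∃ i3 ∈ F, i3 ≠ i1 ∧ i3 ≠ i2 := by
    by_contra hno
    push Not at hno
    have : F ⊆ {i1, i2} := by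
      intro i hi
      rw [Finset.mem_insert, Finset.mem_singleton]
      by_cases h : i = i1
      · left; exact h
      · right; exact hno i hi h
    have := Finset.card_le_card this
    have := Finset.card_le_two (a := i1) (b := i2)
    omega
  obtain ⟨i3, hi3, h31, h32⟩ := h3
  have hm1 := Finset.mem_filter.1 hi1
  have hm2 := Finset.mem_filter.1 hi2
  have hm3 := Finset.mem_filter.1 hi3
  have hsub : Ioo (A i3) (B i3) ⊆ Ioo (A i1) (B i1) ∪ Ioo (A i2) (B i2) := by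
    intro y hy
    rcases lt_or_ge y x with h | h
    · left
      exact ⟨lt_of_le_of_lt (h1 i3 hi3) hy.1, h.trans hm1.2.2⟩
    · right
      exact ⟨lt_of_lt_of_le hm2.2.1 h, lt_of_lt_of_le hy.2 (h2 i3 hi3)⟩
  have hnew : t.erase i3 ∈ s.powerset.filter P := by
    rw [Finset.mem_filter, Finset.mem_powerset]
    have hes : t.erase i3 ⊆ s := (Finset.erase_subset _ _).trans ht.1
    refine ⟨hes, hes, ?_⟩
    refine ht.2.2.trans ?_
    intro y hy
    rw [mem_iUnion₂] at hy ⊢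
    obtain ⟨i, hi, hyi⟩ := hy
    by_cases h : i = i3
    · rw [h] at hyi
      rcases hsub hyi with h' | h'
      · exact ⟨i1, Finset.mem_erase.2 ⟨Ne.symm h31, hm1.1⟩, h'⟩
      · exact ⟨i2, Finset.mem_erase.2 ⟨Ne.symm h32, hm2.1⟩, h'⟩
    · exact ⟨i, Finset.mem_erase.2 ⟨h, hi⟩, hyi⟩
  have := hmin _ hnew
  have h4 := Finset.card_erase_lt_of_mem hm3.1
  omega

/-- weak type (1,1) -/
theorem weak11 (μ : Measure ℝ) [IsLocallyFiniteMeasure μ] (g : ℝ → ℝ≥0∞) (hg : Measurable g)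
    (t : ℝ≥0∞) : t * μ {x | t < Mm μ g x} ≤ 2 * ∫⁻ x, g x ∂μ := by
  classical
  rcases eq_or_ne t ⊤ with htt | htt
  · have : {x | t < Mm μ g x} = ∅ := by
      ext x
      simp [htt]
    rw [this]; simp
  have hopen := isOpen_Mm μ g t
  rw [hopen.measure_eq_iSup_isCompact, ENNReal.mul_iSup]
  refine iSup_le fun K => ?_
  rw [ENNReal.mul_iSup]
  refine iSup_le fun hKE => ?_
  rw [ENNReal.mul_iSup]
  refine iSup_le fun hK => ?_
  -- choose intervals
  have hch : ∀ x : ℝ, ∃ ab : ℝ × ℝ, x ∈ K → (ab.1 < x ∧ x < ab.2 ∧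
      t < (μ (Ioo ab.1 ab.2))⁻¹ * ∫⁻ y in Ioo ab.1 ab.2, g y ∂μ) := by
    intro x
    by_cases hx : x ∈ K
    · obtain ⟨a, b, h1, h2, h3⟩ := lt_Mm (hKE hx)
      exact ⟨(a, b), fun _ => ⟨h1, h2, h3⟩⟩
    · exact ⟨(0, 0), fun h => absurd h hx⟩
  choose ab hab using hch
  obtain ⟨s, hsK, hs⟩ := hK.elim_nhds_subcover (fun x => Ioo (ab x).1 (ab x).2)
    (fun x hx => Ioo_mem_nhds (hab x hx).1 (hab x hx).2.1)
  obtain ⟨u, hus, hu1, hu2⟩ := cover2 (fun x => (ab x).1) (fun x => (ab x).2) s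
  have hint : ∀ x ∈ u, t * μ (Ioo (ab x).1 (ab x).2) ≤ ∫⁻ y in Ioo (ab x).1 (ab x).2, g y ∂μ := by
    intro x hx
    have h := (hab x (hsK x (hus hx))).2.2
    set m := μ (Ioo (ab x).1 (ab x).2) with hm
    rcases eq_or_ne m 0 with h0 | h0
    · rw [h0, mul_zero]; exact bot_le
    · have hmt : m ≠ ⊤ := measure_Ioo_lt_top.ne
      calc t * m ≤ (m⁻¹ * ∫⁻ y in Ioo (ab x).1 (ab x).2, g y ∂μ) * m := by gcongr
        _ = (m⁻¹ * m) * ∫⁻ y in Ioo (ab x).1 (ab x).2, g y ∂μ := by ring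
        _ = _ := by rw [ENNReal.inv_mul_cancel h0 hmt, one_mul]
  calc t * μ K ≤ t * μ (⋃ i ∈ u, Ioo (ab i).1 (ab i).2) := by
        gcongr
        exact hs.trans hu1
    _ ≤ t * ∑ i ∈ u, μ (Ioo (ab i).1 (ab i).2) := by
        gcongr
        exact measure_biUnion_finset_le _ _
    _ = ∑ i ∈ u, t * μ (Ioo (ab i).1 (ab i).2) := Finset.mul_sum _ _ _
    _ ≤ ∑ i ∈ u, ∫⁻ y in Ioo (ab i).1 (ab i).2, g y ∂μ := Finset.sum_le_sum hint
    _ = ∫⁻ y, ∑ i ∈ u, (Ioo (ab i).1 (ab i).2).indicator g y ∂μ := by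
        rw [lintegral_finsetSum _ fun i _ => hg.indicator measurableSet_Ioo]
        exact Finset.sum_congr rfl fun i _ => (lintegral_indicator measurableSet_Ioo _).symm
    _ ≤ ∫⁻ y, 2 * g y ∂μ := by
        refine lintegral_mono fun y => ?_
        calc ∑ i ∈ u, (Ioo (ab i).1 (ab i).2).indicator g y
            = ∑ i ∈ u.filter (fun i => y ∈ Ioo (ab i).1 (ab i).2), g y := by
              rw [Finset.sum_filter]
              refine Finset.sum_congr rfl fun i _ => ?_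
              by_cases h : y ∈ Ioo (ab i).1 (ab i).2
              · rw [indicator_of_mem h, if_pos h]
              · rw [indicator_of_notMem h, if_neg h]
          _ = ((u.filter (fun i => y ∈ Ioo (ab i).1 (ab i).2)).card : ℝ≥0∞) * g y := by
              rw [Finset.sum_const, nsmul_eq_mul]
          _ ≤ 2 * g y := by
              gcongr
              exact_mod_cast hu2 y
    _ = 2 * ∫⁻ x, g x ∂μ := lintegral_const_mul _ hg

/-- localised weak type estimate -/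
theorem weak_loc (μ : Measure ℝ) [IsLocallyFiniteMeasure μ] (g : ℝ → ℝ≥0∞) (hg : Measurable g)
    (t : ℝ≥0∞) : t * μ {x | t + t < Mm μ g x} ≤ 2 * ∫⁻ x in {x | t < g x}, g x ∂μ := by
  have hS : MeasurableSet {x | t < g x} := measurableSet_lt measurable_const hg
  have h1 := weak11 μ ({x | t < g x}.indicator g) (hg.indicator hS) t
  rw [lintegral_indicator hS] at h1
  refine le_trans ?_ h1
  refine mul_le_mul' le_rfl (measure_mono ?_)
  intro x hx
  obtain ⟨a, b, ha, hb, h⟩ := lt_Mm (μ := μ) (g := g) hx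
  refine lt_of_lt_of_le ?_ (Mm_ge μ _ ⟨ha, hb⟩)
  set m := μ (Ioo a b) with hm
  have h2 : ∫⁻ y in Ioo a b, g y ∂μ ≤ t * m + ∫⁻ y in Ioo a b, {x | t < g x}.indicator g y ∂μ := by
    rw [hm, ← setLIntegral_const, ← lintegral_add_left measurable_const]
    refine lintegral_mono fun y => ?_
    by_cases hy : t < g y
    · rw [indicator_of_mem (show y ∈ {x | t < g x} from hy)]
      exact le_add_self
    · exact (not_lt.1 hy).trans le_self_add
  have h3 : t + t < m⁻¹ * (t * m) + m⁻¹ * ∫⁻ y in Ioo a b, {x | t < g x}.indicator g y ∂μ := by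
    refine lt_of_lt_of_le h ?_
    rw [← mul_add]
    gcongr
  have h4 : m⁻¹ * (t * m) ≤ t := by
    calc m⁻¹ * (t * m) = t * (m⁻¹ * m) := by ring
      _ ≤ t * 1 := by gcongr; exact ENNReal.inv_mul_le_one _
      _ = t := mul_one t
  have h5 : t + t < t + m⁻¹ * ∫⁻ y in Ioo a b, {x | t < g x}.indicator g y ∂μ :=
    lt_of_lt_of_le h3 (by gcongr)
  exact lt_of_add_lt_add_left h5

end Pool.Agent.W755.Mz
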