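import Mathlib
import Pool.Agent.W755.MzMax

set_option autoImplicit false

open MeasureTheory Filter Topology Set
open scoped ENNReal NNReal

namespace Pool.Agent.W755.Mz

/-- the constant of the strong type inequality -/
noncomputable def Cq (q : ℝ) : ℝ≥0∞ := ENNReal.ofReal q * ENNReal.ofReal (4 * 2 ^ (q - 1) / (q - 1))

theorem Cq_ne_top (q : ℝ) : Cq q ≠ ⊤ := ENNReal.mul_ne_top ENNReal.ofReal_ne_top ENNReal.ofReal_ne_top

theorem inner_bd {q : ℝ} (hq : 1 < q) (G : ℝ≥0∞) :
    G * ∫⁻ t in Ioi (0 : ℝ), {t : ℝ | ENNReal.ofReal (t / 2) < G}.indicator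
      (fun t => ENNReal.ofReal (4 * t ^ (q - 2))) t ≤
      ENNReal.ofReal (4 * 2 ^ (q - 1) / (q - 1)) * G ^ q := by
  have hq1 : 0 < q - 1 := by linarith
  have hc : 0 < 4 * (2:ℝ) ^ (q - 1) / (q - 1) := by positivity
  rcases eq_or_ne G ⊤ with hG | hG
  · rw [hG, ENNReal.top_rpow_of_pos (by linarith), ENNReal.mul_top (ENNReal.ofReal_pos.2 hc).ne']
    exact le_top
  obtain ⟨g, hg0, hgG⟩ : ∃ g : ℝ, 0 ≤ g ∧ G = ENNReal.ofReal g :=
    ⟨G.toReal, ENNReal.toReal_nonneg, (ENNReal.ofReal_toReal hG).symm⟩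
  rcases eq_or_lt_of_le hg0 with h0 | h0
  · rw [hgG, ← h0, ENNReal.ofReal_zero, zero_mul]; exact bot_le
  have hm : MeasurableSet {t : ℝ | ENNReal.ofReal (t / 2) < G} :=
    measurableSet_lt (by fun_prop) measurable_const
  have e1 : ∫⁻ t in Ioi (0 : ℝ), {t : ℝ | ENNReal.ofReal (t / 2) < G}.indicator
      (fun t => ENNReal.ofReal (4 * t ^ (q - 2))) t =
      ∫⁻ t in Ioo (0:ℝ) (2 * g), ENNReal.ofReal (4 * t ^ (q - 2)) := by
    rw [← lintegral_indicator measurableSet_Ioi, ← lintegral_indicator measurableSet_Ioo]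
    refine lintegral_congr fun t => ?_
    by_cases ht : 0 < t
    · rw [indicator_of_mem (show t ∈ Ioi (0:ℝ) from ht)]
      by_cases h : t < 2 * g
      · rw [indicator_of_mem (show t ∈ {t : ℝ | ENNReal.ofReal (t / 2) < G} by
          show ENNReal.ofReal (t / 2) < G
          rw [hgG, ENNReal.ofReal_lt_ofReal_iff h0]; linarith),
          indicator_of_mem (show t ∈ Ioo 0 (2 * g) from ⟨ht, h⟩)]
      · rw [indicator_of_notMem (show t ∉ {t : ℝ | ENNReal.ofReal (t / 2) < G} by
          show ¬ ENNReal.ofReal (t / 2) < G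
          rw [hgG, ENNReal.ofReal_lt_ofReal_iff h0]; push Not at h ⊢; linarith),
          indicator_of_notMem (show t ∉ Ioo 0 (2 * g) from fun h' => h h'.2)]
    · rw [indicator_of_notMem (show t ∉ Ioi (0:ℝ) from ht),
        indicator_of_notMem (show t ∉ Ioo 0 (2 * g) from fun h' => ht h'.1)]
  have hii : IntervalIntegrable (fun t : ℝ => 4 * t ^ (q - 2)) volume 0 (2 * g) :=
    (intervalIntegral.intervalIntegrable_rpow' (by linarith)).const_mul _
  have e2 : ∫⁻ t in Ioo (0:ℝ) (2 * g), ENNReal.ofReal (4 * t ^ (q - 2)) =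
      ENNReal.ofReal (4 * ((2 * g) ^ (q - 1) / (q - 1))) := by
    have h1 : IntegrableOn (fun t : ℝ => 4 * t ^ (q - 2)) (Ioo 0 (2 * g)) :=
      ((intervalIntegrable_iff_integrableOn_Ioo_of_le (by positivity)).1 hii)
    rw [← ofReal_integral_eq_lintegral_ofReal h1]
    · rw [← integral_Ioc_eq_integral_Ioo, ← intervalIntegral.integral_of_le (by positivity),
        intervalIntegral.integral_const_mul, integral_rpow (Or.inl (by linarith))]
      congr 2
      have : q - 2 + 1 = q - 1 := by ring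
      rw [this, Real.zero_rpow hq1.ne']
      ring
    · refine (ae_restrict_iff' measurableSet_Ioo).2 (Eventually.of_forall fun t ht => ?_)
      have := ht.1
      show (0:ℝ) ≤ 4 * t ^ (q - 2)
      positivity
  rw [e1, e2, hgG, ENNReal.ofReal_rpow_of_pos h0, ← ENNReal.ofReal_mul hg0, ← ENNReal.ofReal_mul hc.le]
  apply ENNReal.ofReal_le_ofReal
  rw [Real.mul_rpow (by norm_num) hg0]
  have : g ^ q = g * g ^ (q - 1) := by
    conv_lhs => rw [show q = 1 + (q - 1) by ring]
    rw [Real.rpow_add h0, Real.rpow_one]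
  rw [this]
  exact le_of_eq (by ring)

theorem strong (μ : Measure ℝ) [IsLocallyFiniteMeasure μ] (g : ℝ → ℝ≥0∞) (hg : Measurable g)
    {q : ℝ} (hq : 1 < q) : ∫⁻ x, Mm μ g x ^ q ∂μ ≤ Cq q * ∫⁻ x, g x ^ q ∂μ := by
  have hq0 : 0 < q := by linarith
  have hMm := measurable_Mm μ g
  have hk : ∀ k : ℕ, ∫⁻ x, (min (Mm μ g x) k) ^ q ∂μ ≤ Cq q * ∫⁻ x, g x ^ q ∂μ := by
    intro k
    set f : ℝ → ℝ := fun x => (min (Mm μ g x) k).toReal with hf
    have hfm : Measurable f := (hMm.min measurable_const).ennreal_toReal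
    have hfin : ∀ x, min (Mm μ g x) k ≠ ⊤ := fun x =>
      (lt_of_le_of_lt (min_le_right _ _) (ENNReal.natCast_lt_top k)).ne
    have hof : ∀ x, ENNReal.ofReal (f x) = min (Mm μ g x) k := fun x => ENNReal.ofReal_toReal (hfin x)
    have e1 : ∫⁻ x, (min (Mm μ g x) k) ^ q ∂μ = ∫⁻ x, ENNReal.ofReal (f x ^ q) ∂μ := by
      refine lintegral_congr fun x => ?_
      rw [← hof, ENNReal.ofReal_rpow_of_nonneg ENNReal.toReal_nonneg hq0.le]
    rw [e1, lintegral_rpow_eq_lintegral_meas_lt_mul μ
      (Eventually.of_forall fun x => ENNReal.toReal_nonneg) hfm.aemeasurable hq0]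
    unfold Cq
    rw [mul_assoc]
    refine mul_le_mul' le_rfl ?_
    have hlev : ∀ t ∈ Ioi (0:ℝ), μ {a | t < f a} * ENNReal.ofReal (t ^ (q - 1)) ≤
        ∫⁻ y, g y * {t : ℝ | ENNReal.ofReal (t / 2) < g y}.indicator
          (fun t => ENNReal.ofReal (4 * t ^ (q - 2))) t ∂μ := by
      intro t ht
      have ht0 : 0 < t := ht
      set s : ℝ≥0∞ := ENNReal.ofReal (t / 2) with hs
      have hss : s + s = ENNReal.ofReal t := by
        rw [hs, ← ENNReal.ofReal_add (by positivity) (by positivity)]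
        congr 1; ring
      have h1 : μ {a | t < f a} ≤ μ {x | s + s < Mm μ g x} := by
        refine measure_mono fun x hx => ?_
        show s + s < Mm μ g x
        rw [hss]
        have hx' : t < f x := hx
        have h2 : ENNReal.ofReal t < ENNReal.ofReal (f x) :=
          (ENNReal.ofReal_lt_ofReal_iff (ht0.trans hx')).2 hx'
        rw [hof] at h2
        exact lt_of_lt_of_le h2 (min_le_left _ _)
      have h2 := weak_loc μ g hg s
      have hS : MeasurableSet {x | s < g x} := measurableSet_lt measurable_const hg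
      have e3 : ENNReal.ofReal (t ^ (q - 1)) = s * ENNReal.ofReal (2 * t ^ (q - 2)) := by
        rw [hs, ← ENNReal.ofReal_mul (by positivity)]
        congr 1
        have : t ^ (q - 1) = t * t ^ (q - 2) := by
          conv_lhs => rw [show q - 1 = 1 + (q - 2) by ring]
          rw [Real.rpow_add ht0, Real.rpow_one]
        rw [this]; ring
      calc μ {a | t < f a} * ENNReal.ofReal (t ^ (q - 1))
          ≤ μ {x | s + s < Mm μ g x} * (s * ENNReal.ofReal (2 * t ^ (q - 2))) := by
            rw [e3]; gcongr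
        _ = (s * μ {x | s + s < Mm μ g x}) * ENNReal.ofReal (2 * t ^ (q - 2)) := by ring
        _ ≤ (2 * ∫⁻ x in {x | s < g x}, g x ∂μ) * ENNReal.ofReal (2 * t ^ (q - 2)) := by gcongr
        _ = (∫⁻ x in {x | s < g x}, g x ∂μ) * ENNReal.ofReal (4 * t ^ (q - 2)) := by
            have : ENNReal.ofReal (4 * t ^ (q - 2)) = 2 * ENNReal.ofReal (2 * t ^ (q - 2)) := by
              rw [show (2:ℝ≥0∞) = ENNReal.ofReal 2 by norm_num, ← ENNReal.ofReal_mul (by norm_num)]
              congr 1; ring
            rw [this]; ring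
        _ = ∫⁻ y, {x | s < g x}.indicator g y * ENNReal.ofReal (4 * t ^ (q - 2)) ∂μ := by
            rw [lintegral_mul_const _ (hg.indicator hS), lintegral_indicator hS]
        _ = _ := by
            refine lintegral_congr fun y => ?_
            by_cases h : s < g y
            · rw [indicator_of_mem (show y ∈ {x | s < g x} from h),
                indicator_of_mem (show t ∈ {t : ℝ | ENNReal.ofReal (t / 2) < g y} from h)]
            · rw [indicator_of_notMem (show y ∉ {x | s < g x} from h),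
                indicator_of_notMem (show t ∉ {t : ℝ | ENNReal.ofReal (t / 2) < g y} from h)]
              simp
    have hmeas : Measurable (Function.uncurry fun (t : ℝ) (y : ℝ) => g y *
        {t : ℝ | ENNReal.ofReal (t / 2) < g y}.indicator (fun t => ENNReal.ofReal (4 * t ^ (q - 2))) t) := by
      have hset : MeasurableSet {z : ℝ × ℝ | ENNReal.ofReal (z.1 / 2) < g z.2} :=
        measurableSet_lt (by fun_prop) (hg.comp measurable_snd)
      have : (Function.uncurry fun (t : ℝ) (y : ℝ) => g y *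
          {t : ℝ | ENNReal.ofReal (t / 2) < g y}.indicator (fun t => ENNReal.ofReal (4 * t ^ (q - 2))) t) =
          fun z : ℝ × ℝ => g z.2 * {z : ℝ × ℝ | ENNReal.ofReal (z.1 / 2) < g z.2}.indicator
            (fun z => ENNReal.ofReal (4 * z.1 ^ (q - 2))) z := by
        ext ⟨t, y⟩
        simp only [Function.uncurry, indicator]
        rfl
      rw [this]
      refine (hg.comp measurable_snd).mul (Measurable.indicator ?_ hset)
      exact ((measurable_fst.pow_const _).const_mul _).ennreal_ofReal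
    calc ∫⁻ t in Ioi (0:ℝ), μ {a | t < f a} * ENNReal.ofReal (t ^ (q - 1))
        ≤ ∫⁻ t in Ioi (0:ℝ), ∫⁻ y, g y * {t : ℝ | ENNReal.ofReal (t / 2) < g y}.indicator
          (fun t => ENNReal.ofReal (4 * t ^ (q - 2))) t ∂μ := setLIntegral_mono' measurableSet_Ioi hlev
      _ = ∫⁻ y, (∫⁻ t in Ioi (0:ℝ), g y * {t : ℝ | ENNReal.ofReal (t / 2) < g y}.indicator
          (fun t => ENNReal.ofReal (4 * t ^ (q - 2))) t) ∂μ :=
          lintegral_lintegral_swap hmeas.aemeasurable
      _ ≤ ∫⁻ y, ENNReal.ofReal (4 * 2 ^ (q - 1) / (q - 1)) * g y ^ q ∂μ := by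
          refine lintegral_mono fun y => ?_
          have hm : MeasurableSet {t : ℝ | ENNReal.ofReal (t / 2) < g y} :=
            measurableSet_lt (by fun_prop) measurable_const
          rw [lintegral_const_mul]
          · exact inner_bd hq (g y)
          · exact Measurable.indicator (by fun_prop) hm
      _ = _ := lintegral_const_mul _ (hg.pow_const _)
  have hsup : ∀ x, Mm μ g x ^ q = ⨆ k : ℕ, (min (Mm μ g x) k) ^ q := by
    intro x
    have h1 : (⨆ k : ℕ, min (Mm μ g x) k) ^ q = ⨆ k : ℕ, (min (Mm μ g x) k) ^ q :=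
      OrderIso.map_iSup (ENNReal.orderIsoRpow q hq0) _
    rw [← h1]
    congr 1
    apply le_antisymm
    · apply le_of_forall_lt
      intro c hc
      obtain ⟨k, hk⟩ := ENNReal.exists_nat_gt (ne_top_of_lt hc)
      exact lt_of_lt_of_le (lt_min hc hk) (le_iSup (fun k : ℕ => min (Mm μ g x) (k : ℝ≥0∞)) k)
    · exact iSup_le fun k => min_le_left _ _
  simp_rw [hsup]
  rw [lintegral_iSup]
  · exact iSup_le hk
  · intro k
    exact (hMm.min measurable_const).pow_const _
  · intro i j hij x
    refine ENNReal.rpow_le_rpow ?_ hq0.le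
    exact min_le_min_left _ (by exact_mod_cast hij)

end Pool.Agent.W755.Mz
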