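import Mathlib
import Pool.Agent.W755.MzStrong
import Pool.Agent.W755.MzLoc

set_option autoImplicit false

open MeasureTheory Filter Topology Set
open scoped ENNReal NNReal

namespace Pool.Agent.W755.Mz

/-- the `A_p` inequality with constant `K` -/
def ApC (p : ℝ) (W : ℝ → ℝ) (K : ℝ≥0) : Prop := ∀ a b : ℝ, a < b →
  ((ENNReal.ofReal (b - a))⁻¹ * ∫⁻ x in Ioo a b, ENNReal.ofReal (W x)) *
    ((ENNReal.ofReal (b - a))⁻¹ *
      ∫⁻ x in Ioo a b, ENNReal.ofReal (W x) ^ (-(1 / (p - 1)))) ^ (p - 1) ≤ K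

theorem ss_ne_top {p : ℝ} (hp : 1 < p) {W : ℝ → ℝ} {x : ℝ} (hx : 0 < W x) : ss p W x ≠ ⊤ := by
  unfold ss
  have : 0 < p - 1 := by linarith
  rw [ENNReal.rpow_neg]
  exact ENNReal.inv_ne_top.2 (rp_ne_zero' hx)
where
  rp_ne_zero' {q : ℝ} {y : ℝ} (hy : 0 < y) : ENNReal.ofReal y ^ q ≠ 0 :=
    (ENNReal.rpow_pos (ENNReal.ofReal_pos.2 hy) ENNReal.ofReal_ne_top).ne'

theorem pos_meas {w : ℝ → ℝ≥0∞} (hw : Measurable w) (hpos : ∀ᵐ x, 0 < w x) {a b : ℝ} (hab : a < b) :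
    (volume.withDensity w) (Ioo a b) ≠ 0 := by
  rw [withDensity_apply _ measurableSet_Ioo]
  intro h0
  rw [lintegral_eq_zero_iff hw] at h0
  have h1 : ∀ᵐ x ∂(volume.restrict (Ioo a b)), False := by
    filter_upwards [h0, ae_restrict_of_ae hpos] with x hx1 hx2
    exact hx2.ne' hx1
  have h2 : volume.restrict (Ioo a b) = 0 := by
    rw [← Measure.measure_univ_eq_zero]
    have := ae_iff.1 h1
    simpa using this
  rw [Measure.restrict_eq_zero, Real.volume_Ioo] at h2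
  exact (ENNReal.ofReal_pos.2 (sub_pos.2 hab)).ne' h2

section

variable {p : ℝ} (hp : 1 < p) {W : ℝ → ℝ} (hWm : Measurable W) (hpos : ∀ᵐ x, 0 < W x) {K : ℝ≥0}
  (hK : ApC p W K)

include hp hWm hpos hK

theorem ap_meas {a b : ℝ} (hab : a < b) :
    (ENNReal.ofReal (b - a))⁻¹ * mU W (Ioo a b) *
      ((ENNReal.ofReal (b - a))⁻¹ * mS p W (Ioo a b)) ^ (p - 1) ≤ K := by
  rw [mU_apply measurableSet_Ioo, mS_apply measurableSet_Ioo]
  exact hK a b hab

theorem ap_fin {a b : ℝ} (hab : a < b) : mU W (Ioo a b) ≠ ⊤ ∧ mS p W (Ioo a b) ≠ ⊤ := by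
  have hp1 : 0 < p - 1 := by linarith
  have h := ap_meas hp hWm hpos hK hab
  set ρ := ENNReal.ofReal (b - a) with hρ
  have hρ0 : ρ ≠ 0 := (ENNReal.ofReal_pos.2 (sub_pos.2 hab)).ne'
  have hρi0 : ρ⁻¹ ≠ 0 := ENNReal.inv_ne_zero.2 ENNReal.ofReal_ne_top
  have hu0 : mU W (Ioo a b) ≠ 0 := pos_meas hWm.ennreal_ofReal
    (hpos.mono fun x hx => ENNReal.ofReal_pos.2 hx) hab
  have hs0 : mS p W (Ioo a b) ≠ 0 := pos_meas (measurable_ss hWm)
    (Eventually.of_forall fun x => ss_pos hp x) hab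
  constructor
  · intro htop
    rw [htop, ENNReal.mul_top hρi0, ENNReal.top_mul] at h
    · exact ENNReal.coe_ne_top (top_le_iff.1 h)
    · intro h0
      rw [ENNReal.rpow_eq_zero_iff] at h0
      rcases h0 with h0 | h0
      · exact (mul_ne_zero hρi0 hs0) h0.1
      · linarith [h0.2]
  · intro htop
    rw [htop, ENNReal.mul_top hρi0, ENNReal.top_rpow_of_pos hp1, ENNReal.mul_top] at h
    · exact ENNReal.coe_ne_top (top_le_iff.1 h)
    · exact mul_ne_zero hρi0 hu0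

theorem lf_mU : IsLocallyFiniteMeasure (mU W) :=
  ⟨fun x => ⟨Ioo (x - 1) (x + 1), Ioo_mem_nhds (by linarith) (by linarith),
    lt_top_iff_ne_top.2 (ap_fin hp hWm hpos hK (by linarith)).1⟩⟩

theorem lf_mS : IsLocallyFiniteMeasure (mS p W) :=
  ⟨fun x => ⟨Ioo (x - 1) (x + 1), Ioo_mem_nhds (by linarith) (by linarith),
    lt_top_iff_ne_top.2 (ap_fin hp hWm hpos hK (by linarith)).2⟩⟩

theorem lerner_pt (f : ℝ → ℝ≥0∞) (hf : Measurable f) (x : ℝ) :
    Mm volume f x ^ (p - 1) ≤ K * Mm (mU W)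
      (fun y => Mm (mS p W) (fun z => f z * (ss p W z)⁻¹) y ^ (p - 1) * (ENNReal.ofReal (W y))⁻¹) x := by
  have hp1 : 0 < p - 1 := by linarith
  set h : ℝ → ℝ≥0∞ := fun z => f z * (ss p W z)⁻¹ with hh
  have hhm : Measurable h := hf.mul (measurable_ss hWm).inv
  set G : ℝ → ℝ≥0∞ := fun y => Mm (mS p W) h y ^ (p - 1) * (ENNReal.ofReal (W y))⁻¹ with hG
  have hGm : Measurable G := ((measurable_Mm _ _).pow_const _).mul hWm.ennreal_ofReal.inv
  have key : ∀ a b : ℝ, a < x ∧ x < b →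
      ((volume (Ioo a b))⁻¹ * ∫⁻ y in Ioo a b, f y) ^ (p - 1) ≤ K * Mm (mU W) G x := by
    intro a b hab
    have hab' : a < b := hab.1.trans hab.2
    have hap := ap_meas hp hWm hpos hK hab'
    obtain ⟨hut, hst⟩ := ap_fin hp hWm hpos hK hab'
    have hu0 : mU W (Ioo a b) ≠ 0 := pos_meas hWm.ennreal_ofReal
      (hpos.mono fun x hx => ENNReal.ofReal_pos.2 hx) hab'
    have hs0 : mS p W (Ioo a b) ≠ 0 := pos_meas (measurable_ss hWm)
      (Eventually.of_forall fun x => ss_pos hp x) hab'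
    rw [Real.volume_Ioo]
    set ρ := ENNReal.ofReal (b - a) with hρ
    have hρ0 : ρ ≠ 0 := (ENNReal.ofReal_pos.2 (sub_pos.2 hab')).ne'
    have hρt : ρ ≠ ⊤ := ENNReal.ofReal_ne_top
    set u := mU W (Ioo a b) with hu
    set s := mS p W (Ioo a b) with hs
    set m := s⁻¹ * ∫⁻ y in Ioo a b, h y ∂(mS p W) with hm
    have e1 : ∫⁻ y in Ioo a b, f y = s * m := by
      rw [hm, ← mul_assoc, ENNReal.mul_inv_cancel hs0 hst, one_mul, lint_mS hWm measurableSet_Ioo hhm]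
      refine lintegral_congr_ae (ae_restrict_of_ae ?_)
      filter_upwards [hpos] with y hy
      rw [hh]
      simp only
      rw [mul_assoc, ENNReal.inv_mul_cancel (ss_pos hp y).ne' (ss_ne_top hp hy), mul_one]
    have e2 : (ρ⁻¹ * s) ^ (p - 1) ≤ K * ρ * u⁻¹ := by
      calc (ρ⁻¹ * s) ^ (p - 1) = (ρ⁻¹ * ρ) * (u * u⁻¹) * (ρ⁻¹ * s) ^ (p - 1) := by
            rw [ENNReal.inv_mul_cancel hρ0 hρt, ENNReal.mul_inv_cancel hu0 hut, one_mul, one_mul]
        _ = (ρ⁻¹ * u * (ρ⁻¹ * s) ^ (p - 1)) * ρ * u⁻¹ := by ring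
        _ ≤ K * ρ * u⁻¹ := by gcongr
    have e3 : ρ * m ^ (p - 1) ≤ ∫⁻ y in Ioo a b, G y ∂(mU W) := by
      rw [lint_mU hWm measurableSet_Ioo hGm]
      calc ρ * m ^ (p - 1) = ∫⁻ y in Ioo a b, m ^ (p - 1) := by
            rw [setLIntegral_const, Real.volume_Ioo, mul_comm]
        _ ≤ ∫⁻ y in Ioo a b, Mm (mS p W) h y ^ (p - 1) := by
            refine setLIntegral_mono' measurableSet_Ioo fun y hy => ?_
            exact ENNReal.rpow_le_rpow (Mm_ge _ _ hy) hp1.le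
        _ = _ := by
            refine lintegral_congr_ae (ae_restrict_of_ae ?_)
            filter_upwards [hpos] with y hy
            rw [hG]
            simp only
            rw [mul_assoc, ENNReal.inv_mul_cancel (ENNReal.ofReal_pos.2 hy).ne' ENNReal.ofReal_ne_top,
              mul_one]
    calc (ρ⁻¹ * ∫⁻ y in Ioo a b, f y) ^ (p - 1) = (ρ⁻¹ * s) ^ (p - 1) * m ^ (p - 1) := by
          rw [e1, ← mul_assoc, ENNReal.mul_rpow_of_nonneg _ _ hp1.le]
      _ ≤ (K * ρ * u⁻¹) * m ^ (p - 1) := by gcongr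
      _ = K * (u⁻¹ * (ρ * m ^ (p - 1))) := by ring
      _ ≤ K * (u⁻¹ * ∫⁻ y in Ioo a b, G y ∂(mU W)) := by gcongr
      _ ≤ K * Mm (mU W) G x := by gcongr; exact Mm_ge _ _ hab
  have hlt : ∀ c : ℝ≥0∞, c < Mm volume f x → c ^ (p - 1) ≤ K * Mm (mU W) G x := by
    intro c hc
    obtain ⟨a, b, ha, hb, h1⟩ := lt_Mm hc
    exact (ENNReal.rpow_le_rpow h1.le hp1.le).trans (key a b ⟨ha, hb⟩)
  -- pass to the supremum
  have hinv : Mm volume f x ≤ (K * Mm (mU W) G x) ^ (1 / (p - 1)) := by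
    apply le_of_forall_lt
    intro c hc
    obtain ⟨c', hc1, hc2⟩ := exists_between hc
    refine lt_of_lt_of_le hc1 ?_
    have := ENNReal.rpow_le_rpow (hlt c' hc2) (by positivity : (0:ℝ) ≤ 1 / (p - 1))
    rwa [← ENNReal.rpow_mul, mul_one_div_cancel hp1.ne', ENNReal.rpow_one] at this
  calc Mm volume f x ^ (p - 1) ≤ ((K * Mm (mU W) G x) ^ (1 / (p - 1))) ^ (p - 1) :=
        ENNReal.rpow_le_rpow hinv hp1.le
    _ = _ := by rw [← ENNReal.rpow_mul, one_div_mul_cancel hp1.ne', ENNReal.rpow_one]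

/-- Muckenhoupt's maximal theorem (proof of Lerner) -/
theorem muckenhoupt (f : ℝ → ℝ≥0∞) (hf : Measurable f) :
    ∫⁻ x, Mm volume f x ^ p ∂(mU W) ≤
      (K : ℝ≥0∞) ^ (p / (p - 1)) * (Cq (p / (p - 1)) * Cq p) * ∫⁻ x, f x ^ p ∂(mU W) := by
  have hp0 : 0 < p := by linarith
  have hp1 : 0 < p - 1 := by linarith
  have hp' : 1 < p / (p - 1) := by rw [lt_div_iff₀ hp1]; linarith
  have := lf_mU hp hWm hpos hK
  have := lf_mS hp hWm hpos hK
  set h : ℝ → ℝ≥0∞ := fun z => f z * (ss p W z)⁻¹ with hh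
  have hhm : Measurable h := hf.mul (measurable_ss hWm).inv
  set G : ℝ → ℝ≥0∞ := fun y => Mm (mS p W) h y ^ (p - 1) * (ENNReal.ofReal (W y))⁻¹ with hG
  have hGm : Measurable G := ((measurable_Mm _ _).pow_const _).mul hWm.ennreal_ofReal.inv
  have e0 : (p - 1) * (p / (p - 1)) = p := by field_simp
  have hMm := measurable_Mm (mS p W) h
  calc ∫⁻ x, Mm volume f x ^ p ∂(mU W) = ∫⁻ x, (Mm volume f x ^ (p - 1)) ^ (p / (p - 1)) ∂(mU W) := by
        refine lintegral_congr fun x => ?_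
        rw [← ENNReal.rpow_mul, e0]
    _ ≤ ∫⁻ x, (K * Mm (mU W) G x) ^ (p / (p - 1)) ∂(mU W) := by
        refine lintegral_mono fun x => ?_
        exact ENNReal.rpow_le_rpow (lerner_pt hp hWm hpos hK f hf x) (by positivity)
    _ = (K : ℝ≥0∞) ^ (p / (p - 1)) * ∫⁻ x, Mm (mU W) G x ^ (p / (p - 1)) ∂(mU W) := by
        rw [← lintegral_const_mul _ ((measurable_Mm _ _).pow_const _)]
        refine lintegral_congr fun x => ?_
        exact ENNReal.mul_rpow_of_nonneg _ _ (by positivity)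
    _ ≤ (K : ℝ≥0∞) ^ (p / (p - 1)) * (Cq (p / (p - 1)) * ∫⁻ x, G x ^ (p / (p - 1)) ∂(mU W)) := by
        gcongr
        exact strong (mU W) G hGm hp'
    _ = (K : ℝ≥0∞) ^ (p / (p - 1)) * (Cq (p / (p - 1)) * ∫⁻ x, Mm (mS p W) h x ^ p ∂(mS p W)) := by
        congr 2
        have e1 := lint_mU hWm MeasurableSet.univ (hGm.pow_const (p / (p - 1)))
        have e2 := lint_mS (p := p) hWm MeasurableSet.univ (hMm.pow_const p)
        simp only [Measure.restrict_univ] at e1 e2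
        rw [e1, e2]
        refine lintegral_congr_ae ?_
        filter_upwards [hpos] with y hy
        have hy0 : ENNReal.ofReal (W y) ≠ 0 := (ENNReal.ofReal_pos.2 hy).ne'
        rw [hG]
        simp only
        rw [ENNReal.mul_rpow_of_nonneg _ _ (by positivity), ← ENNReal.rpow_mul, e0, mul_assoc]
        congr 1
        unfold ss
        rw [← ENNReal.rpow_neg_one, ← ENNReal.rpow_mul]
        conv_lhs => rw [← ENNReal.rpow_one (ENNReal.ofReal (W y)), ← ENNReal.rpow_mul]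
        rw [← ENNReal.rpow_add _ _ hy0 ENNReal.ofReal_ne_top]
        congr 1
        field_simp
        ring
    _ ≤ (K : ℝ≥0∞) ^ (p / (p - 1)) * (Cq (p / (p - 1)) * (Cq p * ∫⁻ x, h x ^ p ∂(mS p W))) := by
        gcongr
        exact strong (mS p W) h hhm hp
    _ = (K : ℝ≥0∞) ^ (p / (p - 1)) * (Cq (p / (p - 1)) * (Cq p * ∫⁻ x, f x ^ p ∂(mU W))) := by
        congr 3
        have e1 := lint_mS (p := p) hWm MeasurableSet.univ (hhm.pow_const p)
        have e2 := lint_mU hWm MeasurableSet.univ (hf.pow_const p)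
        simp only [Measure.restrict_univ] at e1 e2
        rw [e1, e2]
        refine lintegral_congr_ae ?_
        filter_upwards [hpos] with y hy
        have hy0 : ENNReal.ofReal (W y) ≠ 0 := (ENNReal.ofReal_pos.2 hy).ne'
        rw [hh]
        simp only
        rw [ENNReal.mul_rpow_of_nonneg _ _ hp0.le, mul_assoc]
        congr 1
        unfold ss
        rw [← ENNReal.rpow_neg_one, ← ENNReal.rpow_mul, ← ENNReal.rpow_mul,
          ← ENNReal.rpow_add _ _ hy0 ENNReal.ofReal_ne_top]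
        conv_rhs => rw [← ENNReal.rpow_one (ENNReal.ofReal (W y))]
        congr 1
        field_simp
        ring
    _ = _ := by ring

end

end Pool.Agent.W755.Mz
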