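import Mathlib
import Pool.Agent.W755.MzMuck

set_option autoImplicit false

open MeasureTheory Filter Topology Set
open scoped ENNReal NNReal

namespace Pool.Agent.W755.Mz

/-- length of the dyadic intervals of generation `n` -/
noncomputable def hh (a b : ℝ) (n : ℕ) : ℝ := (b - a) / 2 ^ n

/-- index of the dyadic interval of generation `n` containing `x` -/
noncomputable def idx (a b : ℝ) (n : ℕ) (x : ℝ) : ℤ := ⌊(x - a) / hh a b n⌋

/-- dyadic interval -/
noncomputable def QQ (a b : ℝ) (n : ℕ) (k : ℤ) : Set ℝ := Ico (a + k * hh a b n) (a + (k + 1) * hh a b n)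

section

variable {a b : ℝ} (hab : a < b)
include hab

theorem hh_pos (n : ℕ) : 0 < hh a b n := by
  unfold hh
  have : 0 < b - a := sub_pos.2 hab
  positivity

theorem mem_QQ {n : ℕ} {k : ℤ} {x : ℝ} : x ∈ QQ a b n k ↔ idx a b n x = k := by
  have h := hh_pos hab n
  unfold QQ idx
  rw [Int.floor_eq_iff, mem_Ico, le_div_iff₀ h, div_lt_iff₀ h]
  constructor
  · rintro ⟨h1, h2⟩
    exact ⟨by linarith, by linarith⟩
  · rintro ⟨h1, h2⟩
    exact ⟨by linarith, by linarith⟩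

theorem vol_QQ (n : ℕ) (k : ℤ) : volume (QQ a b n k) = ENNReal.ofReal (hh a b n) := by
  unfold QQ
  rw [Real.volume_Ico]
  congr 1
  ring

theorem hh_succ (n : ℕ) : hh a b n = 2 * hh a b (n + 1) := by
  unfold hh
  rw [pow_succ]
  field_simp

theorem idx_succ (n : ℕ) (x : ℝ) : idx a b n x = idx a b (n + 1) x / 2 := by
  unfold idx
  have h := hh_pos hab (n + 1)
  have : (x - a) / hh a b n = ((x - a) / hh a b (n + 1)) / ((2 : ℕ) : ℝ) := by
    rw [hh_succ hab n]
    push_cast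
    field_simp
  rw [this, Int.floor_div_natCast]
  rfl

theorem idx_mono {n m : ℕ} (hnm : m ≤ n) {x y : ℝ} (h : idx a b n x = idx a b n y) :
    idx a b m x = idx a b m y := by
  induction n, hnm using Nat.le_induction with
  | base => exact h
  | succ n hmn ih =>
    apply ih
    rw [idx_succ hab n x, idx_succ hab n y, h]

theorem idx_zero {x : ℝ} : idx a b 0 x = 0 ↔ x ∈ Ico a b := by
  rw [← mem_QQ hab]
  unfold QQ hh
  simp

theorem QQ_sub {n m : ℕ} (hnm : m ≤ n) {x : ℝ} :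
    QQ a b n (idx a b n x) ⊆ QQ a b m (idx a b m x) := by
  intro y hy
  rw [mem_QQ hab] at hy ⊢
  exact idx_mono hab hnm hy

/-- one step of the iteration -/
theorem step_dy {μ : Measure ℝ} {β : ℝ≥0∞}
    (hμ : ∀ c d : ℝ, c < d → ∀ F : Set ℝ, MeasurableSet F → F ⊆ Ico c d →
      2 * volume F ≤ ENNReal.ofReal (d - c) → μ F ≤ β * μ (Ico c d))
    {E : Set ℝ} (hEm : MeasurableSet E) (hEI : E ⊆ Ico a b)
    (hE : ∀ x ∈ E, ∃ n, QQ a b n (idx a b n x) ⊆ E) (hvol : 4 * volume E ≤ ENNReal.ofReal (b - a)) :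
    ∃ G : Set ℝ, MeasurableSet G ∧ G ⊆ Ico a b ∧ (∀ x ∈ G, ∃ n, QQ a b n (idx a b n x) ⊆ G) ∧
      volume G ≤ 4 * volume E ∧ μ E ≤ β * μ G := by
  classical
  set sel : ℕ → ℤ → Prop := fun n k => volume (QQ a b n k) < 4 * volume (E ∩ QQ a b n k) with hsel
  set P : ℕ × ℤ → Prop := fun i => sel i.1 i.2 ∧ ∀ m < i.1, ∀ x ∈ QQ a b i.1 i.2, ¬ sel m (idx a b m x)
    with hP
  set Q : {i : ℕ × ℤ // P i} → Set ℝ := fun i => QQ a b i.1.1 i.1.2 with hQ
  have hQm : ∀ i, MeasurableSet (Q i) := fun i => measurableSet_Ico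
  set G : Set ℝ := ⋃ i, Q i with hG
  have hGm : MeasurableSet G := MeasurableSet.iUnion hQm
  have hdisj : Pairwise (Function.onFun Disjoint Q) := by
    rintro ⟨⟨n, k⟩, hi⟩ ⟨⟨m, l⟩, hj⟩ hne
    rw [Function.onFun, Set.disjoint_left]
    intro x hx hy
    have h1 := (mem_QQ hab).1 hx
    have h2 := (mem_QQ hab).1 hy
    simp only at h1 h2
    rcases lt_trichotomy n m with h | h | h
    · have := hj.2 n h x hy
      rw [h1] at this
      exact this hi.1
    · subst h
      apply hne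
      rw [h1] at h2
      subst h2
      rfl
    · have := hi.2 m h x hx
      rw [h2] at this
      exact this hj.1
  have hnz : ∀ i : {i : ℕ × ℤ // P i}, i.1.1 ≠ 0 := by
    rintro ⟨⟨n, k⟩, hi⟩ h0
    simp only at h0
    subst h0
    have h1 : volume (QQ a b 0 k) < 4 * volume (E ∩ QQ a b 0 k) := hi.1
    rw [vol_QQ hab] at h1
    have h2 : hh a b 0 = b - a := by unfold hh; simp
    rw [h2] at h1
    have h3 : 4 * volume (E ∩ QQ a b 0 k) ≤ 4 * volume E := by
      gcongr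
      exact inter_subset_left
    exact absurd (h1.trans_le (h3.trans hvol)) (lt_irrefl _)
  have hsmall : ∀ i : {i : ℕ × ℤ // P i}, 2 * volume (E ∩ Q i) ≤ ENNReal.ofReal (hh a b i.1.1) := by
    rintro ⟨⟨n, k⟩, hi⟩
    have hn0 := hnz ⟨⟨n, k⟩, hi⟩
    simp only at hn0
    obtain ⟨m, rfl⟩ := Nat.exists_eq_succ_of_ne_zero hn0
    have hmem : a + k * hh a b (m + 1) ∈ QQ a b (m + 1) k := by
      have := hh_pos hab (m + 1)
      exact ⟨le_rfl, by nlinarith⟩
    have h1 := hi.2 m (Nat.lt_succ_self m) _ hmem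
    rw [hsel] at h1
    simp only [not_lt] at h1
    rw [vol_QQ hab, hh_succ hab m, ENNReal.ofReal_mul (by norm_num)] at h1
    have h2 : QQ a b (m + 1) k ⊆ QQ a b m (idx a b m (a + k * hh a b (m + 1))) := by
      have h3 := QQ_sub hab (Nat.le_succ m) (x := a + k * hh a b (m + 1))
      rw [(mem_QQ hab).1 hmem] at h3
      exact h3
    have h3 : 4 * volume (E ∩ QQ a b (m + 1) k) ≤ 2 * ENNReal.ofReal (hh a b (m + 1)) := by
      refine le_trans ?_ (h1.trans (le_of_eq (by norm_num)))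
      gcongr
    show 2 * volume (E ∩ QQ a b (m + 1) k) ≤ ENNReal.ofReal (hh a b (m + 1))
    have h4 : 2 * (2 * volume (E ∩ QQ a b (m + 1) k)) ≤ 2 * ENNReal.ofReal (hh a b (m + 1)) := by
      refine le_trans (le_of_eq ?_) h3
      ring
    exact (ENNReal.mul_le_mul_iff_right (by norm_num) (by norm_num)).1 h4
  have hEG : E ⊆ G := by
    intro x hx
    have hex : ∃ n, sel n (idx a b n x) := by
      obtain ⟨n, hn⟩ := hE x hx
      refine ⟨n, ?_⟩
      show volume (QQ a b n (idx a b n x)) < 4 * volume (E ∩ QQ a b n (idx a b n x))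
      rw [inter_eq_right.2 hn, vol_QQ hab]
      have h1 : ENNReal.ofReal (hh a b n) ≠ 0 := (ENNReal.ofReal_pos.2 (hh_pos hab n)).ne'
      calc ENNReal.ofReal (hh a b n) < ENNReal.ofReal (hh a b n) + ENNReal.ofReal (hh a b n) :=
            ENNReal.lt_add_right ENNReal.ofReal_ne_top h1
        _ = 2 * ENNReal.ofReal (hh a b n) := by ring
        _ ≤ 4 * ENNReal.ofReal (hh a b n) := by gcongr; norm_num
    set n := Nat.find hex with hn
    have hn1 : sel n (idx a b n x) := Nat.find_spec hex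
    have hPi : P (n, idx a b n x) := by
      refine ⟨hn1, fun m hm y hy => ?_⟩
      have h1 : idx a b n y = idx a b n x := (mem_QQ hab).1 hy
      rw [idx_mono hab hm.le h1]
      exact Nat.find_min hex hm
    exact mem_iUnion.2 ⟨⟨(n, idx a b n x), hPi⟩, (mem_QQ hab).2 rfl⟩
  have hEdec : ∀ ν : Measure ℝ, ν E = ∑' i, ν (E ∩ Q i) := by
    intro ν
    have h1 : E = ⋃ i, E ∩ Q i := by
      rw [← inter_iUnion]
      exact (inter_eq_left.2 hEG).symm
    conv_lhs => rw [h1]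
    refine measure_iUnion ?_ fun i => hEm.inter (hQm i)
    intro i j hij
    exact (hdisj hij).mono inter_subset_right inter_subset_right
  refine ⟨G, hGm, ?_, ?_, ?_, ?_⟩
  · intro y hy
    obtain ⟨⟨⟨n, k⟩, hi⟩, hyi⟩ := mem_iUnion.1 hy
    have h1 : volume (QQ a b n k) < 4 * volume (E ∩ QQ a b n k) := hi.1
    have h2 : volume (E ∩ QQ a b n k) ≠ 0 := by
      intro h0
      rw [h0, mul_zero] at h1
      exact absurd h1 not_lt_bot
    obtain ⟨x, hx⟩ := nonempty_of_measure_ne_zero h2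
    have h3 : idx a b n x = k := (mem_QQ hab).1 hx.2
    have h4 : idx a b n y = k := (mem_QQ hab).1 hyi
    have h5 : idx a b 0 y = idx a b 0 x := idx_mono hab (Nat.zero_le n) (h4.trans h3.symm)
    rw [← idx_zero hab, h5, idx_zero hab]
    exact hEI hx.1
  · intro y hy
    obtain ⟨i, hyi⟩ := mem_iUnion.1 hy
    have h4 : idx a b i.1.1 y = i.1.2 := (mem_QQ hab).1 hyi
    refine ⟨i.1.1, ?_⟩
    rw [h4]
    exact subset_iUnion Q i
  · rw [hG, measure_iUnion hdisj hQm, hEdec volume, ← ENNReal.tsum_mul_left]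
    exact ENNReal.tsum_le_tsum fun i => i.2.1.le
  · rw [hG, measure_iUnion hdisj hQm, hEdec μ, ← ENNReal.tsum_mul_left]
    refine ENNReal.tsum_le_tsum fun i => ?_
    have hlen : a + (i.1.2 + 1) * hh a b i.1.1 - (a + i.1.2 * hh a b i.1.1) = hh a b i.1.1 := by ring
    refine hμ _ _ ?_ _ (hEm.inter (hQm i)) inter_subset_right ?_
    · have := hh_pos hab i.1.1
      linarith
    · rw [hlen]
      exact hsmall i

theorem iter_dy {μ : Measure ℝ} {β : ℝ≥0∞}
    (hμ : ∀ c d : ℝ, c < d → ∀ F : Set ℝ, MeasurableSet F → F ⊆ Ico c d →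
      2 * volume F ≤ ENNReal.ofReal (d - c) → μ F ≤ β * μ (Ico c d)) (n : ℕ) :
    ∀ E : Set ℝ, MeasurableSet E → E ⊆ Ico a b →
    (∀ x ∈ E, ∃ n, QQ a b n (idx a b n x) ⊆ E) → 4 ^ n * volume E ≤ ENNReal.ofReal (b - a) →
    μ E ≤ β ^ n * μ (Ico a b) := by
  induction n with
  | zero =>
    intro E _ hEI _ _
    rw [pow_zero, one_mul]
    exact measure_mono hEI
  | succ n ih =>
    intro E hEm hEI hE hvol
    have h1 : 4 * volume E ≤ ENNReal.ofReal (b - a) := by
      refine le_trans ?_ hvol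
      gcongr
      rw [pow_succ]
      calc (4:ℝ≥0∞) = 1 * 4 := by ring
        _ ≤ 4 ^ n * 4 := by gcongr; exact one_le_pow₀ (by norm_num)
    obtain ⟨G, hGm, hGI, hG, hGv, hGμ⟩ := step_dy hab hμ hEm hEI hE h1
    have h2 : μ G ≤ β ^ n * μ (Ico a b) := by
      refine ih G hGm hGI hG ?_
      calc 4 ^ n * volume G ≤ 4 ^ n * (4 * volume E) := by gcongr
        _ = 4 ^ (n + 1) * volume E := by ring
        _ ≤ _ := hvol
    calc μ E ≤ β * μ G := hGμ
      _ ≤ β * (β ^ n * μ (Ico a b)) := by gcongr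
      _ = _ := by ring

theorem iter_meas {μ : Measure ℝ} {β : ℝ≥0∞}
    (hμ : ∀ c d : ℝ, c < d → ∀ F : Set ℝ, MeasurableSet F → F ⊆ Ico c d →
      2 * volume F ≤ ENNReal.ofReal (d - c) → μ F ≤ β * μ (Ico c d)) (n : ℕ)
    {F : Set ℝ} (hFI : F ⊆ Ico a b)
    (hF : 4 ^ n * volume F < ENNReal.ofReal (b - a)) : μ F ≤ β ^ n * μ (Ico a b) := by
  have h4 : (4:ℝ≥0∞) ^ n ≠ 0 := by simp
  have h4t : (4:ℝ≥0∞) ^ n ≠ ⊤ := by simp
  have h1 : volume F < ENNReal.ofReal (b - a) / 4 ^ n := by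
    rw [ENNReal.lt_div_iff_mul_lt (Or.inl h4) (Or.inl h4t), mul_comm]
    exact hF
  obtain ⟨O, hFO, hO, hOv⟩ := Set.exists_isOpen_lt_of_lt F _ h1
  have hcov : F ⊆ O ∩ Ico a b := subset_inter hFO hFI
  refine (measure_mono hcov).trans ?_
  refine iter_dy hab hμ n (O ∩ Ico a b) (hO.measurableSet.inter measurableSet_Ico) inter_subset_right
    ?_ ?_
  · rintro x ⟨hxO, hxI⟩
    obtain ⟨δ, hδ, hball⟩ := Metric.isOpen_iff.1 hO x hxO
    obtain ⟨m, hm⟩ : ∃ m : ℕ, hh a b m < δ := by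
      obtain ⟨m, hm⟩ := exists_nat_gt ((b - a) / δ)
      refine ⟨m, ?_⟩
      unfold hh
      rw [div_lt_iff₀ (by positivity)]
      rw [div_lt_iff₀ hδ] at hm
      have h2 : (m : ℝ) < 2 ^ m := by exact_mod_cast Nat.lt_two_pow_self
      nlinarith
    refine ⟨m, fun y hy => ⟨?_, ?_⟩⟩
    · apply hball
      rw [Metric.mem_ball, Real.dist_eq]
      have hx : x ∈ QQ a b m (idx a b m x) := (mem_QQ hab).2 rfl
      unfold QQ at hx hy
      have hpos := hh_pos hab m
      rw [abs_lt]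
      constructor
      · have := hx.2; have := hy.1; nlinarith
      · have := hx.1; have := hy.2; nlinarith
    · have h2 := QQ_sub hab (Nat.zero_le m) hy
      rw [mem_QQ hab, (idx_zero hab).2 hxI, idx_zero hab] at h2
      exact h2
  · have h2 : volume (O ∩ Ico a b) ≤ ENNReal.ofReal (b - a) / 4 ^ n :=
      (measure_mono inter_subset_left).trans hOv.le
    calc 4 ^ n * volume (O ∩ Ico a b) ≤ 4 ^ n * (ENNReal.ofReal (b - a) / 4 ^ n) := by gcongr
      _ = ENNReal.ofReal (b - a) := ENNReal.mul_div_cancel h4 h4t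

end

end Pool.Agent.W755.Mz
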