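import Mathlib
import Pool.Agent.W755.MzAinf

set_option autoImplicit false

open MeasureTheory Filter Topology Set
open scoped ENNReal NNReal

namespace Pool.Agent.W755.Mz

theorem null_mU (W : ℝ → ℝ) {S : Set ℝ} (h : volume S = 0) : mU W S = 0 :=
  withDensity_absolutelyContinuous volume _ h

theorem mU_Ico (W : ℝ → ℝ) (c d : ℝ) : mU W (Ico c d) = mU W (Ioo c d) := by
  apply le_antisymm
  · have : Ico c d ⊆ {c} ∪ Ioo c d := by
      intro x hx
      rcases eq_or_lt_of_le hx.1 with h | h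
      · left; exact h.symm
      · right; exact ⟨h, hx.2⟩
    calc mU W (Ico c d) ≤ mU W {c} + mU W (Ioo c d) := (measure_mono this).trans (measure_union_le _ _)
      _ = _ := by rw [null_mU W (by simp), zero_add]
  · exact measure_mono Ioo_subset_Ico_self

section

variable {p : ℝ} (hp : 1 < p) {W : ℝ → ℝ} (hWm : Measurable W) (hpos : ∀ᵐ x, 0 < W x) {K : ℝ≥0}
  (hK : ApC p W K)

include hp hWm hpos hK

theorem half : ∃ β : ℝ, 0 < β ∧ β < 1 ∧ ∀ c d : ℝ, c < d → ∀ F : Set ℝ, MeasurableSet F → F ⊆ Ico c d →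
      2 * volume F ≤ ENNReal.ofReal (d - c) → mU W F ≤ ENNReal.ofReal β * mU W (Ico c d) := by
  have hp0 : 0 < p := by linarith
  have hp1 : 0 < p - 1 := by linarith
  set K1 : ℝ := max (K : ℝ) 1 with hK1
  have hK11 : 1 ≤ K1 := le_max_right _ _
  set Λ : ℝ := 2 ^ p * K1 with hΛ
  have h2p : (1:ℝ) < 2 ^ p := Real.one_lt_rpow (by norm_num) hp0
  have hΛ1 : 1 < Λ := by rw [hΛ]; nlinarith
  refine ⟨1 - 1 / Λ, by rw [sub_pos, div_lt_one (by linarith)]; exact hΛ1,
    by have : 0 < 1 / Λ := by positivity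
       linarith, ?_⟩
  intro c d hcd F hF hFI hv
  have hap := ap_meas hp hWm hpos hK hcd
  obtain ⟨hut, hst⟩ := ap_fin hp hWm hpos hK hcd
  set ρ := ENNReal.ofReal (d - c) with hρ
  have hρ0 : ρ ≠ 0 := (ENNReal.ofReal_pos.2 (sub_pos.2 hcd)).ne'
  have hρt : ρ ≠ ⊤ := ENNReal.ofReal_ne_top
  set I := Ioo c d with hI
  set F' := I \ F with hF'
  have hF'm : MeasurableSet F' := measurableSet_Ioo.diff hF
  have hvF : ρ ≤ 2 * volume F' := by
    have h1 : ρ ≤ volume F + volume F' := by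
      have h2 : volume I = ρ := by rw [hI, Real.volume_Ioo]
      rw [← h2]
      refine (measure_mono ?_).trans (measure_union_le _ _)
      intro x hx
      by_cases h : x ∈ F
      · left; exact h
      · right; exact ⟨hx, h⟩
    have h2 : ρ + ρ ≤ ρ + 2 * volume F' := by
      calc ρ + ρ ≤ (volume F + volume F') + (volume F + volume F') := add_le_add h1 h1
        _ = 2 * volume F + 2 * volume F' := by ring
        _ ≤ _ := by gcongr
    exact (ENNReal.add_le_add_iff_left hρt).1 h2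
  have hho := holder_w hp hWm hpos hF'm
  have h3 : ρ ^ p ≤ 2 ^ p * (mU W F' * mS p W I ^ (p - 1)) := by
    calc ρ ^ p ≤ (2 * volume F') ^ p := ENNReal.rpow_le_rpow hvF hp0.le
      _ = 2 ^ p * volume F' ^ p := ENNReal.mul_rpow_of_nonneg _ _ hp0.le
      _ ≤ 2 ^ p * (mU W F' * mS p W F' ^ (p - 1)) := by gcongr
      _ ≤ _ := by gcongr; exact sdiff_subset
  have h4 : mU W I * mS p W I ^ (p - 1) ≤ K * ρ ^ p := by
    rw [ENNReal.mul_rpow_of_nonneg _ _ hp1.le] at hap
    have e : ρ * ρ ^ (p - 1) = ρ ^ p := (rpow_split hp ρ).symm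
    have hρp0 : ρ ^ (p - 1) ≠ 0 := (ENNReal.rpow_pos (pos_iff_ne_zero.2 hρ0) hρt).ne'
    have hρpt : ρ ^ (p - 1) ≠ ⊤ := (ENNReal.rpow_lt_top_of_nonneg hp1.le hρt).ne
    calc mU W I * mS p W I ^ (p - 1)
        = (ρ * ρ⁻¹) * (ρ ^ (p - 1) * (ρ ^ (p - 1))⁻¹) * (mU W I * mS p W I ^ (p - 1)) := by
          rw [ENNReal.mul_inv_cancel hρ0 hρt, ENNReal.mul_inv_cancel hρp0 hρpt, one_mul, one_mul]
      _ = (ρ⁻¹ * mU W I * (ρ⁻¹ ^ (p - 1) * mS p W I ^ (p - 1))) * (ρ * ρ ^ (p - 1)) := by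
          rw [ENNReal.inv_rpow]; ring
      _ ≤ K * (ρ * ρ ^ (p - 1)) := by gcongr
      _ = _ := by rw [e]
  have h5 : mU W I ≤ 2 ^ p * K * mU W F' := by
    have hρp0 : ρ ^ p ≠ 0 := (ENNReal.rpow_pos (pos_iff_ne_zero.2 hρ0) hρt).ne'
    have hρpt : ρ ^ p ≠ ⊤ := (ENNReal.rpow_lt_top_of_nonneg hp0.le hρt).ne
    have h6 : mU W I * ρ ^ p ≤ (2 ^ p * K * mU W F') * ρ ^ p := by
      calc mU W I * ρ ^ p ≤ mU W I * (2 ^ p * (mU W F' * mS p W I ^ (p - 1))) := by gcongr
        _ = 2 ^ p * mU W F' * (mU W I * mS p W I ^ (p - 1)) := by ring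
        _ ≤ 2 ^ p * mU W F' * (K * ρ ^ p) := by gcongr
        _ = _ := by ring
    exact (ENNReal.mul_le_mul_iff_left hρp0 hρpt).1 h6
  have h7 : mU W I ≤ ENNReal.ofReal Λ * mU W F' := by
    refine h5.trans ?_
    gcongr
    rw [hΛ, ENNReal.ofReal_mul (by positivity), ← ENNReal.ofReal_rpow_of_pos (by norm_num)]
    gcongr
    · norm_num
    · rw [← ENNReal.ofReal_coe_nnreal]
      exact ENNReal.ofReal_le_ofReal (le_max_left _ _)
  have hFt : mU W (F ∩ I) ≠ ⊤ := ne_top_of_le_ne_top hut (measure_mono inter_subset_right)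
  have hF't : mU W F' ≠ ⊤ := ne_top_of_le_ne_top hut (measure_mono sdiff_subset)
  have h8 : mU W I = mU W (F ∩ I) + mU W F' := by
    rw [hF', inter_comm]
    exact (measure_inter_add_sdiff I hF).symm
  have h9 : mU W F ≤ mU W (F ∩ I) := by
    have : F ⊆ {c} ∪ (F ∩ I) := by
      intro x hx
      rcases eq_or_lt_of_le (hFI hx).1 with h | h
      · left; exact h.symm
      · right; exact ⟨hx, h, (hFI hx).2⟩
    calc mU W F ≤ mU W {c} + mU W (F ∩ I) := (measure_mono this).trans (measure_union_le _ _)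
      _ = _ := by rw [null_mU W (by simp), zero_add]
  rw [mU_Ico]
  refine h9.trans ?_
  -- real computation
  have r1 : (mU W I).toReal = (mU W (F ∩ I)).toReal + (mU W F').toReal := by
    rw [h8, ENNReal.toReal_add hFt hF't]
  have r2 : (mU W I).toReal ≤ Λ * (mU W F').toReal := by
    have := ENNReal.toReal_mono (ENNReal.mul_ne_top ENNReal.ofReal_ne_top hF't) h7
    rwa [ENNReal.toReal_mul, ENNReal.toReal_ofReal (by linarith)] at this
  have r3 : (mU W (F ∩ I)).toReal ≤ (1 - 1 / Λ) * (mU W I).toReal := by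
    have h10 : (mU W I).toReal / Λ ≤ (mU W F').toReal := by
      rw [div_le_iff₀ (by linarith)]; linarith
    have : (1 - 1 / Λ) * (mU W I).toReal = (mU W I).toReal - (mU W I).toReal / Λ := by ring
    rw [this]
    linarith
  calc mU W (F ∩ I) = ENNReal.ofReal (mU W (F ∩ I)).toReal := (ENNReal.ofReal_toReal hFt).symm
    _ ≤ ENNReal.ofReal ((1 - 1 / Λ) * (mU W I).toReal) := ENNReal.ofReal_le_ofReal r3
    _ = _ := by
      rw [ENNReal.ofReal_mul, ENNReal.ofReal_toReal hut]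
      rw [sub_nonneg, div_le_one (by linarith)]
      exact hΛ1.le

/-- the power bound -/
theorem power : ∃ C : ℝ, 0 < C ∧ ∃ ε : ℝ, 0 < ε ∧ ∀ a b : ℝ, a < b → ∀ E : Set ℝ, E ⊆ Ioo a b →
    mU W E ≤ ENNReal.ofReal C * ENNReal.ofReal (((volume E).toReal / (b - a)) ^ ε) * mU W (Ioo a b) := by
  obtain ⟨β, hβ0, hβ1, hβ⟩ := half hp hWm hpos hK
  set ε : ℝ := -Real.logb 4 β with hε
  have hε0 : 0 < ε := by
    rw [hε, neg_pos]
    exact Real.logb_neg (by norm_num) hβ0 hβ1
  have hβε : ((4:ℝ)⁻¹) ^ ε = β := by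
    rw [hε, Real.inv_rpow (by norm_num), ← Real.rpow_neg (by norm_num), neg_neg]
    exact Real.rpow_logb (by norm_num) (by norm_num) hβ0
  refine ⟨(β ^ 2)⁻¹, by positivity, ε, hε0, ?_⟩
  intro a b hab E hE
  have hba : 0 < b - a := sub_pos.2 hab
  have hEt : volume E ≠ ⊤ := ((measure_mono hE).trans_lt (by simp)).ne
  set t : ℝ := (volume E).toReal / (b - a) with ht
  have ht0 : 0 ≤ t := by positivity
  rcases eq_or_lt_of_le ht0 with h0 | h0
  · have h1 : (volume E).toReal = 0 := by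
      have : (volume E).toReal = t * (b - a) := by rw [ht]; field_simp
      rw [this, ← h0, zero_mul]
    have h2 : volume E = 0 := by
      rcases (ENNReal.toReal_eq_zero_iff _).1 h1 with h | h
      · exact h
      · exact absurd h hEt
    rw [null_mU W h2]
    exact bot_le
  have ht1 : t ≤ 1 := by
    rw [ht, div_le_one hba]
    have h1 : volume E ≤ ENNReal.ofReal (b - a) := by
      have := measure_mono (μ := volume) hE
      rwa [Real.volume_Ioo] at this
    exact ENNReal.toReal_le_of_le_ofReal hba.le h1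
  have hinv : 1 ≤ 1 / t := by rw [le_div_iff₀ h0]; linarith
  obtain ⟨n, hn1, hn2⟩ := exists_nat_pow_near hinv (by norm_num : (1:ℝ) < 4)
  -- t^ε ≥ β^(n+1)
  have hpow : β ^ (n + 1) ≤ t ^ ε := by
    have h1 : ((4:ℝ)⁻¹) ^ (n + 1) ≤ t := by
      rw [inv_pow, inv_le_comm₀ (by positivity) h0, ← one_div]
      exact hn2.le
    calc β ^ (n + 1) = (((4:ℝ)⁻¹) ^ ε) ^ (n + 1) := by rw [hβε]
      _ = (((4:ℝ)⁻¹) ^ (n + 1)) ^ ε := by
          rw [← Real.rpow_natCast, ← Real.rpow_mul (by norm_num), ← Real.rpow_natCast,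
            ← Real.rpow_mul (by norm_num), mul_comm]
      _ ≤ t ^ ε := Real.rpow_le_rpow (by positivity) h1 hε0.le
  have hcase : mU W E ≤ ENNReal.ofReal (β ^ (n - 1)) * mU W (Ioo a b) := by
    rcases Nat.eq_zero_or_pos n with h | h
    · rw [h]
      simp only [Nat.zero_sub, pow_zero, ENNReal.ofReal_one, one_mul]
      exact measure_mono hE
    · obtain ⟨m, rfl⟩ := Nat.exists_eq_succ_of_ne_zero h.ne'
      have h1 := iter_meas hab (μ := mU W) (β := ENNReal.ofReal β) hβ m (F := E)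
        (hE.trans Ioo_subset_Ico_self) (by
          have h2 : (4:ℝ) ^ m * (volume E).toReal < b - a := by
            have h3 : (volume E).toReal = t * (b - a) := by rw [ht]; field_simp
            rw [h3]
            have h4 : (4:ℝ) ^ (m + 1) * t ≤ 1 := by
              rw [le_div_iff₀ h0] at hn1
              exact hn1
            rw [pow_succ] at h4
            have h5 : (4:ℝ) ^ m * t < 1 := by nlinarith
            calc (4:ℝ) ^ m * (t * (b - a)) = ((4:ℝ) ^ m * t) * (b - a) := by ring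
              _ < 1 * (b - a) := by gcongr
              _ = _ := one_mul _
          have h6 : (4:ℝ≥0∞) ^ m * volume E = ENNReal.ofReal ((4:ℝ) ^ m * (volume E).toReal) := by
            rw [ENNReal.ofReal_mul (by positivity), ENNReal.ofReal_toReal hEt,
              ENNReal.ofReal_pow (by norm_num)]
            norm_num
          rw [h6]
          exact (ENNReal.ofReal_lt_ofReal_iff hba).2 h2)
      rw [mU_Ico] at h1
      rw [Nat.succ_sub_one, ENNReal.ofReal_pow hβ0.le]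
      exact h1
  refine hcase.trans ?_
  rw [← ENNReal.ofReal_mul (by positivity)]
  gcongr
  rw [inv_mul_eq_div, le_div_iff₀ (by positivity)]
  refine le_trans ?_ hpow
  rcases Nat.eq_zero_or_pos n with h | h
  · rw [h]
    simp only [Nat.zero_sub, pow_zero, one_mul, zero_add, pow_one]
    nlinarith
  · obtain ⟨m, rfl⟩ := Nat.exists_eq_succ_of_ne_zero h.ne'
    rw [Nat.succ_sub_one, Nat.succ_eq_add_one]
    exact le_of_eq (by ring)

/-- condition `C_p` -/
theorem cp_cond (hW0 : ∀ x, 0 ≤ W x) : ∃ C : ℝ, 0 < C ∧ ∃ ε : ℝ, 0 < ε ∧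
    ∀ a b : ℝ, a < b → ∀ E : Set ℝ, MeasurableSet E → E ⊆ Set.Ioo a b →
      ∫⁻ x in E, ENNReal.ofReal (W x) ≤
        ENNReal.ofReal C * ENNReal.ofReal (((volume E).toReal / (b - a)) ^ ε) *
          ∫⁻ x, ENNReal.ofReal ((b - a) ^ p / ((b - a) ^ p + |x - (a + b) / 2| ^ p) * W x) := by
  obtain ⟨C, hC, ε, hε, h⟩ := power hp hWm hpos hK
  refine ⟨C * 2, by positivity, ε, hε, ?_⟩
  intro a b hab E hEm hE
  have h1 := h a b hab E hE
  rw [mU_apply hEm, mU_apply measurableSet_Ioo] at h1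
  refine h1.trans ?_
  rw [ENNReal.ofReal_mul hC.le]
  have h2 : ∫⁻ x in Ioo a b, ENNReal.ofReal (W x) ≤
      ENNReal.ofReal 2 * ∫⁻ x, ENNReal.ofReal ((b - a) ^ p / ((b - a) ^ p + |x - (a + b) / 2| ^ p) * W x) := by
    rw [← lintegral_const_mul' _ _ ENNReal.ofReal_ne_top]
    refine le_trans ?_ (setLIntegral_le_lintegral (Ioo a b) _)
    refine setLIntegral_mono' measurableSet_Ioo fun x hx => ?_
    rw [← ENNReal.ofReal_mul (by norm_num)]
    apply ENNReal.ofReal_le_ofReal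
    have hba : 0 < b - a := sub_pos.2 hab
    have h3 : |x - (a + b) / 2| ≤ b - a := by
      rw [abs_le]
      constructor
      · linarith [hx.1, hx.2]
      · linarith [hx.1, hx.2]
    have h4 : |x - (a + b) / 2| ^ p ≤ (b - a) ^ p := Real.rpow_le_rpow (abs_nonneg _) h3 (by linarith)
    have h5 : 0 < (b - a) ^ p := Real.rpow_pos_of_pos hba p
    have h6 : 0 ≤ |x - (a + b) / 2| ^ p := Real.rpow_nonneg (abs_nonneg _) p
    have h7 : 1 ≤ 2 * ((b - a) ^ p / ((b - a) ^ p + |x - (a + b) / 2| ^ p)) := by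
      rw [← mul_div_assoc, le_div_iff₀ (by positivity)]
      linarith
    calc W x = 1 * W x := (one_mul _).symm
      _ ≤ (2 * ((b - a) ^ p / ((b - a) ^ p + |x - (a + b) / 2| ^ p))) * W x :=
          mul_le_mul_of_nonneg_right h7 (hW0 x)
      _ = _ := by ring
  calc ENNReal.ofReal C * ENNReal.ofReal (((volume E).toReal / (b - a)) ^ ε) *
        ∫⁻ x in Ioo a b, ENNReal.ofReal (W x)
      ≤ ENNReal.ofReal C * ENNReal.ofReal (((volume E).toReal / (b - a)) ^ ε) *
        (ENNReal.ofReal 2 * ∫⁻ x, ENNReal.ofReal ((b - a) ^ p / ((b - a) ^ p + |x - (a + b) / 2| ^ p) * W x)) := by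
        gcongr
    _ = _ := by ring

end

end Pool.Agent.W755.Mz
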