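import Mathlib
import Pool.Agent.W755.MzCp
import Pool.Agent.Helper107.HB9

set_option autoImplicit false

open MeasureTheory Filter Topology Set
open scoped ENNReal NNReal

namespace Pool.Agent.W755.Mz

open Pool.Agent.Helper107.HB

theorem MM_eq (f : ℝ → ℝ) (x : ℝ) : MM f x = Mm volume (fun y => ‖f y‖ₑ) x := by
  unfold MM Mm
  congr 1; ext a; congr 1; ext b; congr 1; ext h
  rw [Real.volume_Ioo, ENNReal.ofReal_inv_of_pos (by linarith [h.1, h.2])]

theorem lint_ball_le (f : ℝ → ℝ) (x r : ℝ) (hr : 0 < r) :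
    ∫⁻ y in Ioo (x - r) (x + r), ‖f y‖ₑ ≤ ENNReal.ofReal (2 * r) * MM f x := by
  have h := mo_max_L f x (x - r) (x + r) (by linarith) (by linarith)
  have e : x + r - (x - r) = 2 * r := by ring
  rwa [e] at h

/-- the far part of the kernel -/
theorem far_bd (f : ℝ → ℝ) (hf : Measurable f) (x r : ℝ) (hr : 0 < r) :
    ∫⁻ z in {z : ℝ | r < |x - z|}, ‖f z‖ₑ * ENNReal.ofReal (1 / (x - z) ^ 2) ≤
      ENNReal.ofReal (8 / r) * MM f x := by
  have hS : MeasurableSet {z : ℝ | r < |x - z|} := measurableSet_lt measurable_const (by fun_prop)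
  have hfe : Measurable (fun z => ‖f z‖ₑ) := hf.enorm
  have hpt : ∀ z ∈ {z : ℝ | r < |x - z|}, ‖f z‖ₑ * ENNReal.ofReal (1 / (x - z) ^ 2) ≤
      ∑' n : ℕ, (Ioo (x - r * 2 ^ (n + 1)) (x + r * 2 ^ (n + 1))).indicator
        (fun z => ‖f z‖ₑ * ENNReal.ofReal (1 / (r ^ 2 * 4 ^ n))) z := by
    intro z hz
    have hz' : r < |x - z| := hz
    have h1 : 1 ≤ |x - z| / r := by rw [le_div_iff₀ hr]; linarith
    obtain ⟨n, hn1, hn2⟩ := exists_nat_pow_near h1 (by norm_num : (1:ℝ) < 2)
    rw [le_div_iff₀ hr] at hn1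
    rw [div_lt_iff₀ hr] at hn2
    refine le_trans ?_ (ENNReal.le_tsum n)
    have hmem : z ∈ Ioo (x - r * 2 ^ (n + 1)) (x + r * 2 ^ (n + 1)) := by
      have := abs_lt.1 hn2
      constructor <;> linarith [this.1, this.2]
    rw [indicator_of_mem hmem]
    gcongr
    rw [← sq_abs (x - z)]
    have : r ^ 2 * 4 ^ n = (2 ^ n * r) ^ 2 := by
      rw [mul_pow, ← pow_mul, mul_comm n 2, pow_mul]; norm_num; ring
    rw [this]
    gcongr
  calc ∫⁻ z in {z : ℝ | r < |x - z|}, ‖f z‖ₑ * ENNReal.ofReal (1 / (x - z) ^ 2)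
      ≤ ∫⁻ z in {z : ℝ | r < |x - z|}, ∑' n : ℕ,
        (Ioo (x - r * 2 ^ (n + 1)) (x + r * 2 ^ (n + 1))).indicator
        (fun z => ‖f z‖ₑ * ENNReal.ofReal (1 / (r ^ 2 * 4 ^ n))) z := setLIntegral_mono' hS hpt
    _ ≤ ∫⁻ z, ∑' n : ℕ,
        (Ioo (x - r * 2 ^ (n + 1)) (x + r * 2 ^ (n + 1))).indicator
        (fun z => ‖f z‖ₑ * ENNReal.ofReal (1 / (r ^ 2 * 4 ^ n))) z := setLIntegral_le_lintegral _ _
    _ = ∑' n : ℕ, ∫⁻ z, (Ioo (x - r * 2 ^ (n + 1)) (x + r * 2 ^ (n + 1))).indicator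
        (fun z => ‖f z‖ₑ * ENNReal.ofReal (1 / (r ^ 2 * 4 ^ n))) z := by
        rw [lintegral_tsum]
        intro n
        exact ((hfe.mul_const _).indicator measurableSet_Ioo).aemeasurable
    _ ≤ ∑' n : ℕ, ENNReal.ofReal (4 / r) * MM f x * (ENNReal.ofReal (1 / 2)) ^ n := by
        refine ENNReal.tsum_le_tsum fun n => ?_
        rw [lintegral_indicator measurableSet_Ioo, lintegral_mul_const _ hfe]
        calc (∫⁻ z in Ioo (x - r * 2 ^ (n + 1)) (x + r * 2 ^ (n + 1)), ‖f z‖ₑ) *
              ENNReal.ofReal (1 / (r ^ 2 * 4 ^ n))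
            ≤ (ENNReal.ofReal (2 * (r * 2 ^ (n + 1))) * MM f x) * ENNReal.ofReal (1 / (r ^ 2 * 4 ^ n)) := by
              gcongr
              exact lint_ball_le f x _ (by positivity)
          _ = (ENNReal.ofReal (2 * (r * 2 ^ (n + 1))) * ENNReal.ofReal (1 / (r ^ 2 * 4 ^ n))) * MM f x := by
              ring
          _ = (ENNReal.ofReal (4 / r) * ENNReal.ofReal (1 / 2) ^ n) * MM f x := by
              rw [← ENNReal.ofReal_mul (by positivity), ← ENNReal.ofReal_pow (by norm_num),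
                ← ENNReal.ofReal_mul (by positivity)]
              congr 2
              have h4 : (4:ℝ) ^ n = 2 ^ n * 2 ^ n := by rw [← mul_pow]; norm_num
              rw [h4, pow_succ, one_div_pow]
              field_simp
              ring
          _ = _ := by ring
    _ = ENNReal.ofReal (4 / r) * MM f x * 2 := by
        rw [ENNReal.tsum_mul_left, ENNReal.tsum_geometric]
        congr 1
        have : (1:ℝ≥0∞) - ENNReal.ofReal (1 / 2) = ENNReal.ofReal (1 / 2) := by
          rw [← ENNReal.ofReal_one, ← ENNReal.ofReal_sub _ (by norm_num)]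
          norm_num
        rw [this, ← ENNReal.ofReal_inv_of_pos (by norm_num)]
        norm_num
    _ = ENNReal.ofReal (8 / r) * MM f x := by
        rw [show (2:ℝ≥0∞) = ENNReal.ofReal 2 by norm_num]
        calc ENNReal.ofReal (4 / r) * MM f x * ENNReal.ofReal 2 =
            (ENNReal.ofReal (4 / r) * ENNReal.ofReal 2) * MM f x := by ring
          _ = _ := by
            rw [← ENNReal.ofReal_mul (by positivity)]
            congr 2
            ring

/-- comparison of the truncation with the transform of the mollified function -/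
theorem trunc_cmp {ψ : ℝ → ℝ} {P L : ℝ} (hψ : Mol ψ P L) (ε : ℝ) (hε : 0 < ε) (f : ℝ → ℝ)
    (hf : Measurable f) (hfi : Integrable f) (x h : ℝ)
    (hh : Tendsto (fun δ : ℝ => tr δ (mo ψ ε f) x) (𝓝[>] 0) (𝓝 h)) :
    ENNReal.ofReal |tr (4 * ε) f x| ≤ ENNReal.ofReal |h| + ENNReal.ofReal (100 * L + 4) * MM f x := by
  have hL : 0 ≤ L := by
    have := hψ.lip 0 1
    have h2 := abs_nonneg (ψ 0 - ψ 1)
    norm_num at this
    linarith
  set S : Set ℝ := {z : ℝ | 4 * ε < |x - z|} with hS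
  have hSm : MeasurableSet S := measurableSet_lt measurable_const (by fun_prop)
  set f1 : ℝ → ℝ := Sᶜ.indicator f with hf1
  set f2 : ℝ → ℝ := S.indicator f with hf2
  have hf1i : Integrable f1 := hfi.indicator hSm.compl
  have hf2i : Integrable f2 := hfi.indicator hSm
  have hsum : (fun z => f1 z + f2 z) = f := by
    ext z
    by_cases hz : z ∈ S
    · rw [hf1, hf2, indicator_of_mem hz, indicator_of_notMem (fun h' : z ∈ Sᶜ => h' hz), zero_add]
    · rw [hf1, hf2, indicator_of_notMem hz, indicator_of_mem (show z ∈ Sᶜ from hz), add_zero]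
  -- the bound for every small δ
  have hδ : ∀ δ : ℝ, 0 < δ → δ < ε → |tr (4 * ε) f x| ≤ |tr δ (mo ψ ε f) x| +
      (10 * L * ε⁻¹ * ∫ z, |f1 z|) + (2 * ε * ∫ z, |f2 z| / (x - z) ^ 2) := by
    intro δ hδ0 hδε
    have e1 : tr δ (mo ψ ε f) x = tr δ (mo ψ ε f1) x + tr δ (mo ψ ε f2) x := by
      have e2 : mo ψ ε f = fun y => mo ψ ε f1 y + mo ψ ε f2 y := by
        ext y
        conv_lhs => rw [← hsum]
        exact mo_add hψ ε hε f1 f2 hf1i hf2i y
      rw [e2]
      exact tr_add δ hδ0 _ _ (integrable_mo hψ ε hε f1 hf1i) (integrable_mo hψ ε hε f2 hf2i) x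
    have e3 : ∫ z, f2 z / (x - z) = tr (4 * ε) f x := by
      unfold tr
      rw [← integral_indicator hSm]
      refine integral_congr_ae (Eventually.of_forall fun z => ?_)
      by_cases hz : z ∈ S
      · simp only [hf2, indicator_of_mem hz]
      · simp only [hf2, indicator_of_notMem hz, zero_div]
    have n1 := near hψ ε δ hδ0 hδε x f1 hf1i (by
      intro z hz
      have : z ∉ Sᶜ := by
        intro h'
        apply h'
        show 4 * ε < |x - z|
        rwa [abs_sub_comm]
      rw [hf1, indicator_of_notMem this])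
    have n2 := far hψ ε δ hδ0 hδε x f2 hf2i (by
      intro z hz
      have : z ∉ S := by
        intro h'
        have h'' : 4 * ε < |x - z| := h'
        rw [abs_sub_comm] at h''
        linarith
      rw [hf2, indicator_of_notMem this])
    rw [e3] at n2
    have n3 := abs_sub_abs_le_abs_sub (tr (4 * ε) f x) (tr δ (mo ψ ε f2) x)
    rw [abs_sub_comm] at n3
    have n4 : |tr δ (mo ψ ε f2) x| ≤ |tr δ (mo ψ ε f) x| + |tr δ (mo ψ ε f1) x| := by
      have : tr δ (mo ψ ε f2) x = tr δ (mo ψ ε f) x - tr δ (mo ψ ε f1) x := by rw [e1]; ring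
      rw [this]
      exact abs_sub _ _
    linarith
  have hlim : |tr (4 * ε) f x| ≤ |h| + (10 * L * ε⁻¹ * ∫ z, |f1 z|) +
      (2 * ε * ∫ z, |f2 z| / (x - z) ^ 2) := by
    have ht : Tendsto (fun δ : ℝ => |tr δ (mo ψ ε f) x| + (10 * L * ε⁻¹ * ∫ z, |f1 z|) +
      (2 * ε * ∫ z, |f2 z| / (x - z) ^ 2)) (𝓝[>] 0) (𝓝 (|h| + (10 * L * ε⁻¹ * ∫ z, |f1 z|) +
      (2 * ε * ∫ z, |f2 z| / (x - z) ^ 2))) := (hh.abs.add_const _).add_const _
    refine ge_of_tendsto ht ?_
    filter_upwards [Ioo_mem_nhdsGT hε] with δ hδ'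
    exact hδ δ hδ'.1 hδ'.2
  -- the two remaining terms
  have i1 : ENNReal.ofReal (10 * L * ε⁻¹ * ∫ z, |f1 z|) ≤ ENNReal.ofReal (100 * L) * MM f x := by
    rw [ENNReal.ofReal_mul (by positivity),
      ofReal_integral_eq_lintegral_ofReal hf1i.abs (Eventually.of_forall fun z => abs_nonneg _)]
    have h1 : ∫⁻ z, ENNReal.ofReal |f1 z| ≤ ENNReal.ofReal (2 * (5 * ε)) * MM f x := by
      refine le_trans ?_ (lint_ball_le f x (5 * ε) (by positivity))
      rw [← lintegral_indicator measurableSet_Ioo]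
      refine lintegral_mono fun z => ?_
      by_cases hz : z ∈ S
      · have : z ∉ Sᶜ := fun h' => h' hz
        rw [hf1, indicator_of_notMem this]; simp
      · have h2 : ¬ 4 * ε < |x - z| := hz
        have h3 : z ∈ Ioo (x - 5 * ε) (x + 5 * ε) := by
          have := abs_le.1 (not_lt.1 h2)
          constructor <;> linarith [this.1, this.2]
        rw [indicator_of_mem h3, hf1, indicator_of_mem (show z ∈ Sᶜ from hz), Real.enorm_eq_ofReal_abs]
    calc ENNReal.ofReal (10 * L * ε⁻¹) * ∫⁻ z, ENNReal.ofReal |f1 z|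
        ≤ ENNReal.ofReal (10 * L * ε⁻¹) * (ENNReal.ofReal (2 * (5 * ε)) * MM f x) := by gcongr
      _ = _ := by
        rw [← mul_assoc, ← ENNReal.ofReal_mul (by positivity)]
        congr 2
        field_simp
        ring
  have i2 : ENNReal.ofReal (2 * ε * ∫ z, |f2 z| / (x - z) ^ 2) ≤ ENNReal.ofReal 4 * MM f x := by
    have h0 : ∀ z, |f2 z| / (x - z) ^ 2 ≤ (16 * ε ^ 2)⁻¹ * |f2 z| := by
      intro z
      by_cases hz : z ∈ S
      · have hz' : 4 * ε < |x - z| := hz
        have h1 : 16 * ε ^ 2 ≤ (x - z) ^ 2 := by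
          rw [← sq_abs (x - z)]
          nlinarith
        rw [div_eq_inv_mul]
        gcongr
      · rw [hf2, indicator_of_notMem hz]; simp
    have hi : Integrable (fun z => |f2 z| / (x - z) ^ 2) := by
      refine (hf2i.abs.const_mul ((16 * ε ^ 2)⁻¹)).mono' ?_ ?_
      · have : Measurable f2 := hf.indicator hSm
        exact (this.abs.div ((measurable_const.sub measurable_id).pow_const 2)).aestronglyMeasurable
      · refine Eventually.of_forall fun z => ?_
        rw [Real.norm_of_nonneg (by positivity)]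
        exact h0 z
    rw [ENNReal.ofReal_mul (by positivity),
      ofReal_integral_eq_lintegral_ofReal hi (Eventually.of_forall fun z => by positivity)]
    have h1 : ∫⁻ z, ENNReal.ofReal (|f2 z| / (x - z) ^ 2) ≤ ENNReal.ofReal (8 / (4 * ε)) * MM f x := by
      refine le_trans ?_ (far_bd f hf x (4 * ε) (by positivity))
      rw [← lintegral_indicator hSm]
      refine lintegral_mono fun z => ?_
      by_cases hz : z ∈ S
      · rw [indicator_of_mem hz, hf2, indicator_of_mem hz, Real.enorm_eq_ofReal_abs,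
          ← ENNReal.ofReal_mul (abs_nonneg _)]
        apply ENNReal.ofReal_le_ofReal
        exact le_of_eq (by ring)
      · rw [hf2, indicator_of_notMem hz]; simp
    calc ENNReal.ofReal (2 * ε) * ∫⁻ z, ENNReal.ofReal (|f2 z| / (x - z) ^ 2)
        ≤ ENNReal.ofReal (2 * ε) * (ENNReal.ofReal (8 / (4 * ε)) * MM f x) := by gcongr
      _ = _ := by
        rw [← mul_assoc, ← ENNReal.ofReal_mul (by positivity)]
        congr 2
        field_simp
        norm_num
  have hi1 : 0 ≤ ∫ z, |f1 z| := integral_nonneg fun z => abs_nonneg _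
  have hi2 : 0 ≤ ∫ z, |f2 z| / (x - z) ^ 2 := integral_nonneg fun z => by positivity
  calc ENNReal.ofReal |tr (4 * ε) f x| ≤ ENNReal.ofReal (|h| + (10 * L * ε⁻¹ * ∫ z, |f1 z|) +
        (2 * ε * ∫ z, |f2 z| / (x - z) ^ 2)) := ENNReal.ofReal_le_ofReal hlim
    _ = ENNReal.ofReal |h| + ENNReal.ofReal (10 * L * ε⁻¹ * ∫ z, |f1 z|) +
        ENNReal.ofReal (2 * ε * ∫ z, |f2 z| / (x - z) ^ 2) := by
        rw [ENNReal.ofReal_add (by positivity) (by positivity), ENNReal.ofReal_add (by positivity)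
          (by positivity)]
    _ ≤ ENNReal.ofReal |h| + ENNReal.ofReal (100 * L) * MM f x + ENNReal.ofReal 4 * MM f x := by gcongr
    _ = _ := by
        rw [ENNReal.ofReal_add (by positivity) (by norm_num)]
        ring

end Pool.Agent.W755.Mz
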