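import Mathlib
import Pool.Agent.W755.MzUni
import Pool.Agent.W755.MzCaseC

set_option autoImplicit false

open MeasureTheory Filter Topology Set
open scoped ENNReal NNReal

namespace Pool.Agent.W755.Mz

open Pool.Agent.Helper107.HB

theorem lint_mU_univ {W : ℝ → ℝ} (hW : Measurable W) {w : ℝ → ℝ≥0∞} (hw : Measurable w) :
    ∫⁻ x, w x ∂(mU W) = ∫⁻ x, w x * ENNReal.ofReal (W x) := by
  have := lint_mU hW MeasurableSet.univ hw
  simpa only [Measure.restrict_univ] using this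

section

variable {p : ℝ} (hp : 1 < p) {W : ℝ → ℝ} (hWm : Measurable W) (hpos : ∀ᵐ x, 0 < W x) {K : ℝ≥0}
  (hK : ApC p W K) (hW0 : ∀ x, 0 ≤ W x)

include hp hWm hpos hK hW0

theorem unif_bc : ∃ C : ℝ≥0, ∀ f : ℝ → ℝ, Measurable f → HasCompactSupport f →
    (∃ B, ∀ x, |f x| ≤ B) → ∀ ε : ℝ, 0 < ε →
      ∫⁻ x, ENNReal.ofReal (|tr ε f x| ^ p) * ENNReal.ofReal (W x) ≤
        C * ∫⁻ x, ENNReal.ofReal (|f x| ^ p) * ENNReal.ofReal (W x) := by
  have hp0 : 0 < p := by linarith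
  have hp1 : 0 < p - 1 := by linarith
  obtain ⟨K0, hK0, hmain⟩ := Pool.Agent.Helper107.CP.final Pool.Agent.Helper107.CP.excess p hp W hWm
    hW0 (cp_cond hp hWm hpos hK hW0)
  obtain ⟨ψ, P, L, hψ⟩ := exists_mol
  have hP : 0 ≤ P := (hψ.nonneg 0).trans (hψ.bound 0)
  have hL : 0 ≤ L := by
    have := hψ.lip 0 1
    have h2 := abs_nonneg (ψ 0 - ψ 1)
    norm_num at this
    linarith
  set D : ℝ≥0∞ := (K : ℝ≥0∞) ^ (p / (p - 1)) * (Cq (p / (p - 1)) * Cq p) with hD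
  have hDt : D ≠ ⊤ := ENNReal.mul_ne_top
    (ENNReal.rpow_lt_top_of_nonneg (by positivity) ENNReal.coe_ne_top).ne
    (ENNReal.mul_ne_top (Cq_ne_top _) (Cq_ne_top _))
  set c1 : ℝ≥0∞ := ENNReal.ofReal K0 * ENNReal.ofReal (3 + 4 * P) ^ p with hc1
  set c2 : ℝ≥0∞ := ENNReal.ofReal (100 * L + 4) ^ p with hc2
  have hc1t : c1 ≠ ⊤ := ENNReal.mul_ne_top ENNReal.ofReal_ne_top
    (ENNReal.rpow_lt_top_of_nonneg hp0.le ENNReal.ofReal_ne_top).ne
  have hc2t : c2 ≠ ⊤ := (ENNReal.rpow_lt_top_of_nonneg hp0.le ENNReal.ofReal_ne_top).ne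
  have h2t : (2 : ℝ≥0∞) ^ (p - 1) ≠ ⊤ := (ENNReal.rpow_lt_top_of_nonneg hp1.le (by simp)).ne
  set CC : ℝ≥0∞ := 2 ^ (p - 1) * (c1 + c2) * D with hCC
  have hCCt : CC ≠ ⊤ := ENNReal.mul_ne_top (ENNReal.mul_ne_top h2t (ENNReal.add_ne_top.2 ⟨hc1t, hc2t⟩)) hDt
  refine ⟨CC.toNNReal, ?_⟩
  rw [ENNReal.coe_toNNReal hCCt]
  rintro f hf hc ⟨B, hB⟩ ε hε
  have hfi := integrable_bc f hf B hB hc
  set e : ℝ := ε / 4 with he
  have he0 : 0 < e := by positivity
  have h4e : 4 * e = ε := by rw [he]; ring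
  obtain ⟨h1, h2⟩ := mo_smooth hψ e he0 f hfi hc
  have hex : ∀ x : ℝ, ∃ h : ℝ, Tendsto (fun δ : ℝ => tr δ (mo ψ e f) x) (𝓝[>] 0) (𝓝 h) :=
    fun x => pv_exists (mo ψ e f) h1 h2 x
  choose Hh hHh using hex
  have hMMm : Measurable (MM f) := by
    have : MM f = Mm volume (fun y => ‖f y‖ₑ) := funext (MM_eq f)
    rw [this]
    exact measurable_Mm _ _
  have hA : ∫⁻ x, ENNReal.ofReal (|Hh x| ^ p * W x) ≤ c1 * ∫⁻ x, MM f x ^ p * ENNReal.ofReal (W x) := by
    refine (hmain (mo ψ e f) h1 h2 Hh hHh).trans ?_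
    have h3 : ∫⁻ x, (⨆ a : ℝ, ⨆ b : ℝ, ⨆ (_ : a < x ∧ x < b),
        ENNReal.ofReal ((b - a)⁻¹) * ∫⁻ y in Set.Ioo a b, ‖mo ψ e f y‖ₑ) ^ p
          * ENNReal.ofReal (W x) ≤
        ∫⁻ x, ENNReal.ofReal (3 + 4 * P) ^ p * (MM f x ^ p * ENNReal.ofReal (W x)) := by
      refine lintegral_mono (fun x => ?_)
      have h4 := mo_max hψ e he0 f hf B hB x
      have h5 : MM (mo ψ e f) x ^ p ≤ ENNReal.ofReal (3 + 4 * P) ^ p * MM f x ^ p :=
        (ENNReal.rpow_le_rpow h4 hp0.le).trans (le_of_eq (ENNReal.mul_rpow_of_nonneg _ _ hp0.le))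
      rw [← mul_assoc]
      exact mul_le_mul_left h5 _
    calc _ ≤ ENNReal.ofReal K0 * ∫⁻ x, ENNReal.ofReal (3 + 4 * P) ^ p *
          (MM f x ^ p * ENNReal.ofReal (W x)) := mul_le_mul_right h3 _
      _ = _ := by
        rw [lintegral_const_mul' _ _ (ENNReal.rpow_lt_top_of_nonneg hp0.le ENNReal.ofReal_ne_top).ne,
          ← mul_assoc]
  have hmuck : ∫⁻ x, MM f x ^ p * ENNReal.ofReal (W x) ≤
      D * ∫⁻ x, ENNReal.ofReal (|f x| ^ p) * ENNReal.ofReal (W x) := by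
    have h3 := muckenhoupt hp hWm hpos hK (fun y => ‖f y‖ₑ) hf.enorm
    rw [lint_mU_univ hWm ((measurable_Mm _ _).pow_const _),
      lint_mU_univ hWm (hf.enorm.pow_const _)] at h3
    have e1 : ∀ x, ‖f x‖ₑ ^ p = ENNReal.ofReal (|f x| ^ p) := by
      intro x
      rw [Real.enorm_eq_ofReal_abs, ENNReal.ofReal_rpow_of_nonneg (abs_nonneg _) hp0.le]
    simp only [e1] at h3
    have e2 : ∀ x, MM f x = Mm volume (fun y => ‖f y‖ₑ) x := MM_eq f
    simp only [e2]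
    exact h3
  have hpt : ∀ x, ENNReal.ofReal (|tr ε f x| ^ p) * ENNReal.ofReal (W x) ≤
      2 ^ (p - 1) * (ENNReal.ofReal (|Hh x| ^ p * W x) + c2 * (MM f x ^ p * ENNReal.ofReal (W x))) := by
    intro x
    have h3 := trunc_cmp hψ e he0 f hf hfi x (Hh x) (hHh x)
    rw [h4e] at h3
    calc ENNReal.ofReal (|tr ε f x| ^ p) * ENNReal.ofReal (W x)
        = ENNReal.ofReal |tr ε f x| ^ p * ENNReal.ofReal (W x) := by
          rw [ENNReal.ofReal_rpow_of_nonneg (abs_nonneg _) hp0.le]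
      _ ≤ (ENNReal.ofReal |Hh x| + ENNReal.ofReal (100 * L + 4) * MM f x) ^ p * ENNReal.ofReal (W x) := by
          gcongr
      _ ≤ (2 ^ (p - 1) * (ENNReal.ofReal |Hh x| ^ p + (ENNReal.ofReal (100 * L + 4) * MM f x) ^ p)) *
            ENNReal.ofReal (W x) := by
          gcongr
          exact ENNReal.rpow_add_le_mul_rpow_add_rpow _ _ hp.le
      _ = _ := by
          rw [ENNReal.mul_rpow_of_nonneg _ _ hp0.le, ENNReal.ofReal_rpow_of_nonneg (abs_nonneg _) hp0.le,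
            ENNReal.ofReal_mul (Real.rpow_nonneg (abs_nonneg _) _)]
          ring
  calc ∫⁻ x, ENNReal.ofReal (|tr ε f x| ^ p) * ENNReal.ofReal (W x)
      ≤ ∫⁻ x, 2 ^ (p - 1) * (ENNReal.ofReal (|Hh x| ^ p * W x) + c2 * (MM f x ^ p * ENNReal.ofReal (W x))) :=
        lintegral_mono hpt
    _ = 2 ^ (p - 1) * ((∫⁻ x, ENNReal.ofReal (|Hh x| ^ p * W x)) +
          c2 * ∫⁻ x, MM f x ^ p * ENNReal.ofReal (W x)) := by
        rw [lintegral_const_mul' _ _ h2t, lintegral_add_right, lintegral_const_mul' _ _ hc2t]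
        exact (((hMMm.pow_const _).mul hWm.ennreal_ofReal).const_mul _)
    _ ≤ 2 ^ (p - 1) * (c1 * (∫⁻ x, MM f x ^ p * ENNReal.ofReal (W x)) +
          c2 * ∫⁻ x, MM f x ^ p * ENNReal.ofReal (W x)) := by gcongr
    _ = 2 ^ (p - 1) * (c1 + c2) * ∫⁻ x, MM f x ^ p * ENNReal.ofReal (W x) := by ring
    _ ≤ 2 ^ (p - 1) * (c1 + c2) * (D * ∫⁻ x, ENNReal.ofReal (|f x| ^ p) * ENNReal.ofReal (W x)) := by
        gcongr
    _ = _ := by rw [hCC]; ring

theorem unif_gen : ∃ C : ℝ≥0, ∀ g : ℝ → ℝ, Measurable g →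
    (∀ x δ : ℝ, 0 < δ → IntegrableOn (fun y => g y / (x - y)) {y : ℝ | δ < |x - y|}) →
    ∀ ε : ℝ, 0 < ε →
      ∫⁻ x, ENNReal.ofReal (|tr ε g x| ^ p) * ENNReal.ofReal (W x) ≤
        C * ∫⁻ x, ENNReal.ofReal (|g x| ^ p) * ENNReal.ofReal (W x) := by
  have hp0 : 0 < p := by linarith
  obtain ⟨C, hC⟩ := unif_bc hp hWm hpos hK hW0
  refine ⟨C, ?_⟩
  intro g hg hgi ε hε
  set S : ℕ → Set ℝ := fun n => {y : ℝ | |y| ≤ n ∧ |g y| ≤ n} with hS
  have hSm : ∀ n, MeasurableSet (S n) := by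
    intro n
    have m1 : MeasurableSet {y : ℝ | |y| ≤ n} := measurableSet_le (by fun_prop) measurable_const
    have m2 : MeasurableSet {y : ℝ | |g y| ≤ n} := measurableSet_le hg.abs measurable_const
    exact m1.inter m2
  set gn : ℕ → ℝ → ℝ := fun n => (S n).indicator g with hgn
  have hgnm : ∀ n, Measurable (gn n) := fun n => hg.indicator (hSm n)
  have hle : ∀ n y, |gn n y| ≤ |g y| := by
    intro n y
    by_cases hy : y ∈ S n
    · rw [hgn]; simp only; rw [indicator_of_mem hy]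
    · rw [hgn]; simp only; rw [indicator_of_notMem hy]; simp
  have hcs : ∀ n, HasCompactSupport (gn n) := by
    intro n
    refine HasCompactSupport.intro (K := Icc (-(n:ℝ)) n) isCompact_Icc fun y hy => ?_
    have : y ∉ S n := fun h => hy (abs_le.1 h.1)
    rw [hgn]; simp only; rw [indicator_of_notMem this]
  have hbd : ∀ n, ∃ B, ∀ x, |gn n x| ≤ B := by
    intro n
    refine ⟨n, fun y => ?_⟩
    by_cases hy : y ∈ S n
    · rw [hgn]; simp only; rw [indicator_of_mem hy]; exact hy.2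
    · rw [hgn]; simp only; rw [indicator_of_notMem hy]; simp
  have hlim : ∀ y, Tendsto (fun n => gn n y) atTop (𝓝 (g y)) := by
    intro y
    obtain ⟨N, hN⟩ := exists_nat_ge (max |y| |g y|)
    refine Tendsto.congr' ?_ tendsto_const_nhds
    filter_upwards [eventually_ge_atTop N] with n hn
    have hn' : (N : ℝ) ≤ n := by exact_mod_cast hn
    have : y ∈ S n := ⟨((le_max_left _ _).trans hN).trans hn', ((le_max_right _ _).trans hN).trans hn'⟩
    rw [hgn]; simp only; rw [indicator_of_mem this]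
  have htr : ∀ x, Tendsto (fun n => tr ε (gn n) x) atTop (𝓝 (tr ε g x)) := by
    intro x
    unfold tr
    refine tendsto_integral_of_dominated_convergence (fun y => ‖g y / (x - y)‖) ?_ ?_ ?_ ?_
    · intro n
      exact ((hgnm n).div (measurable_const.sub measurable_id)).aestronglyMeasurable
    · exact (hgi x ε hε).norm
    · intro n
      refine Eventually.of_forall fun y => ?_
      rw [norm_div, norm_div]
      gcongr
      exact hle n y
    · refine Eventually.of_forall fun y => ?_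
      exact (hlim y).div_const _
  have hfat : ∫⁻ x, ENNReal.ofReal (|tr ε g x| ^ p) * ENNReal.ofReal (W x) ≤
      liminf (fun n => ∫⁻ x, ENNReal.ofReal (|tr ε (gn n) x| ^ p) * ENNReal.ofReal (W x)) atTop := by
    have h1 : ∀ x, ENNReal.ofReal (|tr ε g x| ^ p) * ENNReal.ofReal (W x) =
        liminf (fun n => ENNReal.ofReal (|tr ε (gn n) x| ^ p) * ENNReal.ofReal (W x)) atTop := by
      intro x
      refine (Tendsto.liminf_eq ?_).symm
      refine ENNReal.Tendsto.mul_const ?_ (Or.inr ENNReal.ofReal_ne_top)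
      exact (ENNReal.continuous_ofReal.tendsto _).comp ((htr x).abs.rpow_const (Or.inr hp0.le))
    simp_rw [h1]
    refine lintegral_liminf_le fun n => ?_
    exact (((measurable_tr ε (gn n) (hgnm n)).abs.pow_const p).ennreal_ofReal).mul hWm.ennreal_ofReal
  refine hfat.trans ?_
  refine liminf_le_of_le (by isBoundedDefault) (fun b hb => ?_)
  obtain ⟨n, hn⟩ := hb.exists
  refine hn.trans ((hC (gn n) (hgnm n) (hcs n) (hbd n) ε hε).trans ?_)
  exact mul_le_mul' le_rfl (lintegral_mono fun x => mul_le_mul' (ENNReal.ofReal_le_ofReal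
    (Real.rpow_le_rpow (abs_nonneg _) (hle n x) hp0.le)) le_rfl)

/-- the limit form -/
theorem lim_gen : ∃ C : ℝ≥0, ∀ g : ℝ → ℝ, Measurable g →
    (∀ x δ : ℝ, 0 < δ → IntegrableOn (fun y => g y / (x - y)) {y : ℝ | δ < |x - y|}) →
    ∀ h : ℝ → ℝ, (∀ x, h x = 0 ∨ Tendsto (fun δ : ℝ => tr δ g x) (𝓝[>] (0:ℝ)) (𝓝 (Real.pi * h x))) →
      ∫⁻ x, ENNReal.ofReal (|h x| ^ p) * ENNReal.ofReal (W x) ≤
        C * ∫⁻ x, ENNReal.ofReal (|g x| ^ p) * ENNReal.ofReal (W x) := by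
  have hp0 : 0 < p := by linarith
  obtain ⟨C, hC⟩ := unif_gen hp hWm hpos hK hW0
  refine ⟨C, ?_⟩
  intro g hg hgi h hh
  set en : ℕ → ℝ := fun n => 1 / ((n : ℝ) + 1) with hen
  have hen0 : ∀ n, 0 < en n := fun n => by rw [hen]; positivity
  have hent : Tendsto en atTop (𝓝[>] 0) := by
    rw [tendsto_nhdsWithin_iff]
    exact ⟨tendsto_one_div_add_atTop_nhds_zero_nat, Eventually.of_forall hen0⟩
  have hfat : ∫⁻ x, ENNReal.ofReal (|h x| ^ p) * ENNReal.ofReal (W x) ≤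
      ∫⁻ x, liminf (fun n => ENNReal.ofReal (|tr (en n) g x| ^ p) * ENNReal.ofReal (W x)) atTop := by
    refine lintegral_mono fun x => ?_
    rcases hh x with h0 | h0
    · rw [h0, abs_zero, Real.zero_rpow hp0.ne', ENNReal.ofReal_zero, zero_mul]
      exact bot_le
    · have h1 : Tendsto (fun n => ENNReal.ofReal (|tr (en n) g x| ^ p) * ENNReal.ofReal (W x)) atTop
          (𝓝 (ENNReal.ofReal (|Real.pi * h x| ^ p) * ENNReal.ofReal (W x))) := by
        refine ENNReal.Tendsto.mul_const ?_ (Or.inr ENNReal.ofReal_ne_top)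
        exact (ENNReal.continuous_ofReal.tendsto _).comp
          ((h0.comp hent).abs.rpow_const (Or.inr hp0.le))
      rw [h1.liminf_eq]
      refine mul_le_mul' (ENNReal.ofReal_le_ofReal (Real.rpow_le_rpow (abs_nonneg _) ?_ hp0.le)) le_rfl
      rw [abs_mul, abs_of_pos Real.pi_pos]
      have := Real.pi_gt_three
      nlinarith [abs_nonneg (h x)]
  refine hfat.trans ((lintegral_liminf_le fun n => ?_).trans ?_)
  · exact (((measurable_tr (en n) g hg).abs.pow_const p).ennreal_ofReal).mul hWm.ennreal_ofReal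
  · refine liminf_le_of_le (by isBoundedDefault) (fun b hb => ?_)
    obtain ⟨n, hn⟩ := hb.exists
    exact hn.trans (hC g hg hgi (en n) (hen0 n))

end

end Pool.Agent.W755.Mz
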