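import Mathlib
import Pool.Agent.W755.MzSuf

set_option autoImplicit false

open MeasureTheory Filter Topology Set
open scoped ENNReal NNReal

namespace Pool.Agent.W755.Mz

open Pool.Agent.Helper107.HB

theorem pos_of_memAp {p : ℝ} (hp : 1 < p) {W : ℝ → ℝ} (hWm : Measurable W) (hW0 : ∀ x, 0 ≤ W x)
    (hne : ¬ W =ᵐ[volume] 0) (hA : MemAp p W) : ∀ᵐ x, 0 < W x := by
  have hp1 : 0 < p - 1 := by linarith
  obtain ⟨K, hK⟩ := hA
  by_contra hcon
  set Z : Set ℝ := {x | W x = 0} with hZ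
  set P : Set ℝ := {x | 0 < W x} with hP
  have hZm : MeasurableSet Z := hWm (measurableSet_singleton 0)
  have hPm : MeasurableSet P := measurableSet_lt measurable_const hWm
  have hZpos : volume Z ≠ 0 := by
    intro h0
    apply hcon
    rw [ae_iff]
    refine measure_mono_null ?_ h0
    intro x hx
    have hx' : ¬ 0 < W x := hx
    exact le_antisymm (not_lt.1 hx') (hW0 x)
  have hPpos : volume P ≠ 0 := by
    intro h0
    apply hne
    rw [Filter.EventuallyEq, ae_iff]
    refine measure_mono_null ?_ h0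
    intro x hx
    have hx' : ¬ W x = 0 := hx
    exact lt_of_le_of_ne (hW0 x) (Ne.symm hx')
  have hex : ∀ S : Set ℝ, volume S ≠ 0 → ∃ n : ℕ, ∀ m : ℕ, n ≤ m → volume (S ∩ Ioo (-(m:ℝ)) m) ≠ 0 := by
    intro S hS
    by_contra hno
    push Not at hno
    apply hS
    have h1 : ∀ n : ℕ, volume (S ∩ Ioo (-(n:ℝ)) n) = 0 := by
      intro n
      obtain ⟨m, hnm, hm⟩ := hno n
      refine measure_mono_null ?_ hm
      have : (n:ℝ) ≤ m := by exact_mod_cast hnm
      exact inter_subset_inter_right _ (Ioo_subset_Ioo (by linarith) this)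
    have h2 : S ⊆ ⋃ n : ℕ, S ∩ Ioo (-(n:ℝ)) n := by
      intro x hx
      obtain ⟨n, hn⟩ := exists_nat_gt |x|
      exact mem_iUnion.2 ⟨n, hx, abs_lt.1 hn⟩
    exact measure_mono_null h2 (measure_iUnion_null h1)
  obtain ⟨n1, hn1⟩ := hex Z hZpos
  obtain ⟨n2, hn2⟩ := hex P hPpos
  set m := max (max n1 n2) 1 with hm
  have hZI := hn1 m ((le_max_left n1 n2).trans (le_max_left _ _))
  have hPI := hn2 m ((le_max_right n1 n2).trans (le_max_left _ _))
  have hm1 : (1:ℝ) ≤ m := by exact_mod_cast le_max_right _ _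
  have hap := hK (-(m:ℝ)) m (by linarith)
  set ρ := ENNReal.ofReal ((m:ℝ) - -(m:ℝ)) with hρ
  have hρi : ρ⁻¹ ≠ 0 := ENNReal.inv_ne_zero.2 ENNReal.ofReal_ne_top
  have i1 : ∫⁻ x in Ioo (-(m:ℝ)) m, ENNReal.ofReal (W x) ^ (-(1 / (p - 1))) = ⊤ := by
    rw [← top_le_iff]
    calc (⊤ : ℝ≥0∞) = ⊤ * volume (Z ∩ Ioo (-(m:ℝ)) m) := (ENNReal.top_mul hZI).symm
      _ = ∫⁻ x in Z ∩ Ioo (-(m:ℝ)) m, ⊤ := (setLIntegral_const _ _).symm
      _ = ∫⁻ x in Z ∩ Ioo (-(m:ℝ)) m, ENNReal.ofReal (W x) ^ (-(1 / (p - 1))) := by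
          refine setLIntegral_congr_fun (hZm.inter measurableSet_Ioo) fun x hx => ?_
          have hx0 : W x = 0 := hx.1
          rw [hx0, ENNReal.ofReal_zero, ENNReal.zero_rpow_of_neg]
          have : 0 < 1 / (p - 1) := by positivity
          linarith
      _ ≤ _ := lintegral_mono_set inter_subset_right
  have i2 : ∫⁻ x in Ioo (-(m:ℝ)) m, ENNReal.ofReal (W x) ≠ 0 := by
    have : 0 < ∫⁻ x in Ioo (-(m:ℝ)) m, ENNReal.ofReal (W x) := by
      rw [setLIntegral_pos_iff hWm.ennreal_ofReal]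
      refine lt_of_lt_of_le (pos_iff_ne_zero.2 hPI) (measure_mono ?_)
      rintro x ⟨hx, hxI⟩
      exact ⟨(ENNReal.ofReal_pos.2 hx).ne', hxI⟩
    exact this.ne'
  rw [i1, ENNReal.mul_top hρi, ENNReal.top_rpow_of_pos hp1, ENNReal.mul_top (mul_ne_zero hρi i2)] at hap
  exact ENNReal.coe_ne_top (top_le_iff.1 hap)

theorem hilbert_spec (f : ℝ → ℝ) (x : ℝ) : hilbert f x = 0 ∨
    Tendsto (fun δ : ℝ => truncH f δ x) (𝓝[>] (0 : ℝ)) (𝓝 (hilbert f x)) := by
  unfold hilbert
  split_ifs with h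
  · right; exact h.choose_spec
  · left; rfl

theorem tr_eq {f f' : ℝ → ℝ} (h : f =ᵐ[volume] f') (δ x : ℝ) :
    tr δ f' x = Real.pi * truncH f δ x := by
  unfold tr truncH
  rw [← mul_assoc, mul_one_div_cancel Real.pi_ne_zero, one_mul]
  have : {y : ℝ | δ < |x - y|} = {y : ℝ | δ < |y - x|} := by
    ext y
    show δ < |x - y| ↔ δ < |y - x|
    rw [abs_sub_comm]
  rw [this]
  refine integral_congr_ae (ae_restrict_of_ae ?_)
  filter_upwards [h] with y hy
  rw [hy]

theorem iOn_div {f : ℝ → ℝ} (hf : Integrable f) (hfm : Measurable f) (x δ : ℝ) (hδ : 0 < δ) :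
    IntegrableOn (fun y => f y / (x - y)) {y : ℝ | δ < |x - y|} := by
  have hS : MeasurableSet {y : ℝ | δ < |x - y|} := measurableSet_lt measurable_const (by fun_prop)
  refine Integrable.mono' ((hf.norm.const_mul δ⁻¹).integrableOn) ?_ ?_
  · exact (hfm.div (measurable_const.sub measurable_id)).aestronglyMeasurable
  · refine (ae_restrict_iff' hS).2 (Eventually.of_forall fun y hy => ?_)
    have hy' : δ < |x - y| := hy
    rw [norm_div, Real.norm_eq_abs (x - y), div_eq_inv_mul]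
    gcongr

section

variable {p : ℝ} (hp : 1 < p) {W : ℝ → ℝ} (hWm : Measurable W) (hpos : ∀ᵐ x, 0 < W x) {K : ℝ≥0}
  (hK : ApC p W K) (hW0 : ∀ x, 0 ≤ W x)

include hp hWm hpos hK hW0

/-- the `A_p` theorem for the Hilbert transform -/
theorem suf_a : ∃ C : ℝ≥0, ∀ f : ℝ → ℝ, Integrable f →
      ∫⁻ x, ENNReal.ofReal (|hilbert f x| ^ p) * ENNReal.ofReal (W x) ≤
        C * ∫⁻ x, ENNReal.ofReal (|f x| ^ p) * ENNReal.ofReal (W x) := by
  obtain ⟨C, hC⟩ := lim_gen hp hWm hpos hK hW0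
  refine ⟨C, fun f hf => ?_⟩
  obtain ⟨f', hf'm, hff'⟩ : ∃ f', Measurable f' ∧ f =ᵐ[volume] f' :=
    ⟨hf.aestronglyMeasurable.mk f, hf.aestronglyMeasurable.stronglyMeasurable_mk.measurable,
      hf.aestronglyMeasurable.ae_eq_mk⟩
  have hf'i : Integrable f' := hf.congr hff'
  have h1 := hC f' hf'm (fun x δ hδ => iOn_div hf'i hf'm x δ hδ) (hilbert f) (fun x => by
    rcases hilbert_spec f x with h | h
    · left; exact h
    · right
      have := h.const_mul Real.pi
      refine this.congr fun δ => ?_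
      exact (tr_eq hff' δ x).symm)
  refine h1.trans (le_of_eq ?_)
  congr 1
  refine lintegral_congr_ae ?_
  filter_upwards [hff'] with x hx
  rw [hx]

/-- the inequality with the weight `|x - x0|^p W` for mean zero functions -/
theorem suf_b (x0 : ℝ) : ∃ C : ℝ≥0, ∀ f : ℝ → ℝ, Integrable f → ∫ x, f x = 0 →
      ∫⁻ x, ENNReal.ofReal (|hilbert f x| ^ p) * ENNReal.ofReal (|x - x0| ^ p * W x) ≤
        C * ∫⁻ x, ENNReal.ofReal (|f x| ^ p) * ENNReal.ofReal (|x - x0| ^ p * W x) := by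
  obtain ⟨C, hC⟩ := lim_gen hp hWm hpos hK hW0
  refine ⟨C, fun f hf hf0 => ?_⟩
  obtain ⟨f', hf'm, hff'⟩ : ∃ f', Measurable f' ∧ f =ᵐ[volume] f' :=
    ⟨hf.aestronglyMeasurable.mk f, hf.aestronglyMeasurable.stronglyMeasurable_mk.measurable,
      hf.aestronglyMeasurable.ae_eq_mk⟩
  have hf'i : Integrable f' := hf.congr hff'
  have hf'0 : ∫ x, f' x = 0 := by rw [← integral_congr_ae hff']; exact hf0
  set g : ℝ → ℝ := fun y => (y - x0) * f' y with hg
  have hgm : Measurable g := (measurable_id.sub measurable_const).mul hf'm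
  have hSm : ∀ x δ : ℝ, MeasurableSet {y : ℝ | δ < |x - y|} := fun x δ =>
    measurableSet_lt measurable_const (by fun_prop)
  -- the identity of the kernels
  have hdec : ∀ x δ : ℝ, 0 < δ → ∀ y ∈ {y : ℝ | δ < |x - y|},
      g y / (x - y) = (x - x0) * (f' y / (x - y)) - f' y := by
    intro x δ hδ y hy
    have hy' : δ < |x - y| := hy
    have hne : x - y ≠ 0 := by
      intro h0
      rw [h0, abs_zero] at hy'
      linarith
    simp only [hg]
    field_simp
    ring
  have hgi : ∀ x δ : ℝ, 0 < δ → IntegrableOn (fun y => g y / (x - y)) {y : ℝ | δ < |x - y|} := by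
    intro x δ hδ
    have h1 : IntegrableOn (fun y => (x - x0) * (f' y / (x - y)) - f' y) {y : ℝ | δ < |x - y|} :=
      ((iOn_div hf'i hf'm x δ hδ).const_mul _).sub hf'i.integrableOn
    exact h1.congr_fun (fun y hy => (hdec x δ hδ y hy).symm) (hSm x δ)
  have htr : ∀ x δ : ℝ, 0 < δ → tr δ g x = (x - x0) * tr δ f' x - ∫ y in {y : ℝ | δ < |x - y|}, f' y := by
    intro x δ hδ
    unfold tr
    rw [setIntegral_congr_fun (hSm x δ) (hdec x δ hδ), integral_sub, integral_const_mul]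
    · exact (iOn_div hf'i hf'm x δ hδ).const_mul _
    · exact hf'i.integrableOn
  have hlim0 : ∀ x : ℝ, Tendsto (fun δ : ℝ => ∫ y in {y : ℝ | δ < |x - y|}, f' y) (𝓝[>] (0:ℝ)) (𝓝 0) := by
    intro x
    have h1 : Tendsto (fun δ : ℝ => ∫ y, {y : ℝ | δ < |x - y|}.indicator f' y) (𝓝[>] (0:ℝ))
        (𝓝 (∫ y, f' y)) := by
      refine tendsto_integral_filter_of_dominated_convergence (fun y => ‖f' y‖) ?_ ?_ hf'i.norm ?_
      · exact Eventually.of_forall fun δ => (hf'm.indicator (hSm x δ)).aestronglyMeasurable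
      · refine Eventually.of_forall fun δ => Eventually.of_forall fun y => ?_
        exact norm_indicator_le_norm_self _ _
      · have : ∀ᵐ y : ℝ, y ≠ x := by
          rw [ae_iff]
          simp
        filter_upwards [this] with y hy
        have hpos' : 0 < |x - y| := abs_pos.2 (sub_ne_zero.2 (Ne.symm hy))
        refine Tendsto.congr' ?_ tendsto_const_nhds
        filter_upwards [Ioo_mem_nhdsGT hpos'] with δ hδ
        rw [indicator_of_mem (show y ∈ {y : ℝ | δ < |x - y|} from hδ.2)]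
    rw [hf'0] at h1
    refine h1.congr fun δ => ?_
    exact integral_indicator (hSm x δ)
  have h1 := hC g hgm hgi (fun x => (x - x0) * hilbert f x) (fun x => by
    rcases hilbert_spec f x with h | h
    · left; rw [h, mul_zero]
    · right
      have h2 : Tendsto (fun δ : ℝ => (x - x0) * (Real.pi * truncH f δ x) -
          ∫ y in {y : ℝ | δ < |x - y|}, f' y) (𝓝[>] (0:ℝ))
          (𝓝 ((x - x0) * (Real.pi * hilbert f x) - 0)) :=
        ((h.const_mul Real.pi).const_mul (x - x0)).sub (hlim0 x)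
      have e : (x - x0) * (Real.pi * hilbert f x) - 0 = Real.pi * ((x - x0) * hilbert f x) := by ring
      rw [e] at h2
      refine h2.congr' ?_
      filter_upwards [self_mem_nhdsWithin] with δ hδ
      rw [htr x δ hδ, tr_eq hff'])
  have e1 : ∀ x y : ℝ, ENNReal.ofReal (|y| ^ p) * ENNReal.ofReal (|x - x0| ^ p * W x) =
      ENNReal.ofReal (|(x - x0) * y| ^ p) * ENNReal.ofReal (W x) := by
    intro x y
    rw [abs_mul, Real.mul_rpow (abs_nonneg _) (abs_nonneg _),
      ENNReal.ofReal_mul (Real.rpow_nonneg (abs_nonneg _) _),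
      ENNReal.ofReal_mul (Real.rpow_nonneg (abs_nonneg _) _)]
    ring
  simp only [e1]
  refine h1.trans (le_of_eq ?_)
  congr 1
  refine lintegral_congr_ae ?_
  filter_upwards [hff'] with x hx
  simp only [hg]
  rw [hx]

end

theorem measurable_div_rpow {U φ : ℝ → ℝ} {p : ℝ} (hU : Measurable U) (hφ : Measurable φ) :
    Measurable (fun x => U x / φ x ^ p) := hU.div (hφ.pow_const p)

theorem lint_add_w {w1 w2 : ℝ → ℝ≥0∞} (h1 : Measurable w1) (h2 : Measurable w2)
    (f1 : ∀ x, w1 x ≠ ⊤) (f2 : ∀ x, w2 x ≠ ⊤) (q : ℝ → ℝ≥0∞) :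
    ∫⁻ x, (q x * w1 x + q x * w2 x) = (∫⁻ x, q x * w1 x) + ∫⁻ x, q x * w2 x := by
  have e1 := lintegral_withDensity_eq_lintegral_mul_non_measurable volume h1
    (Eventually.of_forall fun x => lt_top_iff_ne_top.2 (f1 x)) q
  have e2 := lintegral_withDensity_eq_lintegral_mul_non_measurable volume h2
    (Eventually.of_forall fun x => lt_top_iff_ne_top.2 (f2 x)) q
  have e3 := lintegral_withDensity_eq_lintegral_mul_non_measurable volume (h1.add h2)
    (Eventually.of_forall fun x => lt_top_iff_ne_top.2 (ENNReal.add_ne_top.2 ⟨f1 x, f2 x⟩)) q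
  rw [withDensity_add_left h1, lintegral_add_measure, e1, e2] at e3
  calc ∫⁻ x, (q x * w1 x + q x * w2 x) = ∫⁻ x, ((w1 + w2) * q) x := by
        refine lintegral_congr fun x => ?_
        simp only [Pi.mul_apply, Pi.add_apply]
        ring
    _ = _ := by
        rw [← e3]
        simp only [Pi.mul_apply, mul_comm]

/-- Sufficiency. -/
theorem sufficiency {p : ℝ} (hp : 1 < p) {U : ℝ → ℝ} (hW : IsWeight U)
    (h : MemAp p U ∨ MemAp p (fun x => U x / (1 + |x|) ^ p) ∨
      ∃ x0 : ℝ, MemAp p (fun x => U x / |x - x0| ^ p)) : Admissible p U := by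
  have hp0 : 0 < p := by linarith
  rcases h with h | h | ⟨x0, h⟩
  · have hpos := pos_of_memAp hp hW.meas hW.nonneg hW.ne_zero h
    obtain ⟨K, hK⟩ := h
    obtain ⟨C, hC⟩ := suf_a hp hW.meas hpos hK hW.nonneg
    exact ⟨C, fun f hf _ => hC f hf⟩
  · set W : ℝ → ℝ := fun x => U x / (1 + |x|) ^ p with hWd
    have hWm : Measurable W := measurable_div_rpow hW.meas (by fun_prop)
    have hφ : ∀ x : ℝ, 0 < (1 + |x|) ^ p := fun x => Real.rpow_pos_of_pos (by positivity) p
    have hW0 : ∀ x, 0 ≤ W x := fun x => div_nonneg (hW.nonneg x) (hφ x).le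
    have hUW : ∀ x, U x = (1 + |x|) ^ p * W x := fun x => by
      simp only [hWd]
      rw [mul_div_cancel₀ _ (hφ x).ne']
    have hne : ¬ W =ᵐ[volume] 0 := by
      intro h0
      apply hW.ne_zero
      filter_upwards [h0] with x hx
      rw [hUW x, hx]
      simp
    have hpos := pos_of_memAp hp hWm hW0 hne h
    obtain ⟨K, hK⟩ := h
    obtain ⟨C1, hC1⟩ := suf_a hp hWm hpos hK hW0
    obtain ⟨C2, hC2⟩ := suf_b hp hWm hpos hK hW0 0
    refine ⟨(2:ℝ≥0) ^ p * (C1 + C2), fun f hf hf0 => ?_⟩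
    have b1 := hC1 f hf
    have b2 := hC2 f hf hf0
    have hup : ∀ x, ENNReal.ofReal (U x) ≤ 2 ^ p * (ENNReal.ofReal (W x) +
        ENNReal.ofReal (|x - 0| ^ p * W x)) := by
      intro x
      have h1 : (1 + |x|) ^ p ≤ 2 ^ p * (1 + |x| ^ p) := by
        rcases le_total 1 |x| with h | h
        · calc (1 + |x|) ^ p ≤ (2 * |x|) ^ p := Real.rpow_le_rpow (by positivity) (by linarith) hp0.le
            _ = 2 ^ p * |x| ^ p := Real.mul_rpow (by norm_num) (abs_nonneg _)
            _ ≤ _ := by gcongr; linarith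
        · calc (1 + |x|) ^ p ≤ (2:ℝ) ^ p := Real.rpow_le_rpow (by positivity) (by linarith) hp0.le
            _ = 2 ^ p * 1 := (mul_one _).symm
            _ ≤ _ := by
              have : 0 ≤ |x| ^ p := Real.rpow_nonneg (abs_nonneg _) _
              gcongr; linarith
      have h2 : U x ≤ 2 ^ p * (W x + |x - 0| ^ p * W x) := by
        rw [hUW x, sub_zero]
        calc (1 + |x|) ^ p * W x ≤ (2 ^ p * (1 + |x| ^ p)) * W x :=
              mul_le_mul_of_nonneg_right h1 (hW0 x)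
          _ = _ := by ring
      calc ENNReal.ofReal (U x) ≤ ENNReal.ofReal (2 ^ p * (W x + |x - 0| ^ p * W x)) :=
            ENNReal.ofReal_le_ofReal h2
        _ = _ := by
          rw [ENNReal.ofReal_mul (by positivity), ENNReal.ofReal_add (hW0 x)
            (mul_nonneg (Real.rpow_nonneg (abs_nonneg _) _) (hW0 x)),
            ← ENNReal.ofReal_rpow_of_pos (by norm_num)]
          norm_num
    have hlo1 : ∀ x, ENNReal.ofReal (W x) ≤ ENNReal.ofReal (U x) := by
      intro x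
      apply ENNReal.ofReal_le_ofReal
      rw [hUW x]
      have : 1 ≤ (1 + |x|) ^ p := Real.one_le_rpow (by linarith [abs_nonneg x]) hp0.le
      nlinarith [hW0 x]
    have hlo2 : ∀ x, ENNReal.ofReal (|x - 0| ^ p * W x) ≤ ENNReal.ofReal (U x) := by
      intro x
      apply ENNReal.ofReal_le_ofReal
      rw [hUW x, sub_zero]
      have : |x| ^ p ≤ (1 + |x|) ^ p := Real.rpow_le_rpow (abs_nonneg _) (by linarith) hp0.le
      exact mul_le_mul_of_nonneg_right this (hW0 x)
    have h2t : (2:ℝ≥0∞) ^ p ≠ ⊤ := (ENNReal.rpow_lt_top_of_nonneg hp0.le (by simp)).ne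
    calc ∫⁻ x, ENNReal.ofReal (|hilbert f x| ^ p) * ENNReal.ofReal (U x)
        ≤ ∫⁻ x, 2 ^ p * (ENNReal.ofReal (|hilbert f x| ^ p) * ENNReal.ofReal (W x) +
          ENNReal.ofReal (|hilbert f x| ^ p) * ENNReal.ofReal (|x - 0| ^ p * W x)) := by
          refine lintegral_mono fun x => ?_
          calc ENNReal.ofReal (|hilbert f x| ^ p) * ENNReal.ofReal (U x)
              ≤ ENNReal.ofReal (|hilbert f x| ^ p) * (2 ^ p * (ENNReal.ofReal (W x) +
                ENNReal.ofReal (|x - 0| ^ p * W x))) := mul_le_mul' le_rfl (hup x)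
            _ = _ := by ring
      _ = 2 ^ p * ((∫⁻ x, ENNReal.ofReal (|hilbert f x| ^ p) * ENNReal.ofReal (W x)) +
          ∫⁻ x, ENNReal.ofReal (|hilbert f x| ^ p) * ENNReal.ofReal (|x - 0| ^ p * W x)) := by
          rw [lintegral_const_mul' _ _ h2t]
          congr 1
          refine lint_add_w hWm.ennreal_ofReal ?_ (fun x => ENNReal.ofReal_ne_top)
            (fun x => ENNReal.ofReal_ne_top) _
          exact (((by fun_prop : Measurable (fun x : ℝ => |x - 0|)).pow_const p).mul hWm).ennreal_ofReal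
      _ ≤ 2 ^ p * (C1 * (∫⁻ x, ENNReal.ofReal (|f x| ^ p) * ENNReal.ofReal (W x)) +
          C2 * ∫⁻ x, ENNReal.ofReal (|f x| ^ p) * ENNReal.ofReal (|x - 0| ^ p * W x)) := by
          exact mul_le_mul' le_rfl (add_le_add b1 b2)
      _ ≤ 2 ^ p * (C1 * (∫⁻ x, ENNReal.ofReal (|f x| ^ p) * ENNReal.ofReal (U x)) +
          C2 * ∫⁻ x, ENNReal.ofReal (|f x| ^ p) * ENNReal.ofReal (U x)) := by
          refine mul_le_mul' le_rfl (add_le_add (mul_le_mul' le_rfl (lintegral_mono fun x =>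
            mul_le_mul' le_rfl (hlo1 x))) (mul_le_mul' le_rfl (lintegral_mono fun x =>
            mul_le_mul' le_rfl (hlo2 x))))
      _ = _ := by
          rw [ENNReal.coe_mul, ENNReal.coe_add, ENNReal.coe_rpow_of_nonneg _ hp0.le]
          push_cast
          ring
  · set W : ℝ → ℝ := fun x => U x / |x - x0| ^ p with hWd
    have hWm : Measurable W := measurable_div_rpow hW.meas (by fun_prop)
    have hW0 : ∀ x, 0 ≤ W x := fun x => div_nonneg (hW.nonneg x) (Real.rpow_nonneg (abs_nonneg _) _)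
    have hnex : ∀ᵐ x : ℝ, x ≠ x0 := by
      rw [ae_iff]
      simp
    have hUW : ∀ᵐ x, U x = |x - x0| ^ p * W x := by
      filter_upwards [hnex] with x hx
      simp only [hWd]
      rw [mul_div_cancel₀]
      exact (Real.rpow_pos_of_pos (abs_pos.2 (sub_ne_zero.2 hx)) p).ne'
    have hne : ¬ W =ᵐ[volume] 0 := by
      intro h0
      apply hW.ne_zero
      filter_upwards [h0, hUW] with x hx hx2
      rw [hx2, hx]
      simp
    have hpos := pos_of_memAp hp hWm hW0 hne h
    obtain ⟨K, hK⟩ := h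
    obtain ⟨C, hC⟩ := suf_b hp hWm hpos hK hW0 x0
    refine ⟨C, fun f hf hf0 => ?_⟩
    have e : ∀ q : ℝ → ℝ≥0∞, ∫⁻ x, q x * ENNReal.ofReal (U x) =
        ∫⁻ x, q x * ENNReal.ofReal (|x - x0| ^ p * W x) := by
      intro q
      refine lintegral_congr_ae ?_
      filter_upwards [hUW] with x hx
      rw [hx]
    rw [e, e]
    exact hC f hf hf0

/-- The characterisation of the admissible weights. -/
theorem characterization {p : ℝ} (hp : 1 < p) {U : ℝ → ℝ} (hW : IsWeight U) :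
    Admissible p U ↔ (MemAp p U ∨ MemAp p (fun x => U x / (1 + |x|) ^ p) ∨
      ∃ x0 : ℝ, MemAp p (fun x => U x / |x - x0| ^ p)) :=
  ⟨necessity hp hW, sufficiency hp hW⟩

end Pool.Agent.W755.Mz
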