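import Mathlib
import Pool.Agent.Helper352.Kron

set_option autoImplicit false

namespace Pool.Agent.W755.Haight

open Finset Filter Topology

/-- integer relations between logarithms of distinct primes are trivial -/
theorem log_prime_indep {ι : Type*} [Fintype ι] (P : ι → ℕ) (hP : ∀ i, (P i).Prime)
    (hinj : Function.Injective P) (c : ι → ℤ) (h1 : ∑ i, (c i : ℝ) * Real.log (P i) = 0) (j : ι) :
    c j = 0 := by
  classical
  -- positive and negative parts
  have h3 : ∑ i, (((c i).toNat : ℕ) : ℝ) * Real.log (P i) = ∑ i, (((-c i).toNat : ℕ) : ℝ) * Real.log (P i) := by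
    rw [← sub_eq_zero, ← Finset.sum_sub_distrib, ← h1]
    apply Finset.sum_congr rfl
    intro i _
    rw [← sub_mul]
    congr 1
    have : ((c i).toNat : ℤ) - ((-c i).toNat : ℤ) = c i := by omega
    exact_mod_cast this
  have hpos : ∀ i, (0 : ℝ) < P i := fun i => by exact_mod_cast (hP i).pos
  have h4 : ∀ e : ι → ℕ, ∑ i, (e i : ℝ) * Real.log (P i) = Real.log ((∏ i, P i ^ e i : ℕ) : ℝ) := by
    intro e
    push_cast
    rw [Real.log_prod (fun i _ => (pow_pos (hpos i) _).ne')]
    apply Finset.sum_congr rfl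
    intro i _
    rw [Real.log_pow]
  rw [h4, h4] at h3
  have hpp : ∀ e : ι → ℕ, 0 < ∏ i, P i ^ e i := fun e =>
    Finset.prod_pos (fun i _ => pow_pos (hP i).pos _)
  have h5 : ∏ i, P i ^ (c i).toNat = ∏ i, P i ^ (-c i).toNat := by
    have := Real.log_injOn_pos (Set.mem_Ioi.2 (by exact_mod_cast hpp _)) (Set.mem_Ioi.2 (by exact_mod_cast hpp _)) h3
    exact_mod_cast this
  have h6 : ∀ e : ι → ℕ, (∏ i, P i ^ e i).factorization (P j) = e j := by
    intro e
    rw [Nat.factorization_prod (fun i _ => (pow_pos (hP i).pos _).ne')]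
    rw [Finsupp.finsetSum_apply, Finset.sum_eq_single j]
    · rw [(hP j).factorization_pow]; simp
    · intro i _ hij
      rw [(hP i).factorization_pow, Finsupp.single_apply, if_neg]
      exact fun h => hij (hinj h)
    · intro h; exact absurd (mem_univ _) h
  have h7 := congrArg (fun n => n.factorization (P j)) h5
  simp only [h6] at h7
  omega

/-- Kronecker for logarithms of the primes below `N`: prescribed phases at the primes,
additive phases at all integers below `N`. -/
theorem phases (N : ℕ) (β : ℕ → ℝ) (ε : ℝ) (hε : 0 < ε) (T0 : ℝ) :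
    ∃ t > T0, ∀ p : ℕ, p.Prime → p < N → ∃ n : ℤ, |t * Real.log p - β p - n| < ε := by
  classical
  let ι := {p : Fin N // (p : ℕ).Prime}
  obtain ⟨t, ht, h⟩ := Pool.Agent.Helper352.kronecker (ι := ι) (fun i => Real.log ((i.1 : ℕ) : ℝ))
    (fun i => β (i.1 : ℕ)) (by
      intro c hc
      refine ⟨0, ?_⟩
      have : ∀ j, c j = 0 := fun j => log_prime_indep (fun i : ι => ((i.1 : Fin N) : ℕ))
        (fun i => i.2) (fun a b hab => Subtype.ext (Fin.ext hab)) c hc j
      simp [this]) ε hε T0
  refine ⟨t, ht, fun p hp hpN => ?_⟩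
  exact h ⟨⟨p, hpN⟩, hp⟩

theorem phases' (N M : ℕ) (β : ℕ → ℝ) (hβ : ∀ p, p < M → β p = 0) (ε : ℝ) (hε : 0 < ε) (T0 : ℝ)
    (hMN : M ≤ N) :
    ∃ t > T0, (∀ p : ℕ, p.Prime → p < N → ∃ n : ℤ, |t * Real.log p - β p - n| < ε) ∧
      (∀ r : ℕ, 0 < r → r < M → ∃ n : ℤ, |t * Real.log r - n| < ε) := by
  classical
  obtain ⟨t, ht, h⟩ := phases N β (ε / (M + 1)) (by positivity) T0
  have hle : ε / (M + 1) ≤ ε := by
    apply div_le_self hε.le
    have : (0 : ℝ) ≤ M := Nat.cast_nonneg M
    linarith
  refine ⟨t, ht, fun p hp hpN => ?_, ?_⟩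
  · obtain ⟨n, hn⟩ := h p hp hpN
    exact ⟨n, hn.trans_le hle⟩
  · intro r hr hrM
    -- stronger statement by strong induction: error < r * (ε/(M+1))
    have key : ∀ r : ℕ, 0 < r → r < M → ∃ n : ℤ, |t * Real.log r - n| ≤ (r - 1) * (ε / (M + 1)) := by
      intro r
      induction r using Nat.strong_induction_on with
      | _ r ih =>
        intro hr hrM
        by_cases h1 : r = 1
        · subst h1; exact ⟨0, by simp⟩
        · obtain ⟨p, hp, hpr⟩ := Nat.exists_prime_and_dvd h1
          obtain ⟨s, rfl⟩ := hpr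
          have hs : 0 < s := Nat.pos_of_ne_zero (by rintro rfl; simp at hr)
          have hp2 := hp.two_le
          have hlt : s < p * s := by nlinarith
          obtain ⟨n1, hn1⟩ := ih s hlt hs (hlt.trans hrM)
          have hpM : p < M := lt_of_le_of_lt (Nat.le_mul_of_pos_right p hs) hrM
          obtain ⟨n2, hn2⟩ := h p hp (hpM.trans_le hMN)
          rw [hβ p hpM, sub_zero] at hn2
          refine ⟨n1 + n2, ?_⟩
          have hpos : (0:ℝ) < p := by exact_mod_cast hp.pos
          have hspos : (0:ℝ) < s := by exact_mod_cast hs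
          have e1 : Real.log ((p * s : ℕ) : ℝ) = Real.log p + Real.log s := by
            push_cast
            rw [Real.log_mul hpos.ne' hspos.ne']
          rw [e1]
          have e2 : t * (Real.log p + Real.log s) - ((n1 + n2 : ℤ) : ℝ) =
              (t * Real.log s - n1) + (t * Real.log p - n2) := by push_cast; ring
          rw [e2]
          have hε' : 0 < ε / (M + 1) := by positivity
          have h3 : ((s:ℝ) - 1) + 1 ≤ ((p * s : ℕ) : ℝ) - 1 := by
            have : s + 1 ≤ p * s := hlt
            have h4 : ((s + 1 : ℕ) : ℝ) ≤ ((p * s : ℕ) : ℝ) := by exact_mod_cast this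
            push_cast at h4 ⊢
            linarith
          calc |(t * Real.log s - n1) + (t * Real.log p - n2)|
              ≤ |t * Real.log s - n1| + |t * Real.log p - n2| := abs_add_le _ _
            _ ≤ (s - 1) * (ε / (M + 1)) + ε / (M + 1) := by linarith
            _ = (((s:ℝ) - 1) + 1) * (ε / (M + 1)) := by ring
            _ ≤ _ := by
                apply mul_le_mul_of_nonneg_right h3 hε'.le
    obtain ⟨n, hn⟩ := key r hr hrM
    refine ⟨n, hn.trans_lt ?_⟩
    have hM : (0:ℝ) < (M:ℝ) + 1 := by positivity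
    have hr' : (r:ℝ) < M := by exact_mod_cast hrM
    rw [mul_div_assoc', div_lt_iff₀ hM]
    nlinarith

end Pool.Agent.W755.Haight
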