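import Mathlib

set_option autoImplicit false

namespace Pool.Agent.W755.Haight

open Finset Filter Topology

/-- a positive sequence with `f (n+L) ≤ a f n` eventually, `a<1`, is summable -/
theorem summable_of_step (f : ℕ → ℝ) (hf : ∀ n, 0 ≤ f n) (L : ℕ) (hL : 0 < L) (a : ℝ) (ha0 : 0 < a)
    (ha1 : a < 1) (n0 : ℕ) (h : ∀ n, n0 ≤ n → f (n + L) ≤ a * f n) : Summable f := by
  set r : ℝ := a ^ (1 / (L : ℝ)) with hr
  have hLr : (0 : ℝ) < L := by exact_mod_cast hL
  have hr0 : 0 < r := Real.rpow_pos_of_pos ha0 _
  have hr1 : r < 1 := Real.rpow_lt_one ha0.le ha1 (by positivity)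
  have hrL : r ^ L = a := by
    rw [hr, ← Real.rpow_natCast, ← Real.rpow_mul ha0.le]
    rw [one_div, inv_mul_cancel₀ hLr.ne', Real.rpow_one]
  set C : ℝ := ∑ i ∈ range (n0 + L), f i / r ^ i with hC
  have hbd : ∀ n, f n ≤ C * r ^ n := by
    intro n
    induction n using Nat.strong_induction_on with
    | _ n ih =>
      by_cases hn : n < n0 + L
      · have h1 : f n / r ^ n ≤ C := by
          rw [hC]
          exact Finset.single_le_sum (f := fun i => f i / r ^ i)
            (fun i _ => div_nonneg (hf i) (pow_nonneg hr0.le i)) (mem_range.2 hn)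
        rwa [div_le_iff₀ (pow_pos hr0 n)] at h1
      · obtain ⟨m, rfl⟩ : ∃ m, n = m + L := ⟨n - L, by omega⟩
        have h2 := h m (by omega)
        have h3 := ih m (by omega)
        calc f (m + L) ≤ a * f m := h2
          _ ≤ a * (C * r ^ m) := by gcongr
          _ = C * r ^ (m + L) := by rw [pow_add, hrL]; ring
  exact Summable.of_nonneg_of_le hf hbd ((summable_geometric_of_lt_one hr0.le hr1).mul_left C)

/-- arbitrarily large clusters of primes in short multiplicative intervals -/
theorem cluster (K Y : ℕ) (ρ : ℝ) (hρ : 1 < ρ) :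
    ∃ P : ℕ → ℕ, StrictMono P ∧ (∀ k, (P k).Prime) ∧ Y ≤ P 0 ∧ (P K : ℝ) < ρ * P 0 := by
  by_contra hcon
  push Not at hcon
  have hinf : {n : ℕ | n.Prime}.Infinite := Nat.infinite_setOfPred_prime
  set p : ℕ → ℕ := Nat.nth Nat.Prime with hp
  have hpm : StrictMono p := Nat.nth_strictMono hinf
  have hpp : ∀ n, (p n).Prime := fun n => Nat.nth_mem_of_infinite hinf n
  have hge : ∀ n, n ≤ p n := fun n => hpm.le_apply
  have h1 : ∀ n, Y ≤ n → ρ * p n ≤ p (n + K) := by
    intro n hn
    have := hcon (fun k => p (n + k)) (fun a b hab => hpm (by omega)) (fun k => hpp _)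
      (by simpa using hn.trans (hge n))
    simpa using this
  have hK : 0 < K := by
    rcases Nat.eq_zero_or_pos K with h0 | h0
    · exfalso
      have h2 := h1 Y le_rfl
      rw [h0, add_zero] at h2
      have h3 : (0:ℝ) < p Y := by exact_mod_cast (hpp Y).pos
      nlinarith
    · exact h0
  have hpos : ∀ n, (0:ℝ) < p n := fun n => by exact_mod_cast (hpp n).pos
  have hs : Summable (fun n => 1 / (p n : ℝ)) := by
    refine summable_of_step _ (fun n => by positivity) K hK (1 / ρ) (by positivity)
      (by rw [div_lt_one (by linarith)]; exact hρ) Y ?_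
    intro n hn
    have h2 := h1 n hn
    rw [one_div_mul_one_div]
    exact one_div_le_one_div_of_le (mul_pos (by linarith) (hpos n)) h2
  have hcontr := not_summable_one_div_on_primes
  apply hcontr
  have hinj : Function.Injective p := hpm.injective
  rw [← hinj.summable_iff]
  · refine hs.congr ?_
    intro n
    simp only [Function.comp_apply]
    rw [Set.indicator_of_mem (show p n ∈ {p : ℕ | p.Prime} from hpp n)]
  · intro x hx
    apply Set.indicator_of_notMem
    intro hx2
    apply hx
    have : Set.range p = {n : ℕ | n.Prime} := Nat.range_nth_of_infinite hinf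
    rw [this]
    exact hx2

end Pool.Agent.W755.Haight
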