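import Mathlib
import Pool.Agent.W755.HaightA
import Pool.Agent.W755.HaightB

set_option autoImplicit false

namespace Pool.Agent.W755.Haight

open Finset Filter Topology MeasureTheory

/-- the set of positive `z` with `t log z` within `δ` of an integer -/
def R (t δ : ℝ) : Set ℝ := Set.Ioi 0 ∩ (fun z => t * Real.log z) ⁻¹' (⋃ n : ℤ, Metric.ball (n : ℝ) δ)

theorem mem_R {t δ z : ℝ} : z ∈ R t δ ↔ 0 < z ∧ ∃ n : ℤ, |t * Real.log z - n| < δ := by
  simp [R, Real.dist_eq]

theorem isOpen_R (t δ : ℝ) : IsOpen (R t δ) := by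
  apply ContinuousOn.isOpen_inter_preimage
  · apply ContinuousOn.mul continuousOn_const
    exact Real.continuousOn_log.mono (fun z hz => (Set.mem_Ioi.1 hz).ne')
  · exact isOpen_Ioi
  · exact isOpen_iUnion fun n => Metric.isOpen_ball

theorem log_three_sub : Real.log 3 - Real.log 2 ≤ 1 := by
  rw [← Real.log_div (by norm_num) (by norm_num)]
  have := Real.log_le_sub_one_of_pos (show (0:ℝ) < 3/2 by norm_num)
  linarith

theorem volume_R (t δ : ℝ) (ht : 1 ≤ t) (hδ : 0 < δ) (hδ2 : δ ≤ 1 / 2) :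
    volume (Set.Icc 2 3 ∩ R t δ) ≤ ENNReal.ofReal (72 * δ) := by
  have ht0 : 0 < t := by linarith
  set a : ℤ := ⌊t * Real.log 2 - 1⌋ with ha
  set b : ℤ := ⌈t * Real.log 3 + 1⌉ with hb
  set U : ℤ → Set ℝ := fun n => if Real.exp ((n - δ) / t) < 3 then
    Set.Ioo (Real.exp ((n - δ) / t)) (Real.exp ((n + δ) / t)) else ∅ with hU
  have hsub : Set.Icc 2 3 ∩ R t δ ⊆ ⋃ n ∈ Finset.Icc a b, U n := by
    rintro z ⟨hz, hzR⟩
    obtain ⟨hz0, n, hn⟩ := mem_R.1 hzR
    have h2 : Real.log 2 ≤ Real.log z := Real.log_le_log (by norm_num) hz.1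
    have h3 : Real.log z ≤ Real.log 3 := Real.log_le_log hz0 hz.2
    rw [abs_lt] at hn
    simp only [Set.mem_iUnion, Finset.mem_Icc]
    have h4 : (n - δ) / t < Real.log z := by
      rw [div_lt_iff₀ ht0]; linarith
    have h5 : Real.log z < (n + δ) / t := by
      rw [lt_div_iff₀ ht0]; linarith
    have h6 : Real.exp ((n - δ) / t) < z := by
      rwa [← Real.lt_log_iff_exp_lt hz0]
    have h7 : z < Real.exp ((n + δ) / t) := by
      rwa [← Real.log_lt_iff_lt_exp hz0]
    refine ⟨n, ⟨?_, ?_⟩, ?_⟩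
    · rw [ha]
      have : (⌊t * Real.log 2 - 1⌋ : ℝ) ≤ t * Real.log 2 - 1 := Int.floor_le _
      have h8 : t * Real.log 2 ≤ t * Real.log z := by gcongr
      have : (⌊t * Real.log 2 - 1⌋ : ℝ) ≤ n := by linarith
      exact_mod_cast this
    · rw [hb]
      have : t * Real.log 3 + 1 ≤ (⌈t * Real.log 3 + 1⌉ : ℝ) := Int.le_ceil _
      have h8 : t * Real.log z ≤ t * Real.log 3 := by gcongr
      have : (n : ℝ) ≤ (⌈t * Real.log 3 + 1⌉ : ℝ) := by linarith
      exact_mod_cast this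
    · simp only [hU]
      rw [if_pos (h6.trans_le hz.2)]
      exact ⟨h6, h7⟩
  have hUv : ∀ n : ℤ, volume (U n) ≤ ENNReal.ofReal (12 * δ / t) := by
    intro n
    simp only [hU]
    split_ifs with h
    · rw [Real.volume_Ioo]
      apply ENNReal.ofReal_le_ofReal
      have e1 : (n + δ) / t = (n - δ) / t + 2 * δ / t := by ring
      rw [e1, Real.exp_add]
      have h9 : Real.exp (2 * δ / t) ≤ 1 + 2 * (2 * δ / t) := by
        have h10 : 0 ≤ 2 * δ / t := by positivity
        have h11 : 2 * δ / t ≤ 1 := by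
          rw [div_le_one ht0]; linarith
        have := Real.abs_exp_sub_one_le (x := 2 * δ / t) (by rw [abs_of_nonneg h10]; exact h11)
        rw [abs_of_nonneg h10] at this
        have := (abs_le.1 this).2
        linarith
      have h12 : 0 < Real.exp ((n - δ) / t) := Real.exp_pos _
      have h13 : 0 ≤ 2 * (2 * δ / t) := by positivity
      have e2 : 12 * δ / t = 3 * (2 * (2 * δ / t)) := by ring
      rw [e2]
      nlinarith
    · simp
  have hcard : ((Finset.Icc a b).card : ℝ) ≤ 6 * t := by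
    rw [Int.card_Icc]
    have h1 : (a : ℝ) > t * Real.log 2 - 1 - 1 := Int.sub_one_lt_floor _
    have h2 : (b : ℝ) < t * Real.log 3 + 1 + 1 := Int.ceil_lt_add_one _
    have h3 : t * Real.log 3 - t * Real.log 2 ≤ t := by
      have := log_three_sub
      nlinarith
    rcases le_total 0 (b + 1 - a) with h | h
    · have : (((b + 1 - a).toNat : ℤ) : ℝ) = ((b + 1 - a : ℤ) : ℝ) := by
        rw [Int.toNat_of_nonneg h]
      rw [Int.cast_natCast] at this
      rw [this]
      push_cast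
      linarith
    · rw [Int.toNat_of_nonpos h]
      simp
      linarith
  calc volume (Set.Icc 2 3 ∩ R t δ) ≤ volume (⋃ n ∈ Finset.Icc a b, U n) := measure_mono hsub
    _ ≤ ∑ n ∈ Finset.Icc a b, volume (U n) := measure_biUnion_finset_le _ _
    _ ≤ ∑ n ∈ Finset.Icc a b, ENNReal.ofReal (12 * δ / t) := Finset.sum_le_sum fun n _ => hUv n
    _ = ENNReal.ofReal ((Finset.Icc a b).card * (12 * δ / t)) := by
        rw [Finset.sum_const, nsmul_eq_mul, ENNReal.ofReal_mul (by positivity)]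
        simp
    _ ≤ ENNReal.ofReal (72 * δ) := by
        apply ENNReal.ofReal_le_ofReal
        calc ((Finset.Icc a b).card : ℝ) * (12 * δ / t) ≤ 6 * t * (12 * δ / t) := by
              gcongr
          _ = 72 * δ := by field_simp; ring

/-- One step: for every target measure there is a stage. -/
theorem stage (ε : ℝ) (hε : 0 < ε) (Y : ℕ) (ρ : ℝ) (hρ : 1 < ρ) :
    ∃ U : Set ℝ, IsOpen U ∧ volume (Set.Icc 2 3 ∩ U) ≤ ENNReal.ofReal ε ∧
      ∀ x : ℝ, 0 < x → ρ * x ≤ 2 → ∃ n : ℕ, n.Prime ∧ Y ≤ n ∧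
        ∀ r : ℕ, 0 < r → ∀ z ∈ Set.Icc (2:ℝ) 3, (n : ℝ) * x = r * z → z ∈ U := by
  classical
  set δ : ℝ := min (1 / 2) (ε / 72) with hδ
  have hδ0 : 0 < δ := by rw [hδ]; positivity
  obtain ⟨K, hK⟩ := exists_nat_gt (2 / δ)
  have hK0 : (0 : ℝ) < K := lt_trans (by positivity) hK
  have hK0' : 0 < K := by exact_mod_cast hK0
  have hKδ : 1 / (K : ℝ) < δ / 2 := by
    rw [div_lt_iff₀ hδ0] at hK
    rw [div_lt_div_iff₀ hK0 (by norm_num)]
    linarith
  obtain ⟨P, hPm, hPp, hPY, hPρ⟩ := cluster K Y ρ hρ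
  set β : ℕ → ℝ := fun p => if h : ∃ k, k < K ∧ P k = p then (h.choose : ℝ) / K else 0 with hβ
  have hβP : ∀ k, k < K → β (P k) = k / K := by
    intro k hk
    have h : ∃ k', k' < K ∧ P k' = P k := ⟨k, hk, rfl⟩
    simp only [hβ]
    rw [dif_pos h]
    rw [hPm.injective h.choose_spec.2]
  have hβ0 : ∀ p, p < P 0 → β p = 0 := by
    intro p hp
    simp only [hβ]
    rw [dif_neg]
    rintro ⟨k, _, rfl⟩
    exact absurd (hPm.monotone (Nat.zero_le k)) (by omega)
  obtain ⟨t, ht, ht1, ht2⟩ := phases' (P K + 1) (P 0) β hβ0 (δ / 4) (by positivity) 1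
    ((hPm.monotone (Nat.zero_le K)).trans (Nat.le_succ _))
  refine ⟨R t δ, isOpen_R t δ, ?_, ?_⟩
  · refine (volume_R t δ ht.le hδ0 (min_le_left _ _)).trans ?_
    apply ENNReal.ofReal_le_ofReal
    have : δ ≤ ε / 72 := min_le_right _ _
    linarith
  · intro x hx hx2
    set u : ℝ := t * Real.log x with hu
    set m : ℤ := ⌊K * u⌋ with hm
    set k : ℕ := ((-m) % (K : ℤ)).toNat with hk
    have hKz : (0 : ℤ) < K := by exact_mod_cast hK0'
    have hkk : ((k : ℕ) : ℤ) = (-m) % (K : ℤ) := by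
      rw [hk]; exact Int.toNat_of_nonneg (Int.emod_nonneg _ hKz.ne')
    have hkK : k < K := by
      have : (k : ℤ) < K := by rw [hkk]; exact Int.emod_lt_of_pos _ hKz
      exact_mod_cast this
    -- m + k = K * q
    obtain ⟨q, hq⟩ : ∃ q : ℤ, m + k = K * q := by
      refine ⟨-((-m) / K), ?_⟩
      rw [hkk]
      have := Int.mul_ediv_add_emod (-m) K
      linarith
    have hn1 : P k < P K + 1 := by
      have := hPm hkK
      omega
    refine ⟨P k, hPp k, hPY.trans (hPm.monotone (Nat.zero_le k)), ?_⟩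
    intro r hr z hz hrz
    have hzpos : 0 < z := by linarith [hz.1]
    have hrpos : (0:ℝ) < r := by exact_mod_cast hr
    have hnpos : (0:ℝ) < P k := by exact_mod_cast (hPp k).pos
    have hP0 : (0:ℝ) < P 0 := by exact_mod_cast (hPp 0).pos
    have hrM : r < P 0 := by
      have h1 : (P k : ℝ) < ρ * P 0 := by
        refine lt_trans ?_ hPρ
        exact_mod_cast hPm hkK
      have h2 : (r : ℝ) * 2 ≤ r * z := by
        have := hz.1
        nlinarith
      have h3 : (P k : ℝ) * x < ρ * P 0 * x := by gcongr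
      have h4 : ρ * P 0 * x ≤ P 0 * 2 := by
        have : ρ * P 0 * x = P 0 * (ρ * x) := by ring
        rw [this]
        gcongr
      have h5 : (r : ℝ) * 2 < P 0 * 2 := by linarith
      have h6 : (r : ℝ) < P 0 := by linarith
      exact_mod_cast h6
    obtain ⟨n1, hn1'⟩ := ht1 (P k) (hPp k) hn1
    rw [hβP k hkK] at hn1'
    obtain ⟨n2, hn2⟩ := ht2 r hr hrM
    rw [mem_R]
    refine ⟨hzpos, n1 + q - n2, ?_⟩
    have hlog : Real.log z = Real.log (P k) + Real.log x - Real.log r := by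
      have h1 : Real.log ((P k : ℝ) * x) = Real.log ((r : ℝ) * z) := by rw [hrz]
      rw [Real.log_mul hnpos.ne' hx.ne', Real.log_mul hrpos.ne' hzpos.ne'] at h1
      linarith
    have hq' : (m : ℝ) + k = K * q := by exact_mod_cast hq
    have hfl : (m : ℝ) ≤ K * u := Int.floor_le _
    have hfl2 : K * u < m + 1 := Int.lt_floor_add_one _
    -- 0 ≤ u + k/K - q < 1/K
    have h1 : u + k / K - q = (K * u - m) / K := by
      field_simp
      linarith
    have h2 : 0 ≤ u + k / K - q := by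
      rw [h1]; apply div_nonneg _ hK0.le; linarith
    have h3 : u + k / K - q ≤ 1 / K := by
      rw [h1]
      apply div_le_div_of_nonneg_right _ hK0.le
      linarith
    have e : t * Real.log z - ((n1 + q - n2 : ℤ) : ℝ) =
        (t * Real.log (P k) - k / K - n1) + (u + k / K - q) - (t * Real.log r - n2) := by
      rw [hlog, hu]; push_cast; ring
    rw [e]
    rw [abs_lt] at hn1' hn2 ⊢
    constructor <;> linarith [hn1'.1, hn1'.2, hn2.1, hn2.2]

/-- Main theorem. -/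
theorem main (ε : ℝ) (hε : 0 < ε) : ∃ E : Set ℝ, IsCompact E ∧ E ⊆ Set.Icc 2 3 ∧
    ENNReal.ofReal (1 - ε) ≤ volume E ∧
    ∀ x ∈ Set.Ioo (0:ℝ) 2,
      {n : ℕ | n.Prime ∧ ¬ ∃ r : ℕ, 0 < r ∧ ∃ z ∈ E, (n : ℝ) * x = r * z}.Infinite := by
  have hst : ∀ j : ℕ, ∃ U : Set ℝ, IsOpen U ∧ volume (Set.Icc 2 3 ∩ U) ≤ ENNReal.ofReal (ε / 2 / 2 ^ j) ∧
      ∀ x : ℝ, 0 < x → (1 + 1 / ((j : ℝ) + 1)) * x ≤ 2 → ∃ n : ℕ, n.Prime ∧ j ≤ n ∧
        ∀ r : ℕ, 0 < r → ∀ z ∈ Set.Icc (2:ℝ) 3, (n : ℝ) * x = r * z → z ∈ U := by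
    intro j
    apply stage _ (by positivity) j
    have : (0:ℝ) < 1 / ((j : ℝ) + 1) := by positivity
    linarith
  choose U hUo hUv hU using hst
  refine ⟨Set.Icc 2 3 \ ⋃ j, U j, ?_, Set.sdiff_subset, ?_, ?_⟩
  · exact isCompact_Icc.diff (isOpen_iUnion hUo)
  · have h1 : volume (Set.Icc (2:ℝ) 3 ∩ ⋃ j, U j) ≤ ENNReal.ofReal ε := by
      rw [Set.inter_iUnion]
      refine (measure_iUnion_le _).trans ?_
      refine (ENNReal.tsum_le_tsum hUv).trans ?_
      rw [← ENNReal.ofReal_tsum_of_nonneg (fun j => by positivity) (summable_geometric_two' ε)]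
      rw [tsum_geometric_two']
    have h2 : volume (Set.Icc (2:ℝ) 3) ≤ volume (Set.Icc 2 3 \ ⋃ j, U j) +
        volume (Set.Icc (2:ℝ) 3 ∩ ⋃ j, U j) := by
      refine (measure_mono ?_).trans (measure_union_le _ _)
      intro z hz
      by_cases h : z ∈ ⋃ j, U j
      · exact Or.inr ⟨hz, h⟩
      · exact Or.inl ⟨hz, h⟩
    rw [Real.volume_Icc] at h2
    norm_num at h2
    rw [ENNReal.ofReal_sub _ hε.le, ENNReal.ofReal_one]
    rw [tsub_le_iff_right]
    exact h2.trans (by gcongr)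
  · intro x hx
    rw [Set.infinite_iff_exists_gt] 
    intro a
    obtain ⟨j0, hj0⟩ := exists_nat_gt (x / (2 - x))
    have h2x : 0 < 2 - x := by linarith [hx.2]
    set j := max (a + 1) j0 with hj
    have hjj : (j0 : ℝ) ≤ j := by exact_mod_cast le_max_right _ _
    have hcond : (1 + 1 / ((j : ℝ) + 1)) * x ≤ 2 := by
      have h3 : x < (2 - x) * ((j:ℝ) + 1) := by
        rw [div_lt_iff₀ h2x] at hj0
        nlinarith
      have h4 : (0:ℝ) < (j:ℝ) + 1 := by positivity
      have h5 : 1 / ((j:ℝ) + 1) * x < 2 - x := by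
        rw [one_div_mul_eq_div, div_lt_iff₀ h4]
        exact h3
      linarith
    obtain ⟨n, hn, hjn, hn2⟩ := hU j x hx.1 hcond
    refine ⟨n, ⟨hn, ?_⟩, ?_⟩
    · rintro ⟨r, hr, z, hz, hrz⟩
      exact hz.2 (Set.mem_iUnion.2 ⟨j, hn2 r hr z hz.1 hrz⟩)
    · have : a + 1 ≤ j := le_max_left _ _
      omega

end Pool.Agent.W755.Haight
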