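import Mathlib

set_option autoImplicit false

open MeasureTheory Filter Topology Set
open scoped ENNReal NNReal

namespace Pool.Agent.W755.Br

/-- condition `B_r` of the problem: for every interval `I = (a,b)` with centre `x_I`,
`∫ |I|^{r-1} U(x) / (|I|^r + |x - x_I|^r) dx ≤ (C/|I|) ∫_I U`. -/
def MemB (r : ℝ) (U : ℝ → ℝ) : Prop :=
  ∃ C : ℝ≥0, ∀ a b : ℝ, a < b →
    ∫⁻ x, ENNReal.ofReal ((b - a) ^ (r - 1) * U x / ((b - a) ^ r + |x - (a + b) / 2| ^ r)) ≤
      C * (ENNReal.ofReal (b - a))⁻¹ * ∫⁻ x in Ioo a b, ENNReal.ofReal (U x)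

/-- a weight: nonnegative and locally integrable -/
structure IsWt (U : ℝ → ℝ) : Prop where
  meas : Measurable U
  nonneg : ∀ x, 0 ≤ U x
  locInt : LocallyIntegrable U

/-- `k(L) = ∫ U(x) / (L^r + |x-c|^r) dx` -/
noncomputable def kk (U : ℝ → ℝ) (r c L : ℝ) : ℝ≥0∞ :=
  ∫⁻ x, ENNReal.ofReal (1 / (L ^ r + |x - c| ^ r)) * ENNReal.ofReal (U x)

/-- `V(L) = ∫_{|x-c| < L/2} U` -/
noncomputable def VV (U : ℝ → ℝ) (c L : ℝ) : ℝ≥0∞ :=
  ∫⁻ x in Ioo (c - L / 2) (c + L / 2), ENNReal.ofReal (U x)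

theorem memB_iff {r : ℝ} {U : ℝ → ℝ} (_hU : IsWt U) (C : ℝ≥0) :
    (∀ a b : ℝ, a < b →
    ∫⁻ x, ENNReal.ofReal ((b - a) ^ (r - 1) * U x / ((b - a) ^ r + |x - (a + b) / 2| ^ r)) ≤
      C * (ENNReal.ofReal (b - a))⁻¹ * ∫⁻ x in Ioo a b, ENNReal.ofReal (U x)) ↔
    ∀ c L : ℝ, 0 < L → ENNReal.ofReal (L ^ r) * kk U r c L ≤ C * VV U c L := by
  have key : ∀ c L : ℝ, 0 < L → ENNReal.ofReal (L ^ r) * kk U r c L =
      ENNReal.ofReal L * ∫⁻ x, ENNReal.ofReal (L ^ (r - 1) * U x / (L ^ r + |x - c| ^ r)) := by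
    intro c L hL
    unfold kk
    rw [← lintegral_const_mul' _ _ ENNReal.ofReal_ne_top, ← lintegral_const_mul' _ _ ENNReal.ofReal_ne_top]
    refine lintegral_congr fun x => ?_
    have h1 : 0 < L ^ r := Real.rpow_pos_of_pos hL r
    have h2 : 0 ≤ |x - c| ^ r := Real.rpow_nonneg (abs_nonneg _) r
    rw [← mul_assoc, ← ENNReal.ofReal_mul h1.le, ← ENNReal.ofReal_mul (by positivity),
      ← ENNReal.ofReal_mul hL.le]
    congr 1
    rw [Real.rpow_sub_one hL.ne']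
    field_simp
  constructor
  · intro h c L hL
    have h1 := h (c - L / 2) (c + L / 2) (by linarith)
    have e1 : c + L / 2 - (c - L / 2) = L := by ring
    have e2 : (c - L / 2 + (c + L / 2)) / 2 = c := by ring
    rw [e1, e2] at h1
    rw [key c L hL]
    have hL0 : ENNReal.ofReal L ≠ 0 := (ENNReal.ofReal_pos.2 hL).ne'
    calc ENNReal.ofReal L * ∫⁻ x, ENNReal.ofReal (L ^ (r - 1) * U x / (L ^ r + |x - c| ^ r))
        ≤ ENNReal.ofReal L * (C * (ENNReal.ofReal L)⁻¹ * VV U c L) := by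
          gcongr
          exact h1
      _ = (ENNReal.ofReal L * (ENNReal.ofReal L)⁻¹) * (C * VV U c L) := by ring
      _ = _ := by rw [ENNReal.mul_inv_cancel hL0 ENNReal.ofReal_ne_top, one_mul]
  · intro h a b hab
    have hL : 0 < b - a := sub_pos.2 hab
    have h1 := h ((a + b) / 2) (b - a) hL
    rw [key _ _ hL] at h1
    unfold VV at h1
    have e1 : (a + b) / 2 - (b - a) / 2 = a := by ring
    have e2 : (a + b) / 2 + (b - a) / 2 = b := by ring
    rw [e1, e2] at h1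
    have hL0 : ENNReal.ofReal (b - a) ≠ 0 := (ENNReal.ofReal_pos.2 hL).ne'
    set X := ∫⁻ x, ENNReal.ofReal ((b - a) ^ (r - 1) * U x / ((b - a) ^ r + |x - (a + b) / 2| ^ r)) with hX
    calc X = (ENNReal.ofReal (b - a))⁻¹ * (ENNReal.ofReal (b - a) * X) := by
          rw [← mul_assoc, ENNReal.inv_mul_cancel hL0 ENNReal.ofReal_ne_top, one_mul]
      _ ≤ (ENNReal.ofReal (b - a))⁻¹ * (C * ∫⁻ x in Ioo a b, ENNReal.ofReal (U x)) := by gcongr
      _ = _ := by ring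

theorem VV_ne_top {U : ℝ → ℝ} (hU : IsWt U) (c L : ℝ) : VV U c L ≠ ⊤ := by
  unfold VV
  have h : IntegrableOn U (Ioo (c - L / 2) (c + L / 2)) :=
    (hU.locInt.integrableOn_isCompact isCompact_Icc).mono_set Ioo_subset_Icc_self
  exact h.lintegral_lt_top.ne

/-- the difference inequality -/
theorem kk_diff {r : ℝ} (hr : 0 < r) {U : ℝ → ℝ} (hU : IsWt U) (c L : ℝ) (hL : 0 < L) :
    kk U r c (2 * L) + ENNReal.ofReal ((2 ^ r - 1) / (2 * (2 ^ r + 1)) * (L ^ r)⁻¹) * VV U c L ≤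
      kk U r c L := by
  have hLr : 0 < L ^ r := Real.rpow_pos_of_pos hL r
  have h2r : (1:ℝ) < 2 ^ r := Real.one_lt_rpow (by norm_num) hr
  set d : ℝ := (2 ^ r - 1) / (2 * (2 ^ r + 1)) * (L ^ r)⁻¹ with hd
  have hd0 : 0 ≤ d := by
    have : 0 < (2:ℝ) ^ r - 1 := by linarith
    positivity
  unfold kk VV
  rw [← lintegral_const_mul' _ _ ENNReal.ofReal_ne_top, ← lintegral_indicator measurableSet_Ioo,
    ← lintegral_add_right _ (by
      refine Measurable.indicator ?_ measurableSet_Ioo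
      exact (hU.meas.ennreal_ofReal.const_mul _))]
  refine lintegral_mono fun x => ?_
  have ht0 : 0 ≤ |x - c| ^ r := Real.rpow_nonneg (abs_nonneg _) r
  have e2 : (2 * L) ^ r = 2 ^ r * L ^ r := Real.mul_rpow (by norm_num) hL.le
  by_cases hx : x ∈ Ioo (c - L / 2) (c + L / 2)
  · rw [indicator_of_mem hx, ← add_mul, ← ENNReal.ofReal_add (by positivity) hd0]
    gcongr
    have ht1 : |x - c| ^ r ≤ L ^ r := by
      refine Real.rpow_le_rpow (abs_nonneg _) ?_ hr.le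
      rw [abs_le]
      constructor <;> linarith [hx.1, hx.2]
    rw [e2]
    set t := |x - c| ^ r with ht
    set M := L ^ r with hM
    set w := (2:ℝ) ^ r with hw
    have h1 : 1 / (M + t) - 1 / (w * M + t) = (w - 1) * M / ((M + t) * (w * M + t)) := by
      field_simp
      ring
    have h2 : (M + t) * (w * M + t) ≤ (2 * M) * ((w + 1) * M) := by
      apply mul_le_mul
      · linarith
      · linarith
      · positivity
      · positivity
    have h3 : d ≤ (w - 1) * M / ((M + t) * (w * M + t)) := by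
      calc d = (w - 1) * M / ((2 * M) * ((w + 1) * M)) := by
            rw [hd]; field_simp
        _ ≤ _ := by
            apply div_le_div_of_nonneg_left
            · have : 0 < w - 1 := by linarith
              positivity
            · positivity
            · exact h2
    linarith
  · rw [indicator_of_notMem hx, add_zero]
    gcongr
    linarith

theorem decay {r : ℝ} (hr : 0 < r) {U : ℝ → ℝ} (hU : IsWt U) {C : ℝ} (hC : 1 ≤ C)
    (hB : ∀ c L : ℝ, 0 < L → ENNReal.ofReal (L ^ r) * kk U r c L ≤ ENNReal.ofReal C * VV U c L)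
    (c L : ℝ) (hL : 0 < L) :
    kk U r c (2 * L) ≤ ENNReal.ofReal (1 - (2 ^ r - 1) / (2 * (2 ^ r + 1)) / C) * kk U r c L := by
  have hLr : 0 < L ^ r := Real.rpow_pos_of_pos hL r
  have h2r : (1:ℝ) < 2 ^ r := Real.one_lt_rpow (by norm_num) hr
  have hfin : ∀ L : ℝ, 0 < L → kk U r c L ≠ ⊤ := by
    intro L hL htop
    have h1 := hB c L hL
    rw [htop, ENNReal.mul_top (ENNReal.ofReal_pos.2 (Real.rpow_pos_of_pos hL r)).ne'] at h1
    exact (ENNReal.mul_ne_top ENNReal.ofReal_ne_top (VV_ne_top hU c L)) (top_le_iff.1 h1)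
  set γ : ℝ := (2 ^ r - 1) / (2 * (2 ^ r + 1)) with hγ
  have hγ0 : 0 < γ := by
    have : 0 < (2:ℝ) ^ r - 1 := by linarith
    positivity
  have hγ1 : γ ≤ 1 := by
    rw [hγ, div_le_one (by positivity)]
    linarith
  have h1 := kk_diff hr hU c L hL
  have hV := VV_ne_top hU c L
  have hk := hfin L hL
  have hk2 := hfin (2 * L) (by positivity)
  set x := (kk U r c L).toReal with hx
  set y := (kk U r c (2 * L)).toReal with hy
  set v := (VV U c L).toReal with hv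
  have r1 : y + γ * (L ^ r)⁻¹ * v ≤ x := by
    have := ENNReal.toReal_mono hk h1
    rwa [ENNReal.toReal_add hk2 (ENNReal.mul_ne_top ENNReal.ofReal_ne_top hV), ENNReal.toReal_mul,
      ENNReal.toReal_ofReal (by positivity)] at this
  have r2 : L ^ r * x ≤ C * v := by
    have := ENNReal.toReal_mono (ENNReal.mul_ne_top ENNReal.ofReal_ne_top hV) (hB c L hL)
    rwa [ENNReal.toReal_mul, ENNReal.toReal_mul, ENNReal.toReal_ofReal hLr.le,
      ENNReal.toReal_ofReal (by linarith)] at this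
  have r3 : y ≤ (1 - γ / C) * x := by
    have h2 : γ / C * x ≤ γ * (L ^ r)⁻¹ * v := by
      have h3 : x ≤ C * (L ^ r)⁻¹ * v := by
        calc x = (L ^ r)⁻¹ * (L ^ r * x) := by field_simp
          _ ≤ (L ^ r)⁻¹ * (C * v) := by gcongr
          _ = _ := by ring
      calc γ / C * x ≤ γ / C * (C * (L ^ r)⁻¹ * v) := by gcongr
        _ = _ := by field_simp
    linarith
  have hρ0 : 0 ≤ 1 - γ / C := by
    rw [sub_nonneg, div_le_one (by linarith)]; linarith
  calc kk U r c (2 * L) = ENNReal.ofReal y := (ENNReal.ofReal_toReal hk2).symm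
    _ ≤ ENNReal.ofReal ((1 - γ / C) * x) := ENNReal.ofReal_le_ofReal r3
    _ = _ := by rw [ENNReal.ofReal_mul hρ0, ENNReal.ofReal_toReal hk]

theorem kernel_dom {r q : ℝ} (hr : 0 < r) (hq : 0 < q) (τ : ℝ) (hτ : 0 ≤ τ) :
    ENNReal.ofReal (1 / (1 + τ ^ q)) ≤ ENNReal.ofReal (1 + 2 ^ r) *
      ∑' j : ℕ, ENNReal.ofReal ((2 ^ q) ^ j)⁻¹ * ENNReal.ofReal ((2 ^ r) ^ j / ((2 ^ r) ^ j + τ ^ r)) := by
  have h2r : (0:ℝ) < 2 ^ r := Real.rpow_pos_of_pos (by norm_num) r
  have hτq : 0 ≤ τ ^ q := Real.rpow_nonneg hτ q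
  have hτr : 0 ≤ τ ^ r := Real.rpow_nonneg hτ r
  rcases le_or_gt τ 1 with h | h
  · refine le_trans ?_ (mul_le_mul' le_rfl (ENNReal.le_tsum 0))
    rw [pow_zero, inv_one, pow_zero, ENNReal.ofReal_one, one_mul, ← ENNReal.ofReal_mul (by positivity)]
    apply ENNReal.ofReal_le_ofReal
    have h1 : τ ^ r ≤ 1 := Real.rpow_le_one hτ h hr.le
    have h2 : (1:ℝ) / 2 ≤ 1 / (1 + τ ^ r) := one_div_le_one_div_of_le (by positivity) (by linarith)
    have h3 : 1 / (1 + τ ^ q) ≤ 1 := by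
      rw [div_le_one (by positivity)]; linarith
    have h4 : (1:ℝ) < 2 ^ r := Real.one_lt_rpow (by norm_num) hr
    nlinarith
  · obtain ⟨j, hj1, hj2⟩ := exists_nat_pow_near h.le (by norm_num : (1:ℝ) < 2)
    refine le_trans ?_ (mul_le_mul' le_rfl (ENNReal.le_tsum j))
    rw [← ENNReal.ofReal_mul (by positivity), ← ENNReal.ofReal_mul (by positivity)]
    apply ENNReal.ofReal_le_ofReal
    have hτ0 : 0 < τ := by linarith
    have e1 : (2 ^ q : ℝ) ^ j = ((2:ℝ) ^ j) ^ q := by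
      rw [← Real.rpow_natCast, ← Real.rpow_mul (by norm_num), ← Real.rpow_natCast,
        ← Real.rpow_mul (by norm_num), mul_comm]
    have e2 : (2 ^ r : ℝ) ^ j = ((2:ℝ) ^ j) ^ r := by
      rw [← Real.rpow_natCast, ← Real.rpow_mul (by norm_num), ← Real.rpow_natCast,
        ← Real.rpow_mul (by norm_num), mul_comm]
    have h1 : (2 ^ q : ℝ) ^ j ≤ τ ^ q := by
      rw [e1]; exact Real.rpow_le_rpow (by positivity) hj1 hq.le
    have h2 : τ ^ r ≤ 2 ^ r * (2 ^ r) ^ j := by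
      rw [e2, ← Real.mul_rpow (by norm_num) (by positivity)]
      refine Real.rpow_le_rpow hτ ?_ hr.le
      rw [pow_succ] at hj2
      linarith
    have h3 : 1 / (1 + 2 ^ r) ≤ (2 ^ r) ^ j / ((2 ^ r) ^ j + τ ^ r) := by
      rw [div_le_div_iff₀ (by positivity) (by positivity)]
      nlinarith
    have h4 : 1 / (1 + τ ^ q) ≤ ((2 ^ q) ^ j)⁻¹ := by
      rw [← one_div]
      apply one_div_le_one_div_of_le (by positivity)
      linarith
    calc 1 / (1 + τ ^ q) ≤ ((2 ^ q) ^ j)⁻¹ := h4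
      _ = (1 + 2 ^ r) * (((2 ^ q) ^ j)⁻¹ * (1 / (1 + 2 ^ r))) := by field_simp
      _ ≤ (1 + 2 ^ r) * (((2 ^ q) ^ j)⁻¹ * ((2 ^ r) ^ j / ((2 ^ r) ^ j + τ ^ r))) := by gcongr

/-- **Self-improvement of `B_r`.** -/
theorem self_improve {r : ℝ} (hr : 0 < r) {U : ℝ → ℝ} (hU : IsWt U) (hB : MemB r U) :
    ∃ q : ℝ, 0 < q ∧ q < r ∧ MemB q U := by
  obtain ⟨C0, hC0⟩ := hB
  have hB1 := (memB_iff hU C0).1 hC0
  set C : ℝ := max C0 1 with hC
  have hC1 : 1 ≤ C := le_max_right _ _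
  have hB2 : ∀ c L : ℝ, 0 < L → ENNReal.ofReal (L ^ r) * kk U r c L ≤ ENNReal.ofReal C * VV U c L := by
    intro c L hL
    refine (hB1 c L hL).trans ?_
    gcongr
    rw [← ENNReal.ofReal_coe_nnreal]
    exact ENNReal.ofReal_le_ofReal (le_max_left _ _)
  have h2r : (1:ℝ) < 2 ^ r := Real.one_lt_rpow (by norm_num) hr
  set γ : ℝ := (2 ^ r - 1) / (2 * (2 ^ r + 1)) with hγ
  have hγ0 : 0 < γ := by
    have : 0 < (2:ℝ) ^ r - 1 := by linarith
    positivity
  have hγ1 : γ < 1 := by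
    rw [hγ, div_lt_one (by positivity)]
    linarith
  set ρ : ℝ := 1 - γ / C with hρ
  have hρ0 : 0 < ρ := by
    rw [hρ, sub_pos, div_lt_one (by linarith)]; linarith
  have hρ1 : ρ < 1 := by
    rw [hρ]
    have : 0 < γ / C := by positivity
    linarith
  -- choice of q
  obtain ⟨q, hq0, hqr, hq⟩ : ∃ q : ℝ, 0 < q ∧ q < r ∧ (2:ℝ) ^ (r - q) * ρ < 1 := by
    have hcont : Tendsto (fun s : ℝ => (2:ℝ) ^ s * ρ) (𝓝[>] 0) (𝓝 ((2:ℝ) ^ (0:ℝ) * ρ)) := by
      refine Tendsto.mul_const _ ?_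
      refine (Real.continuousAt_const_rpow (by norm_num)).tendsto.mono_left nhdsWithin_le_nhds
    rw [Real.rpow_zero, one_mul] at hcont
    have hev : ∀ᶠ s in 𝓝[>] (0:ℝ), (2:ℝ) ^ s * ρ < 1 := hcont.eventually (gt_mem_nhds hρ1)
    obtain ⟨s, hs1, hs2⟩ := (hev.and (Ioo_mem_nhdsGT hr)).exists
    exact ⟨r - s, by linarith [hs2.2], by linarith [hs2.1], by rw [sub_sub_cancel]; exact hs1⟩
  refine ⟨q, hq0, hqr, ?_⟩
  set θ : ℝ := (2:ℝ) ^ (r - q) * ρ with hθ
  have hθ0 : 0 < θ := by positivity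
  -- decay along dyadic scales
  have hdec : ∀ (c L : ℝ), 0 < L → ∀ j : ℕ, kk U r c (2 ^ j * L) ≤ ENNReal.ofReal ρ ^ j * kk U r c L := by
    intro c L hL j
    induction j with
    | zero => simp
    | succ j ih =>
      have h1 := decay hr hU hC1 hB2 c (2 ^ j * L) (by positivity)
      calc kk U r c (2 ^ (j + 1) * L) = kk U r c (2 * (2 ^ j * L)) := by congr 1; ring
        _ ≤ ENNReal.ofReal ρ * kk U r c (2 ^ j * L) := h1
        _ ≤ ENNReal.ofReal ρ * (ENNReal.ofReal ρ ^ j * kk U r c L) := by gcongr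
        _ = _ := by ring
  -- the final bound
  set S : ℝ≥0∞ := (1 - ENNReal.ofReal θ)⁻¹ with hS
  have hSt : S ≠ ⊤ := by
    rw [hS, ENNReal.inv_ne_top]
    rw [ne_eq, tsub_eq_zero_iff_le, not_le]
    rw [← ENNReal.ofReal_one]
    exact (ENNReal.ofReal_lt_ofReal_iff one_pos).2 hq
  set D : ℝ≥0∞ := ENNReal.ofReal (1 + 2 ^ r) * S * ENNReal.ofReal C with hD
  have hDt : D ≠ ⊤ := ENNReal.mul_ne_top (ENNReal.mul_ne_top ENNReal.ofReal_ne_top hSt) ENNReal.ofReal_ne_top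
  refine ⟨D.toNNReal, (memB_iff hU _).2 ?_⟩
  rw [ENNReal.coe_toNNReal hDt]
  intro c L hL
  have hLr : 0 < L ^ r := Real.rpow_pos_of_pos hL r
  have hLq : 0 < L ^ q := Real.rpow_pos_of_pos hL q
  have hpt : ∀ x, ENNReal.ofReal (L ^ q) * (ENNReal.ofReal (1 / (L ^ q + |x - c| ^ q)) * ENNReal.ofReal (U x)) ≤
      ENNReal.ofReal (1 + 2 ^ r) * ∑' j : ℕ, ENNReal.ofReal ((2 ^ q) ^ j)⁻¹ *
        (ENNReal.ofReal ((2 ^ j * L) ^ r) * (ENNReal.ofReal (1 / ((2 ^ j * L) ^ r + |x - c| ^ r)) *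
          ENNReal.ofReal (U x))) := by
    intro x
    set τ : ℝ := |x - c| / L with hτ
    have hτ0 : 0 ≤ τ := by positivity
    have hxc : |x - c| = L * τ := by rw [hτ]; field_simp
    have e1 : ENNReal.ofReal (L ^ q) * ENNReal.ofReal (1 / (L ^ q + |x - c| ^ q)) =
        ENNReal.ofReal (1 / (1 + τ ^ q)) := by
      rw [← ENNReal.ofReal_mul hLq.le]
      congr 1
      rw [hxc, Real.mul_rpow hL.le hτ0]
      have : 0 ≤ τ ^ q := Real.rpow_nonneg hτ0 q
      field_simp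
    have e2 : ∀ j : ℕ, ENNReal.ofReal ((2 ^ j * L) ^ r) *
        ENNReal.ofReal (1 / ((2 ^ j * L) ^ r + |x - c| ^ r)) =
        ENNReal.ofReal ((2 ^ r) ^ j / ((2 ^ r) ^ j + τ ^ r)) := by
      intro j
      have hj : 0 < (2 ^ j * L) ^ r := Real.rpow_pos_of_pos (by positivity) r
      have hτr : 0 ≤ τ ^ r := Real.rpow_nonneg hτ0 r
      have e3 : (2 ^ r : ℝ) ^ j = ((2:ℝ) ^ j) ^ r := by
        rw [← Real.rpow_natCast, ← Real.rpow_mul (by norm_num), ← Real.rpow_natCast,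
          ← Real.rpow_mul (by norm_num), mul_comm]
      rw [← ENNReal.ofReal_mul hj.le]
      congr 1
      rw [hxc, Real.mul_rpow hL.le hτ0, Real.mul_rpow (by positivity) hL.le, e3]
      have h5 : 0 < ((2:ℝ) ^ j) ^ r := Real.rpow_pos_of_pos (by positivity) r
      field_simp
    calc _ = ENNReal.ofReal (1 / (1 + τ ^ q)) * ENNReal.ofReal (U x) := by rw [← mul_assoc, e1]
      _ ≤ (ENNReal.ofReal (1 + 2 ^ r) *
        ∑' j : ℕ, ENNReal.ofReal ((2 ^ q) ^ j)⁻¹ * ENNReal.ofReal ((2 ^ r) ^ j / ((2 ^ r) ^ j + τ ^ r))) *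
          ENNReal.ofReal (U x) := by gcongr; exact kernel_dom hr hq0 τ hτ0
      _ = _ := by
        rw [mul_assoc, ← ENNReal.tsum_mul_right]
        congr 1
        refine tsum_congr fun j => ?_
        rw [← e2 j]; ring
  have hmeas : ∀ j : ℕ, Measurable (fun x => ENNReal.ofReal ((2 ^ q) ^ j)⁻¹ *
        (ENNReal.ofReal ((2 ^ j * L) ^ r) * (ENNReal.ofReal (1 / ((2 ^ j * L) ^ r + |x - c| ^ r)) *
          ENNReal.ofReal (U x)))) := by
    intro j
    have h1 : Measurable (fun x : ℝ => |x - c|) := by fun_prop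
    have h2 : Measurable (fun x : ℝ => 1 / ((2 ^ j * L) ^ r + |x - c| ^ r)) :=
      ((h1.pow_const r).const_add _).const_div _
    exact (((h2.ennreal_ofReal.mul hU.meas.ennreal_ofReal).const_mul _).const_mul _)
  calc ENNReal.ofReal (L ^ q) * kk U q c L
      = ∫⁻ x, ENNReal.ofReal (L ^ q) * (ENNReal.ofReal (1 / (L ^ q + |x - c| ^ q)) * ENNReal.ofReal (U x)) := by
        unfold kk
        rw [lintegral_const_mul' _ _ ENNReal.ofReal_ne_top]
    _ ≤ ∫⁻ x, ENNReal.ofReal (1 + 2 ^ r) * ∑' j : ℕ, ENNReal.ofReal ((2 ^ q) ^ j)⁻¹ *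
        (ENNReal.ofReal ((2 ^ j * L) ^ r) * (ENNReal.ofReal (1 / ((2 ^ j * L) ^ r + |x - c| ^ r)) *
          ENNReal.ofReal (U x))) := lintegral_mono hpt
    _ = ENNReal.ofReal (1 + 2 ^ r) * ∑' j : ℕ, ENNReal.ofReal ((2 ^ q) ^ j)⁻¹ *
        (ENNReal.ofReal ((2 ^ j * L) ^ r) * kk U r c (2 ^ j * L)) := by
        rw [lintegral_const_mul' _ _ ENNReal.ofReal_ne_top, lintegral_tsum fun j => (hmeas j).aemeasurable]
        congr 1
        refine tsum_congr fun j => ?_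
        rw [lintegral_const_mul' _ _ ENNReal.ofReal_ne_top, lintegral_const_mul' _ _ ENNReal.ofReal_ne_top]
        rfl
    _ ≤ ENNReal.ofReal (1 + 2 ^ r) * ∑' j : ℕ, ENNReal.ofReal θ ^ j *
        (ENNReal.ofReal (L ^ r) * kk U r c L) := by
        refine mul_le_mul' le_rfl (ENNReal.tsum_le_tsum fun j => ?_)
        have e3 : ((2:ℝ) ^ j * L) ^ r = (2 ^ r) ^ j * L ^ r := by
          rw [Real.mul_rpow (by positivity) hL.le]
          congr 1
          rw [← Real.rpow_natCast, ← Real.rpow_mul (by norm_num), ← Real.rpow_natCast,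
            ← Real.rpow_mul (by norm_num), mul_comm]
        calc ENNReal.ofReal ((2 ^ q) ^ j)⁻¹ * (ENNReal.ofReal ((2 ^ j * L) ^ r) * kk U r c (2 ^ j * L))
            ≤ ENNReal.ofReal ((2 ^ q) ^ j)⁻¹ * (ENNReal.ofReal ((2 ^ j * L) ^ r) *
              (ENNReal.ofReal ρ ^ j * kk U r c L)) := by
              gcongr
              exact hdec c L hL j
          _ = (ENNReal.ofReal ((2 ^ q) ^ j)⁻¹ * ENNReal.ofReal ((2 ^ r) ^ j) * ENNReal.ofReal ρ ^ j) *
              (ENNReal.ofReal (L ^ r) * kk U r c L) := by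
              rw [e3, ENNReal.ofReal_mul (by positivity)]; ring
          _ = _ := by
              congr 1
              rw [← ENNReal.ofReal_pow hρ0.le, ← ENNReal.ofReal_pow hθ0.le,
                ← ENNReal.ofReal_mul (by positivity), ← ENNReal.ofReal_mul (by positivity)]
              congr 1
              rw [hθ, mul_pow, Real.rpow_sub (by norm_num), div_pow]
              ring
    _ = ENNReal.ofReal (1 + 2 ^ r) * (S * (ENNReal.ofReal (L ^ r) * kk U r c L)) := by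
        rw [ENNReal.tsum_mul_right, ENNReal.tsum_geometric]
    _ ≤ ENNReal.ofReal (1 + 2 ^ r) * (S * (ENNReal.ofReal C * VV U c L)) := by
        exact mul_le_mul' le_rfl (mul_le_mul' le_rfl (hB2 c L hL))
    _ = D * VV U c L := by rw [hD]; ring

end Pool.Agent.W755.Br
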