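import Mathlib

set_option autoImplicit false

open MeasureTheory Filter Topology Set
open scoped ENNReal NNReal

namespace Pool.Agent.W755.Gl

/-- the kernel `(1+t²)/(t-ζ) - t` (bounded in `t`) -/
noncomputable def Gk (ζ : ℂ) (t : ℝ) : ℂ := (1 + (t:ℂ) ^ 2) / ((t:ℂ) - ζ) - t

/-- its derivative in `ζ` -/
noncomputable def Gk1 (ζ : ℂ) (t : ℝ) : ℂ := (1 + (t:ℂ) ^ 2) / ((t:ℂ) - ζ) ^ 2

/-- the (regularised) Cauchy transform -/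
noncomputable def CF (f : ℝ → ℝ) (ζ : ℂ) : ℂ := ∫ t, ((f t / (1 + t ^ 2) : ℝ) : ℂ) * Gk ζ t

noncomputable def CF1 (f : ℝ → ℝ) (ζ : ℂ) : ℂ := ∫ t, ((f t / (1 + t ^ 2) : ℝ) : ℂ) * Gk1 ζ t

theorem sub_ne {ζ : ℂ} (h : 0 < ζ.im) (t : ℝ) : (t:ℂ) - ζ ≠ 0 := by
  intro h0
  have := congrArg Complex.im h0
  simp at this
  linarith

theorem im_le_norm_sub {ζ : ℂ} (h : 0 < ζ.im) (t : ℝ) : ζ.im ≤ ‖(t:ℂ) - ζ‖ := by
  have := Complex.abs_im_le_norm ((t:ℂ) - ζ)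
  simp only [Complex.sub_im, Complex.ofReal_im, zero_sub, abs_neg, abs_of_pos h] at this
  exact this

/-- `1+t² ≤ M |t-ζ|²` -/
theorem one_add_sq_le {ζ : ℂ} {h R : ℝ} (hh : 0 < h) (h1 : h ≤ ζ.im) (h2 : ‖ζ‖ ≤ R) (t : ℝ) :
    1 + t ^ 2 ≤ ((1 + 2 * R ^ 2) / h ^ 2 + 2) * ‖(t:ℂ) - ζ‖ ^ 2 := by
  have hR : 0 ≤ R := le_trans (norm_nonneg _) h2
  have hz : 0 < ζ.im := lt_of_lt_of_le hh h1
  have a1 : h ≤ ‖(t:ℂ) - ζ‖ := le_trans h1 (im_le_norm_sub hz t)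
  have a2 : |t| ≤ ‖(t:ℂ) - ζ‖ + R := by
    have : ‖(t:ℂ)‖ ≤ ‖(t:ℂ) - ζ‖ + ‖ζ‖ := by
      calc ‖(t:ℂ)‖ = ‖((t:ℂ) - ζ) + ζ‖ := by ring_nf
        _ ≤ _ := norm_add_le _ _
    rw [Complex.norm_real, Real.norm_eq_abs] at this
    linarith
  have a3 : t ^ 2 ≤ 2 * ‖(t:ℂ) - ζ‖ ^ 2 + 2 * R ^ 2 := by
    have : t ^ 2 ≤ (‖(t:ℂ) - ζ‖ + R) ^ 2 := by
      rw [← sq_abs t]
      exact pow_le_pow_left₀ (abs_nonneg _) a2 2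
    nlinarith [sq_nonneg (‖(t:ℂ) - ζ‖ - R)]
  have a4 : 1 + 2 * R ^ 2 ≤ (1 + 2 * R ^ 2) / h ^ 2 * ‖(t:ℂ) - ζ‖ ^ 2 := by
    rw [div_mul_eq_mul_div, le_div_iff₀ (by positivity)]
    have : h ^ 2 ≤ ‖(t:ℂ) - ζ‖ ^ 2 := pow_le_pow_left₀ hh.le a1 2
    have h5 : 0 ≤ 1 + 2 * R ^ 2 := by positivity
    exact mul_le_mul_of_nonneg_left this h5
  nlinarith

theorem norm_Gk1_le {ζ : ℂ} {h R : ℝ} (hh : 0 < h) (h1 : h ≤ ζ.im) (h2 : ‖ζ‖ ≤ R) (t : ℝ) :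
    ‖Gk1 ζ t‖ ≤ (1 + 2 * R ^ 2) / h ^ 2 + 2 := by
  have hz : 0 < ζ.im := lt_of_lt_of_le hh h1
  unfold Gk1
  rw [norm_div, norm_pow, div_le_iff₀ (by have := norm_pos_iff.2 (sub_ne hz t); positivity)]
  have : ‖(1 + (t:ℂ) ^ 2)‖ = 1 + t ^ 2 := by
    have e : (1 + (t:ℂ) ^ 2) = ((1 + t ^ 2 : ℝ) : ℂ) := by push_cast; ring
    rw [e, Complex.norm_real, Real.norm_eq_abs, abs_of_pos (by positivity)]
  rw [this]
  exact one_add_sq_le hh h1 h2 t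

theorem Gk_eq {ζ : ℂ} (hz : 0 < ζ.im) (t : ℝ) : Gk ζ t = ζ + (1 + ζ ^ 2) / ((t:ℂ) - ζ) := by
  unfold Gk
  have := sub_ne hz t
  field_simp
  ring

theorem norm_Gk_le {ζ : ℂ} (hz : 0 < ζ.im) (t : ℝ) :
    ‖Gk ζ t‖ ≤ ‖ζ‖ + ‖1 + ζ ^ 2‖ / ζ.im := by
  rw [Gk_eq hz]
  refine (norm_add_le _ _).trans ?_
  rw [norm_div]
  gcongr
  exact im_le_norm_sub hz t

theorem hasDerivAt_Gk {ζ : ℂ} (hz : 0 < ζ.im) (t : ℝ) :
    HasDerivAt (fun ζ => Gk ζ t) (Gk1 ζ t) ζ := by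
  unfold Gk Gk1
  have h0 := sub_ne hz t
  have h1 : HasDerivAt (fun ζ : ℂ => (t:ℂ) - ζ) (-1) ζ := by
    simpa using (hasDerivAt_id ζ).const_sub (t:ℂ)
  have h2 := ((hasDerivAt_const ζ (1 + (t:ℂ) ^ 2)).fun_div h1 h0).sub_const (t:ℂ)
  refine h2.congr_deriv ?_
  congr 1
  ring

theorem measurable_Gk (ζ : ℂ) : Measurable (Gk ζ) := by
  unfold Gk
  fun_prop

theorem measurable_Gk1 (ζ : ℂ) : Measurable (Gk1 ζ) := by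
  unfold Gk1
  fun_prop

section

variable {f : ℝ → ℝ} (hf : Integrable (fun t => f t / (1 + t ^ 2)))
include hf

theorem hfC : Integrable (fun t => ((f t / (1 + t ^ 2) : ℝ) : ℂ)) := hf.ofReal

theorem integrable_Gk {ζ : ℂ} (hz : 0 < ζ.im) :
    Integrable (fun t => ((f t / (1 + t ^ 2) : ℝ) : ℂ) * Gk ζ t) := by
  refine (hfC hf).mul_bdd (c := ‖ζ‖ + ‖1 + ζ ^ 2‖ / ζ.im) (measurable_Gk ζ).aestronglyMeasurable ?_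
  exact Eventually.of_forall fun t => norm_Gk_le hz t

theorem integrable_Gk1 {ζ : ℂ} (hz : 0 < ζ.im) :
    Integrable (fun t => ((f t / (1 + t ^ 2) : ℝ) : ℂ) * Gk1 ζ t) := by
  refine (hfC hf).mul_bdd (c := (1 + 2 * ‖ζ‖ ^ 2) / ζ.im ^ 2 + 2)
    (measurable_Gk1 ζ).aestronglyMeasurable ?_
  exact Eventually.of_forall fun t => norm_Gk1_le hz le_rfl le_rfl t

theorem hasDerivAt_CF {ζ : ℂ} (hz : 0 < ζ.im) : HasDerivAt (CF f) (CF1 f ζ) ζ := by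
  unfold CF CF1
  set h : ℝ := ζ.im / 2 with hh
  have hh0 : 0 < h := by positivity
  set R : ℝ := ‖ζ‖ + h with hR
  have hball : ∀ ξ ∈ Metric.ball ζ h, h ≤ ξ.im ∧ ‖ξ‖ ≤ R := by
    intro ξ hξ
    rw [Metric.mem_ball, dist_eq_norm] at hξ
    constructor
    · have := Complex.abs_im_le_norm (ξ - ζ)
      rw [Complex.sub_im] at this
      have := (abs_le.1 this).1
      linarith
    · have : ‖ξ‖ ≤ ‖ξ - ζ‖ + ‖ζ‖ := by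
        calc ‖ξ‖ = ‖(ξ - ζ) + ζ‖ := by ring_nf
          _ ≤ _ := norm_add_le _ _
      linarith
  refine (hasDerivAt_integral_of_dominated_loc_of_deriv_le (𝕜 := ℂ) (E := ℂ) (μ := volume)
    (F := fun ζ t => ((f t / (1 + t ^ 2) : ℝ) : ℂ) * Gk ζ t)
    (F' := fun ζ t => ((f t / (1 + t ^ 2) : ℝ) : ℂ) * Gk1 ζ t) (x₀ := ζ) (bound := fun t =>
    ‖((f t / (1 + t ^ 2) : ℝ) : ℂ)‖ * ((1 + 2 * R ^ 2) / h ^ 2 + 2))
    (s := Metric.ball ζ h) (Metric.ball_mem_nhds ζ hh0) ?_ ?_ ?_ ?_ ?_ ?_).2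
  · exact Eventually.of_forall fun ξ => (hfC hf).aestronglyMeasurable.mul
      (measurable_Gk ξ).aestronglyMeasurable
  · exact integrable_Gk hf hz
  · exact (hfC hf).aestronglyMeasurable.mul (measurable_Gk1 ζ).aestronglyMeasurable
  · refine Eventually.of_forall fun t ξ hξ => ?_
    rw [norm_mul]
    exact mul_le_mul_of_nonneg_left (norm_Gk1_le hh0 (hball ξ hξ).1 (hball ξ hξ).2 t) (norm_nonneg _)
  · exact (hfC hf).norm.mul_const _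
  · refine Eventually.of_forall fun t ξ hξ => ?_
    exact (hasDerivAt_Gk (lt_of_lt_of_le hh0 (hball ξ hξ).1) t).const_mul _

end

end Pool.Agent.W755.Gl
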