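import Pool.Agent.W755.GlA

set_option autoImplicit false

open MeasureTheory Filter Topology Set
open scoped ENNReal NNReal

namespace Pool.Agent.W755.Gl

/-! ### the Bellman function `X - u²/(2V - 1/(VW²))` -/

noncomputable def Dd (V W : ℝ) : ℝ := 2 * V - 1 / (V * W ^ 2)

noncomputable def Dd1 (V W V1 W1 : ℝ) : ℝ := 2 * V1 + V1 / (V ^ 2 * W ^ 2) + 2 * W1 / (V * W ^ 3)

noncomputable def Dd2 (V W V1 W1 V2 W2 : ℝ) : ℝ :=
  2 * V2 + (V2 / (V ^ 2 * W ^ 2) - 2 * V1 ^ 2 / (V ^ 3 * W ^ 2) - 2 * V1 * W1 / (V ^ 2 * W ^ 3)) +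
    (2 * W2 / (V * W ^ 3) - 2 * W1 * V1 / (V ^ 2 * W ^ 3) - 6 * W1 ^ 2 / (V * W ^ 4))

noncomputable def Bb (X u V W : ℝ) : ℝ := X - u ^ 2 / Dd V W

noncomputable def Bb1 (u V W X1 u1 V1 W1 : ℝ) : ℝ :=
  X1 - (2 * u * u1 / Dd V W - u ^ 2 * Dd1 V W V1 W1 / Dd V W ^ 2)

noncomputable def Bb2 (u V W u1 V1 W1 X2 u2 V2 W2 : ℝ) : ℝ :=
  X2 - 2 * u * u2 / Dd V W + u ^ 2 * Dd2 V W V1 W1 V2 W2 / Dd V W ^ 2 -
    (2 / Dd V W) * (u1 - u * Dd1 V W V1 W1 / Dd V W) ^ 2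

theorem hasDerivAt_Dd {V W : ℝ → ℝ} {V1 W1 t : ℝ} (hV : HasDerivAt V V1 t) (hW : HasDerivAt W W1 t)
    (hV0 : 0 < V t) (hW0 : 0 < W t) :
    HasDerivAt (fun s => Dd (V s) (W s)) (Dd1 (V t) (W t) V1 W1) t := by
  unfold Dd Dd1
  have h1 : HasDerivAt (fun s => V s * W s ^ 2) (V1 * W t ^ 2 + V t * (2 * W t ^ (2 - 1) * W1)) t :=
    hV.fun_mul (hW.fun_pow 2)
  have h2 := (hV.const_mul 2).fun_sub ((hasDerivAt_const t (1:ℝ)).fun_div h1 (by positivity))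
  refine h2.congr_deriv ?_
  field_simp
  ring

theorem hasDerivAt_Dd1 {V W V1 W1 : ℝ → ℝ} {V2 W2 t : ℝ} (hV : HasDerivAt V (V1 t) t)
    (hW : HasDerivAt W (W1 t) t) (hV1 : HasDerivAt V1 V2 t) (hW1 : HasDerivAt W1 W2 t)
    (hV0 : 0 < V t) (hW0 : 0 < W t) :
    HasDerivAt (fun s => Dd1 (V s) (W s) (V1 s) (W1 s))
      (Dd2 (V t) (W t) (V1 t) (W1 t) V2 W2) t := by
  unfold Dd1 Dd2
  have h1 := (hV.fun_pow 2).fun_mul (hW.fun_pow 2)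
  have h2 := hV.fun_mul (hW.fun_pow 3)
  have h3 := ((hV1.const_mul 2).fun_add (hV1.fun_div h1 (by positivity))).fun_add
    ((hW1.const_mul 2).fun_div h2 (by positivity))
  refine h3.congr_deriv ?_
  field_simp
  ring

theorem hasDerivAt_Bb {X u V W : ℝ → ℝ} {X1 u1 V1 W1 t : ℝ} (hX : HasDerivAt X X1 t)
    (hu : HasDerivAt u u1 t) (hV : HasDerivAt V V1 t) (hW : HasDerivAt W W1 t)
    (hV0 : 0 < V t) (hW0 : 0 < W t) (hD : 0 < Dd (V t) (W t)) :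
    HasDerivAt (fun s => Bb (X s) (u s) (V s) (W s))
      (Bb1 (u t) (V t) (W t) X1 u1 V1 W1) t := by
  unfold Bb Bb1
  have h1 := hasDerivAt_Dd hV hW hV0 hW0
  have h2 := hX.fun_sub ((hu.fun_pow 2).fun_div h1 hD.ne')
  refine h2.congr_deriv ?_
  field_simp
  ring

theorem hasDerivAt_Bb1 {u V W X1 u1 V1 W1 : ℝ → ℝ} {X2 u2 V2 W2 t : ℝ}
    (hu : HasDerivAt u (u1 t) t) (hV : HasDerivAt V (V1 t) t) (hW : HasDerivAt W (W1 t) t)
    (hX1 : HasDerivAt X1 X2 t) (hu1 : HasDerivAt u1 u2 t) (hV1 : HasDerivAt V1 V2 t)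
    (hW1 : HasDerivAt W1 W2 t)
    (hV0 : 0 < V t) (hW0 : 0 < W t) (hD : 0 < Dd (V t) (W t)) :
    HasDerivAt (fun s => Bb1 (u s) (V s) (W s) (X1 s) (u1 s) (V1 s) (W1 s))
      (Bb2 (u t) (V t) (W t) (u1 t) (V1 t) (W1 t) X2 u2 V2 W2) t := by
  unfold Bb1 Bb2
  have h1 := hasDerivAt_Dd hV hW hV0 hW0
  have h2 := hasDerivAt_Dd1 hV hW hV1 hW1 hV0 hW0
  have h3 := ((hu.const_mul 2).fun_mul hu1).fun_div h1 hD.ne'
  have h4 := ((hu.fun_pow 2).fun_mul h2).fun_div (h1.fun_pow 2) (by positivity)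
  have h5 := hX1.fun_sub (h3.fun_sub h4)
  refine h5.congr_deriv ?_
  field_simp
  ring

/-- the lower bound in one direction -/
theorem dir_bound {V W u u1 V1 W1 Q : ℝ} (hV : 0 < V) (hW : 0 < W) (h1 : 1 ≤ V * W)
    (hQ : V * W ≤ Q) :
    W / (22 * Q ^ 3) * u1 ^ 2 ≤ (2 / Dd V W) * (u1 - u * Dd1 V W V1 W1 / Dd V W) ^ 2 +
      u ^ 2 / Dd V W ^ 2 * (1 / (V * W ^ 2) *
        (2 * (V1 / V + W1 / W) ^ 2 + 4 * (W1 / W) ^ 2)) := by
  have hQ1 : 1 ≤ Q := h1.trans hQ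
  have hQ0 : 0 < Q := by linarith
  set a := V1 / V with ha
  set b := W1 / W with hb
  set k := 1 / (V * W ^ 2) with hk
  have hk0 : 0 < k := by positivity
  have hkV : k ≤ V := by
    rw [hk, div_le_iff₀ (by positivity)]
    nlinarith [mul_pos hV hW]
  have hkQ : V / Q ^ 2 ≤ k := by
    rw [hk, div_le_div_iff₀ (by positivity) (by positivity)]
    have : (V * W) ^ 2 ≤ Q ^ 2 := pow_le_pow_left₀ (by positivity) hQ 2
    nlinarith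
  have hD : Dd V W = 2 * V - k := by unfold Dd; rfl
  have hD1 : Dd1 V W V1 W1 = 2 * V * a + k * (a + 2 * b) := by
    unfold Dd1
    rw [ha, hb, hk]
    field_simp
    ring
  set D := Dd V W with hDd
  have hDV : V ≤ D := by rw [hD]; linarith
  have hD2V : D ≤ 2 * V := by rw [hD]; linarith
  have hD0 : 0 < D := by linarith
  set D1 := Dd1 V W V1 W1 with hD1d
  -- `D1² ≤ 11 V² (a²+2b²)`
  have hD1b : D1 ^ 2 ≤ 11 * V ^ 2 * (a ^ 2 + 2 * b ^ 2) := by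
    have e1 : |D1| ≤ V * (3 * |a| + 2 * |b|) := by
      rw [hD1]
      calc |2 * V * a + k * (a + 2 * b)| ≤ |2 * V * a| + |k * (a + 2 * b)| := abs_add_le _ _
        _ = 2 * V * |a| + k * |a + 2 * b| := by
            rw [abs_mul (2 * V) a, abs_mul k, abs_of_pos hk0, abs_of_pos (by linarith : (0:ℝ) < 2 * V)]
        _ ≤ 2 * V * |a| + V * (|a| + 2 * |b|) := by
            have : |a + 2 * b| ≤ |a| + 2 * |b| := by
              calc |a + 2 * b| ≤ |a| + |2 * b| := abs_add_le _ _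
                _ = _ := by rw [abs_mul, abs_two]
            have h3 : k * |a + 2 * b| ≤ V * (|a| + 2 * |b|) :=
              mul_le_mul hkV this (abs_nonneg _) hV.le
            linarith
        _ = _ := by ring
    have e2 : D1 ^ 2 ≤ (V * (3 * |a| + 2 * |b|)) ^ 2 := by
      rw [← sq_abs D1]
      exact pow_le_pow_left₀ (abs_nonneg _) e1 2
    have e3 : (3 * |a| + 2 * |b|) ^ 2 ≤ 11 * (a ^ 2 + 2 * b ^ 2) := by
      rw [← sq_abs a, ← sq_abs b]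
      nlinarith [sq_nonneg (|a| - 3 * |b|), sq_nonneg (2 * |a| - 6 * |b|)]
    calc D1 ^ 2 ≤ (V * (3 * |a| + 2 * |b|)) ^ 2 := e2
      _ = V ^ 2 * (3 * |a| + 2 * |b|) ^ 2 := by ring
      _ ≤ V ^ 2 * (11 * (a ^ 2 + 2 * b ^ 2)) := by gcongr
      _ = _ := by ring
  set q := u * D1 / D with hq
  have hkab : V / Q ^ 2 * (a ^ 2 + 2 * b ^ 2) ≤ k * (2 * (a + b) ^ 2 + 4 * b ^ 2) := by
    have e1 : a ^ 2 + 2 * b ^ 2 ≤ 2 * (a + b) ^ 2 + 4 * b ^ 2 := by nlinarith [sq_nonneg (a + 2 * b)]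
    exact mul_le_mul hkQ e1 (by positivity) hk0.le
  have hq2 : q ^ 2 / (11 * Q ^ 2 * V) ≤
      u ^ 2 / D ^ 2 * (k * (2 * (a + b) ^ 2 + 4 * b ^ 2)) := by
    refine le_trans ?_ (mul_le_mul_of_nonneg_left hkab (by positivity))
    rw [hq, div_pow, mul_pow]
    have : u ^ 2 * D1 ^ 2 / D ^ 2 / (11 * Q ^ 2 * V) = u ^ 2 / D ^ 2 * (D1 ^ 2 / (11 * Q ^ 2 * V)) := by
      field_simp
    rw [this]
    refine mul_le_mul_of_nonneg_left ?_ (by positivity)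
    rw [div_le_iff₀ (by positivity)]
    have e2 : V / Q ^ 2 * (a ^ 2 + 2 * b ^ 2) * (11 * Q ^ 2 * V) =
        11 * V ^ 2 * (a ^ 2 + 2 * b ^ 2) := by
      field_simp
    rw [e2]
    exact hD1b
  have h2D : 1 / V ≤ 2 / D := by
    rw [div_le_div_iff₀ hV hD0]
    linarith
  have hWV : W / Q ≤ 1 / V := by
    rw [div_le_div_iff₀ hQ0 hV]
    linarith
  calc W / (22 * Q ^ 3) * u1 ^ 2 = (1 / (22 * Q ^ 2)) * (W / Q) * u1 ^ 2 := by field_simp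
    _ ≤ (1 / (22 * Q ^ 2)) * (1 / V) * u1 ^ 2 := by gcongr
    _ ≤ (1 / (11 * Q ^ 2)) * (1 / V) * ((u1 - q) ^ 2 + q ^ 2) := by
        have : u1 ^ 2 ≤ 2 * ((u1 - q) ^ 2 + q ^ 2) := by nlinarith [sq_nonneg (u1 - 2 * q)]
        calc (1 / (22 * Q ^ 2)) * (1 / V) * u1 ^ 2 ≤
            (1 / (22 * Q ^ 2)) * (1 / V) * (2 * ((u1 - q) ^ 2 + q ^ 2)) := by gcongr
          _ = _ := by field_simp; ring
    _ = (1 / (11 * Q ^ 2)) * (1 / V) * (u1 - q) ^ 2 + q ^ 2 / (11 * Q ^ 2 * V) := by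
        field_simp
    _ ≤ 1 * (2 / D) * (u1 - q) ^ 2 + u ^ 2 / D ^ 2 * (k * (2 * (a + b) ^ 2 + 4 * b ^ 2)) := by
        refine add_le_add ?_ hq2
        refine mul_le_mul_of_nonneg_right ?_ (sq_nonneg _)
        refine mul_le_mul ?_ h2D (by positivity) zero_le_one
        rw [div_le_one (by positivity)]
        nlinarith
    _ = _ := by ring

/-- minus the Laplacian of the Bellman function -/
theorem lap_bound {V W u Q : ℝ} {uz Vz Wz uy Vy Wy X2z u2z V2z W2z X2y u2y V2y W2y : ℝ}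
    (hV : 0 < V) (hW : 0 < W) (h1 : 1 ≤ V * W) (hQ : V * W ≤ Q)
    (hX2 : X2z + X2y = 0) (hu2 : u2z + u2y = 0) (hV2 : V2z + V2y = 0) (hW2 : W2z + W2y = 0) :
    W / (22 * Q ^ 3) * (uz ^ 2 + uy ^ 2) ≤
      -(Bb2 u V W uz Vz Wz X2z u2z V2z W2z) - Bb2 u V W uy Vy Wy X2y u2y V2y W2y := by
  have b1 := dir_bound (u := u) (u1 := uz) (V1 := Vz) (W1 := Wz) hV hW h1 hQ
  have b2 := dir_bound (u := u) (u1 := uy) (V1 := Vy) (W1 := Wy) hV hW h1 hQ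
  have key : -(Bb2 u V W uz Vz Wz X2z u2z V2z W2z) - Bb2 u V W uy Vy Wy X2y u2y V2y W2y =
      ((2 / Dd V W) * (uz - u * Dd1 V W Vz Wz / Dd V W) ^ 2 +
      u ^ 2 / Dd V W ^ 2 * (1 / (V * W ^ 2) *
        (2 * (Vz / V + Wz / W) ^ 2 + 4 * (Wz / W) ^ 2))) +
      ((2 / Dd V W) * (uy - u * Dd1 V W Vy Wy / Dd V W) ^ 2 +
      u ^ 2 / Dd V W ^ 2 * (1 / (V * W ^ 2) *
        (2 * (Vy / V + Wy / W) ^ 2 + 4 * (Wy / W) ^ 2))) := by
    have hDz : Dd2 V W Vz Wz V2z W2z = (2 + 1 / (V ^ 2 * W ^ 2)) * V2z + 2 / (V * W ^ 3) * W2z -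
        1 / (V * W ^ 2) * (2 * (Vz / V + Wz / W) ^ 2 + 4 * (Wz / W) ^ 2) := by
      unfold Dd2
      field_simp
      ring
    have hDy : Dd2 V W Vy Wy V2y W2y = (2 + 1 / (V ^ 2 * W ^ 2)) * V2y + 2 / (V * W ^ 3) * W2y -
        1 / (V * W ^ 2) * (2 * (Vy / V + Wy / W) ^ 2 + 4 * (Wy / W) ^ 2) := by
      unfold Dd2
      field_simp
      ring
    have e1 : X2y = -X2z := by linarith
    have e2 : u2y = -u2z := by linarith
    have e3 : V2y = -V2z := by linarith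
    have e4 : W2y = -W2z := by linarith
    unfold Bb2
    rw [hDz, hDy, e1, e2, e3, e4]
    ring
  rw [key]
  calc W / (22 * Q ^ 3) * (uz ^ 2 + uy ^ 2) = W / (22 * Q ^ 3) * uz ^ 2 + W / (22 * Q ^ 3) * uy ^ 2 := by
        ring
    _ ≤ _ := add_le_add b1 b2

end Pool.Agent.W755.Gl
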