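import Pool.Agent.W755.GlB

set_option autoImplicit false

open MeasureTheory Filter Topology Set
open scoped ENNReal NNReal

namespace Pool.Agent.W755.Gl

/-! ### Green's formula on rectangles -/

theorem ibp1 {a b : ℝ} (hab : a ≤ b) {g g1 g2 : ℝ → ℝ}
    (h1 : ∀ x ∈ Icc a b, HasDerivAt g (g1 x) x) (h2 : ∀ x ∈ Icc a b, HasDerivAt g1 (g2 x) x)
    (hc : ContinuousOn g2 (Icc a b)) (h0 : ∀ x ∈ Icc a b, 0 ≤ g x) :
    ∫ x in Icc a b, (x - a) * (b - x) * (- g2 x) ≤ 2 * ∫ x in Icc a b, g x := by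
  have hu : uIcc a b = Icc a b := uIcc_of_le hab
  have hg : ContinuousOn g (Icc a b) := fun x hx => (h1 x hx).continuousAt.continuousWithinAt
  have key : ∫ x in a..b, ((x - a) * (b - x) * g2 x + 2 * g x) =
      ((b - a) * (b - b) * g1 b - (a + b - 2 * b) * g b) -
      ((a - a) * (b - a) * g1 a - (a + b - 2 * a) * g a) := by
    refine intervalIntegral.integral_eq_sub_of_hasDerivAt
      (f := fun x => (x - a) * (b - x) * g1 x - (a + b - 2 * x) * g x) ?_ ?_
    · intro x hx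
      rw [hu] at hx
      have e1 : HasDerivAt (fun x : ℝ => (x - a) * (b - x)) (1 * (b - x) + (x - a) * (-1)) x :=
        ((hasDerivAt_id x).sub_const a).fun_mul ((hasDerivAt_id x).const_sub b)
      have e2 : HasDerivAt (fun x : ℝ => a + b - 2 * x) (-(2 * 1)) x :=
        ((hasDerivAt_id x).const_mul 2).const_sub (a + b)
      have e3 := (e1.fun_mul (h2 x hx)).fun_sub (e2.fun_mul (h1 x hx))
      refine e3.congr_deriv ?_
      ring
    · apply ContinuousOn.intervalIntegrable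
      rw [hu]
      fun_prop
  have i1 : IntervalIntegrable (fun x => (x - a) * (b - x) * g2 x) volume a b := by
    apply ContinuousOn.intervalIntegrable
    rw [hu]
    fun_prop
  have i2 : IntervalIntegrable (fun x => 2 * g x) volume a b := by
    apply ContinuousOn.intervalIntegrable
    rw [hu]
    fun_prop
  rw [intervalIntegral.integral_add i1 i2, intervalIntegral.integral_const_mul,
    intervalIntegral.integral_of_le hab, intervalIntegral.integral_of_le hab,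
    ← integral_Icc_eq_integral_Ioc, ← integral_Icc_eq_integral_Ioc] at key
  have e4 : ∫ x in Icc a b, (x - a) * (b - x) * (- g2 x) = - ∫ x in Icc a b, (x - a) * (b - x) * g2 x := by
    rw [← integral_neg]
    congr 1
    ext x
    ring
  rw [e4]
  have p1 := h0 a (left_mem_Icc.2 hab)
  have p2 := h0 b (right_mem_Icc.2 hab)
  have p3 : 0 ≤ b - a := sub_nonneg.2 hab
  nlinarith [mul_nonneg p3 p1, mul_nonneg p3 p2]

theorem int_rect {R a b : ℝ} {F : ℝ × ℝ → ℝ}
    (h : ContinuousOn F (Icc (-R) R ×ˢ Icc a b)) :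
    Integrable F ((volume.restrict (Icc (-R) R)).prod (volume.restrict (Icc a b))) := by
  rw [Measure.prod_restrict]
  exact h.integrableOn_compact (isCompact_Icc.prod isCompact_Icc)

/-- data of a nonnegative twice differentiable function on the upper half plane -/
structure GData (B Bz1 Bz2 By1 By2 m : ℝ → ℝ → ℝ) (A : ℝ) : Prop where
  A0 : 0 ≤ A
  dz1 : ∀ z y, 0 < y → HasDerivAt (fun s => B s y) (Bz1 z y) z
  dz2 : ∀ z y, 0 < y → HasDerivAt (fun s => Bz1 s y) (Bz2 z y) z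
  dy1 : ∀ z y, 0 < y → HasDerivAt (fun s => B z s) (By1 z y) y
  dy2 : ∀ z y, 0 < y → HasDerivAt (fun s => By1 z s) (By2 z y) y
  cB : ContinuousOn (fun p : ℝ × ℝ => B p.1 p.2) {p | 0 < p.2}
  cz : ContinuousOn (fun p : ℝ × ℝ => Bz2 p.1 p.2) {p | 0 < p.2}
  cy : ContinuousOn (fun p : ℝ × ℝ => By2 p.1 p.2) {p | 0 < p.2}
  cm : ContinuousOn (fun p : ℝ × ℝ => m p.1 p.2) {p | 0 < p.2}
  B0 : ∀ z y, 0 < y → 0 ≤ B z y
  m0 : ∀ z y, 0 < y → 0 ≤ m z y
  mle : ∀ z y, 0 < y → m z y ≤ -(Bz2 z y) - By2 z y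
  bd : ∀ y, 0 < y → ∫⁻ z, ENNReal.ofReal (B z y) ≤ ENNReal.ofReal A

theorem greenRect {B Bz1 Bz2 By1 By2 m : ℝ → ℝ → ℝ} {A : ℝ} (D : GData B Bz1 Bz2 By1 By2 m A)
    {a b R : ℝ} (ha : 0 < a) (hab : a < b) (hR : 0 < R) :
    ∫ p, ((R ^ 2 - p.1 ^ 2) * ((p.2 - a) * (b - p.2))) * m p.1 p.2
      ∂((volume.restrict (Icc (-R) R)).prod (volume.restrict (Icc a b))) ≤
      (2 * R ^ 2 + (b - a) ^ 2 / 2) * ((b - a) * A) := by
  set μ := volume.restrict (Icc (-R) R) with hμ
  set ν := volume.restrict (Icc a b) with hν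
  have hsub : (Icc (-R) R ×ˢ Icc a b) ⊆ {p : ℝ × ℝ | 0 < p.2} := by
    intro p hp
    exact lt_of_lt_of_le ha hp.2.1
  have cB := D.cB.mono hsub
  have cz := D.cz.mono hsub
  have cy := D.cy.mono hsub
  have cm := D.cm.mono hsub
  have iB : Integrable (fun p : ℝ × ℝ => B p.1 p.2) (μ.prod ν) := int_rect cB
  have im : Integrable (fun p : ℝ × ℝ => ((R ^ 2 - p.1 ^ 2) * ((p.2 - a) * (b - p.2))) * m p.1 p.2)
      (μ.prod ν) := int_rect (by fun_prop)
  have iz : Integrable (fun p : ℝ × ℝ => ((p.2 - a) * (b - p.2)) *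
      ((R ^ 2 - p.1 ^ 2) * -(Bz2 p.1 p.2))) (μ.prod ν) := int_rect (by fun_prop)
  have iy : Integrable (fun p : ℝ × ℝ => (R ^ 2 - p.1 ^ 2) *
      (((p.2 - a) * (b - p.2)) * -(By2 p.1 p.2))) (μ.prod ν) := int_rect (by fun_prop)
  have iB1 : Integrable (fun p : ℝ × ℝ => ((p.2 - a) * (b - p.2)) *
      (2 * B p.1 p.2)) (μ.prod ν) := int_rect (by fun_prop)
  have iB2 : Integrable (fun p : ℝ × ℝ => (R ^ 2 - p.1 ^ 2) *
      (2 * B p.1 p.2)) (μ.prod ν) := int_rect (by fun_prop)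
  -- membership a.e.
  have hmem : ∀ᵐ p ∂(μ.prod ν), p ∈ Icc (-R) R ×ˢ Icc a b := by
    rw [hμ, hν, Measure.prod_restrict]
    exact ae_restrict_mem (measurableSet_Icc.prod measurableSet_Icc)
  have hmz : ∀ᵐ z ∂μ, z ∈ Icc (-R) R := ae_restrict_mem measurableSet_Icc
  have hmy : ∀ᵐ y ∂ν, y ∈ Icc a b := ae_restrict_mem measurableSet_Icc
  -- bound of the integral of `B`
  have hBy : ∀ y ∈ Icc a b, ∫ z, B z y ∂μ ≤ A := by
    intro y hy
    have hy0 : 0 < y := lt_of_lt_of_le ha hy.1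
    have e1 : ∫ z, B z y ∂μ = (∫⁻ z, ENNReal.ofReal (B z y) ∂μ).toReal := by
      rw [integral_eq_lintegral_of_nonneg_ae]
      · exact Eventually.of_forall fun z => D.B0 z y hy0
      · have : Continuous (fun z => B z y) :=
          continuous_iff_continuousAt.2 fun z => (D.dz1 z y hy0).continuousAt
        exact this.aestronglyMeasurable
    rw [e1]
    refine ENNReal.toReal_le_of_le_ofReal D.A0 ?_
    exact (lintegral_mono' Measure.restrict_le_self le_rfl).trans (D.bd y hy0)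
  have hBB : ∫ p, B p.1 p.2 ∂(μ.prod ν) ≤ (b - a) * A := by
    rw [integral_prod_symm _ iB]
    calc ∫ y, ∫ z, B z y ∂μ ∂ν ≤ ∫ y, A ∂ν := by
          refine integral_mono_ae iB.integral_prod_right (integrable_const _) ?_
          filter_upwards [hmy] with y hy
          exact hBy y hy
      _ = (b - a) * A := by
          rw [integral_const, hν, measureReal_restrict_apply_univ, Real.volume_real_Icc_of_le hab.le, smul_eq_mul]
  have step1 : ∫ p, ((R ^ 2 - p.1 ^ 2) * ((p.2 - a) * (b - p.2))) * m p.1 p.2 ∂(μ.prod ν) ≤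
      (∫ p, ((p.2 - a) * (b - p.2)) * ((R ^ 2 - p.1 ^ 2) * -(Bz2 p.1 p.2)) ∂(μ.prod ν)) +
      ∫ p, (R ^ 2 - p.1 ^ 2) * (((p.2 - a) * (b - p.2)) * -(By2 p.1 p.2)) ∂(μ.prod ν) := by
    rw [← integral_add iz iy]
    refine integral_mono_ae im (iz.add iy) ?_
    filter_upwards [hmem] with p hp
    have h1 : 0 ≤ R ^ 2 - p.1 ^ 2 := by
      have : |p.1| ≤ R := abs_le.2 hp.1
      nlinarith [abs_nonneg p.1, sq_abs p.1]
    have h2 : 0 ≤ (p.2 - a) * (b - p.2) := mul_nonneg (sub_nonneg.2 hp.2.1) (sub_nonneg.2 hp.2.2)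
    have h3 := mul_le_mul_of_nonneg_left (D.mle p.1 p.2 (hsub hp)) (mul_nonneg h1 h2)
    calc _ ≤ _ := h3
      _ = _ := by ring
  have step2 : ∫ p, ((p.2 - a) * (b - p.2)) * ((R ^ 2 - p.1 ^ 2) * -(Bz2 p.1 p.2)) ∂(μ.prod ν) ≤
      (b - a) ^ 2 / 2 * ((b - a) * A) := by
    have e1 : ∫ p, ((p.2 - a) * (b - p.2)) * ((R ^ 2 - p.1 ^ 2) * -(Bz2 p.1 p.2)) ∂(μ.prod ν) ≤
        ∫ p, ((p.2 - a) * (b - p.2)) * (2 * B p.1 p.2) ∂(μ.prod ν) := by
      rw [integral_prod_symm _ iz, integral_prod_symm _ iB1]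
      refine integral_mono_ae iz.integral_prod_right iB1.integral_prod_right ?_
      filter_upwards [hmy] with y hy
      have hy0 : 0 < y := lt_of_lt_of_le ha hy.1
      rw [integral_const_mul, integral_const_mul]
      refine mul_le_mul_of_nonneg_left ?_ (mul_nonneg (sub_nonneg.2 hy.1) (sub_nonneg.2 hy.2))
      rw [integral_const_mul]
      have h5 := ibp1 (a := -R) (b := R) (by linarith) (g := fun z => B z y) (g1 := fun z => Bz1 z y)
        (g2 := fun z => Bz2 z y) (fun x _ => D.dz1 x y hy0) (fun x _ => D.dz2 x y hy0) ?_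
        (fun x _ => D.B0 x y hy0)
      · refine le_trans (le_of_eq ?_) h5
        congr 1
        ext z
        ring
      · exact cz.comp (f := fun z : ℝ => (z, y)) (by fun_prop) (fun z hz => ⟨hz, hy⟩)
    have e2 : ∫ p, ((p.2 - a) * (b - p.2)) * (2 * B p.1 p.2) ∂(μ.prod ν) ≤
        ∫ p, (b - a) ^ 2 / 2 * B p.1 p.2 ∂(μ.prod ν) := by
      refine integral_mono_ae iB1 (iB.const_mul _) ?_
      filter_upwards [hmem] with p hp
      have h1 := D.B0 p.1 p.2 (hsub hp)
      have h2 : (p.2 - a) * (b - p.2) ≤ (b - a) ^ 2 / 4 := by nlinarith [sq_nonneg (a + b - 2 * p.2)]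
      nlinarith [mul_le_mul_of_nonneg_right h2 h1]
    refine e1.trans (e2.trans ?_)
    rw [integral_const_mul]
    exact mul_le_mul_of_nonneg_left hBB (by positivity)
  have step3 : ∫ p, (R ^ 2 - p.1 ^ 2) * (((p.2 - a) * (b - p.2)) * -(By2 p.1 p.2)) ∂(μ.prod ν) ≤
      2 * R ^ 2 * ((b - a) * A) := by
    have e1 : ∫ p, (R ^ 2 - p.1 ^ 2) * (((p.2 - a) * (b - p.2)) * -(By2 p.1 p.2)) ∂(μ.prod ν) ≤
        ∫ p, (R ^ 2 - p.1 ^ 2) * (2 * B p.1 p.2) ∂(μ.prod ν) := by
      rw [integral_prod _ iy, integral_prod _ iB2]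
      refine integral_mono_ae iy.integral_prod_left iB2.integral_prod_left ?_
      filter_upwards [hmz] with z hz
      rw [integral_const_mul, integral_const_mul]
      refine mul_le_mul_of_nonneg_left ?_ ?_
      · rw [integral_const_mul]
        exact ibp1 hab.le (g := fun y => B z y) (g1 := fun y => By1 z y)
          (g2 := fun y => By2 z y) (fun y hy => D.dy1 z y (lt_of_lt_of_le ha hy.1))
          (fun y hy => D.dy2 z y (lt_of_lt_of_le ha hy.1))
          (cy.comp (f := fun y : ℝ => (z, y)) (by fun_prop) (fun y hy => ⟨hz, hy⟩))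
          (fun y hy => D.B0 z y (lt_of_lt_of_le ha hy.1))
      · have : |z| ≤ R := abs_le.2 hz
        nlinarith [abs_nonneg z, sq_abs z]
    have e2 : ∫ p, (R ^ 2 - p.1 ^ 2) * (2 * B p.1 p.2) ∂(μ.prod ν) ≤
        ∫ p, 2 * R ^ 2 * B p.1 p.2 ∂(μ.prod ν) := by
      refine integral_mono_ae iB2 (iB.const_mul _) ?_
      filter_upwards [hmem] with p hp
      have h1 := D.B0 p.1 p.2 (hsub hp)
      nlinarith [mul_nonneg (sq_nonneg p.1) h1]
    refine e1.trans (e2.trans ?_)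
    rw [integral_const_mul]
    exact mul_le_mul_of_nonneg_left hBB (by positivity)
  linarith

end Pool.Agent.W755.Gl
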