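import Pool.Agent.W755.GlC

set_option autoImplicit false

open MeasureTheory Filter Topology Set
open scoped ENNReal NNReal

namespace Pool.Agent.W755.Gl

/-- the upper half plane as a set of pairs -/
def UH : Set (ℝ × ℝ) := {p | 0 < p.2}

theorem measurableSet_UH : MeasurableSet UH := measurableSet_lt measurable_const measurable_snd

theorem green {B Bz1 Bz2 By1 By2 m : ℝ → ℝ → ℝ} {A : ℝ} (D : GData B Bz1 Bz2 By1 By2 m A) :
    ∫⁻ p in UH, ENNReal.ofReal (p.2 * m p.1 p.2) ≤ ENNReal.ofReal (3 * A) := by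
  set N : ℕ → ℝ := fun n => (n:ℝ) + 2 with hN
  have hN2 : ∀ n, 2 ≤ N n := fun n => by simp [hN]
  have hNt : Tendsto N atTop atTop := tendsto_atTop_add_const_right _ _ tendsto_natCast_atTop_atTop
  set rect : ℕ → Set (ℝ × ℝ) := fun n => Icc (-(N n ^ 2)) (N n ^ 2) ×ˢ Icc (1 / N n) (N n) with hrect
  have hrm : ∀ n, MeasurableSet (rect n) := fun n => measurableSet_Icc.prod measurableSet_Icc
  set φ : ℕ → ℝ × ℝ → ℝ := fun n p => (1 - p.1 ^ 2 / (N n ^ 2) ^ 2) *
    ((p.2 - 1 / N n) * (N n - p.2) / (N n - 1 / N n)) with hφ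
  set F : ℕ → ℝ × ℝ → ℝ≥0∞ := fun n => (rect n).indicator
    (fun p => ENNReal.ofReal (φ n p * m p.1 p.2)) with hF
  have hcm := D.cm
  have hFm : ∀ n, AEMeasurable (F n) (volume.restrict UH) := by
    intro n
    refine AEMeasurable.indicator ?_ (hrm n)
    refine AEMeasurable.ennreal_ofReal ?_
    refine ContinuousOn.aemeasurable ?_ measurableSet_UH
    refine ContinuousOn.mul ?_ hcm
    exact Continuous.continuousOn (by fun_prop)
  have hsub : ∀ n, rect n ⊆ UH := by
    intro n p hp
    have h1 : 0 < 1 / N n := by have := hN2 n; positivity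
    exact lt_of_lt_of_le h1 hp.2.1
  have hlim : ∀ p ∈ UH, Tendsto (fun n => F n p) atTop (𝓝 (ENNReal.ofReal (p.2 * m p.1 p.2))) := by
    intro p hp
    have hp0 : 0 < p.2 := hp
    have hinv : Tendsto (fun n => 1 / N n) atTop (𝓝 0) := by
      simp only [one_div]
      exact hNt.inv_tendsto_atTop
    have ev1 : ∀ᶠ n in atTop, 1 / N n ≤ p.2 := hinv.eventually_le_const hp0
    have ev2 : ∀ᶠ n in atTop, p.2 ≤ N n := hNt.eventually_ge_atTop _
    have ev3 : ∀ᶠ n in atTop, |p.1| ≤ N n := hNt.eventually_ge_atTop _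
    have hev : ∀ᶠ n in atTop, F n p = ENNReal.ofReal (φ n p * m p.1 p.2) := by
      filter_upwards [ev1, ev2, ev3] with n h1 h2 h3
      rw [hF]
      refine indicator_of_mem ?_ _
      have h4 : N n ≤ N n ^ 2 := by nlinarith [hN2 n]
      exact ⟨abs_le.1 (h3.trans h4), h1, h2⟩
    refine Tendsto.congr' (hev.mono fun n h => h.symm) ?_
    refine (ENNReal.continuous_ofReal.tendsto _).comp ?_
    refine Tendsto.mul_const _ ?_
    have t1 : Tendsto (fun n => 1 - p.1 ^ 2 / (N n ^ 2) ^ 2) atTop (𝓝 (1 - 0)) := by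
      refine Tendsto.const_sub _ ?_
      refine Tendsto.div_atTop tendsto_const_nhds ?_
      have : Tendsto (fun x : ℝ => (x ^ 2) ^ 2) atTop atTop :=
        (tendsto_pow_atTop (by norm_num)).comp (tendsto_pow_atTop (by norm_num))
      exact this.comp hNt
    have t2 : Tendsto (fun n => (p.2 - 1 / N n) * (N n - p.2) / (N n - 1 / N n)) atTop
        (𝓝 ((p.2 - 0) * (1 - p.2 * 0) / (1 - 0 * 0))) := by
      have e : ∀ n, (p.2 - 1 / N n) * (N n - p.2) / (N n - 1 / N n) =
          (p.2 - 1 / N n) * (1 - p.2 * (1 / N n)) / (1 - (1 / N n) * (1 / N n)) := by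
        intro n
        have h1 := hN2 n
        have h2 : N n ≠ 0 := by positivity
        have h3 : (0:ℝ) < N n - 1 / N n := by
          have : 1 / N n ≤ 1 / 2 := by gcongr
          linarith
        have h4 : (0:ℝ) < 1 - (1 / N n) * (1 / N n) := by
          have : 1 / N n ≤ 1 / 2 := by gcongr
          have : 0 < 1 / N n := by positivity
          nlinarith
        rw [div_eq_div_iff h3.ne' h4.ne']
        field_simp
      simp only [e]
      refine Tendsto.div ?_ ?_ (by norm_num)
      · exact (tendsto_const_nhds.sub hinv).mul (tendsto_const_nhds.sub (hinv.const_mul _))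
      · exact tendsto_const_nhds.sub (hinv.mul hinv)
    have t3 := t1.mul t2
    have e5 : (1 - 0) * ((p.2 - 0) * (1 - p.2 * 0) / (1 - 0 * 0)) = p.2 := by ring
    rw [e5] at t3
    exact t3
  have hint : ∀ n, ∫⁻ p in UH, F n p ≤ ENNReal.ofReal (3 * A) := by
    intro n
    have hn := hN2 n
    set a : ℝ := 1 / N n with ha
    set b : ℝ := N n with hb
    set R : ℝ := N n ^ 2 with hR
    have hb0 : 0 < b := by linarith
    have ha0 : 0 < a := by positivity
    have ha2 : a ≤ 1 / 2 := by rw [ha]; gcongr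
    have hab : a < b := by linarith
    have hR0 : 0 < R := by positivity
    have hg := greenRect D ha0 hab hR0
    have e1 : ∫⁻ p in UH, F n p = ∫⁻ p in rect n, ENNReal.ofReal (φ n p * m p.1 p.2) := by
      rw [hF]
      simp only
      rw [lintegral_indicator (hrm n), Measure.restrict_restrict (hrm n),
        inter_eq_self_of_subset_left (hsub n)]
    have e2 : (volume.restrict (rect n) : Measure (ℝ × ℝ)) =
        (volume.restrict (Icc (-R) R)).prod (volume.restrict (Icc a b)) := by
      rw [Measure.prod_restrict]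
      rfl
    have hcr : ContinuousOn (fun p : ℝ × ℝ => m p.1 p.2) (Icc (-R) R ×ˢ Icc a b) :=
      hcm.mono (hsub n)
    have hI : Integrable (fun p : ℝ × ℝ => φ n p * m p.1 p.2)
        ((volume.restrict (Icc (-R) R)).prod (volume.restrict (Icc a b))) := by
      refine int_rect (ContinuousOn.mul ?_ hcr)
      exact Continuous.continuousOn (by fun_prop)
    have hnn : 0 ≤ᵐ[(volume.restrict (Icc (-R) R)).prod (volume.restrict (Icc a b))]
        fun p : ℝ × ℝ => φ n p * m p.1 p.2 := by
      rw [Measure.prod_restrict]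
      refine (ae_restrict_iff' (measurableSet_Icc.prod measurableSet_Icc)).2
        (Eventually.of_forall fun p hp => ?_)
      have h1 : p.1 ^ 2 ≤ R ^ 2 := by
        have : |p.1| ≤ R := abs_le.2 hp.1
        rw [← sq_abs p.1]
        exact pow_le_pow_left₀ (abs_nonneg _) this 2
      have h2 : 0 ≤ 1 - p.1 ^ 2 / R ^ 2 := by
        rw [sub_nonneg, div_le_one (by positivity)]
        exact h1
      have h3 : 0 ≤ (p.2 - a) * (b - p.2) / (b - a) :=
        div_nonneg (mul_nonneg (sub_nonneg.2 hp.2.1) (sub_nonneg.2 hp.2.2)) (sub_nonneg.2 hab.le)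
      exact mul_nonneg (mul_nonneg h2 h3) (D.m0 p.1 p.2 (hsub n hp))
    rw [e1, e2, ← ofReal_integral_eq_lintegral_ofReal hI hnn]
    refine ENNReal.ofReal_le_ofReal ?_
    have hba : 0 < b - a := sub_pos.2 hab
    have e3 : ∫ p, φ n p * m p.1 p.2 ∂((volume.restrict (Icc (-R) R)).prod (volume.restrict (Icc a b))) =
        (1 / (R ^ 2 * (b - a))) * ∫ p, ((R ^ 2 - p.1 ^ 2) * ((p.2 - a) * (b - p.2))) * m p.1 p.2
      ∂((volume.restrict (Icc (-R) R)).prod (volume.restrict (Icc a b))) := by
      rw [← integral_const_mul]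
      congr 1
      ext p
      simp only [hφ]
      rw [← ha, ← hb, ← hR]
      field_simp
    rw [e3]
    calc _ ≤ (1 / (R ^ 2 * (b - a))) * ((2 * R ^ 2 + (b - a) ^ 2 / 2) * ((b - a) * A)) :=
          mul_le_mul_of_nonneg_left hg (by positivity)
      _ = (2 + (b - a) ^ 2 / (2 * R ^ 2)) * A := by field_simp
      _ ≤ 3 * A := by
          refine mul_le_mul_of_nonneg_right ?_ D.A0
          have : (b - a) ^ 2 / (2 * R ^ 2) ≤ 1 := by
            rw [div_le_one (by positivity)]
            have h1 : (b - a) ^ 2 ≤ b ^ 2 := pow_le_pow_left₀ hba.le (by linarith) 2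
            have h2 : b ^ 2 = R := rfl
            have h3 : 1 ≤ R := by rw [← h2]; nlinarith
            nlinarith
          linarith
  calc ∫⁻ p in UH, ENNReal.ofReal (p.2 * m p.1 p.2) = ∫⁻ p in UH, liminf (fun n => F n p) atTop := by
        refine setLIntegral_congr_fun measurableSet_UH fun p hp => ?_
        exact (hlim p hp).liminf_eq.symm
    _ ≤ liminf (fun n => ∫⁻ p in UH, F n p) atTop := lintegral_liminf_le' hFm
    _ ≤ ENNReal.ofReal (3 * A) := by
        refine liminf_le_of_le ⟨0, Eventually.of_forall fun _ => bot_le⟩ ?_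
        intro c hc
        obtain ⟨n, hn⟩ := hc.exists
        exact hn.trans (hint n)

end Pool.Agent.W755.Gl
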