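import Pool.Agent.W755.GlD

set_option autoImplicit false

open MeasureTheory Filter Topology Set
open scoped ENNReal NNReal

namespace Pool.Agent.W755.Gl

/-! ### harmonic functions as imaginary parts -/

/-- the upper half plane in `ℂ` -/
def HP : Set ℂ := {ζ | 0 < ζ.im}

theorem isOpen_HP : IsOpen HP := isOpen_lt continuous_const Complex.continuous_im

noncomputable def hI (Φ : ℂ → ℂ) (z y : ℝ) : ℝ := (Φ ⟨z, y⟩).im / Real.pi

noncomputable def hR (Φ : ℂ → ℂ) (z y : ℝ) : ℝ := (Φ ⟨z, y⟩).re / Real.pi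

theorem mk_eq (z y : ℝ) : (⟨z, y⟩ : ℂ) = (z:ℂ) + y * Complex.I := by
  apply Complex.ext <;> simp

theorem path_z (z y : ℝ) : HasDerivAt (fun s : ℝ => (⟨s, y⟩ : ℂ)) 1 z := by
  simp only [mk_eq]
  exact ((hasDerivAt_id z).ofReal_comp).add_const _

theorem path_y (z y : ℝ) : HasDerivAt (fun s : ℝ => (⟨z, s⟩ : ℂ)) Complex.I y := by
  simp only [mk_eq]
  have := (((hasDerivAt_id y).ofReal_comp).mul_const Complex.I).const_add (z:ℂ)
  simpa using this

section

variable {Φ : ℂ → ℂ} (h : DifferentiableOn ℂ Φ HP) {z y : ℝ} (hy : 0 < y)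
include h

include hy in
theorem dAt : HasDerivAt Φ (deriv Φ ⟨z, y⟩) ⟨z, y⟩ :=
  (h.differentiableAt (isOpen_HP.mem_nhds hy)).hasDerivAt

include hy in
theorem path1 : HasDerivAt (fun s : ℝ => Φ ⟨s, y⟩) (deriv Φ ⟨z, y⟩) z := by
  have h1 : HasDerivAt (fun s : ℝ => Φ ⟨s, y⟩) ((1:ℂ) • deriv Φ ⟨z, y⟩) z :=
    (dAt h (z := z) hy).scomp z (path_z z y)
  exact h1.congr_deriv (one_smul _ _)

include hy in
theorem path2 : HasDerivAt (fun s : ℝ => Φ ⟨z, s⟩) (Complex.I * deriv Φ ⟨z, y⟩) y := by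
  have h1 : HasDerivAt (fun s : ℝ => Φ ⟨z, s⟩) (Complex.I • deriv Φ ⟨z, y⟩) y :=
    (dAt h (z := z) hy).scomp y (path_y z y)
  exact h1

include hy in
theorem hI_z : HasDerivAt (fun s => hI Φ s y) (hI (deriv Φ) z y) z := by
  unfold hI
  exact (Complex.imCLM.hasFDerivAt.comp_hasDerivAt z (path1 h hy)).div_const _

include hy in
theorem hI_y : HasDerivAt (fun s => hI Φ z s) (hR (deriv Φ) z y) y := by
  unfold hI hR
  refine ((Complex.imCLM.hasFDerivAt.comp_hasDerivAt y (path2 h (z := z) hy)).div_const Real.pi).congr_deriv ?_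
  simp

include hy in
theorem hR_y : HasDerivAt (fun s => hR Φ z s) (-(hI (deriv Φ) z y)) y := by
  unfold hI hR
  refine ((Complex.reCLM.hasFDerivAt.comp_hasDerivAt y (path2 h (z := z) hy)).div_const Real.pi).congr_deriv ?_
  simp [neg_div]

theorem diff_deriv : DifferentiableOn ℂ (deriv Φ) HP := h.deriv isOpen_HP

theorem cont_hI : ContinuousOn (fun p : ℝ × ℝ => hI Φ p.1 p.2) {p | 0 < p.2} := by
  unfold hI
  have h1 : ContinuousOn (fun p : ℝ × ℝ => Φ ⟨p.1, p.2⟩) {p | 0 < p.2} := by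
    refine h.continuousOn.comp (f := fun p : ℝ × ℝ => (⟨p.1, p.2⟩ : ℂ)) ?_ (fun p hp => hp)
    simp only [mk_eq]
    fun_prop
  exact (Complex.continuous_im.comp_continuousOn h1).div_const _

theorem cont_hR : ContinuousOn (fun p : ℝ × ℝ => hR Φ p.1 p.2) {p | 0 < p.2} := by
  unfold hR
  have h1 : ContinuousOn (fun p : ℝ × ℝ => Φ ⟨p.1, p.2⟩) {p | 0 < p.2} := by
    refine h.continuousOn.comp (f := fun p : ℝ × ℝ => (⟨p.1, p.2⟩ : ℂ)) ?_ (fun p hp => hp)
    simp only [mk_eq]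
    fun_prop
  exact (Complex.continuous_re.comp_continuousOn h1).div_const _

end

theorem diff_CF {f : ℝ → ℝ} (hf : Integrable (fun t => f t / (1 + t ^ 2))) :
    DifferentiableOn ℂ (CF f) HP := fun _ hζ => (hasDerivAt_CF hf hζ).differentiableAt.differentiableWithinAt

theorem deriv_CF {f : ℝ → ℝ} (hf : Integrable (fun t => f t / (1 + t ^ 2))) {ζ : ℂ} (h : 0 < ζ.im) :
    deriv (CF f) ζ = CF1 f ζ := (hasDerivAt_CF hf h).deriv

/-! ### Poisson kernel -/

/-- Poisson kernel -/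
noncomputable def pk (x y : ℝ) : ℝ := y / (Real.pi * (x ^ 2 + y ^ 2))

theorem pk_pos {x y : ℝ} (hy : 0 < y) : 0 < pk x y := by
  unfold pk
  have := Real.pi_pos
  positivity

theorem Gk_im (z y t : ℝ) (hy : 0 < y) : (Gk ⟨z, y⟩ t).im / Real.pi = (1 + t ^ 2) * pk (t - z) y := by
  unfold Gk pk
  have e : (1 + (t:ℂ) ^ 2) = ((1 + t ^ 2 : ℝ) : ℂ) := by push_cast; ring
  rw [e, Complex.sub_im, Complex.ofReal_im, sub_zero, Complex.div_im]
  simp only [Complex.ofReal_im, Complex.ofReal_re, Complex.sub_re, Complex.sub_im,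
    Complex.normSq_apply]
  have h1 : 0 < (t - z) ^ 2 + y ^ 2 := by positivity
  have h2 : (t - z) * (t - z) + (0 - y) * (0 - y) = (t - z) ^ 2 + y ^ 2 := by ring
  rw [h2]
  have := Real.pi_ne_zero
  field_simp
  ring

section

variable {f : ℝ → ℝ} (hf : Integrable (fun t => f t / (1 + t ^ 2)))
include hf

theorem int_pk {z y : ℝ} (hy : 0 < y) : Integrable (fun t => f t * pk (t - z) y) := by
  have h1 := ((integrable_Gk hf (ζ := ⟨z, y⟩) hy).im).div_const Real.pi
  refine h1.congr (Eventually.of_forall fun t => ?_)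
  have h2 := Gk_im z y t hy
  have h3 : (RCLike.im (((f t / (1 + t ^ 2) : ℝ) : ℂ) * Gk ⟨z, y⟩ t) : ℝ) / Real.pi =
      (f t / (1 + t ^ 2)) * ((Gk ⟨z, y⟩ t).im / Real.pi) := by
    have : (RCLike.im (((f t / (1 + t ^ 2) : ℝ) : ℂ) * Gk ⟨z, y⟩ t) : ℝ) =
        (f t / (1 + t ^ 2)) * (Gk ⟨z, y⟩ t).im := by
      have := Complex.im_ofReal_mul (f t / (1 + t ^ 2)) (Gk ⟨z, y⟩ t)
      exact this
    rw [this]; ring
  simp only
  rw [h3, h2]
  have : (1 + t ^ 2) ≠ 0 := by positivity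
  field_simp

theorem hI_CF {z y : ℝ} (hy : 0 < y) : hI (CF f) z y = ∫ t, f t * pk (t - z) y := by
  unfold hI CF
  have h0 := integral_im (integrable_Gk hf (ζ := ⟨z, y⟩) hy)
  have h1 : (∫ t, ((f t / (1 + t ^ 2) : ℝ) : ℂ) * Gk ⟨z, y⟩ t).im =
      ∫ t, (((f t / (1 + t ^ 2) : ℝ) : ℂ) * Gk ⟨z, y⟩ t).im := h0.symm
  rw [h1, ← integral_div]
  congr 1
  ext t
  rw [Complex.im_ofReal_mul]
  have h2 := Gk_im z y t hy
  rw [mul_div_assoc, h2]
  have : (1 + t ^ 2) ≠ 0 := by positivity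
  field_simp

end

theorem integral_pk {y : ℝ} (hy : 0 < y) : ∫ x, pk x y = 1 := by
  have h1 : ∀ x : ℝ, pk x y = (1 / Real.pi) * (y⁻¹ * (1 + (y⁻¹ * x) ^ 2)⁻¹) := by
    intro x
    unfold pk
    have := Real.pi_ne_zero
    field_simp
    ring
  simp only [h1]
  rw [integral_const_mul, integral_const_mul]
  have h2 := Measure.integral_comp_mul_left (fun u : ℝ => (1 + u ^ 2)⁻¹) y⁻¹
  rw [h2, integral_univ_inv_one_add_sq, inv_inv, abs_of_pos hy, smul_eq_mul]
  have := Real.pi_ne_zero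
  field_simp

theorem integrable_pk {y : ℝ} (hy : 0 < y) : Integrable (fun x => pk x y) := by
  by_contra h
  have := integral_undef h
  rw [integral_pk hy] at this
  exact one_ne_zero this

theorem measurable_pk : Measurable (fun p : ℝ × ℝ => pk p.1 p.2) := by
  unfold pk
  fun_prop

theorem integral_pk' {z y : ℝ} (hy : 0 < y) : ∫ t, pk (t - z) y = 1 := by
  rw [← integral_pk hy]
  exact integral_sub_right_eq_self (fun x => pk x y) z

theorem integrable_pk' {z y : ℝ} (hy : 0 < y) : Integrable (fun t => pk (t - z) y) :=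
  (integrable_pk hy).comp_sub_right z

/-- the total mass of the Poisson integral -/
theorem lint_hI {F : ℝ → ℝ} (hF0 : ∀ t, 0 ≤ F t) (hFm : Measurable F)
    (hF : Integrable (fun t => F t / (1 + t ^ 2))) {y : ℝ} (hy : 0 < y) :
    ∫⁻ z, ENNReal.ofReal (hI (CF F) z y) = ∫⁻ t, ENNReal.ofReal (F t) := by
  have h1 : ∀ z, ENNReal.ofReal (hI (CF F) z y) =
      ∫⁻ t, ENNReal.ofReal (F t) * ENNReal.ofReal (pk (t - z) y) := by
    intro z
    rw [hI_CF hF hy, ofReal_integral_eq_lintegral_ofReal (int_pk hF hy)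
      (Eventually.of_forall fun t => mul_nonneg (hF0 t) (pk_pos hy).le)]
    refine lintegral_congr fun t => ?_
    rw [ENNReal.ofReal_mul (hF0 t)]
  simp only [h1]
  rw [lintegral_lintegral_swap]
  · refine lintegral_congr fun t => ?_
    rw [lintegral_const_mul _ (by have := measurable_pk; fun_prop)]
    have h2 : ∫⁻ z, ENNReal.ofReal (pk (t - z) y) = 1 := by
      have h3 : Integrable (fun z => pk (t - z) y) := (integrable_pk hy).comp_sub_left t
      rw [← ofReal_integral_eq_lintegral_ofReal h3 (Eventually.of_forall fun z => (pk_pos hy).le)]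
      have h4 : ∫ z, pk (t - z) y = 1 := by
        rw [← integral_pk hy]
        exact integral_sub_left_eq_self (fun x => pk x y) volume t
      rw [h4, ENNReal.ofReal_one]
    rw [h2, mul_one]
  · have hm : Measurable (fun p : ℝ × ℝ => pk (p.2 - p.1) y) := by
      unfold pk
      fun_prop
    exact ((hFm.comp measurable_snd).ennreal_ofReal.mul hm.ennreal_ofReal).aemeasurable

end Pool.Agent.W755.Gl
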