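import Pool.Agent.W755.GlE

set_option autoImplicit false

open MeasureTheory Filter Topology Set
open scoped ENNReal NNReal

namespace Pool.Agent.W755.Gl

theorem integrable_div_of {F : ℝ → ℝ} (hF : Integrable F) :
    Integrable (fun t => F t / (1 + t ^ 2)) := by
  have : (fun t => F t / (1 + t ^ 2)) = fun t => F t * (1 + t ^ 2)⁻¹ := by
    ext t; rw [div_eq_mul_inv]
  rw [this]
  refine hF.mul_bdd (c := 1) (Measurable.aestronglyMeasurable (by fun_prop)) ?_
  refine Eventually.of_forall fun t => ?_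
  rw [Real.norm_eq_abs, abs_of_pos (by positivity)]
  apply inv_le_one_of_one_le₀
  nlinarith [sq_nonneg t]

theorem int3 {a b c : ℝ → ℝ} (ha : Integrable a) (hb : Integrable b) (hc : Integrable c) (s1 s2 : ℝ) :
    ∫ t, (a t - s1 * b t + s2 * c t) = (∫ t, a t) - s1 * (∫ t, b t) + s2 * ∫ t, c t := by
  have h1 : Integrable (fun t => a t - s1 * b t) := ha.sub (hb.const_mul s1)
  rw [integral_add h1 (hc.const_mul s2), integral_sub ha (hb.const_mul s1), integral_const_mul,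
    integral_const_mul]

section

variable {w f : ℝ → ℝ} (hw : Measurable w) (hw0 : ∀ x, 0 ≤ w x) (hpos : ∀ᵐ x, 0 < w x)
  (hwi : Integrable (fun t => w t / (1 + t ^ 2)))
  (hsi : Integrable (fun t => (w t)⁻¹ / (1 + t ^ 2)))
  (hf : Measurable f) (hF : Integrable (fun t => f t ^ 2 * w t))

include hpos in
theorem amgm : ∀ᵐ t, |f t| ≤ (f t ^ 2 * w t + (w t)⁻¹) / 2 := by
  filter_upwards [hpos] with t ht
  have h1 : |f t| * 1 ≤ (f t ^ 2 * w t + (w t)⁻¹) / 2 := by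
    have h2 : (f t ^ 2 * w t + (w t)⁻¹) / 2 - |f t| = ((|f t| * w t - 1) ^ 2) / (2 * w t) := by
      field_simp
      rw [← sq_abs (f t)]
      ring
    have h3 : 0 ≤ ((|f t| * w t - 1) ^ 2) / (2 * w t) := by positivity
    linarith
  linarith

include hpos hsi hf hF in
theorem hfi : Integrable (fun t => f t / (1 + t ^ 2)) := by
  refine Integrable.mono' (((integrable_div_of hF).add hsi).div_const 2)
    (Measurable.aestronglyMeasurable (by fun_prop)) ?_
  filter_upwards [amgm (f := f) hpos] with t ht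
  rw [Real.norm_eq_abs, abs_div, abs_of_pos (by positivity : (0:ℝ) < 1 + t ^ 2)]
  have h1 : 0 < 1 + t ^ 2 := by positivity
  calc |f t| / (1 + t ^ 2) ≤ ((f t ^ 2 * w t + (w t)⁻¹) / 2) / (1 + t ^ 2) := by gcongr
    _ = _ := by simp only [Pi.add_apply]; ring

include hpos hwi hsi in
theorem VW_pos {z y : ℝ} (hy : 0 < y) : 0 < hI (CF w) z y ∧ 0 < hI (CF (fun t => (w t)⁻¹)) z y := by
  constructor
  · rw [hI_CF hwi hy]
    rw [integral_pos_iff_support_of_nonneg_ae]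
    · refine pos_iff_ne_zero.2 fun h0 => ?_
      have h1 : ∀ᵐ t : ℝ, ¬ (0 < w t) := by
        rw [ae_iff]
        refine measure_mono_null ?_ h0
        intro t ht
        simp only [mem_ofPred_eq, not_not] at ht
        exact (mul_pos ht (pk_pos hy)).ne'
      have h2 := hpos.and h1
      have h3 : ∀ᵐ t : ℝ, False := h2.mono fun t ht => ht.2 ht.1
      rw [ae_iff] at h3
      simp at h3
    · filter_upwards [hpos] with t ht
      exact mul_nonneg ht.le (pk_pos hy).le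
    · exact int_pk hwi hy
  · rw [hI_CF hsi hy]
    rw [integral_pos_iff_support_of_nonneg_ae]
    · refine pos_iff_ne_zero.2 fun h0 => ?_
      have h1 : ∀ᵐ t : ℝ, ¬ (0 < w t) := by
        rw [ae_iff]
        refine measure_mono_null ?_ h0
        intro t ht
        simp only [mem_ofPred_eq, not_not] at ht
        exact (mul_pos (inv_pos.2 ht) (pk_pos hy)).ne'
      have h2 := hpos.and h1
      have h3 : ∀ᵐ t : ℝ, False := h2.mono fun t ht => ht.2 ht.1
      rw [ae_iff] at h3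
      simp at h3
    · filter_upwards [hpos] with t ht
      exact mul_nonneg (inv_pos.2 ht).le (pk_pos hy).le
    · exact int_pk hsi hy

include hpos hwi hsi in
theorem one_le_VW {z y : ℝ} (hy : 0 < y) :
    1 ≤ hI (CF (fun t => (w t)⁻¹)) z y * hI (CF w) z y := by
  obtain ⟨hW, hV⟩ := VW_pos hpos hwi hsi (z := z) hy
  set W := hI (CF w) z y with hWd
  set V := hI (CF (fun t => (w t)⁻¹)) z y with hVd
  have h1 : 0 ≤ W - 2 * V⁻¹ + (V⁻¹) ^ 2 * V := by
    have e : W - 2 * V⁻¹ + (V⁻¹) ^ 2 * V =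
        ∫ t, (w t * pk (t - z) y - 2 * V⁻¹ * pk (t - z) y + (V⁻¹) ^ 2 * ((w t)⁻¹ * pk (t - z) y)) := by
      rw [int3 (int_pk hwi hy) (integrable_pk' hy) (int_pk hsi hy),
        integral_pk' hy, ← hI_CF hwi hy, ← hI_CF hsi hy]
      ring
    rw [e]
    refine integral_nonneg_of_ae ?_
    filter_upwards [hpos] with t ht
    have h2 : w t * pk (t - z) y - 2 * V⁻¹ * pk (t - z) y + (V⁻¹) ^ 2 * ((w t)⁻¹ * pk (t - z) y) =
        (w t)⁻¹ * (w t - V⁻¹) ^ 2 * pk (t - z) y := by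
      field_simp
      ring
    rw [h2]
    have := pk_pos (x := t - z) hy
    simp only [Pi.zero_apply]
    positivity
  have h3 : (V⁻¹) ^ 2 * V = V⁻¹ := by field_simp
  rw [h3] at h1
  have h4 : V⁻¹ ≤ W := by linarith
  calc 1 = V * V⁻¹ := (mul_inv_cancel₀ hV.ne').symm
    _ ≤ V * W := mul_le_mul_of_nonneg_left h4 hV.le

include hpos hwi hsi hf hF in
theorem usq_le {z y : ℝ} (hy : 0 < y) :
    hI (CF f) z y ^ 2 / hI (CF (fun t => (w t)⁻¹)) z y ≤ hI (CF (fun t => f t ^ 2 * w t)) z y := by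
  obtain ⟨hW, hV⟩ := VW_pos hpos hwi hsi (z := z) hy
  have hfi' := hfi hpos hsi hf hF
  have hF' := integrable_div_of hF
  set V := hI (CF (fun t => (w t)⁻¹)) z y with hVd
  set X := hI (CF (fun t => f t ^ 2 * w t)) z y with hXd
  set u := hI (CF f) z y with hud
  set s := u / V with hs
  have h1 : 0 ≤ X - 2 * s * u + s ^ 2 * V := by
    have e : X - 2 * s * u + s ^ 2 * V =
        ∫ t, ((f t ^ 2 * w t) * pk (t - z) y - 2 * s * (f t * pk (t - z) y) +
          s ^ 2 * ((w t)⁻¹ * pk (t - z) y)) := by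
      rw [int3 (int_pk hF' hy) (int_pk hfi' hy) (int_pk hsi hy),
        ← hI_CF hF' hy, ← hI_CF hfi' hy, ← hI_CF hsi hy]
    rw [e]
    refine integral_nonneg_of_ae ?_
    filter_upwards [hpos] with t ht
    have h2 : (f t ^ 2 * w t) * pk (t - z) y - 2 * s * (f t * pk (t - z) y) +
          s ^ 2 * ((w t)⁻¹ * pk (t - z) y) = (w t)⁻¹ * (f t * w t - s) ^ 2 * pk (t - z) y := by
      field_simp
      ring
    rw [h2]
    have := pk_pos (x := t - z) hy
    simp only [Pi.zero_apply]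
    positivity
  have h3 : X - 2 * s * u + s ^ 2 * V = X - u ^ 2 / V := by
    rw [hs]; field_simp; ring
  rw [h3] at h1
  linarith

/-- squared gradient -/
noncomputable def gsq (f : ℝ → ℝ) (z y : ℝ) : ℝ :=
  hI (deriv (CF f)) z y ^ 2 + hR (deriv (CF f)) z y ^ 2

include hw hw0 hpos hwi hsi hf hF in
theorem gdata {Q : ℝ} (hQ : ∀ z y, 0 < y → hI (CF (fun t => (w t)⁻¹)) z y * hI (CF w) z y ≤ Q) :
    ∃ B Bz1 Bz2 By1 By2 : ℝ → ℝ → ℝ, GData B Bz1 Bz2 By1 By2
      (fun z y => hI (CF w) z y / (22 * Q ^ 3) * gsq f z y) (∫ t, f t ^ 2 * w t) := by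
  have hfi' := hfi hpos hsi hf hF
  have hF' := integrable_div_of hF
  have hQ1 : 1 ≤ Q := (one_le_VW hpos hwi hsi (z := 0) one_pos).trans (hQ 0 1 one_pos)
  set ΦX := CF (fun t => f t ^ 2 * w t) with hΦX
  set Φu := CF f with hΦu
  set ΦV := CF (fun t => (w t)⁻¹) with hΦV
  set ΦW := CF w with hΦW
  have dX : DifferentiableOn ℂ ΦX HP := diff_CF hF'
  have du : DifferentiableOn ℂ Φu HP := diff_CF hfi'
  have dV : DifferentiableOn ℂ ΦV HP := diff_CF hsi
  have dW : DifferentiableOn ℂ ΦW HP := diff_CF hwi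
  have dX1 := diff_deriv dX
  have du1 := diff_deriv du
  have dV1 := diff_deriv dV
  have dW1 := diff_deriv dW
  have dX2 := diff_deriv dX1
  have du2 := diff_deriv du1
  have dV2 := diff_deriv dV1
  have dW2 := diff_deriv dW1
  have hW0 : ∀ z y, 0 < y → 0 < hI ΦW z y := fun z y hy => (VW_pos hpos hwi hsi hy).1
  have hV0 : ∀ z y, 0 < y → 0 < hI ΦV z y := fun z y hy => (VW_pos hpos hwi hsi hy).2
  have h1VW : ∀ z y, 0 < y → 1 ≤ hI ΦV z y * hI ΦW z y := fun z y hy => one_le_VW hpos hwi hsi hy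
  have hDV : ∀ z y, 0 < y → hI ΦV z y ≤ Dd (hI ΦV z y) (hI ΦW z y) := by
    intro z y hy
    unfold Dd
    have hv := hV0 z y hy
    have hw' := hW0 z y hy
    have h1 := h1VW z y hy
    have : 1 / (hI ΦV z y * hI ΦW z y ^ 2) ≤ hI ΦV z y := by
      rw [div_le_iff₀ (by positivity)]
      nlinarith [mul_pos hv hw']
    linarith
  have hD0 : ∀ z y, 0 < y → 0 < Dd (hI ΦV z y) (hI ΦW z y) :=
    fun z y hy => lt_of_lt_of_le (hV0 z y hy) (hDV z y hy)
  refine ⟨fun z y => Bb (hI ΦX z y) (hI Φu z y) (hI ΦV z y) (hI ΦW z y),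
    fun z y => Bb1 (hI Φu z y) (hI ΦV z y) (hI ΦW z y) (hI (deriv ΦX) z y) (hI (deriv Φu) z y)
      (hI (deriv ΦV) z y) (hI (deriv ΦW) z y),
    fun z y => Bb2 (hI Φu z y) (hI ΦV z y) (hI ΦW z y) (hI (deriv Φu) z y)
      (hI (deriv ΦV) z y) (hI (deriv ΦW) z y) (hI (deriv (deriv ΦX)) z y)
      (hI (deriv (deriv Φu)) z y) (hI (deriv (deriv ΦV)) z y) (hI (deriv (deriv ΦW)) z y),
    fun z y => Bb1 (hI Φu z y) (hI ΦV z y) (hI ΦW z y) (hR (deriv ΦX) z y) (hR (deriv Φu) z y)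
      (hR (deriv ΦV) z y) (hR (deriv ΦW) z y),
    fun z y => Bb2 (hI Φu z y) (hI ΦV z y) (hI ΦW z y) (hR (deriv Φu) z y)
      (hR (deriv ΦV) z y) (hR (deriv ΦW) z y) (-hI (deriv (deriv ΦX)) z y)
      (-hI (deriv (deriv Φu)) z y) (-hI (deriv (deriv ΦV)) z y) (-hI (deriv (deriv ΦW)) z y), ?_⟩
  have cX := cont_hI dX
  have cu := cont_hI du
  have cV := cont_hI dV
  have cW := cont_hI dW
  have cu1 := cont_hI du1
  have cV1 := cont_hI dV1
  have cW1 := cont_hI dW1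
  have ru1 := cont_hR du1
  have rV1 := cont_hR dV1
  have rW1 := cont_hR dW1
  have cX2 := cont_hI dX2
  have cu2 := cont_hI du2
  have cV2 := cont_hI dV2
  have cW2 := cont_hI dW2
  have nV : ∀ p ∈ {p : ℝ × ℝ | 0 < p.2}, hI ΦV p.1 p.2 ≠ 0 := fun p hp => (hV0 p.1 p.2 hp).ne'
  have nW : ∀ p ∈ {p : ℝ × ℝ | 0 < p.2}, hI ΦW p.1 p.2 ≠ 0 := fun p hp => (hW0 p.1 p.2 hp).ne'
  have nD : ∀ p ∈ {p : ℝ × ℝ | 0 < p.2}, Dd (hI ΦV p.1 p.2) (hI ΦW p.1 p.2) ≠ 0 :=
    fun p hp => (hD0 p.1 p.2 hp).ne'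
  have cD : ContinuousOn (fun p : ℝ × ℝ => Dd (hI ΦV p.1 p.2) (hI ΦW p.1 p.2)) {p | 0 < p.2} := by
    unfold Dd
    refine (cV.const_mul 2 |>.sub (continuousOn_const.div (cV.mul (cW.pow 2)) ?_))
    intro p hp
    exact mul_ne_zero (nV p hp) (pow_ne_zero _ (nW p hp))
  have gD2 : ∀ a b c d : ℝ × ℝ → ℝ, ContinuousOn a {p | 0 < p.2} → ContinuousOn b {p | 0 < p.2} →
      ContinuousOn c {p | 0 < p.2} → ContinuousOn d {p | 0 < p.2} →
      ContinuousOn (fun p : ℝ × ℝ => Dd2 (hI ΦV p.1 p.2) (hI ΦW p.1 p.2) (a p) (b p) (c p) (d p))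
        {p | 0 < p.2} := by
    intro a b c d ha hb hc hd
    unfold Dd2
    refine ((hc.const_mul 2).add (((hc.div ((cV.pow 2).mul (cW.pow 2)) ?_).sub
      (((ha.pow 2).const_mul 2).div ((cV.pow 3).mul (cW.pow 2)) ?_)).sub
      (((ha.const_mul 2).mul hb).div ((cV.pow 2).mul (cW.pow 3)) ?_))).add
      ((((hd.const_mul 2).div (cV.mul (cW.pow 3)) ?_).sub
      (((hb.const_mul 2).mul ha).div ((cV.pow 2).mul (cW.pow 3)) ?_)).sub
      (((hb.pow 2).const_mul 6).div (cV.mul (cW.pow 4)) ?_))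
    all_goals
      intro p hp
      have h1 := nV p hp
      have h2 := nW p hp
      first
        | exact mul_ne_zero (pow_ne_zero _ h1) (pow_ne_zero _ h2)
        | exact mul_ne_zero h1 (pow_ne_zero _ h2)
  have gD1 : ∀ a b : ℝ × ℝ → ℝ, ContinuousOn a {p | 0 < p.2} → ContinuousOn b {p | 0 < p.2} →
      ContinuousOn (fun p : ℝ × ℝ => Dd1 (hI ΦV p.1 p.2) (hI ΦW p.1 p.2) (a p) (b p))
        {p | 0 < p.2} := by
    intro a b ha hb
    unfold Dd1
    refine ((ha.const_mul 2).add (ha.div ((cV.pow 2).mul (cW.pow 2)) ?_)).add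
      ((hb.const_mul 2).div (cV.mul (cW.pow 3)) ?_)
    all_goals
      intro p hp
      have h1 := nV p hp
      have h2 := nW p hp
      first
        | exact mul_ne_zero (pow_ne_zero _ h1) (pow_ne_zero _ h2)
        | exact mul_ne_zero h1 (pow_ne_zero _ h2)
  have gB2 : ∀ e a b x g c d : ℝ × ℝ → ℝ, ContinuousOn e {p | 0 < p.2} →
      ContinuousOn a {p | 0 < p.2} → ContinuousOn b {p | 0 < p.2} → ContinuousOn x {p | 0 < p.2} →
      ContinuousOn g {p | 0 < p.2} → ContinuousOn c {p | 0 < p.2} → ContinuousOn d {p | 0 < p.2} →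
      ContinuousOn (fun p : ℝ × ℝ => Bb2 (hI Φu p.1 p.2) (hI ΦV p.1 p.2) (hI ΦW p.1 p.2) (e p) (a p)
        (b p) (x p) (g p) (c p) (d p)) {p | 0 < p.2} := by
    intro e a b x g c d he ha hb hx hg hc hd
    unfold Bb2
    refine ((hx.sub (((cu.const_mul 2).mul hg).div cD nD)).add
      (((cu.pow 2).mul (gD2 a b c d ha hb hc hd)).div (cD.pow 2) ?_)).sub
      ((continuousOn_const.div cD nD).mul ((he.sub ((cu.mul (gD1 a b ha hb)).div cD nD)).pow 2))
    intro p hp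
    exact pow_ne_zero _ (nD p hp)
  refine ⟨?_, ?_, ?_, ?_, ?_, ?_, ?_, ?_, ?_, ?_, ?_, ?_, ?_⟩
  · exact integral_nonneg fun t => mul_nonneg (sq_nonneg _) (hw0 t)
  · intro z y hy
    exact hasDerivAt_Bb (hI_z dX hy) (hI_z du hy) (hI_z dV hy) (hI_z dW hy) (hV0 z y hy) (hW0 z y hy)
      (hD0 z y hy)
  · intro z y hy
    exact hasDerivAt_Bb1 (u1 := fun s => hI (deriv Φu) s y) (V1 := fun s => hI (deriv ΦV) s y)
      (W1 := fun s => hI (deriv ΦW) s y) (X1 := fun s => hI (deriv ΦX) s y)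
      (hI_z du hy) (hI_z dV hy) (hI_z dW hy) (hI_z dX1 hy) (hI_z du1 hy)
      (hI_z dV1 hy) (hI_z dW1 hy) (hV0 z y hy) (hW0 z y hy) (hD0 z y hy)
  · intro z y hy
    exact hasDerivAt_Bb (hI_y dX hy) (hI_y du hy) (hI_y dV hy) (hI_y dW hy) (hV0 z y hy) (hW0 z y hy)
      (hD0 z y hy)
  · intro z y hy
    exact hasDerivAt_Bb1 (u1 := fun s => hR (deriv Φu) z s) (V1 := fun s => hR (deriv ΦV) z s)
      (W1 := fun s => hR (deriv ΦW) z s) (X1 := fun s => hR (deriv ΦX) z s)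
      (hI_y du hy) (hI_y dV hy) (hI_y dW hy) (hR_y dX1 hy) (hR_y du1 hy)
      (hR_y dV1 hy) (hR_y dW1 hy) (hV0 z y hy) (hW0 z y hy) (hD0 z y hy)
  · unfold Bb
    exact cX.sub ((cu.pow 2).div cD nD)
  · exact gB2 _ _ _ _ _ _ _ cu1 cV1 cW1 cX2 cu2 cV2 cW2
  · exact gB2 _ _ _ _ _ _ _ ru1 rV1 rW1 cX2.neg cu2.neg cV2.neg cW2.neg
  · unfold gsq
    exact (cW.div_const _).mul ((cu1.pow 2).add (ru1.pow 2))
  · intro z y hy
    unfold Bb
    have h1 := usq_le hpos hwi hsi hf hF (z := z) hy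
    have h2 : hI Φu z y ^ 2 / Dd (hI ΦV z y) (hI ΦW z y) ≤ hI Φu z y ^ 2 / hI ΦV z y := by
      have := hV0 z y hy
      gcongr
      exact hDV z y hy
    linarith
  · intro z y hy
    unfold gsq
    have := hW0 z y hy
    positivity
  · intro z y hy
    unfold gsq
    exact lap_bound (hV0 z y hy) (hW0 z y hy) (h1VW z y hy) (hQ z y hy) (by ring) (by ring)
      (by ring) (by ring)
  · intro y hy
    have h1 : ∀ z, ENNReal.ofReal (Bb (hI ΦX z y) (hI Φu z y) (hI ΦV z y) (hI ΦW z y)) ≤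
        ENNReal.ofReal (hI ΦX z y) := by
      intro z
      refine ENNReal.ofReal_le_ofReal ?_
      unfold Bb
      have h2 : 0 ≤ hI Φu z y ^ 2 / Dd (hI ΦV z y) (hI ΦW z y) :=
        div_nonneg (sq_nonneg _) (hD0 z y hy).le
      linarith
    refine (lintegral_mono h1).trans ?_
    rw [hΦX, lint_hI (F := fun t => f t ^ 2 * w t) (fun t => mul_nonneg (sq_nonneg _) (hw0 t)) (by fun_prop) hF' hy,
      ← ofReal_integral_eq_lintegral_ofReal hF
        (Eventually.of_forall fun t => mul_nonneg (sq_nonneg _) (hw0 t))]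

end

end Pool.Agent.W755.Gl
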