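import Pool.Agent.W755.GlF
import Pool.Agent.W755.MzMuck

set_option autoImplicit false

open MeasureTheory Filter Topology Set
open scoped ENNReal NNReal

namespace Pool.Agent.W755.Gl

open Pool.Agent.W755.Mz

/-- the `A_2` condition with constant `K` -/
def A2C (w : ℝ → ℝ) (K : ℝ≥0) : Prop := ∀ a b : ℝ, a < b →
  (∫⁻ x in Ioo a b, ENNReal.ofReal (w x)) * (∫⁻ x in Ioo a b, ENNReal.ofReal ((w x)⁻¹)) ≤
    K * ENNReal.ofReal (b - a) ^ 2

theorem A2C.symm {w : ℝ → ℝ} {K : ℝ≥0} (h : A2C w K) : A2C (fun x => (w x)⁻¹) K := by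
  intro a b hab
  have := h a b hab
  simp only [inv_inv]
  rwa [mul_comm]

theorem A2C.apc {w : ℝ → ℝ} {K : ℝ≥0} (h : A2C w K) (hpos : ∀ᵐ x, 0 < w x) : ApC 2 w K := by
  intro a b hab
  have h1 := h a b hab
  have e1 : (2:ℝ) - 1 = 1 := by norm_num
  rw [e1, ENNReal.rpow_one]
  have e2 : ∫⁻ x in Ioo a b, ENNReal.ofReal (w x) ^ (-(1 / (1:ℝ))) =
      ∫⁻ x in Ioo a b, ENNReal.ofReal ((w x)⁻¹) := by
    refine lintegral_congr_ae (ae_restrict_of_ae ?_)
    filter_upwards [hpos] with x hx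
    rw [div_one, ENNReal.rpow_neg_one, ENNReal.ofReal_inv_of_pos hx]
  rw [e2]
  have hρ0 : ENNReal.ofReal (b - a) ≠ 0 := (ENNReal.ofReal_pos.2 (sub_pos.2 hab)).ne'
  calc _ = (ENNReal.ofReal (b - a))⁻¹ * (ENNReal.ofReal (b - a))⁻¹ *
        ((∫⁻ x in Ioo a b, ENNReal.ofReal (w x)) * (∫⁻ x in Ioo a b, ENNReal.ofReal ((w x)⁻¹))) := by
          ring
    _ ≤ (ENNReal.ofReal (b - a))⁻¹ * (ENNReal.ofReal (b - a))⁻¹ *
        (K * ENNReal.ofReal (b - a) ^ 2) := by gcongr
    _ = K * ((ENNReal.ofReal (b - a))⁻¹ * ENNReal.ofReal (b - a)) *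
        ((ENNReal.ofReal (b - a))⁻¹ * ENNReal.ofReal (b - a)) := by ring
    _ = K := by rw [ENNReal.inv_mul_cancel hρ0 ENNReal.ofReal_ne_top]; ring

/-- the constant of Muckenhoupt's theorem for `p = 2` -/
noncomputable def M2 (K : ℝ≥0) : ℝ≥0∞ := (K : ℝ≥0∞) ^ ((2:ℝ) / (2 - 1)) * (Cq (2 / (2 - 1)) * Cq 2)

theorem M2_ne_top (K : ℝ≥0) : M2 K ≠ ⊤ := by
  unfold M2
  refine ENNReal.mul_ne_top ?_ (ENNReal.mul_ne_top (Cq_ne_top _) (Cq_ne_top _))
  exact (ENNReal.rpow_lt_top_of_nonneg (by norm_num) ENNReal.coe_ne_top).ne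

theorem Mm_low {z y x : ℝ} (hy : 0 < y) :
    ENNReal.ofReal (y / (2 * (y + |x - z|))) ≤
      Mm volume ((Ioo (z - y / 2) (z + y / 2)).indicator (fun _ => 1)) x := by
  set r := y + |x - z| with hr
  have hr0 : 0 < r := by positivity
  have hx : z - r < x ∧ x < z + r := by
    have := abs_le.1 (le_refl |x - z|)
    constructor <;> linarith [this.1, this.2]
  have h1 := Mm_ge volume ((Ioo (z - y / 2) (z + y / 2)).indicator (fun _ => (1:ℝ≥0∞))) hx
  refine le_trans (le_of_eq ?_) h1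
  rw [lintegral_indicator measurableSet_Ioo, Measure.restrict_restrict measurableSet_Ioo]
  have hsub : Ioo (z - y / 2) (z + y / 2) ⊆ Ioo (z - r) (z + r) := by
    apply Ioo_subset_Ioo <;> linarith [abs_nonneg (x - z)]
  rw [inter_eq_self_of_subset_left hsub, lintegral_one, Measure.restrict_apply_univ, Real.volume_Ioo,
    Real.volume_Ioo]
  have e1 : z + r - (z - r) = 2 * r := by ring
  have e2 : z + y / 2 - (z - y / 2) = y := by ring
  rw [e1, e2, ← ENNReal.ofReal_inv_of_pos (by positivity), ← ENNReal.ofReal_mul (by positivity)]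
  congr 1
  field_simp

theorem pois_bd {w : ℝ → ℝ} {K : ℝ≥0} (hw : Measurable w) (hw0 : ∀ x, 0 ≤ w x)
    (hpos : ∀ᵐ x, 0 < w x) (h : A2C w K) {z y : ℝ} (hy : 0 < y) :
    ∫⁻ t, ENNReal.ofReal (w t * pk (t - z) y) ≤
      ENNReal.ofReal (8 / (Real.pi * y)) * (M2 K *
        ∫⁻ t in Ioo (z - y / 2) (z + y / 2), ENNReal.ofReal (w t)) := by
  set g : ℝ → ℝ≥0∞ := (Ioo (z - y / 2) (z + y / 2)).indicator (fun _ => 1) with hg
  have hgm : Measurable g := measurable_const.indicator measurableSet_Ioo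
  have h1 := muckenhoupt (by norm_num : (1:ℝ) < 2) hw hpos (h.apc hpos) g hgm
  have hpt : ∀ t, ENNReal.ofReal (w t * pk (t - z) y) ≤
      ENNReal.ofReal (8 / (Real.pi * y)) * (Mm volume g t ^ (2:ℝ) * ENNReal.ofReal (w t)) := by
    intro t
    rw [mul_comm (w t), ENNReal.ofReal_mul (pk_pos hy).le, ← mul_assoc]
    refine mul_le_mul' ?_ le_rfl
    calc ENNReal.ofReal (pk (t - z) y) ≤ ENNReal.ofReal (8 / (Real.pi * y) *
          (y / (2 * (y + |t - z|))) ^ (2:ℝ)) := by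
          refine ENNReal.ofReal_le_ofReal ?_
          unfold pk
          rw [Real.rpow_two, div_pow]
          have hpi := Real.pi_pos
          have h0 := abs_nonneg (t - z)
          have h3 : (y + |t - z|) ^ 2 ≤ 2 * ((t - z) ^ 2 + y ^ 2) := by
            rw [← sq_abs (t - z)]
            nlinarith [sq_nonneg (y - |t - z|)]
          have h4 : 8 / (Real.pi * y) * (y ^ 2 / (2 * (y + |t - z|)) ^ 2) =
              2 * y / (Real.pi * (y + |t - z|) ^ 2) := by
            field_simp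
            ring
          rw [h4, div_le_div_iff₀ (by positivity) (by positivity)]
          have h5 : y * Real.pi * (y + |t - z|) ^ 2 ≤ y * Real.pi * (2 * ((t - z) ^ 2 + y ^ 2)) :=
            mul_le_mul_of_nonneg_left h3 (by positivity)
          nlinarith [h5]
      _ = ENNReal.ofReal (8 / (Real.pi * y)) * ENNReal.ofReal (y / (2 * (y + |t - z|))) ^ (2:ℝ) := by
          rw [ENNReal.ofReal_mul (by have := Real.pi_pos; positivity),
            ← ENNReal.ofReal_rpow_of_nonneg (by positivity) (by norm_num)]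
      _ ≤ _ := by
          refine mul_le_mul' le_rfl (ENNReal.rpow_le_rpow ?_ (by norm_num))
          exact Mm_low hy
  calc _ ≤ ∫⁻ t, ENNReal.ofReal (8 / (Real.pi * y)) * (Mm volume g t ^ (2:ℝ) * ENNReal.ofReal (w t)) :=
        lintegral_mono hpt
    _ = ENNReal.ofReal (8 / (Real.pi * y)) * ∫⁻ t, Mm volume g t ^ (2:ℝ) * ENNReal.ofReal (w t) := by
        rw [lintegral_const_mul' _ _ ENNReal.ofReal_ne_top]
    _ = ENNReal.ofReal (8 / (Real.pi * y)) * ∫⁻ t, Mm volume g t ^ (2:ℝ) ∂(mU w) := by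
        have := lint_mU hw MeasurableSet.univ ((measurable_Mm volume g).pow_const (2:ℝ))
        simp only [Measure.restrict_univ] at this
        rw [this]
    _ ≤ ENNReal.ofReal (8 / (Real.pi * y)) * (M2 K * ∫⁻ t, g t ^ (2:ℝ) ∂(mU w)) := by
        refine mul_le_mul' le_rfl ?_
        unfold M2
        exact h1
    _ = _ := by
        congr 2
        have e : ∀ t, g t ^ (2:ℝ) = (Ioo (z - y / 2) (z + y / 2)).indicator (fun _ => 1) t := by
          intro t
          rw [hg]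
          by_cases ht : t ∈ Ioo (z - y / 2) (z + y / 2)
          · rw [indicator_of_mem ht, ENNReal.one_rpow]
          · rw [indicator_of_notMem ht, ENNReal.zero_rpow_of_pos (by norm_num)]
        simp only [e]
        rw [lintegral_indicator measurableSet_Ioo, lintegral_one, Measure.restrict_apply_univ,
          mU_apply measurableSet_Ioo]

theorem A2C.fin {w : ℝ → ℝ} {K : ℝ≥0} (h : A2C w K) (hw : Measurable w)
    (hpos : ∀ᵐ x, 0 < w x) {a b : ℝ} (hab : a < b) :
    ∫⁻ x in Ioo a b, ENNReal.ofReal (w x) ≠ ⊤ := by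
  have := (ap_fin (by norm_num) hw hpos (h.apc hpos) hab).1
  rwa [mU_apply measurableSet_Ioo] at this

theorem A2C.int {w : ℝ → ℝ} {K : ℝ≥0} (h : A2C w K) (hw : Measurable w) (hw0 : ∀ x, 0 ≤ w x)
    (hpos : ∀ᵐ x, 0 < w x) : Integrable (fun t => w t / (1 + t ^ 2)) := by
  have h1 := pois_bd hw hw0 hpos h (z := 0) (y := 1) one_pos
  have h2 : ∫⁻ t, ENNReal.ofReal (w t * pk (t - 0) 1) < ⊤ := by
    refine lt_of_le_of_lt h1 ?_
    refine ENNReal.mul_lt_top ENNReal.ofReal_lt_top (ENNReal.mul_lt_top (M2_ne_top K).lt_top ?_)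
    exact (h.fin hw hpos (by norm_num)).lt_top
  have h3 : Integrable (fun t => w t * pk (t - 0) 1) := by
    refine ⟨?_, ?_⟩
    · refine Measurable.aestronglyMeasurable ?_
      unfold pk
      fun_prop
    · rw [hasFiniteIntegral_iff_ofReal (Eventually.of_forall fun t => mul_nonneg (hw0 t) (pk_pos one_pos).le)]
      exact h2
  refine (h3.const_mul Real.pi).congr (Eventually.of_forall fun t => ?_)
  simp only [sub_zero]
  unfold pk
  have := Real.pi_ne_zero
  have : t ^ 2 + 1 ^ 2 ≠ 0 := by positivity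
  have : 1 + t ^ 2 ≠ 0 := by positivity
  field_simp
  ring

theorem inv_pos_ae {w : ℝ → ℝ} (hpos : ∀ᵐ x, 0 < w x) : ∀ᵐ x, 0 < (w x)⁻¹ := by
  filter_upwards [hpos] with x hx using inv_pos.2 hx

/-- the Poisson `A_2` condition -/
theorem A2C.poisson {w : ℝ → ℝ} {K : ℝ≥0} (h : A2C w K) (hw : Measurable w) (hw0 : ∀ x, 0 ≤ w x)
    (hpos : ∀ᵐ x, 0 < w x) {z y : ℝ} (hy : 0 < y) :
    hI (CF (fun t => (w t)⁻¹)) z y * hI (CF w) z y ≤ ((M2 K) ^ 2 * K).toReal * 64 := by
  have hwi := h.int hw hw0 hpos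
  have hw' : Measurable (fun x => (w x)⁻¹) := hw.inv
  have hw0' : ∀ x, 0 ≤ (w x)⁻¹ := fun x => inv_nonneg.2 (hw0 x)
  have hpos' := inv_pos_ae hpos
  have hsi := h.symm.int hw' hw0' hpos'
  have b1 := pois_bd hw hw0 hpos h (z := z) hy
  have b2 := pois_bd hw' hw0' hpos' h.symm (z := z) hy
  have hW : ENNReal.ofReal (hI (CF w) z y) = ∫⁻ t, ENNReal.ofReal (w t * pk (t - z) y) := by
    rw [hI_CF hwi hy, ofReal_integral_eq_lintegral_ofReal (int_pk hwi hy)
      (Eventually.of_forall fun t => mul_nonneg (hw0 t) (pk_pos hy).le)]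
  have hV : ENNReal.ofReal (hI (CF (fun t => (w t)⁻¹)) z y) =
      ∫⁻ t, ENNReal.ofReal ((w t)⁻¹ * pk (t - z) y) := by
    rw [hI_CF hsi hy, ofReal_integral_eq_lintegral_ofReal (int_pk hsi hy)
      (Eventually.of_forall fun t => mul_nonneg (hw0' t) (pk_pos hy).le)]
  have hVW := VW_pos hpos hwi hsi (z := z) hy
  have hab := h (z - y / 2) (z + y / 2) (by linarith)
  have e1 : z + y / 2 - (z - y / 2) = y := by ring
  rw [e1] at hab
  set I1 := ∫⁻ x in Ioo (z - y / 2) (z + y / 2), ENNReal.ofReal (w x) with hI1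
  set I2 := ∫⁻ x in Ioo (z - y / 2) (z + y / 2), ENNReal.ofReal ((w x)⁻¹) with hI2
  have hpi := Real.pi_pos
  have key : ENNReal.ofReal (hI (CF (fun t => (w t)⁻¹)) z y * hI (CF w) z y) ≤
      ENNReal.ofReal (((M2 K) ^ 2 * K).toReal * 64) := by
    rw [ENNReal.ofReal_mul hVW.2.le, hW, hV]
    calc _ ≤ (ENNReal.ofReal (8 / (Real.pi * y)) * (M2 K * I2)) *
          (ENNReal.ofReal (8 / (Real.pi * y)) * (M2 K * I1)) := mul_le_mul' b2 b1
      _ = ENNReal.ofReal (8 / (Real.pi * y)) ^ 2 * M2 K ^ 2 * (I1 * I2) := by ring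
      _ ≤ ENNReal.ofReal (8 / (Real.pi * y)) ^ 2 * M2 K ^ 2 * (K * ENNReal.ofReal y ^ 2) :=
          mul_le_mul' le_rfl hab
      _ = (M2 K ^ 2 * K) * (ENNReal.ofReal (8 / (Real.pi * y)) * ENNReal.ofReal y) ^ 2 := by ring
      _ ≤ (M2 K ^ 2 * K) * ENNReal.ofReal 64 := by
          refine mul_le_mul' le_rfl ?_
          rw [← ENNReal.ofReal_mul (by positivity), ← ENNReal.ofReal_pow (by positivity)]
          refine ENNReal.ofReal_le_ofReal ?_
          have : 8 / (Real.pi * y) * y = 8 / Real.pi := by field_simp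
          rw [this]
          have h1 : 8 / Real.pi ≤ 8 := by
            rw [div_le_iff₀ hpi]
            nlinarith [Real.pi_gt_three]
          have h2 : 0 ≤ 8 / Real.pi := by positivity
          nlinarith
      _ = _ := by
          rw [ENNReal.ofReal_mul ENNReal.toReal_nonneg, ENNReal.ofReal_toReal]
          exact ENNReal.mul_ne_top (ENNReal.pow_ne_top (M2_ne_top K)) ENNReal.coe_ne_top
  exact (ENNReal.ofReal_le_ofReal_iff (by positivity)).1 key

end Pool.Agent.W755.Gl
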