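import Pool.Agent.W755.GlG

set_option autoImplicit false

open MeasureTheory Filter Topology Set
open scoped ENNReal NNReal

namespace Pool.Agent.W755.Gl

open Pool.Agent.W755.Mz

/-- the (squared) area function of aperture `a` of the density `H` -/
noncomputable def Ar (a : ℝ) (H : ℝ × ℝ → ℝ≥0∞) (x : ℝ) : ℝ≥0∞ :=
  ∫⁻ p in UH, {q : ℝ × ℝ | |x - q.1| < a * q.2}.indicator H p

theorem measurable_ArInt {a : ℝ} {H : ℝ × ℝ → ℝ≥0∞} (hH : Measurable H) :
    Measurable (fun q : ℝ × (ℝ × ℝ) => {r : ℝ × ℝ | |q.1 - r.1| < a * r.2}.indicator H q.2) := by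
  have hS : MeasurableSet {q : ℝ × (ℝ × ℝ) | |q.1 - q.2.1| < a * q.2.2} :=
    measurableSet_lt (by fun_prop) (by fun_prop)
  have e : (fun q : ℝ × (ℝ × ℝ) => {r : ℝ × ℝ | |q.1 - r.1| < a * r.2}.indicator H q.2) =
      {q : ℝ × (ℝ × ℝ) | |q.1 - q.2.1| < a * q.2.2}.indicator (fun q => H q.2) := by
    ext q
    by_cases hq : |q.1 - q.2.1| < a * q.2.2
    · rw [indicator_of_mem (by exact hq), indicator_of_mem (by exact hq)]
    · rw [indicator_of_notMem (by exact hq), indicator_of_notMem (by exact hq)]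
  rw [e]
  exact (hH.comp measurable_snd).indicator hS

theorem measurable_Ar {a : ℝ} {H : ℝ × ℝ → ℝ≥0∞} (hH : Measurable H) : Measurable (Ar a H) := by
  unfold Ar
  exact (measurable_ArInt hH).lintegral_prod_right'

theorem fub {a : ℝ} {H : ℝ × ℝ → ℝ≥0∞} (hH : Measurable H) (μ : Measure ℝ) [SFinite μ]
    {S : Set ℝ} (hS : MeasurableSet S) :
    ∫⁻ x in S, Ar a H x ∂μ =
      ∫⁻ p in UH, H p * μ (S ∩ Ioo (p.1 - a * p.2) (p.1 + a * p.2)) := by
  unfold Ar
  rw [lintegral_lintegral_swap (measurable_ArInt hH).aemeasurable]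
  refine lintegral_congr fun p => ?_
  have e : ∀ x : ℝ, {q : ℝ × ℝ | |x - q.1| < a * q.2}.indicator H p =
      (Ioo (p.1 - a * p.2) (p.1 + a * p.2)).indicator (fun _ => H p) x := by
    intro x
    have h1 : x ∈ Ioo (p.1 - a * p.2) (p.1 + a * p.2) ↔ |x - p.1| < a * p.2 := by
      rw [abs_lt, mem_Ioo]
      constructor
      · rintro ⟨h1, h2⟩; exact ⟨by linarith, by linarith⟩
      · rintro ⟨h1, h2⟩; exact ⟨by linarith, by linarith⟩
    by_cases hx : |x - p.1| < a * p.2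
    · rw [indicator_of_mem (by exact hx), indicator_of_mem (h1.2 hx)]
    · rw [indicator_of_notMem (by exact hx), indicator_of_notMem (fun h => hx (h1.1 h))]
  simp only [e]
  rw [lintegral_indicator measurableSet_Ioo, lintegral_const, Measure.restrict_restrict measurableSet_Ioo,
    Measure.restrict_apply_univ, inter_comm]

theorem fub' {a : ℝ} {H : ℝ × ℝ → ℝ≥0∞} (hH : Measurable H) (μ : Measure ℝ) [SFinite μ] :
    ∫⁻ x, Ar a H x ∂μ =
      ∫⁻ p in UH, H p * μ (Ioo (p.1 - a * p.2) (p.1 + a * p.2)) := by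
  have := fub (a := a) hH μ MeasurableSet.univ
  simpa only [Measure.restrict_univ, univ_inter] using this

/-- the density of the area function -/
noncomputable def Hh (f : ℝ → ℝ) : ℝ × ℝ → ℝ≥0∞ :=
  UH.indicator (fun p => ENNReal.ofReal (gsq f p.1 p.2))

theorem measurable_Hh {f : ℝ → ℝ} (hf : Integrable (fun t => f t / (1 + t ^ 2))) :
    Measurable (Hh f) := by
  classical
  unfold Hh
  have h1 := diff_deriv (diff_CF hf)
  have h2 : ContinuousOn (fun p : ℝ × ℝ => ENNReal.ofReal (gsq f p.1 p.2)) UH := by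
    refine ENNReal.continuous_ofReal.comp_continuousOn ?_
    unfold gsq
    exact ((cont_hI h1).pow 2).add ((cont_hR h1).pow 2)
  have h3 := h2.measurable_piecewise (g := fun _ => 0) continuousOn_const measurableSet_UH
  rwa [← piecewise_eq_indicator]

theorem ball_le_pois {w : ℝ → ℝ} (hw0 : ∀ x, 0 ≤ w x)
    (hwi : Integrable (fun t => w t / (1 + t ^ 2))) {z y : ℝ} (hy : 0 < y) :
    mU w (Ioo (z - y) (z + y)) ≤ ENNReal.ofReal (2 * Real.pi * y * hI (CF w) z y) := by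
  have hpi := Real.pi_pos
  rw [mU_apply measurableSet_Ioo, hI_CF hwi hy, ENNReal.ofReal_mul (by positivity),
    ofReal_integral_eq_lintegral_ofReal (int_pk hwi hy)
      (Eventually.of_forall fun t => mul_nonneg (hw0 t) (pk_pos hy).le),
    ← lintegral_const_mul' _ _ ENNReal.ofReal_ne_top]
  refine le_trans ?_ (setLIntegral_le_lintegral (Ioo (z - y) (z + y)) _)
  refine setLIntegral_mono' measurableSet_Ioo fun t ht => ?_
  rw [← ENNReal.ofReal_mul (by positivity)]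
  refine ENNReal.ofReal_le_ofReal ?_
  unfold pk
  have h1 : (t - z) ^ 2 ≤ y ^ 2 := by
    have : |t - z| ≤ y := abs_le.2 ⟨by linarith [ht.1], by linarith [ht.2]⟩
    rw [← sq_abs (t - z)]
    exact pow_le_pow_left₀ (abs_nonneg _) this 2
  have h2 : 2 * Real.pi * y * (w t * (y / (Real.pi * ((t - z) ^ 2 + y ^ 2)))) =
      w t * (2 * y ^ 2 / ((t - z) ^ 2 + y ^ 2)) := by
    field_simp
  rw [h2]
  have h3 : 1 ≤ 2 * y ^ 2 / ((t - z) ^ 2 + y ^ 2) := by
    rw [le_div_iff₀ (by positivity)]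
    linarith
  nlinarith [mul_le_mul_of_nonneg_left h3 (hw0 t)]

/-- the weighted `L²` bound for the area function -/
theorem area_L2 (K : ℝ≥0) : ∃ C : ℝ≥0, ∀ w : ℝ → ℝ, Measurable w → (∀ x, 0 ≤ w x) →
    (∀ᵐ x, 0 < w x) → A2C w K → ∀ f : ℝ → ℝ, Measurable f →
    ∫⁻ x, ENNReal.ofReal (f x ^ 2 * w x) ≠ ⊤ →
    Integrable (fun t => f t / (1 + t ^ 2)) ∧
      ∫⁻ x, Ar 1 (Hh f) x ∂(mU w) ≤ C * ∫⁻ x, ENNReal.ofReal (f x ^ 2 * w x) := by
  set Q : ℝ := ((M2 K) ^ 2 * K).toReal * 64 with hQ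
  have hQ0 : 0 ≤ Q := by positivity
  refine ⟨Real.toNNReal (2 * Real.pi * (66 * Q ^ 3)), fun w hw hw0 hpos h f hf hfin => ?_⟩
  have hwi := h.int hw hw0 hpos
  have hsi := h.symm.int hw.inv (fun x => inv_nonneg.2 (hw0 x)) (inv_pos_ae hpos)
  have hF : Integrable (fun t => f t ^ 2 * w t) := by
    refine ⟨Measurable.aestronglyMeasurable (by fun_prop), ?_⟩
    rw [hasFiniteIntegral_iff_ofReal (Eventually.of_forall fun t => mul_nonneg (sq_nonneg _) (hw0 t))]
    exact hfin.lt_top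
  have hfi' := hfi hpos hsi hf hF
  have hQ1 : 1 ≤ Q := (one_le_VW hpos hwi hsi (z := 0) one_pos).trans
    (h.poisson hw hw0 hpos one_pos)
  refine ⟨hfi', ?_⟩
  obtain ⟨B, Bz1, Bz2, By1, By2, hD⟩ := gdata hw hw0 hpos hwi hsi hf hF (Q := Q)
    (fun z y hy => h.poisson hw hw0 hpos hy)
  have hg := green hD
  have : SFinite (mU w) := by unfold mU; infer_instance
  rw [fub' (measurable_Hh hfi')]
  have hpi := Real.pi_pos
  have hpt : ∀ p ∈ UH, Hh f p * mU w (Ioo (p.1 - 1 * p.2) (p.1 + 1 * p.2)) ≤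
      ENNReal.ofReal (2 * Real.pi * (22 * Q ^ 3)) *
        ENNReal.ofReal (p.2 * (hI (CF w) p.1 p.2 / (22 * Q ^ 3) * gsq f p.1 p.2)) := by
    intro p hp
    have hp0 : 0 < p.2 := hp
    rw [one_mul]
    unfold Hh
    rw [indicator_of_mem hp]
    have h0 : 0 ≤ gsq f p.1 p.2 := by unfold gsq; positivity
    calc _ ≤ ENNReal.ofReal (gsq f p.1 p.2) *
          ENNReal.ofReal (2 * Real.pi * p.2 * hI (CF w) p.1 p.2) := by
          exact mul_le_mul' le_rfl (ball_le_pois hw0 hwi hp0)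
      _ = _ := by
          rw [← ENNReal.ofReal_mul h0, ← ENNReal.ofReal_mul (by positivity)]
          congr 1
          field_simp
  calc _ ≤ ∫⁻ p in UH, ENNReal.ofReal (2 * Real.pi * (22 * Q ^ 3)) *
        ENNReal.ofReal (p.2 * (hI (CF w) p.1 p.2 / (22 * Q ^ 3) * gsq f p.1 p.2)) :=
        setLIntegral_mono' measurableSet_UH hpt
    _ = ENNReal.ofReal (2 * Real.pi * (22 * Q ^ 3)) * ∫⁻ p in UH,
        ENNReal.ofReal (p.2 * (hI (CF w) p.1 p.2 / (22 * Q ^ 3) * gsq f p.1 p.2)) := by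
        rw [lintegral_const_mul' _ _ ENNReal.ofReal_ne_top]
    _ ≤ ENNReal.ofReal (2 * Real.pi * (22 * Q ^ 3)) * ENNReal.ofReal (3 * ∫ t, f t ^ 2 * w t) :=
        mul_le_mul' le_rfl hg
    _ = ENNReal.ofReal (2 * Real.pi * (66 * Q ^ 3)) * ENNReal.ofReal (∫ t, f t ^ 2 * w t) := by
        rw [← ENNReal.ofReal_mul (by positivity), ← ENNReal.ofReal_mul (by positivity)]
        congr 1
        ring
    _ = _ := by
        rw [ofReal_integral_eq_lintegral_ofReal hF
          (Eventually.of_forall fun t => mul_nonneg (sq_nonneg _) (hw0 t))]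
        rfl

end Pool.Agent.W755.Gl
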