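import Pool.Agent.W755.GlH

set_option autoImplicit false

open MeasureTheory Filter Topology Set
open scoped ENNReal NNReal

namespace Pool.Agent.W755.Gl

open Pool.Agent.W755.Mz

theorem Mm_tsum (g : ℕ → ℝ → ℝ≥0∞) (hg : ∀ k, Measurable (g k)) (x : ℝ) :
    Mm volume (fun y => ∑' k, g k y) x ≤ ∑' k, Mm volume (g k) x := by
  conv_lhs => unfold Mm
  refine iSup_le fun a => iSup_le fun b => iSup_le fun h => ?_
  rw [lintegral_tsum (fun k => (hg k).aemeasurable), ← ENNReal.tsum_mul_left]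
  exact ENNReal.tsum_le_tsum fun k => Mm_ge volume (g k) h

theorem Mm_const_mul (c : ℝ≥0∞) (g : ℝ → ℝ≥0∞) (hg : Measurable g) (x : ℝ) :
    Mm volume (fun y => c * g y) x ≤ c * Mm volume g x := by
  conv_lhs => unfold Mm
  refine iSup_le fun a => iSup_le fun b => iSup_le fun h => ?_
  rw [lintegral_const_mul _ hg, ← mul_assoc, mul_comm _ c, mul_assoc]
  exact mul_le_mul' le_rfl (Mm_ge volume g h)

/-- iterates of the maximal function -/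
noncomputable def Gi (c : ℝ≥0∞) (f : ℝ → ℝ≥0∞) : ℕ → ℝ → ℝ≥0∞
  | 0 => f
  | k + 1 => fun x => c⁻¹ * Mm volume (Gi c f k) x

theorem measurable_Gi {c : ℝ≥0∞} {f : ℝ → ℝ≥0∞} (hf : Measurable f) (k : ℕ) :
    Measurable (Gi c f k) := by
  cases k with
  | zero => exact hf
  | succ k => exact (measurable_Mm _ _).const_mul _

/-- the majorant of Rubio de Francia -/
noncomputable def Rf (c : ℝ≥0∞) (f : ℝ → ℝ≥0∞) (x : ℝ) : ℝ≥0∞ := ∑' k : ℕ, (4⁻¹ : ℝ≥0∞) ^ k * Gi c f k x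

theorem measurable_Rf {c : ℝ≥0∞} {f : ℝ → ℝ≥0∞} (hf : Measurable f) : Measurable (Rf c f) := by
  unfold Rf
  exact Measurable.tsum fun k => (measurable_Gi hf k).const_mul _

theorem le_Rf (c : ℝ≥0∞) (f : ℝ → ℝ≥0∞) (x : ℝ) : f x ≤ Rf c f x := by
  unfold Rf
  have := ENNReal.le_tsum (f := fun k : ℕ => (4⁻¹ : ℝ≥0∞) ^ k * Gi c f k x) 0
  simpa [Gi] using this

theorem Mm_Rf {c : ℝ≥0∞} (hc0 : c ≠ 0) (hct : c ≠ ⊤) {f : ℝ → ℝ≥0∞} (hf : Measurable f) (x : ℝ) :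
    Mm volume (Rf c f) x ≤ 4 * c * Rf c f x := by
  have h1 : Mm volume (Rf c f) x ≤ ∑' k : ℕ, Mm volume (fun y => (4⁻¹ : ℝ≥0∞) ^ k * Gi c f k y) x :=
    Mm_tsum (fun k y => (4⁻¹ : ℝ≥0∞) ^ k * Gi c f k y) (fun k => (measurable_Gi hf k).const_mul _) x
  refine h1.trans ?_
  have h2 : ∀ k : ℕ, Mm volume (fun y => (4⁻¹ : ℝ≥0∞) ^ k * Gi c f k y) x ≤
      4 * c * ((4⁻¹ : ℝ≥0∞) ^ (k + 1) * Gi c f (k + 1) x) := by
    intro k
    refine (Mm_const_mul _ _ (measurable_Gi hf k) x).trans (le_of_eq ?_)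
    have e1 : Gi c f (k + 1) x = c⁻¹ * Mm volume (Gi c f k) x := rfl
    rw [e1, pow_succ]
    calc (4⁻¹ : ℝ≥0∞) ^ k * Mm volume (Gi c f k) x = (4 * 4⁻¹) * (c * c⁻¹) * ((4⁻¹ : ℝ≥0∞) ^ k *
          Mm volume (Gi c f k) x) := by
          rw [ENNReal.mul_inv_cancel hc0 hct, ENNReal.mul_inv_cancel (by norm_num) (by norm_num)]
          ring
      _ = _ := by ring
  calc _ ≤ ∑' k : ℕ, 4 * c * ((4⁻¹ : ℝ≥0∞) ^ (k + 1) * Gi c f (k + 1) x) := ENNReal.tsum_le_tsum h2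
    _ = 4 * c * ∑' k : ℕ, ((4⁻¹ : ℝ≥0∞) ^ (k + 1) * Gi c f (k + 1) x) := ENNReal.tsum_mul_left
    _ ≤ 4 * c * Rf c f x := by
        refine mul_le_mul' le_rfl ?_
        unfold Rf
        rw [tsum_eq_zero_add' (f := fun k : ℕ => (4⁻¹ : ℝ≥0∞) ^ k * Gi c f k x) ENNReal.summable]
        exact le_add_self

theorem pow_Rf {c : ℝ≥0∞} {f : ℝ → ℝ≥0∞} {p : ℝ} (hp : 1 ≤ p) (x : ℝ) :
    Rf c f x ^ p ≤ 2 ^ p * ∑' k : ℕ, (2⁻¹ : ℝ≥0∞) ^ k * Gi c f k x ^ p := by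
  have hp0 : 0 < p := by linarith
  set a : ℕ → ℝ≥0∞ := fun k => (2⁻¹ : ℝ≥0∞) ^ k * Gi c f k x with ha
  set S : ℝ≥0∞ := ∑' k : ℕ, (2⁻¹ : ℝ≥0∞) ^ k * Gi c f k x ^ p with hS
  have h2k : ∀ k : ℕ, (2⁻¹ : ℝ≥0∞) ^ k ≤ 1 := fun k => pow_le_one₀ bot_le (by norm_num)
  have h1 : ∀ k, a k ≤ S ^ (1 / p) := by
    intro k
    have e1 : a k = (a k ^ p) ^ (1 / p) := by
      rw [← ENNReal.rpow_mul, mul_one_div_cancel hp0.ne', ENNReal.rpow_one]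
    rw [e1]
    refine ENNReal.rpow_le_rpow ?_ (by positivity)
    have h3 : a k ^ p ≤ (2⁻¹ : ℝ≥0∞) ^ k * Gi c f k x ^ p := by
      rw [ha, ENNReal.mul_rpow_of_nonneg _ _ hp0.le]
      exact mul_le_mul' (ENNReal.rpow_le_self_of_le_one (h2k k) hp) le_rfl
    exact h3.trans (ENNReal.le_tsum (f := fun k : ℕ => (2⁻¹ : ℝ≥0∞) ^ k * Gi c f k x ^ p) k)
  have h2 : Rf c f x ≤ 2 * S ^ (1 / p) := by
    unfold Rf
    have e2 : ∀ k : ℕ, (4⁻¹ : ℝ≥0∞) ^ k * Gi c f k x = (2⁻¹ : ℝ≥0∞) ^ k * a k := by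
      intro k
      rw [ha]
      have : (4⁻¹ : ℝ≥0∞) = 2⁻¹ * 2⁻¹ := by
        rw [← ENNReal.mul_inv (by simp) (by simp)]
        norm_num
      rw [this, mul_pow, mul_assoc]
    simp only [e2]
    calc ∑' k : ℕ, (2⁻¹ : ℝ≥0∞) ^ k * a k ≤ ∑' k : ℕ, (2⁻¹ : ℝ≥0∞) ^ k * S ^ (1 / p) :=
          ENNReal.tsum_le_tsum fun k => mul_le_mul' le_rfl (h1 k)
      _ = (∑' k : ℕ, (2⁻¹ : ℝ≥0∞) ^ k) * S ^ (1 / p) := ENNReal.tsum_mul_right
      _ = 2 * S ^ (1 / p) := by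
          rw [ENNReal.tsum_geometric]
          congr 1
          rw [ENNReal.one_sub_inv_two, inv_inv]
  calc Rf c f x ^ p ≤ (2 * S ^ (1 / p)) ^ p := ENNReal.rpow_le_rpow h2 hp0.le
    _ = 2 ^ p * S := by
        rw [ENNReal.mul_rpow_of_nonneg _ _ hp0.le, ← ENNReal.rpow_mul, one_div_mul_cancel hp0.ne',
          ENNReal.rpow_one]

section

variable {p : ℝ} (hp : 1 < p) {U : ℝ → ℝ} (hU : Measurable U) (hpos : ∀ᵐ x, 0 < U x) {K : ℝ≥0}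
  (hK : ApC p U K)
include hp hU hpos hK

/-- there is an `A_1` majorant -/
theorem exists_majorant : ∃ c : ℝ≥0, 1 ≤ c ∧ ∀ f : ℝ → ℝ≥0∞, Measurable f →
    ∃ g : ℝ → ℝ≥0∞, Measurable g ∧ (∀ x, f x ≤ g x) ∧ (∀ x, Mm volume g x ≤ c * g x) ∧
      ∫⁻ x, g x ^ p ∂(mU U) ≤ c * ∫⁻ x, f x ^ p ∂(mU U) := by
  have hp0 : 0 < p := by linarith
  set A : ℝ≥0∞ := (K : ℝ≥0∞) ^ (p / (p - 1)) * (Cq (p / (p - 1)) * Cq p) with hA
  have hAt : A ≠ ⊤ := by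
    refine ENNReal.mul_ne_top ?_ (ENNReal.mul_ne_top (Cq_ne_top _) (Cq_ne_top _))
    refine (ENNReal.rpow_lt_top_of_nonneg ?_ ENNReal.coe_ne_top).ne
    have : 0 < p - 1 := by linarith
    positivity
  set c : ℝ≥0∞ := max 1 (A ^ (1 / p)) with hc
  have hc1 : 1 ≤ c := le_max_left _ _
  have hc0 : c ≠ 0 := (lt_of_lt_of_le one_pos hc1).ne'
  have hct : c ≠ ⊤ := by
    rw [hc]
    exact (max_lt ENNReal.one_lt_top (ENNReal.rpow_lt_top_of_nonneg (by positivity) hAt)).ne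
  have hAc : A ≤ c ^ p := by
    calc A = (A ^ (1 / p)) ^ p := by
          rw [← ENNReal.rpow_mul, one_div_mul_cancel hp0.ne', ENNReal.rpow_one]
      _ ≤ c ^ p := ENNReal.rpow_le_rpow (le_max_right _ _) hp0.le
  have hfin : 4 * c * 2 ^ p ≠ ⊤ :=
    ENNReal.mul_ne_top (ENNReal.mul_ne_top (by norm_num) hct)
      (ENNReal.rpow_lt_top_of_nonneg hp0.le (by norm_num)).ne
  have h2p : (1:ℝ≥0∞) ≤ 2 ^ p := by
    rw [← ENNReal.one_rpow p]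
    exact ENNReal.rpow_le_rpow (by norm_num) hp0.le
  have h4 : (1:ℝ≥0∞) ≤ 4 := by norm_num
  refine ⟨(4 * c * 2 ^ p).toNNReal, ?_, ?_⟩
  · rw [← ENNReal.coe_le_coe, ENNReal.coe_toNNReal hfin, ENNReal.coe_one]
    calc (1:ℝ≥0∞) = 1 * 1 * 1 := by ring
      _ ≤ 4 * c * 2 ^ p := mul_le_mul' (mul_le_mul' h4 hc1) h2p
  intro f hf
  refine ⟨Rf c f, measurable_Rf hf, le_Rf c f, fun x => ?_, ?_⟩
  · rw [ENNReal.coe_toNNReal hfin]
    refine (Mm_Rf hc0 hct hf x).trans (mul_le_mul' ?_ le_rfl)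
    calc 4 * c = 4 * c * 1 := by ring
      _ ≤ 4 * c * 2 ^ p := mul_le_mul' le_rfl h2p
  · rw [ENNReal.coe_toNNReal hfin]
    have hG : ∀ k, ∫⁻ x, Gi c f k x ^ p ∂(mU U) ≤ ∫⁻ x, f x ^ p ∂(mU U) := by
      intro k
      induction k with
      | zero => exact le_rfl
      | succ k ih =>
        have e1 : ∀ x, Gi c f (k + 1) x ^ p = (c⁻¹) ^ p * Mm volume (Gi c f k) x ^ p := by
          intro x
          have : Gi c f (k + 1) x = c⁻¹ * Mm volume (Gi c f k) x := rfl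
          rw [this, ENNReal.mul_rpow_of_nonneg _ _ hp0.le]
        simp only [e1]
        rw [lintegral_const_mul _ ((measurable_Mm _ _).pow_const p)]
        calc (c⁻¹) ^ p * ∫⁻ x, Mm volume (Gi c f k) x ^ p ∂(mU U) ≤
            (c⁻¹) ^ p * (A * ∫⁻ x, Gi c f k x ^ p ∂(mU U)) :=
              mul_le_mul' le_rfl (muckenhoupt hp hU hpos hK _ (measurable_Gi hf k))
          _ ≤ (c⁻¹) ^ p * (c ^ p * ∫⁻ x, f x ^ p ∂(mU U)) :=
              mul_le_mul' le_rfl (mul_le_mul' hAc ih)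
          _ = ∫⁻ x, f x ^ p ∂(mU U) := by
              rw [← mul_assoc, ← ENNReal.mul_rpow_of_nonneg _ _ hp0.le, ENNReal.inv_mul_cancel hc0 hct,
                ENNReal.one_rpow, one_mul]
    calc ∫⁻ x, Rf c f x ^ p ∂(mU U) ≤ ∫⁻ x, 2 ^ p * ∑' k : ℕ, (2⁻¹ : ℝ≥0∞) ^ k * Gi c f k x ^ p ∂(mU U) :=
          lintegral_mono fun x => pow_Rf hp.le x
      _ = 2 ^ p * ∑' k : ℕ, (2⁻¹ : ℝ≥0∞) ^ k * ∫⁻ x, Gi c f k x ^ p ∂(mU U) := by
          rw [lintegral_const_mul]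
          · rw [lintegral_tsum (fun k => (((measurable_Gi hf k).pow_const p).const_mul _).aemeasurable)]
            congr 1
            refine tsum_congr fun k => ?_
            rw [lintegral_const_mul _ ((measurable_Gi hf k).pow_const p)]
          · exact Measurable.tsum fun k => ((measurable_Gi hf k).pow_const p).const_mul _
      _ ≤ 2 ^ p * ∑' k : ℕ, (2⁻¹ : ℝ≥0∞) ^ k * ∫⁻ x, f x ^ p ∂(mU U) :=
          mul_le_mul' le_rfl (ENNReal.tsum_le_tsum fun k => mul_le_mul' le_rfl (hG k))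
      _ = 2 ^ p * (2 * ∫⁻ x, f x ^ p ∂(mU U)) := by
          rw [ENNReal.tsum_mul_right, ENNReal.tsum_geometric, ENNReal.one_sub_inv_two, inv_inv]
      _ = 2 * 2 ^ p * ∫⁻ x, f x ^ p ∂(mU U) := by ring
      _ ≤ 4 * c * 2 ^ p * ∫⁻ x, f x ^ p ∂(mU U) := by
          refine mul_le_mul' (mul_le_mul' ?_ le_rfl) le_rfl
          calc (2:ℝ≥0∞) ≤ 4 * 1 := by norm_num
            _ ≤ 4 * c := mul_le_mul' le_rfl hc1

end

end Pool.Agent.W755.Gl
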