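import Pool.Agent.W755.GlI

set_option autoImplicit false

open MeasureTheory Filter Topology Set
open scoped ENNReal NNReal

namespace Pool.Agent.W755.Gl

open Pool.Agent.W755.Mz

theorem CF_zero_ae {f : ℝ → ℝ} (h : f =ᵐ[volume] 0) : CF f = fun _ => 0 := by
  funext ζ
  unfold CF
  refine integral_eq_zero_of_ae ?_
  filter_upwards [h] with t ht
  simp [ht]

theorem Hh_zero_ae {f : ℝ → ℝ} (h : f =ᵐ[volume] 0) : Hh f = fun _ => 0 := by
  funext q
  unfold Hh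
  have : ∀ p : ℝ × ℝ, ENNReal.ofReal (gsq f p.1 p.2) = 0 := by
    intro p
    unfold gsq hI hR
    rw [CF_zero_ae h]
    simp
  by_cases hq : q ∈ UH
  · rw [indicator_of_mem hq, this]
  · rw [indicator_of_notMem hq]

section

variable {p : ℝ} (hp : 1 < p) (hp2 : p < 2) {U : ℝ → ℝ} (hU : Measurable U) (hU0 : ∀ x, 0 ≤ U x)
  (hpos : ∀ᵐ x, 0 < U x) {K : ℝ≥0} (hK : ApC p U K)
include hp hp2 hU hpos hK

/-- the `A_2` weight `g^{p-2} U` -/
theorem weight_A2 (c : ℝ≥0) (hc : 1 ≤ c) : ∃ K' : ℝ≥0, ∀ g : ℝ → ℝ≥0∞, Measurable g →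
    (∀ x, 0 < g x) → (∀ᵐ x, g x ≠ ⊤) → (∀ x, Mm volume g x ≤ c * g x) →
    A2C (fun x => (g x).toReal ^ (p - 2) * U x) K' := by
  have hp1 : 0 < p - 1 := by linarith
  have h2p : 0 < 2 - p := by linarith
  have hct : ((c:ℝ≥0∞) ^ (2 - p) * K) ≠ ⊤ :=
    ENNReal.mul_ne_top (ENNReal.rpow_lt_top_of_nonneg h2p.le ENNReal.coe_ne_top).ne ENNReal.coe_ne_top
  refine ⟨((c:ℝ≥0∞) ^ (2 - p) * K).toNNReal, fun g hg hg0 hgt hM => ?_⟩
  rw [A2C]
  intro a b hab
  rw [ENNReal.coe_toNNReal hct]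
  set ρ := ENNReal.ofReal (b - a) with hρ
  have hρ0 : ρ ≠ 0 := (ENNReal.ofReal_pos.2 (sub_pos.2 hab)).ne'
  have hρt : ρ ≠ ⊤ := ENNReal.ofReal_ne_top
  set I := ∫⁻ x in Ioo a b, g x with hI
  have hvol : volume (Ioo a b) ≠ 0 := by
    rw [Real.volume_Ioo]; exact hρ0
  have hI0 : I ≠ 0 := by
    rw [hI]
    intro h0
    rw [lintegral_eq_zero_iff hg] at h0
    have h1 : ∀ᵐ x ∂(volume.restrict (Ioo a b)), False := by
      filter_upwards [h0] with x hx
      exact (hg0 x).ne' hx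
    have h2 : volume.restrict (Ioo a b) = 0 := by
      rw [← Measure.measure_univ_eq_zero]
      have := ae_iff.1 h1
      simpa using this
    rw [Measure.restrict_eq_zero] at h2
    exact hvol h2
  -- `I ≤ ρ c g x`
  have hIle : ∀ x ∈ Ioo a b, I ≤ ρ * (c * g x) := by
    intro x hx
    have h1 := (Mm_ge volume g hx).trans (hM x)
    rw [Real.volume_Ioo, ← hρ, ← hI] at h1
    calc I = ρ * (ρ⁻¹ * I) := by rw [← mul_assoc, ENNReal.mul_inv_cancel hρ0 hρt, one_mul]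
      _ ≤ ρ * (c * g x) := mul_le_mul' le_rfl h1
  have hIt : I ≠ ⊤ := by
    have h1 : ∃ x ∈ Ioo a b, g x ≠ ⊤ := by
      by_contra hcon
      push Not at hcon
      have h2 : Ioo a b ⊆ {x | ¬ (g x ≠ ⊤)} := fun x hx => by
        simp only [ne_eq, not_not]
        exact hcon x hx
      exact hvol (measure_mono_null h2 (ae_iff.1 hgt))
    obtain ⟨x, hx, hgx⟩ := h1
    exact ne_top_of_le_ne_top (ENNReal.mul_ne_top hρt (ENNReal.mul_ne_top ENNReal.coe_ne_top hgx))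
      (hIle x hx)
  have hc0 : (c:ℝ≥0∞) ≠ 0 := by
    have : (1:ℝ≥0∞) ≤ c := by exact_mod_cast hc
    exact (lt_of_lt_of_le one_pos this).ne'
  -- the two integrals
  have e1 : ∫⁻ x in Ioo a b, ENNReal.ofReal ((g x).toReal ^ (p - 2) * U x) ≤
      ((ρ * c) ^ (2 - p) * I ^ (p - 2)) * mU U (Ioo a b) := by
    rw [mU_apply measurableSet_Ioo, ← lintegral_const_mul _ hU.ennreal_ofReal]
    refine lintegral_mono_ae ?_
    filter_upwards [ae_restrict_of_ae hgt, ae_restrict_mem measurableSet_Ioo] with x hx hxI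
    have hgr : 0 < (g x).toReal := ENNReal.toReal_pos (hg0 x).ne' hx
    rw [ENNReal.ofReal_mul (by positivity)]
    refine mul_le_mul' ?_ le_rfl
    rw [← ENNReal.ofReal_rpow_of_pos hgr, ENNReal.ofReal_toReal hx]
    have h3 : I ^ (2 - p) ≤ (ρ * c) ^ (2 - p) * g x ^ (2 - p) := by
      rw [← ENNReal.mul_rpow_of_nonneg _ _ h2p.le]
      refine ENNReal.rpow_le_rpow ?_ h2p.le
      rw [mul_assoc]
      exact hIle x hxI
    have hg2 : g x ^ (2 - p) ≠ 0 := by
      rw [ne_eq, ENNReal.rpow_eq_zero_iff]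
      push Not
      exact ⟨fun h => absurd h (hg0 x).ne', fun h => absurd h hx⟩
    have hg2t : g x ^ (2 - p) ≠ ⊤ := (ENNReal.rpow_lt_top_of_nonneg h2p.le hx).ne
    have hI2 : I ^ (2 - p) ≠ 0 := by
      rw [ne_eq, ENNReal.rpow_eq_zero_iff]
      push Not
      exact ⟨fun h => absurd h hI0, fun h => absurd h hIt⟩
    have hI2t : I ^ (2 - p) ≠ ⊤ := (ENNReal.rpow_lt_top_of_nonneg h2p.le hIt).ne
    have en : p - 2 = -(2 - p) := by ring
    rw [en, ENNReal.rpow_neg, ENNReal.rpow_neg]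
    calc (g x ^ (2 - p))⁻¹ = (g x ^ (2 - p))⁻¹ * (I ^ (2 - p) * (I ^ (2 - p))⁻¹) := by
          rw [ENNReal.mul_inv_cancel hI2 hI2t, mul_one]
      _ ≤ (g x ^ (2 - p))⁻¹ * (((ρ * c) ^ (2 - p) * g x ^ (2 - p)) * (I ^ (2 - p))⁻¹) :=
          mul_le_mul' le_rfl (mul_le_mul' h3 le_rfl)
      _ = ((g x ^ (2 - p))⁻¹ * g x ^ (2 - p)) * ((ρ * c) ^ (2 - p) * (I ^ (2 - p))⁻¹) := by ring
      _ = _ := by rw [ENNReal.inv_mul_cancel hg2 hg2t, one_mul]
  have e2 : ∫⁻ x in Ioo a b, ENNReal.ofReal (((g x).toReal ^ (p - 2) * U x)⁻¹) ≤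
      I ^ (2 - p) * mS p U (Ioo a b) ^ (p - 1) := by
    have h4 : ∫⁻ x in Ioo a b, ENNReal.ofReal (((g x).toReal ^ (p - 2) * U x)⁻¹) ≤
        ∫⁻ x in Ioo a b, g x ^ (2 - p) * ss p U x ^ (p - 1) := by
      refine lintegral_mono_ae ?_
      filter_upwards [ae_restrict_of_ae hgt, ae_restrict_of_ae hpos] with x hx hUx
      have hgr : 0 < (g x).toReal := ENNReal.toReal_pos (hg0 x).ne' hx
      have h5 : ((g x).toReal ^ (p - 2) * U x)⁻¹ = (g x).toReal ^ (2 - p) * (U x)⁻¹ := by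
        rw [mul_inv, ← Real.rpow_neg hgr.le]
        congr 2
        ring
      rw [h5, ENNReal.ofReal_mul (by positivity), ← ENNReal.ofReal_rpow_of_pos hgr,
        ENNReal.ofReal_toReal hx]
      refine mul_le_mul' le_rfl (le_of_eq ?_)
      unfold ss
      rw [← ENNReal.rpow_mul]
      have : -(1 / (p - 1)) * (p - 1) = -1 := by field_simp
      rw [this, ENNReal.rpow_neg_one, ENNReal.ofReal_inv_of_pos hUx]
    refine h4.trans ?_
    have h6 := ENNReal.lintegral_mul_norm_pow_le (μ := volume.restrict (Ioo a b))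
      (f := g) (g := ss p U) hg.aemeasurable (measurable_ss hU).aemeasurable h2p.le hp1.le (by ring)
    rw [mS_apply measurableSet_Ioo]
    exact h6
  -- the `A_p` condition
  have e3 : mU U (Ioo a b) * mS p U (Ioo a b) ^ (p - 1) ≤ K * ρ ^ p := by
    have h7 := ap_meas hp hU hpos hK hab
    rw [← hρ] at h7
    have hρp : ρ ^ (p - 1) ≠ 0 := by
      rw [ne_eq, ENNReal.rpow_eq_zero_iff]
      push Not
      exact ⟨fun h => absurd h hρ0, fun h => absurd h hρt⟩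
    have hρpt : ρ ^ (p - 1) ≠ ⊤ := (ENNReal.rpow_lt_top_of_nonneg hp1.le hρt).ne
    have e4 : ρ ^ p = ρ * ρ ^ (p - 1) := by
      conv_lhs => rw [show p = 1 + (p - 1) by ring]
      rw [ENNReal.rpow_add_of_nonneg _ _ zero_le_one hp1.le, ENNReal.rpow_one]
    calc mU U (Ioo a b) * mS p U (Ioo a b) ^ (p - 1) =
        (ρ * ρ⁻¹) * (ρ ^ (p - 1) * (ρ ^ (p - 1))⁻¹) *
          (mU U (Ioo a b) * mS p U (Ioo a b) ^ (p - 1)) := by
          rw [ENNReal.mul_inv_cancel hρ0 hρt, ENNReal.mul_inv_cancel hρp hρpt]; ring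
      _ = (ρ * ρ ^ (p - 1)) * (ρ⁻¹ * mU U (Ioo a b) * (ρ⁻¹ * mS p U (Ioo a b)) ^ (p - 1)) := by
          rw [ENNReal.mul_rpow_of_nonneg _ _ hp1.le, ENNReal.inv_rpow]; ring
      _ ≤ (ρ * ρ ^ (p - 1)) * K := mul_le_mul' le_rfl h7
      _ = K * ρ ^ p := by rw [e4]; ring
  have hII : I ^ (p - 2) * I ^ (2 - p) = 1 := by
    rw [← ENNReal.rpow_add _ _ hI0 hIt]
    have : p - 2 + (2 - p) = 0 := by ring
    rw [this, ENNReal.rpow_zero]
  have hρρ : ρ ^ (2 - p) * ρ ^ p = ρ ^ 2 := by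
    rw [← ENNReal.rpow_add _ _ hρ0 hρt]
    have : 2 - p + p = ((2:ℕ):ℝ) := by push_cast; ring
    rw [this, ENNReal.rpow_natCast]
  calc _ ≤ (((ρ * c) ^ (2 - p) * I ^ (p - 2)) * mU U (Ioo a b)) *
        (I ^ (2 - p) * mS p U (Ioo a b) ^ (p - 1)) := mul_le_mul' e1 e2
    _ = (ρ * c) ^ (2 - p) * (I ^ (p - 2) * I ^ (2 - p)) *
        (mU U (Ioo a b) * mS p U (Ioo a b) ^ (p - 1)) := by ring
    _ ≤ (ρ * c) ^ (2 - p) * (I ^ (p - 2) * I ^ (2 - p)) * (K * ρ ^ p) := mul_le_mul' le_rfl e3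
    _ = c ^ (2 - p) * K * (ρ ^ (2 - p) * ρ ^ p) := by
        rw [hII, ENNReal.mul_rpow_of_nonneg _ _ h2p.le]; ring
    _ = _ := by rw [hρρ]

include hU0 in
/-- the weighted `L^p` bound for the area function, `1 < p < 2` -/
theorem area_Lp : ∃ C : ℝ≥0, ∀ f : ℝ → ℝ, Measurable f →
    ∫⁻ x, ENNReal.ofReal |f x| ^ p ∂(mU U) ≠ ⊤ →
    Integrable (fun t => f t / (1 + t ^ 2)) ∧
      ∫⁻ x, Ar 1 (Hh f) x ^ (p / 2) ∂(mU U) ≤ C * ∫⁻ x, ENNReal.ofReal |f x| ^ p ∂(mU U) := by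
  have hp0 : 0 < p := by linarith
  have h2p : 0 < 2 - p := by linarith
  obtain ⟨c, hc1, hmaj⟩ := exists_majorant hp hU hpos hK
  obtain ⟨K', hK'⟩ := weight_A2 hp hp2 hU hpos hK c hc1
  obtain ⟨C, hC⟩ := area_L2 K'
  refine ⟨(((C:ℝ≥0∞) ^ (p / 2)) * c).toNNReal, fun f hf hfin => ?_⟩
  have hCt : (((C:ℝ≥0∞) ^ (p / 2)) * c) ≠ ⊤ :=
    ENNReal.mul_ne_top (ENNReal.rpow_lt_top_of_nonneg (by positivity) ENNReal.coe_ne_top).ne
      ENNReal.coe_ne_top
  rw [ENNReal.coe_toNNReal hCt]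
  by_cases hfz : f =ᵐ[volume] 0
  · refine ⟨?_, ?_⟩
    · refine (integrable_zero ℝ ℝ volume).congr ?_
      filter_upwards [hfz] with t ht
      simp [ht]
    · rw [Hh_zero_ae hfz]
      have : ∀ x, Ar 1 (fun _ => 0) x = 0 := by
        intro x
        unfold Ar
        simp
      simp only [this]
      rw [ENNReal.zero_rpow_of_pos (by positivity)]
      simp
  obtain ⟨g, hg, hfg, hM, hgint⟩ := hmaj (fun x => ENNReal.ofReal |f x|) (by fun_prop)
  have hgfin : ∫⁻ x, g x ^ p ∂(mU U) ≠ ⊤ :=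
    ne_top_of_le_ne_top (ENNReal.mul_ne_top ENNReal.coe_ne_top hfin) hgint
  have hc0 : (c:ℝ≥0∞) ≠ 0 := by
    have : (1:ℝ≥0∞) ≤ c := by exact_mod_cast hc1
    exact (lt_of_lt_of_le one_pos this).ne'
  -- positivity
  have hg0 : ∀ x, 0 < g x := by
    intro x
    rw [pos_iff_ne_zero]
    intro h0
    have h1 : Mm volume g x = 0 := by
      have := hM x
      rw [h0, mul_zero] at this
      exact le_bot_iff.1 this
    apply hfz
    -- all local integrals vanish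
    have h2 : ∀ n : ℕ, ∀ᵐ y ∂(volume.restrict (Ioo (x - (n + 1)) (x + (n + 1)))), f y = 0 := by
      intro n
      have hn : (0:ℝ) < n + 1 := by positivity
      have h3 := Mm_ge volume g (x := x) (a := x - (n + 1)) (b := x + (n + 1)) ⟨by linarith, by linarith⟩
      rw [h1] at h3
      replace h3 := le_antisymm h3 bot_le
      rw [mul_eq_zero] at h3
      have h4 : ∫⁻ y in Ioo (x - (n + 1)) (x + (n + 1)), g y = 0 := by
        rcases h3 with h3 | h3
        · rw [ENNReal.inv_eq_zero, Real.volume_Ioo] at h3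
          exact absurd h3 ENNReal.ofReal_ne_top
        · exact h3
      rw [lintegral_eq_zero_iff hg] at h4
      filter_upwards [h4] with y hy
      have h5 := hfg y
      rw [hy, Pi.zero_apply] at h5
      replace h5 := le_antisymm h5 bot_le
      rw [ENNReal.ofReal_eq_zero] at h5
      exact abs_eq_zero.1 (le_antisymm h5 (abs_nonneg _))
    have h6 : ∀ᵐ y ∂(volume.restrict (⋃ n : ℕ, Ioo (x - (n + 1)) (x + (n + 1)))), f y = 0 := by
      rw [ae_restrict_iUnion_iff]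
      exact h2
    have h7 : (⋃ n : ℕ, Ioo (x - ((n:ℝ) + 1)) (x + (n + 1))) = univ := by
      rw [eq_univ_iff_forall]
      intro y
      obtain ⟨n, hn⟩ := exists_nat_gt |y - x|
      rw [mem_iUnion]
      refine ⟨n, ?_⟩
      have := abs_lt.1 hn
      constructor <;> linarith [this.1, this.2]
    rw [h7, Measure.restrict_univ] at h6
    exact h6
  have hgt : ∀ᵐ x, g x ≠ ⊤ := by
    have h1 : ∀ᵐ x ∂(mU U), g x ^ p < ⊤ := ae_lt_top (hg.pow_const p) hgfin
    unfold mU at h1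
    rw [ae_withDensity_iff hU.ennreal_ofReal] at h1
    filter_upwards [h1, hpos] with x hx hUx h0
    have := hx (ENNReal.ofReal_pos.2 hUx).ne'
    rw [h0, ENNReal.top_rpow_of_pos hp0] at this
    exact lt_irrefl _ this
  set w : ℝ → ℝ := fun x => (g x).toReal ^ (p - 2) * U x with hw
  have hwm : Measurable w := (hg.ennreal_toReal.pow_const _).mul hU
  have hw0 : ∀ x, 0 ≤ w x := fun x => mul_nonneg (Real.rpow_nonneg ENNReal.toReal_nonneg _) (hU0 x)
  have hwpos : ∀ᵐ x, 0 < w x := by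
    filter_upwards [hgt, hpos] with x hx hUx
    exact mul_pos (Real.rpow_pos_of_pos (ENNReal.toReal_pos (hg0 x).ne' hx) _) hUx
  have hA2 := hK' g hg hg0 hgt hM
  have hf2 : ∫⁻ x, ENNReal.ofReal (f x ^ 2 * w x) ≤ ∫⁻ x, g x ^ p ∂(mU U) := by
    have := lint_mU hU MeasurableSet.univ (hg.pow_const p)
    simp only [Measure.restrict_univ] at this
    rw [this]
    refine lintegral_mono_ae ?_
    filter_upwards [hgt] with x hx
    have hgr : 0 < (g x).toReal := ENNReal.toReal_pos (hg0 x).ne' hx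
    have h1 : |f x| ≤ (g x).toReal := by
      have := hfg x
      rwa [← ENNReal.ofReal_toReal hx, ENNReal.ofReal_le_ofReal_iff hgr.le] at this
    have h2 : f x ^ 2 * w x ≤ (g x).toReal ^ p * U x := by
      rw [hw]
      simp only
      rw [← mul_assoc]
      refine mul_le_mul_of_nonneg_right ?_ (hU0 x)
      have h3 : (g x).toReal ^ p = (g x).toReal ^ 2 * (g x).toReal ^ (p - 2) := by
        rw [← Real.rpow_natCast, ← Real.rpow_add hgr]
        congr 1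
        push_cast
        ring
      rw [h3]
      refine mul_le_mul_of_nonneg_right ?_ (Real.rpow_nonneg hgr.le _)
      rw [← sq_abs (f x)]
      exact pow_le_pow_left₀ (abs_nonneg _) h1 2
    calc ENNReal.ofReal (f x ^ 2 * w x) ≤ ENNReal.ofReal ((g x).toReal ^ p * U x) :=
          ENNReal.ofReal_le_ofReal h2
      _ = g x ^ p * ENNReal.ofReal (U x) := by
          rw [ENNReal.ofReal_mul (by positivity), ← ENNReal.ofReal_rpow_of_pos hgr,
            ENNReal.ofReal_toReal hx]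
  have hf2t : ∫⁻ x, ENNReal.ofReal (f x ^ 2 * w x) ≠ ⊤ := ne_top_of_le_ne_top hgfin hf2
  obtain ⟨hfi', hAr⟩ := hC w hwm hw0 hwpos hA2 f hf hf2t
  refine ⟨hfi', ?_⟩
  have hArm : Measurable (Ar 1 (Hh f)) := measurable_Ar (measurable_Hh hfi')
  -- Hoelder
  have e1 : ∫⁻ x, Ar 1 (Hh f) x ∂(mU w) = ∫⁻ x, Ar 1 (Hh f) x * g x ^ (p - 2) ∂(mU U) := by
    have h1 := lint_mU hwm MeasurableSet.univ hArm
    have h2 := lint_mU hU MeasurableSet.univ (hArm.mul (hg.pow_const (p - 2)))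
    simp only [Measure.restrict_univ] at h1 h2
    simp only [Pi.mul_apply] at h2
    rw [h1, h2]
    refine lintegral_congr_ae ?_
    filter_upwards [hgt] with x hx
    have hgr : 0 < (g x).toReal := ENNReal.toReal_pos (hg0 x).ne' hx
    rw [hw]
    simp only
    rw [ENNReal.ofReal_mul (by positivity), ← ENNReal.ofReal_rpow_of_pos hgr,
      ENNReal.ofReal_toReal hx, mul_assoc]
  have e2 : ∫⁻ x, Ar 1 (Hh f) x ^ (p / 2) ∂(mU U) ≤
      (∫⁻ x, Ar 1 (Hh f) x * g x ^ (p - 2) ∂(mU U)) ^ (p / 2) *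
        (∫⁻ x, g x ^ p ∂(mU U)) ^ ((2 - p) / 2) := by
    refine le_trans ?_ (ENNReal.lintegral_mul_norm_pow_le (μ := mU U)
      (hArm.mul (hg.pow_const (p - 2))).aemeasurable (hg.pow_const p).aemeasurable
      (by positivity) (by positivity) (by ring))
    have hgt' : ∀ᵐ x ∂(mU U), g x ≠ ⊤ := (withDensity_absolutelyContinuous _ _).ae_le hgt
    refine lintegral_mono_ae ?_
    filter_upwards [hgt'] with x hx
    simp only [Pi.mul_apply]
    rw [ENNReal.mul_rpow_of_nonneg _ _ (by positivity), ← ENNReal.rpow_mul, ← ENNReal.rpow_mul,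
      mul_assoc, ← ENNReal.rpow_add _ _ (hg0 x).ne' hx]
    have : (p - 2) * (p / 2) + p * ((2 - p) / 2) = 0 := by ring
    rw [this, ENNReal.rpow_zero, mul_one]
  set Gp := ∫⁻ x, g x ^ p ∂(mU U) with hGp
  calc ∫⁻ x, Ar 1 (Hh f) x ^ (p / 2) ∂(mU U) ≤
      (∫⁻ x, Ar 1 (Hh f) x * g x ^ (p - 2) ∂(mU U)) ^ (p / 2) * Gp ^ ((2 - p) / 2) := e2
    _ ≤ (C * Gp) ^ (p / 2) * Gp ^ ((2 - p) / 2) := by
        refine mul_le_mul' (ENNReal.rpow_le_rpow ?_ (by positivity)) le_rfl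
        rw [← e1]
        exact hAr.trans (mul_le_mul' le_rfl hf2)
    _ = C ^ (p / 2) * Gp := by
        rw [ENNReal.mul_rpow_of_nonneg _ _ (by positivity), mul_assoc,
          ← ENNReal.rpow_add_of_nonneg _ _ (by positivity) (by positivity)]
        have : p / 2 + (2 - p) / 2 = 1 := by ring
        rw [this, ENNReal.rpow_one]
    _ ≤ C ^ (p / 2) * (c * ∫⁻ x, ENNReal.ofReal |f x| ^ p ∂(mU U)) := mul_le_mul' le_rfl hgint
    _ = _ := by rw [mul_assoc]

end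

end Pool.Agent.W755.Gl
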