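import Pool.Agent.W755.GlJ

set_option autoImplicit false

open MeasureTheory Filter Topology Set
open scoped ENNReal NNReal

namespace Pool.Agent.W755.Gl

open Pool.Agent.W755.Mz

/-! ### layer cake with values in `[0,∞]` -/

theorem pw1 {s : ℝ} (hs : 0 < s) (F : ℝ≥0∞) :
    F ^ s = ENNReal.ofReal s * ∫⁻ t in Ioi (0:ℝ),
      {t : ℝ | ENNReal.ofReal t < F}.indicator (fun t => ENNReal.ofReal (t ^ (s - 1))) t := by
  have hfin : ∀ r : ℝ, 0 ≤ r → ENNReal.ofReal r ^ s = ENNReal.ofReal s * ∫⁻ t in Ioi (0:ℝ),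
      {t : ℝ | ENNReal.ofReal t < ENNReal.ofReal r}.indicator (fun t => ENNReal.ofReal (t ^ (s - 1))) t := by
    intro r hr
    have h := lintegral_rpow_eq_lintegral_meas_lt_mul (Measure.dirac (0:ℝ)) (f := fun _ => r)
      (Eventually.of_forall fun _ => hr) aemeasurable_const hs
    rw [lintegral_const, measure_univ, mul_one, ← ENNReal.ofReal_rpow_of_nonneg hr hs.le] at h
    rw [h]
    congr 1
    refine setLIntegral_congr_fun measurableSet_Ioi fun t ht => ?_
    have ht0 : 0 < t := ht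
    by_cases htr : t < r
    · have h1 : {a : ℝ | t < r} = univ := by simp [htr]
      have h2 : ENNReal.ofReal t < ENNReal.ofReal r := (ENNReal.ofReal_lt_ofReal_iff (ht0.trans htr)).2 htr
      rw [h1, measure_univ, one_mul, indicator_of_mem (by exact h2)]
    · have h1 : {a : ℝ | t < r} = ∅ := by simp [htr]
      have h2 : ¬ ENNReal.ofReal t < ENNReal.ofReal r := by
        rw [not_lt]
        exact ENNReal.ofReal_le_ofReal (not_lt.1 htr)
      rw [h1, measure_empty, zero_mul, indicator_of_notMem (by exact h2)]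
  rcases eq_or_ne F ⊤ with hF | hF
  · rw [hF, ENNReal.top_rpow_of_pos hs]
    symm
    rw [eq_top_iff]
    refine le_of_forall_lt fun c hc => ?_
    -- choose r with r^s > c
    have hc' : c ≠ ⊤ := hc.ne
    set r : ℝ := (c.toReal + 1) ^ (1 / s) with hr
    have hr0 : 0 ≤ r := by positivity
    have h1 : c < ENNReal.ofReal r ^ s := by
      rw [ENNReal.ofReal_rpow_of_nonneg hr0 hs.le, hr, ← Real.rpow_mul (by positivity),
        one_div_mul_cancel hs.ne', Real.rpow_one]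
      rw [ENNReal.lt_ofReal_iff_toReal_lt hc']
      linarith
    refine lt_of_lt_of_le h1 ?_
    rw [hfin r hr0]
    refine mul_le_mul' le_rfl (lintegral_mono fun t => ?_)
    refine indicator_le_indicator_of_subset ?_ (fun _ => bot_le) t
    intro t _
    exact ENNReal.ofReal_lt_top
  · rw [← ENNReal.ofReal_toReal hF]
    exact hfin _ ENNReal.toReal_nonneg

theorem layer {α : Type*} [MeasurableSpace α] (μ : Measure α) [SFinite μ] {F : α → ℝ≥0∞}
    (hF : Measurable F) {s : ℝ} (hs : 0 < s) :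
    ∫⁻ x, F x ^ s ∂μ = ENNReal.ofReal s * ∫⁻ t in Ioi (0:ℝ),
      μ {x | ENNReal.ofReal t < F x} * ENNReal.ofReal (t ^ (s - 1)) := by
  simp_rw [pw1 hs]
  have hS : MeasurableSet {q : α × ℝ | ENNReal.ofReal q.2 < F q.1} :=
    measurableSet_lt (by fun_prop) (by fun_prop)
  have hm : Measurable (fun q : α × ℝ => {t : ℝ | ENNReal.ofReal t < F q.1}.indicator
      (fun t => ENNReal.ofReal (t ^ (s - 1))) q.2) := by
    have e : (fun q : α × ℝ => {t : ℝ | ENNReal.ofReal t < F q.1}.indicator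
      (fun t => ENNReal.ofReal (t ^ (s - 1))) q.2) = {q : α × ℝ | ENNReal.ofReal q.2 < F q.1}.indicator
        (fun q => ENNReal.ofReal (q.2 ^ (s - 1))) := by
      ext q
      by_cases hq : ENNReal.ofReal q.2 < F q.1
      · rw [indicator_of_mem (by exact hq), indicator_of_mem (by exact hq)]
      · rw [indicator_of_notMem (by exact hq), indicator_of_notMem (by exact hq)]
    rw [e]
    exact Measurable.indicator (by fun_prop) hS
  rw [lintegral_const_mul' _ _ ENNReal.ofReal_ne_top]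
  congr 1
  rw [lintegral_lintegral_swap hm.aemeasurable]
  refine lintegral_congr fun t => ?_
  have e : ∀ x, {t : ℝ | ENNReal.ofReal t < F x}.indicator
      (fun t => ENNReal.ofReal (t ^ (s - 1))) t =
      {x | ENNReal.ofReal t < F x}.indicator (fun _ => ENNReal.ofReal (t ^ (s - 1))) x := by
    intro x
    by_cases hq : ENNReal.ofReal t < F x
    · rw [indicator_of_mem (by exact hq), indicator_of_mem (by exact hq)]
    · rw [indicator_of_notMem (by exact hq), indicator_of_notMem (by exact hq)]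
  simp only [e]
  rw [lintegral_indicator (measurableSet_lt measurable_const hF), lintegral_const,
    Measure.restrict_apply_univ, mul_comm]

theorem pw2 {s : ℝ} (hs : 0 < s) (hs1 : s < 1) (A : ℝ≥0∞) :
    A * ∫⁻ t in Ioi (0:ℝ), {t : ℝ | A ≤ ENNReal.ofReal t}.indicator
      (fun t => ENNReal.ofReal (t ^ (s - 2))) t ≤ ENNReal.ofReal (1 / (1 - s)) * A ^ s := by
  rcases eq_or_ne A 0 with h0 | h0
  · rw [h0, zero_mul]; exact bot_le
  rcases eq_or_ne A ⊤ with ht | ht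
  · rw [ht, ENNReal.top_rpow_of_pos hs]
    have : 0 < 1 - s := by linarith
    rw [ENNReal.mul_top (ENNReal.ofReal_pos.2 (by positivity)).ne']
    exact le_top
  set r := A.toReal with hr
  have hr0 : 0 < r := ENNReal.toReal_pos h0 ht
  have hA : A = ENNReal.ofReal r := (ENNReal.ofReal_toReal ht).symm
  have h1s : 0 < 1 - s := by linarith
  have h1 : ∫⁻ t in Ioi (0:ℝ), {t : ℝ | A ≤ ENNReal.ofReal t}.indicator
      (fun t => ENNReal.ofReal (t ^ (s - 2))) t ≤ ENNReal.ofReal (r ^ (s - 1) / (1 - s)) := by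
    have hm : MeasurableSet {t : ℝ | A ≤ ENNReal.ofReal t} :=
      measurableSet_le measurable_const (by fun_prop)
    rw [lintegral_indicator hm, Measure.restrict_restrict hm]
    have hset : {t : ℝ | A ≤ ENNReal.ofReal t} ∩ Ioi 0 = Ici r := by
      ext t
      simp only [mem_inter_iff, mem_ofPred_eq, mem_Ioi, mem_Ici]
      rw [hA]
      constructor
      · rintro ⟨h2, h3⟩
        exact (ENNReal.ofReal_le_ofReal_iff h3.le).1 h2
      · intro h2
        exact ⟨ENNReal.ofReal_le_ofReal h2, lt_of_lt_of_le hr0 h2⟩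
    rw [hset]
    have h4 := integral_Ioi_rpow_of_lt (a := s - 2) (by linarith) hr0
    have h5 := integrableOn_Ioi_rpow_of_lt (a := s - 2) (by linarith) hr0
    rw [← setLIntegral_congr (Ioi_ae_eq_Ici (a := r)), ← ofReal_integral_eq_lintegral_ofReal h5
      ((ae_restrict_iff' measurableSet_Ioi).2 (Eventually.of_forall fun t ht =>
        Real.rpow_nonneg (hr0.trans ht).le _)), h4]
    refine ENNReal.ofReal_le_ofReal (le_of_eq ?_)
    have e1 : s - 2 + 1 = s - 1 := by ring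
    rw [e1]
    have : s - 1 ≠ 0 := by linarith
    field_simp
    ring
  calc A * _ ≤ ENNReal.ofReal r * ENNReal.ofReal (r ^ (s - 1) / (1 - s)) := by
        rw [← hA]
        exact mul_le_mul' le_rfl h1
    _ = ENNReal.ofReal (1 / (1 - s)) * A ^ s := by
        rw [hA, ENNReal.ofReal_rpow_of_pos hr0, ← ENNReal.ofReal_mul hr0.le,
          ← ENNReal.ofReal_mul (by positivity)]
        congr 1
        have : r ^ s = r * r ^ (s - 1) := by
          conv_lhs => rw [show s = 1 + (s - 1) by ring]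
          rw [Real.rpow_add hr0, Real.rpow_one]
        rw [this]
        field_simp

/-! ### change of aperture -/

/-- doubling of order `q` -/
def Dbl (μ : Measure ℝ) (q : ℝ) (D : ℝ≥0) : Prop := ∀ c s : ℝ, 0 < s → ∀ a : ℝ, 1 ≤ a →
  μ (Ioo (c - a * s) (c + a * s)) ≤ D * ENNReal.ofReal (a ^ q) * μ (Ioo (c - s) (c + s))

section

variable {μ : Measure ℝ} [IsLocallyFiniteMeasure μ] {q : ℝ} (hq : 0 < q) {D : ℝ≥0} (hD1 : 1 ≤ D)
  (hD : Dbl μ q D) {H : ℝ × ℝ → ℝ≥0∞} (hH : Measurable H)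
include hq hD1 hD hH

theorem fin_Ioo (a b : ℝ) : μ (Ioo a b) ≠ ⊤ :=
  (measure_mono Ioo_subset_Icc_self |>.trans_lt isCompact_Icc.measure_lt_top).ne

theorem aper_est {a : ℝ} (ha : 1 ≤ a) {t : ℝ} (ht : 0 < t) :
    μ {x | ENNReal.ofReal t < Ar a H x} ≤
      2 * ENNReal.ofReal (2 * D * (a + 1) ^ q) * μ {x | ENNReal.ofReal t < Ar 1 H x} +
      (ENNReal.ofReal t)⁻¹ * (2 * D * ENNReal.ofReal (a ^ q) *
        ∫⁻ x in {x | Ar 1 H x ≤ ENNReal.ofReal t}, Ar 1 H x ∂μ) := by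
  have hD0 : (0:ℝ) < D := lt_of_lt_of_le one_pos (by exact_mod_cast hD1)
  have ha0 : 0 < a := by linarith
  set E : Set ℝ := {x | ENNReal.ofReal t < Ar 1 H x} with hE
  have hEm : MeasurableSet E := measurableSet_lt measurable_const (measurable_Ar hH)
  set M : ℝ := 2 * D * (a + 1) ^ q with hM
  have hM0 : 0 < M := by positivity
  set δ : ℝ≥0∞ := ENNReal.ofReal M⁻¹ with hδ
  set O : Set ℝ := {x | δ < Mm μ (E.indicator 1) x} with hO
  have hEi : Measurable (E.indicator (1 : ℝ → ℝ≥0∞)) := measurable_one.indicator hEm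
  have hOm : MeasurableSet O := measurableSet_lt measurable_const (measurable_Mm _ _)
  have hOE : μ O ≤ 2 * ENNReal.ofReal M * μ E := by
    have h1 := weak11 μ (E.indicator 1) hEi δ
    rw [lintegral_indicator_one hEm] at h1
    calc μ O = ENNReal.ofReal M * (δ * μ O) := by
          rw [← mul_assoc, hδ, ← ENNReal.ofReal_mul hM0.le, mul_inv_cancel₀ hM0.ne',
            ENNReal.ofReal_one, one_mul]
      _ ≤ ENNReal.ofReal M * (2 * μ E) := mul_le_mul' le_rfl h1
      _ = _ := by ring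
  -- the geometric estimate
  have hgeo : ∀ p ∈ UH, μ (Oᶜ ∩ Ioo (p.1 - a * p.2) (p.1 + a * p.2)) ≤
      2 * D * ENNReal.ofReal (a ^ q) * μ (Eᶜ ∩ Ioo (p.1 - 1 * p.2) (p.1 + 1 * p.2)) := by
    intro p hp
    have hp0 : 0 < p.2 := hp
    rcases eq_empty_or_nonempty (Oᶜ ∩ Ioo (p.1 - a * p.2) (p.1 + a * p.2)) with hem | ⟨x, hxO, hxI⟩
    · rw [hem, measure_empty]; exact bot_le
    set J1 := Ioo (p.1 - 1 * p.2) (p.1 + 1 * p.2) with hJ1
    set J' := Ioo (p.1 - (a + 1) * p.2) (p.1 + (a + 1) * p.2) with hJ'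
    have hxJ' : p.1 - (a + 1) * p.2 < x ∧ x < p.1 + (a + 1) * p.2 :=
      ⟨by nlinarith [hxI.1], by nlinarith [hxI.2]⟩
    have hJsub : J1 ⊆ J' := by
      apply Ioo_subset_Ioo <;> nlinarith
    have h1 : (μ J')⁻¹ * μ (E ∩ J') ≤ δ := by
      have h2 := Mm_ge μ (E.indicator (1 : ℝ → ℝ≥0∞)) hxJ'
      have h3 : Mm μ (E.indicator 1) x ≤ δ := not_lt.1 hxO
      rw [lintegral_indicator_one hEm, Measure.restrict_apply hEm] at h2
      exact h2.trans h3
    have hJ't : μ J' ≠ ⊤ := fin_Ioo hq hD1 hD hH _ _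
    have h4 : μ (E ∩ J1) ≤ δ * μ J' := by
      rcases eq_or_ne (μ J') 0 with hz | hz
      · rw [measure_mono_null (inter_subset_right.trans hJsub) hz]; exact bot_le
      calc μ (E ∩ J1) ≤ μ (E ∩ J') := measure_mono (inter_subset_inter_right _ hJsub)
        _ = μ J' * ((μ J')⁻¹ * μ (E ∩ J')) := by
            rw [← mul_assoc, ENNReal.mul_inv_cancel hz hJ't, one_mul]
        _ ≤ μ J' * δ := mul_le_mul' le_rfl h1
        _ = δ * μ J' := mul_comm _ _
    have h5 : μ J' ≤ D * ENNReal.ofReal ((a + 1) ^ q) * μ J1 := by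
      have := hD p.1 p.2 hp0 (a + 1) (by linarith)
      rw [hJ1]
      simpa only [one_mul] using this
    have h6 : μ (E ∩ J1) ≤ 2⁻¹ * μ J1 := by
      refine h4.trans ((mul_le_mul' le_rfl h5).trans (le_of_eq ?_))
      rw [← mul_assoc]
      congr 1
      have e1 : (D : ℝ≥0∞) * ENNReal.ofReal ((a + 1) ^ q) = ENNReal.ofReal (D * (a + 1) ^ q) := by
        rw [ENNReal.ofReal_mul hD0.le, ENNReal.ofReal_coe_nnreal]
      rw [e1, hδ, ← ENNReal.ofReal_mul (by positivity), hM]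
      have e2 : (2 * (D:ℝ) * (a + 1) ^ q)⁻¹ * (D * (a + 1) ^ q) = 2⁻¹ := by
        have : (a + 1) ^ q ≠ 0 := (by positivity : 0 < (a + 1) ^ q).ne'
        field_simp
      rw [e2, ENNReal.ofReal_inv_of_pos (by norm_num)]
      norm_num
    have hJ1t : μ J1 ≠ ⊤ := fin_Ioo hq hD1 hD hH _ _
    have h7 : μ J1 ≤ 2 * μ (Eᶜ ∩ J1) := by
      have h8 : μ J1 ≤ 2⁻¹ * μ J1 + μ (Eᶜ ∩ J1) := by
        calc μ J1 = μ (J1 ∩ E) + μ (J1 \ E) := (measure_inter_add_sdiff J1 hEm).symm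
          _ ≤ 2⁻¹ * μ J1 + μ (Eᶜ ∩ J1) := by
              refine add_le_add ?_ ?_
              · rw [inter_comm]; exact h6
              · rw [sdiff_eq, inter_comm]
      have h9 : (2⁻¹ : ℝ≥0∞) * μ J1 ≠ ⊤ := ENNReal.mul_ne_top (by norm_num) hJ1t
      have h10 : μ J1 = 2⁻¹ * μ J1 + 2⁻¹ * μ J1 := by
        rw [← add_mul, ENNReal.inv_two_add_inv_two, one_mul]
      have h11 : (2⁻¹ : ℝ≥0∞) * μ J1 ≤ μ (Eᶜ ∩ J1) := by
        have h12 : 2⁻¹ * μ J1 + 2⁻¹ * μ J1 ≤ 2⁻¹ * μ J1 + μ (Eᶜ ∩ J1) := by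
          rw [← h10]; exact h8
        exact (ENNReal.add_le_add_iff_left h9).1 h12
      calc μ J1 = 2 * (2⁻¹ * μ J1) := by
            rw [← mul_assoc, ENNReal.mul_inv_cancel (by norm_num) (by norm_num), one_mul]
        _ ≤ 2 * μ (Eᶜ ∩ J1) := mul_le_mul' le_rfl h11
    calc μ (Oᶜ ∩ Ioo (p.1 - a * p.2) (p.1 + a * p.2)) ≤ μ (Ioo (p.1 - a * p.2) (p.1 + a * p.2)) :=
          measure_mono inter_subset_right
      _ ≤ D * ENNReal.ofReal (a ^ q) * μ J1 := by
          have := hD p.1 p.2 hp0 a ha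
          rw [hJ1]
          simpa only [one_mul] using this
      _ ≤ D * ENNReal.ofReal (a ^ q) * (2 * μ (Eᶜ ∩ J1)) := mul_le_mul' le_rfl h7
      _ = _ := by ring
  have hint : ∫⁻ x in Oᶜ, Ar a H x ∂μ ≤ 2 * D * ENNReal.ofReal (a ^ q) * ∫⁻ x in Eᶜ, Ar 1 H x ∂μ := by
    rw [fub hH μ hOm.compl, fub hH μ hEm.compl, ← lintegral_const_mul']
    · refine setLIntegral_mono' measurableSet_UH fun p hp => ?_
      calc H p * μ (Oᶜ ∩ Ioo (p.1 - a * p.2) (p.1 + a * p.2)) ≤ H p * (2 * D * ENNReal.ofReal (a ^ q) *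
            μ (Eᶜ ∩ Ioo (p.1 - 1 * p.2) (p.1 + 1 * p.2))) := mul_le_mul' le_rfl (hgeo p hp)
        _ = _ := by ring
    · exact ENNReal.mul_ne_top (ENNReal.mul_ne_top (by norm_num) ENNReal.coe_ne_top)
        ENNReal.ofReal_ne_top
  have hEc : Eᶜ = {x | Ar 1 H x ≤ ENNReal.ofReal t} := by
    ext x
    simp only [hE, mem_compl_iff, mem_ofPred_eq, not_lt]
  have ht0 : ENNReal.ofReal t ≠ 0 := (ENNReal.ofReal_pos.2 ht).ne'
  have hmark : μ ({x | ENNReal.ofReal t < Ar a H x} ∩ Oᶜ) ≤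
      (ENNReal.ofReal t)⁻¹ * ∫⁻ x in Oᶜ, Ar a H x ∂μ := by
    have h1 := mul_meas_ge_le_lintegral₀ (μ := μ.restrict Oᶜ) (measurable_Ar (a := a) hH).aemeasurable
      (ENNReal.ofReal t)
    have h2 : μ ({x | ENNReal.ofReal t < Ar a H x} ∩ Oᶜ) ≤
        (μ.restrict Oᶜ) {x | ENNReal.ofReal t ≤ Ar a H x} := by
      rw [Measure.restrict_apply (measurableSet_le measurable_const (measurable_Ar hH))]
      refine measure_mono (inter_subset_inter_left _ ?_)
      intro x hx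
      have hx' : ENNReal.ofReal t < Ar a H x := hx
      exact hx'.le
    calc _ ≤ (μ.restrict Oᶜ) {x | ENNReal.ofReal t ≤ Ar a H x} := h2
      _ = (ENNReal.ofReal t)⁻¹ * (ENNReal.ofReal t * (μ.restrict Oᶜ) {x | ENNReal.ofReal t ≤ Ar a H x}) := by
          rw [← mul_assoc, ENNReal.inv_mul_cancel ht0 ENNReal.ofReal_ne_top, one_mul]
      _ ≤ _ := mul_le_mul' le_rfl h1
  calc μ {x | ENNReal.ofReal t < Ar a H x} ≤
      μ (O ∪ ({x | ENNReal.ofReal t < Ar a H x} ∩ Oᶜ)) := by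
        refine measure_mono fun x hx => ?_
        by_cases hxO : x ∈ O
        · exact Or.inl hxO
        · exact Or.inr ⟨hx, hxO⟩
    _ ≤ μ O + μ ({x | ENNReal.ofReal t < Ar a H x} ∩ Oᶜ) := measure_union_le _ _
    _ ≤ _ := by
        refine add_le_add hOE (hmark.trans (mul_le_mul' le_rfl ?_))
        rw [← hEc]
        exact hint

/-- change of aperture -/
theorem aper {s : ℝ} (hs : 0 < s) (hs1 : s < 1) {a : ℝ} (ha : 1 ≤ a) :
    ∫⁻ x, Ar a H x ^ s ∂μ ≤ ENNReal.ofReal ((4 * D * 2 ^ q + 2 * D * s / (1 - s)) * a ^ q) *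
      ∫⁻ x, Ar 1 H x ^ s ∂μ := by
  have hD0 : (0:ℝ) < D := lt_of_lt_of_le one_pos (by exact_mod_cast hD1)
  have ha0 : 0 < a := by linarith
  have h1s : 0 < 1 - s := by linarith
  have hA1 := measurable_Ar (a := 1) hH
  rw [layer μ (measurable_Ar (a := a) hH) hs]
  have hb : ∀ t ∈ Ioi (0:ℝ), μ {x | ENNReal.ofReal t < Ar a H x} * ENNReal.ofReal (t ^ (s - 1)) ≤
      2 * ENNReal.ofReal (2 * D * (a + 1) ^ q) *
        (μ {x | ENNReal.ofReal t < Ar 1 H x} * ENNReal.ofReal (t ^ (s - 1))) +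
      2 * D * ENNReal.ofReal (a ^ q) * (ENNReal.ofReal (t ^ (s - 2)) *
        ∫⁻ x in {x | Ar 1 H x ≤ ENNReal.ofReal t}, Ar 1 H x ∂μ) := by
    intro t ht
    have ht0 : 0 < t := ht
    have h1 := aper_est hq hD1 hD hH ha ht0
    have e1 : (ENNReal.ofReal t)⁻¹ * ENNReal.ofReal (t ^ (s - 1)) = ENNReal.ofReal (t ^ (s - 2)) := by
      rw [← ENNReal.ofReal_inv_of_pos ht0, ← ENNReal.ofReal_mul (by positivity)]
      congr 1
      rw [← Real.rpow_neg_one t, ← Real.rpow_add ht0]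
      congr 1
      ring
    calc _ ≤ _ := mul_le_mul' h1 le_rfl
      _ = 2 * ENNReal.ofReal (2 * D * (a + 1) ^ q) *
        (μ {x | ENNReal.ofReal t < Ar 1 H x} * ENNReal.ofReal (t ^ (s - 1))) +
        2 * D * ENNReal.ofReal (a ^ q) * (((ENNReal.ofReal t)⁻¹ * ENNReal.ofReal (t ^ (s - 1))) *
        ∫⁻ x in {x | Ar 1 H x ≤ ENNReal.ofReal t}, Ar 1 H x ∂μ) := by ring
      _ = _ := by rw [e1]
  have hm1 : Measurable (fun t : ℝ => μ {x | ENNReal.ofReal t < Ar 1 H x}) := by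
    refine Antitone.measurable ?_
    intro t1 t2 h12
    refine measure_mono fun x hx => ?_
    exact lt_of_le_of_lt (ENNReal.ofReal_le_ofReal h12) hx
  -- second term
  have hsec : ∫⁻ t in Ioi (0:ℝ), ENNReal.ofReal (t ^ (s - 2)) *
        ∫⁻ x in {x | Ar 1 H x ≤ ENNReal.ofReal t}, Ar 1 H x ∂μ ≤
      ENNReal.ofReal (1 / (1 - s)) * ∫⁻ x, Ar 1 H x ^ s ∂μ := by
    have hS : MeasurableSet {r : ℝ × ℝ | Ar 1 H r.2 ≤ ENNReal.ofReal r.1} :=
      measurableSet_le (hA1.comp measurable_snd) (by fun_prop)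
    have hm : Measurable (fun r : ℝ × ℝ => {r : ℝ × ℝ | Ar 1 H r.2 ≤ ENNReal.ofReal r.1}.indicator
        (fun r => ENNReal.ofReal (r.1 ^ (s - 2)) * Ar 1 H r.2) r) :=
      Measurable.indicator ((by fun_prop : Measurable (fun r : ℝ × ℝ =>
        ENNReal.ofReal (r.1 ^ (s - 2)))).mul (hA1.comp measurable_snd)) hS
    calc ∫⁻ t in Ioi (0:ℝ), ENNReal.ofReal (t ^ (s - 2)) *
        ∫⁻ x in {x | Ar 1 H x ≤ ENNReal.ofReal t}, Ar 1 H x ∂μ =
        ∫⁻ t in Ioi (0:ℝ), (∫⁻ x, {r : ℝ × ℝ | Ar 1 H r.2 ≤ ENNReal.ofReal r.1}.indicator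
          (fun r => ENNReal.ofReal (r.1 ^ (s - 2)) * Ar 1 H r.2) (t, x) ∂μ) := by
          refine lintegral_congr fun t => ?_
          rw [← lintegral_const_mul _ hA1, ← lintegral_indicator (measurableSet_le hA1 measurable_const)]
          refine lintegral_congr fun x => ?_
          by_cases hx : Ar 1 H x ≤ ENNReal.ofReal t
          · rw [indicator_of_mem (by exact hx), indicator_of_mem (by exact hx)]
          · rw [indicator_of_notMem (by exact hx), indicator_of_notMem (by exact hx)]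
      _ = ∫⁻ x, (∫⁻ t in Ioi (0:ℝ), {r : ℝ × ℝ | Ar 1 H r.2 ≤ ENNReal.ofReal r.1}.indicator
          (fun r => ENNReal.ofReal (r.1 ^ (s - 2)) * Ar 1 H r.2) (t, x)) ∂μ :=
          lintegral_lintegral_swap hm.aemeasurable
      _ = ∫⁻ x, (Ar 1 H x * ∫⁻ t in Ioi (0:ℝ), {t : ℝ | Ar 1 H x ≤ ENNReal.ofReal t}.indicator
          (fun t => ENNReal.ofReal (t ^ (s - 2))) t) ∂μ := by
          refine lintegral_congr fun x => ?_
          rw [← lintegral_const_mul]
          · refine lintegral_congr fun t => ?_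
            by_cases hx : Ar 1 H x ≤ ENNReal.ofReal t
            · rw [indicator_of_mem (by exact hx), indicator_of_mem (by exact hx), mul_comm]
            · rw [indicator_of_notMem (by exact hx), indicator_of_notMem (by exact hx), mul_zero]
          · exact Measurable.indicator (by fun_prop) (measurableSet_le measurable_const (by fun_prop))
      _ ≤ ∫⁻ x, ENNReal.ofReal (1 / (1 - s)) * Ar 1 H x ^ s ∂μ := lintegral_mono fun x => pw2 hs hs1 _
      _ = _ := by rw [lintegral_const_mul' _ _ ENNReal.ofReal_ne_top]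
  have hm2 : Measurable (fun t : ℝ => 2 * ENNReal.ofReal (2 * D * (a + 1) ^ q) *
      (μ {x | ENNReal.ofReal t < Ar 1 H x} * ENNReal.ofReal (t ^ (s - 1)))) :=
    (hm1.mul (by fun_prop)).const_mul _
  have hc1 : 2 * ENNReal.ofReal (2 * D * (a + 1) ^ q) ≠ ⊤ :=
    ENNReal.mul_ne_top (by norm_num) ENNReal.ofReal_ne_top
  have hc2 : 2 * (D:ℝ≥0∞) * ENNReal.ofReal (a ^ q) ≠ ⊤ :=
    ENNReal.mul_ne_top (ENNReal.mul_ne_top (by norm_num) ENNReal.coe_ne_top) ENNReal.ofReal_ne_top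
  calc ENNReal.ofReal s * ∫⁻ t in Ioi (0:ℝ), μ {x | ENNReal.ofReal t < Ar a H x} *
        ENNReal.ofReal (t ^ (s - 1)) ≤
      ENNReal.ofReal s * ∫⁻ t in Ioi (0:ℝ), (2 * ENNReal.ofReal (2 * D * (a + 1) ^ q) *
        (μ {x | ENNReal.ofReal t < Ar 1 H x} * ENNReal.ofReal (t ^ (s - 1))) +
      2 * D * ENNReal.ofReal (a ^ q) * (ENNReal.ofReal (t ^ (s - 2)) *
        ∫⁻ x in {x | Ar 1 H x ≤ ENNReal.ofReal t}, Ar 1 H x ∂μ)) :=
        mul_le_mul' le_rfl (setLIntegral_mono' measurableSet_Ioi hb)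
    _ = ENNReal.ofReal s * (2 * ENNReal.ofReal (2 * D * (a + 1) ^ q) *
        (∫⁻ t in Ioi (0:ℝ), μ {x | ENNReal.ofReal t < Ar 1 H x} * ENNReal.ofReal (t ^ (s - 1))) +
        2 * D * ENNReal.ofReal (a ^ q) * ∫⁻ t in Ioi (0:ℝ), ENNReal.ofReal (t ^ (s - 2)) *
        ∫⁻ x in {x | Ar 1 H x ≤ ENNReal.ofReal t}, Ar 1 H x ∂μ) := by
        rw [lintegral_add_left hm2, lintegral_const_mul' _ _ hc1, lintegral_const_mul' _ _ hc2]
    _ ≤ ENNReal.ofReal s * (2 * ENNReal.ofReal (2 * D * (a + 1) ^ q) *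
        (∫⁻ t in Ioi (0:ℝ), μ {x | ENNReal.ofReal t < Ar 1 H x} * ENNReal.ofReal (t ^ (s - 1))) +
        2 * D * ENNReal.ofReal (a ^ q) * (ENNReal.ofReal (1 / (1 - s)) * ∫⁻ x, Ar 1 H x ^ s ∂μ)) :=
        mul_le_mul' le_rfl (add_le_add le_rfl (mul_le_mul' le_rfl hsec))
    _ = 2 * ENNReal.ofReal (2 * D * (a + 1) ^ q) * (ENNReal.ofReal s * ∫⁻ t in Ioi (0:ℝ),
        μ {x | ENNReal.ofReal t < Ar 1 H x} * ENNReal.ofReal (t ^ (s - 1))) +
        ENNReal.ofReal s * (2 * D * ENNReal.ofReal (a ^ q) * ENNReal.ofReal (1 / (1 - s))) *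
          ∫⁻ x, Ar 1 H x ^ s ∂μ := by ring
    _ = (2 * ENNReal.ofReal (2 * D * (a + 1) ^ q) +
        ENNReal.ofReal s * (2 * D * ENNReal.ofReal (a ^ q) * ENNReal.ofReal (1 / (1 - s)))) *
          ∫⁻ x, Ar 1 H x ^ s ∂μ := by
        rw [← layer μ hA1 hs]; ring
    _ ≤ _ := by
        refine mul_le_mul' ?_ le_rfl
        have e1 : (2:ℝ≥0∞) * ENNReal.ofReal (2 * D * (a + 1) ^ q) =
            ENNReal.ofReal (2 * (2 * D * (a + 1) ^ q)) := by
          rw [ENNReal.ofReal_mul zero_le_two, ENNReal.ofReal_ofNat]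
        have e2 : ENNReal.ofReal s * (2 * D * ENNReal.ofReal (a ^ q) * ENNReal.ofReal (1 / (1 - s))) =
            ENNReal.ofReal (s * (2 * D * a ^ q * (1 / (1 - s)))) := by
          rw [ENNReal.ofReal_mul hs.le, ENNReal.ofReal_mul (by positivity),
            ENNReal.ofReal_mul (by positivity), ENNReal.ofReal_mul (by positivity),
            ENNReal.ofReal_ofNat, ENNReal.ofReal_coe_nnreal]
        rw [e1, e2, ← ENNReal.ofReal_add (by positivity) (by positivity)]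
        refine ENNReal.ofReal_le_ofReal ?_
        have h3 : (a + 1) ^ q ≤ 2 ^ q * a ^ q := by
          rw [← Real.mul_rpow (by norm_num) ha0.le]
          exact Real.rpow_le_rpow (by linarith) (by linarith) hq.le
        have h4 : 2 * (2 * D * (a + 1) ^ q) ≤ 2 * (2 * D * (2 ^ q * a ^ q)) := by
          have : (0:ℝ) ≤ 4 * D := by positivity
          nlinarith [mul_le_mul_of_nonneg_left h3 this]
        calc _ ≤ 2 * (2 * D * (2 ^ q * a ^ q)) + s * (2 * D * a ^ q * (1 / (1 - s))) := by linarith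
          _ = _ := by field_simp; ring

end

end Pool.Agent.W755.Gl
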