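import Pool.Agent.W755.GlK
import Pool.Agent.W755.BrSelf

set_option autoImplicit false

open MeasureTheory Filter Topology Set
open scoped ENNReal NNReal

namespace Pool.Agent.W755.Gl

open Pool.Agent.W755.Mz

/-- the square of `g_λ^*` for the density `H` -/
noncomputable def Gst (lam : ℝ) (H : ℝ × ℝ → ℝ≥0∞) (x : ℝ) : ℝ≥0∞ :=
  ∫⁻ p in UH, ENNReal.ofReal ((p.2 / (|x - p.1| + p.2)) ^ lam) * H p

theorem rpow_tsum_le {s : ℝ} (hs : 0 < s) (hs1 : s ≤ 1) (a : ℕ → ℝ≥0∞) :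
    (∑' j, a j) ^ s ≤ ∑' j, a j ^ s := by
  have hfin : ∀ n : ℕ, (∑ j ∈ Finset.range n, a j) ^ s ≤ ∑ j ∈ Finset.range n, a j ^ s := by
    intro n
    induction n with
    | zero => simp [ENNReal.zero_rpow_of_pos hs]
    | succ n ih =>
      rw [Finset.sum_range_succ, Finset.sum_range_succ]
      exact (ENNReal.rpow_add_le_add_rpow _ _ hs.le hs1).trans (add_le_add ih le_rfl)
  set B := ∑' j, a j ^ s with hB
  have h1 : ∑' j, a j ≤ B ^ (1 / s) := by
    rw [ENNReal.tsum_eq_iSup_nat]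
    refine iSup_le fun n => ?_
    have h2 : (∑ j ∈ Finset.range n, a j) = ((∑ j ∈ Finset.range n, a j) ^ s) ^ (1 / s) := by
      rw [← ENNReal.rpow_mul, mul_one_div_cancel hs.ne', ENNReal.rpow_one]
    rw [h2]
    refine ENNReal.rpow_le_rpow ((hfin n).trans ?_) (by positivity)
    exact ENNReal.sum_le_tsum _
  calc (∑' j, a j) ^ s ≤ (B ^ (1 / s)) ^ s := ENNReal.rpow_le_rpow h1 hs.le
    _ = B := by rw [← ENNReal.rpow_mul, one_div_mul_cancel hs.ne', ENNReal.rpow_one]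

theorem kern_le {lam : ℝ} (hlam : 0 < lam) {d y : ℝ} (hd : 0 ≤ d) (hy : 0 < y) :
    ∃ j : ℕ, d < 2 ^ j * y ∧ (y / (d + y)) ^ lam ≤ 2 ^ lam * (2 ^ (-lam)) ^ j := by
  classical
  have hex : ∃ j : ℕ, d < 2 ^ j * y := by
    obtain ⟨n, hn⟩ := pow_unbounded_of_one_lt (d / y) (one_lt_two : (1:ℝ) < 2)
    exact ⟨n, by rwa [div_lt_iff₀ hy] at hn⟩
  refine ⟨Nat.find hex, Nat.find_spec hex, ?_⟩
  have hle1 : (y / (d + y)) ^ lam ≤ 1 := by
    refine Real.rpow_le_one (by positivity) ?_ hlam.le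
    rw [div_le_one (by positivity)]
    linarith
  rcases Nat.eq_zero_or_pos (Nat.find hex) with h0 | hpos
  · rw [h0, pow_zero, mul_one]
    exact hle1.trans (Real.one_le_rpow (by norm_num) hlam.le)
  · obtain ⟨m, hm⟩ : ∃ m, Nat.find hex = m + 1 := ⟨Nat.find hex - 1, by omega⟩
    have h1 : ¬ d < 2 ^ m * y := Nat.find_min hex (by omega)
    rw [hm]
    rw [not_lt] at h1
    have h2 : y / (d + y) ≤ ((2:ℝ) ^ m)⁻¹ := by
      rw [div_le_iff₀ (by positivity), ← div_eq_inv_mul, le_div_iff₀ (by positivity)]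
      nlinarith
    calc (y / (d + y)) ^ lam ≤ (((2:ℝ) ^ m)⁻¹) ^ lam := Real.rpow_le_rpow (by positivity) h2 hlam.le
      _ = 2 ^ lam * (2 ^ (-lam)) ^ (m + 1) := by
          have e1 : (((2:ℝ) ^ m)⁻¹) ^ lam = (2 ^ (-lam)) ^ m := by
            rw [Real.inv_rpow (by positivity), Real.rpow_neg (by norm_num), inv_pow,
              ← Real.rpow_natCast, ← Real.rpow_natCast, ← Real.rpow_mul (by norm_num),
              ← Real.rpow_mul (by norm_num), mul_comm]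
          rw [e1, pow_succ]
          have e2 : (2:ℝ) ^ lam * (2 ^ (-lam)) = 1 := by
            rw [← Real.rpow_add (by norm_num)]
            simp
          calc ((2:ℝ) ^ (-lam)) ^ m = ((2:ℝ) ^ (-lam)) ^ m * ((2:ℝ) ^ lam * (2 ^ (-lam))) := by
                rw [e2, mul_one]
            _ = _ := by ring

theorem gst_le {lam : ℝ} (hlam : 0 < lam) {H : ℝ × ℝ → ℝ≥0∞} (hH : Measurable H) (x : ℝ) :
    Gst lam H x ≤ ∑' j : ℕ, ENNReal.ofReal (2 ^ lam * (2 ^ (-lam)) ^ j) * Ar (2 ^ j) H x := by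
  unfold Gst Ar
  have hm : ∀ j : ℕ, Measurable (fun p : ℝ × ℝ =>
      {q : ℝ × ℝ | |x - q.1| < 2 ^ j * q.2}.indicator H p) := fun j =>
    hH.indicator (measurableSet_lt (by fun_prop) (by fun_prop))
  have e : ∑' j : ℕ, ENNReal.ofReal (2 ^ lam * (2 ^ (-lam)) ^ j) *
      (∫⁻ p in UH, {q : ℝ × ℝ | |x - q.1| < 2 ^ j * q.2}.indicator H p) =
      ∫⁻ p in UH, ∑' j : ℕ, ENNReal.ofReal (2 ^ lam * (2 ^ (-lam)) ^ j) *
        {q : ℝ × ℝ | |x - q.1| < 2 ^ j * q.2}.indicator H p := by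
    rw [lintegral_tsum fun j => ((hm j).const_mul _).aemeasurable]
    refine tsum_congr fun j => ?_
    rw [lintegral_const_mul _ (hm j)]
  rw [e]
  refine setLIntegral_mono' measurableSet_UH fun p hp => ?_
  obtain ⟨j, hj1, hj2⟩ := kern_le hlam (abs_nonneg (x - p.1)) (show 0 < p.2 from hp)
  refine le_trans ?_ (ENNReal.le_tsum j)
  rw [indicator_of_mem (by exact hj1)]
  exact mul_le_mul' (ENNReal.ofReal_le_ofReal hj2) le_rfl

theorem suff_meas {μ : Measure ℝ} [IsLocallyFiniteMeasure μ] {q : ℝ} (hq : 0 < q) {D : ℝ≥0}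
    (hD1 : 1 ≤ D) (hD : Dbl μ q D) {s lam : ℝ} (hs : 0 < s) (hs1 : s < 1) (hlam : 0 < lam)
    (hqs : q < lam * s) : ∃ C : ℝ≥0, ∀ H : ℝ × ℝ → ℝ≥0∞, Measurable H →
    ∫⁻ x, Gst lam H x ^ s ∂μ ≤ C * ∫⁻ x, Ar 1 H x ^ s ∂μ := by
  have hD0 : (0:ℝ) < D := lt_of_lt_of_le one_pos (by exact_mod_cast hD1)
  have h1s : 0 < 1 - s := by linarith
  set C0 : ℝ := 4 * D * 2 ^ q + 2 * D * s / (1 - s) with hC0
  have hC00 : 0 < C0 := by positivity
  set ρ : ℝ := 2 ^ (q - lam * s) with hρ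
  have hρ0 : 0 < ρ := by positivity
  have hρ1 : ρ < 1 := Real.rpow_lt_one_of_one_lt_of_neg (by norm_num) (by linarith)
  set C1 : ℝ≥0∞ := ENNReal.ofReal (2 ^ (lam * s) * C0) * (1 - ENNReal.ofReal ρ)⁻¹ with hC1
  have hC1t : C1 ≠ ⊤ := by
    refine ENNReal.mul_ne_top ENNReal.ofReal_ne_top (ENNReal.inv_ne_top.2 ?_)
    rw [ne_eq, tsub_eq_zero_iff_le, not_le]
    rw [← ENNReal.ofReal_one]
    exact (ENNReal.ofReal_lt_ofReal_iff one_pos).2 hρ1
  refine ⟨C1.toNNReal, fun H hH => ?_⟩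
  rw [ENNReal.coe_toNNReal hC1t]
  have hterm : ∀ j : ℕ, ∫⁻ x, (ENNReal.ofReal (2 ^ lam * (2 ^ (-lam)) ^ j) * Ar (2 ^ j) H x) ^ s ∂μ ≤
      ENNReal.ofReal (2 ^ (lam * s) * C0) * ENNReal.ofReal ρ ^ j * ∫⁻ x, Ar 1 H x ^ s ∂μ := by
    intro j
    have e1 : ∀ x, (ENNReal.ofReal (2 ^ lam * (2 ^ (-lam)) ^ j) * Ar (2 ^ j) H x) ^ s =
        ENNReal.ofReal ((2 ^ lam * (2 ^ (-lam)) ^ j) ^ s) * Ar (2 ^ j) H x ^ s := by
      intro x
      rw [ENNReal.mul_rpow_of_nonneg _ _ hs.le, ENNReal.ofReal_rpow_of_nonneg (by positivity) hs.le]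
    simp only [e1]
    rw [lintegral_const_mul' _ _ ENNReal.ofReal_ne_top]
    have h2j : (1:ℝ) ≤ 2 ^ j := one_le_pow₀ (by norm_num)
    calc _ ≤ ENNReal.ofReal ((2 ^ lam * (2 ^ (-lam)) ^ j) ^ s) *
          (ENNReal.ofReal (C0 * ((2:ℝ) ^ j) ^ q) * ∫⁻ x, Ar 1 H x ^ s ∂μ) :=
          mul_le_mul' le_rfl (aper hq hD1 hD hH hs hs1 h2j)
      _ = _ := by
          rw [← mul_assoc, ← ENNReal.ofReal_mul (by positivity), ← ENNReal.ofReal_pow hρ0.le,
            ← ENNReal.ofReal_mul (by positivity)]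
          congr 2
          have e2 : ((2:ℝ) ^ lam * (2 ^ (-lam)) ^ j) ^ s = 2 ^ (lam * s) * (2 ^ (-(lam * s))) ^ j := by
            rw [Real.mul_rpow (by positivity) (by positivity)]
            congr 1
            · rw [← Real.rpow_mul (by norm_num)]
            · have e5 : (2:ℝ) ^ (-(lam * s)) = (2 ^ (-lam)) ^ s := by
                rw [← Real.rpow_mul (by norm_num)]
                congr 1
                ring
              rw [e5]
              exact (Real.rpow_pow_comm (by positivity) s j).symm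
          have e3 : ((2:ℝ) ^ j) ^ q = (2 ^ q) ^ j := by
            rw [← Real.rpow_natCast, ← Real.rpow_natCast, ← Real.rpow_mul (by norm_num),
              ← Real.rpow_mul (by norm_num), mul_comm]
          have e4 : ρ ^ j = (2 ^ (-(lam * s))) ^ j * (2 ^ q) ^ j := by
            rw [← mul_pow, ← Real.rpow_add (by norm_num), hρ]
            congr 2
            ring
          rw [e2, e3, e4]
          ring
  calc ∫⁻ x, Gst lam H x ^ s ∂μ ≤
      ∫⁻ x, ∑' j : ℕ, (ENNReal.ofReal (2 ^ lam * (2 ^ (-lam)) ^ j) * Ar (2 ^ j) H x) ^ s ∂μ := by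
        refine lintegral_mono fun x => ?_
        exact (ENNReal.rpow_le_rpow (gst_le hlam hH x) hs.le).trans (rpow_tsum_le hs hs1.le _)
    _ = ∑' j : ℕ, ∫⁻ x, (ENNReal.ofReal (2 ^ lam * (2 ^ (-lam)) ^ j) * Ar (2 ^ j) H x) ^ s ∂μ := by
        rw [lintegral_tsum]
        intro j
        exact (((measurable_Ar hH).const_mul _).pow_const s).aemeasurable
    _ ≤ ∑' j : ℕ, ENNReal.ofReal (2 ^ (lam * s) * C0) * ENNReal.ofReal ρ ^ j *
        ∫⁻ x, Ar 1 H x ^ s ∂μ := ENNReal.tsum_le_tsum hterm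
    _ = C1 * ∫⁻ x, Ar 1 H x ^ s ∂μ := by
        rw [ENNReal.tsum_mul_right, ENNReal.tsum_mul_left, ENNReal.tsum_geometric]

/-- `B_q` implies doubling of order `q` -/
theorem dbl_of_memB {q : ℝ} (hq : 0 < q) {U : ℝ → ℝ} (hU : Br.IsWt U) (hB : Br.MemB q U) :
    ∃ D : ℝ≥0, 1 ≤ D ∧ Dbl (mU U) q D := by
  obtain ⟨C, hC⟩ := hB
  refine ⟨2 * C + 1, by simp, fun c s hs a ha => ?_⟩
  have ha0 : 0 < a := by linarith
  have h1 := hC (c - s) (c + s) (by linarith)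
  have e1 : c + s - (c - s) = 2 * s := by ring
  have e2 : (c - s + (c + s)) / 2 = c := by ring
  rw [e1, e2] at h1
  rw [mU_apply measurableSet_Ioo, mU_apply measurableSet_Ioo]
  set I1 := ∫⁻ x in Ioo (c - s) (c + s), ENNReal.ofReal (U x) with hI1
  set L : ℝ := 2 * s with hL
  have hL0 : 0 < L := by positivity
  have haq : 1 ≤ a ^ q := Real.one_le_rpow ha hq.le
  have h2 : ENNReal.ofReal ((2 * a ^ q * L)⁻¹) *
      ∫⁻ x in Ioo (c - a * s) (c + a * s), ENNReal.ofReal (U x) ≤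
      C * (ENNReal.ofReal L)⁻¹ * I1 := by
    refine le_trans ?_ h1
    rw [← lintegral_const_mul' _ _ ENNReal.ofReal_ne_top]
    refine le_trans ?_ (setLIntegral_le_lintegral (Ioo (c - a * s) (c + a * s)) _)
    refine setLIntegral_mono' measurableSet_Ioo fun x hx => ?_
    rw [← ENNReal.ofReal_mul (by positivity)]
    refine ENNReal.ofReal_le_ofReal ?_
    have hxc : |x - c| ≤ a * L := by
      rw [abs_le]
      have := mul_pos ha0 hs
      constructor <;> nlinarith [hx.1, hx.2]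
    have hLq : 0 < L ^ q := by positivity
    have h3 : |x - c| ^ q ≤ a ^ q * L ^ q := by
      rw [← Real.mul_rpow ha0.le hL0.le]
      exact Real.rpow_le_rpow (abs_nonneg _) hxc hq.le
    have h4 : L ^ q + |x - c| ^ q ≤ 2 * a ^ q * L ^ q := by nlinarith
    have h5 : 0 ≤ |x - c| ^ q := Real.rpow_nonneg (abs_nonneg _) q
    have h6 : L ^ (q - 1) * U x / (L ^ q + |x - c| ^ q) ≥ L ^ (q - 1) * U x / (2 * a ^ q * L ^ q) := by
      have := hU.nonneg x
      gcongr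
    refine le_trans (le_of_eq ?_) h6
    rw [Real.rpow_sub_one hL0.ne']
    field_simp
  have h7 : 0 < 2 * a ^ q * L := by positivity
  calc ∫⁻ x in Ioo (c - a * s) (c + a * s), ENNReal.ofReal (U x) =
      ENNReal.ofReal (2 * a ^ q * L) * (ENNReal.ofReal ((2 * a ^ q * L)⁻¹) *
      ∫⁻ x in Ioo (c - a * s) (c + a * s), ENNReal.ofReal (U x)) := by
        rw [← mul_assoc, ← ENNReal.ofReal_mul h7.le, mul_inv_cancel₀ h7.ne', ENNReal.ofReal_one, one_mul]
    _ ≤ ENNReal.ofReal (2 * a ^ q * L) * (C * (ENNReal.ofReal L)⁻¹ * I1) := mul_le_mul' le_rfl h2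
    _ = (2 * C) * ENNReal.ofReal (a ^ q) * (ENNReal.ofReal L * (ENNReal.ofReal L)⁻¹) * I1 := by
        rw [ENNReal.ofReal_mul (by positivity), ENNReal.ofReal_mul (by norm_num),
          ENNReal.ofReal_ofNat]
        ring
    _ = (2 * C) * ENNReal.ofReal (a ^ q) * I1 := by
        rw [ENNReal.mul_inv_cancel (ENNReal.ofReal_pos.2 hL0).ne' ENNReal.ofReal_ne_top, mul_one]
    _ ≤ _ := by
        refine mul_le_mul' (mul_le_mul' ?_ le_rfl) le_rfl
        push_cast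
        exact le_self_add

end Pool.Agent.W755.Gl
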