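import Pool.Agent.W755.GlL
import Pool.Agent.W755.MzFin

set_option autoImplicit false

open MeasureTheory Filter Topology Set
open scoped ENNReal NNReal

namespace Pool.Agent.W755.Gl

open Pool.Agent.W755.Mz

/-! ### definitions of the problem -/

/-- the Poisson integral `f(z,y) = (1/π) ∫ y f(z-x)/(x²+y²) dx` -/
noncomputable def pois (f : ℝ → ℝ) (z y : ℝ) : ℝ :=
  (1 / Real.pi) * ∫ x, y * f (z - x) / (x ^ 2 + y ^ 2)

/-- `|∇f(z,y)|²`, the squared gradient in `(z,y)` of the Poisson integral -/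
noncomputable def gradSq (f : ℝ → ℝ) (z y : ℝ) : ℝ :=
  deriv (fun s => pois f s y) z ^ 2 + deriv (fun s => pois f z s) y ^ 2

/-- `g_λ^*(x) = [∫ ∫_0^∞ (y/(|x-z|+y))^λ |∇f(z,y)|² dy dz]^{1/2}` -/
noncomputable def gstar (lam : ℝ) (f : ℝ → ℝ) (x : ℝ) : ℝ≥0∞ :=
  (∫⁻ z, ∫⁻ y in Ioi (0:ℝ), ENNReal.ofReal ((y / (|x - z| + y)) ^ lam * gradSq f z y)) ^ (1 / 2 : ℝ)

/-- the weighted inequality `(∗)`: `∫ g_λ^*(x)^p U(x) dx ≤ C ∫ |f(x)|^p U(x) dx` for all `f` with
finite right side -/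
def Star (lam p : ℝ) (U : ℝ → ℝ) : Prop :=
  ∃ C : ℝ≥0, ∀ f : ℝ → ℝ, AEMeasurable f → ∫⁻ x, ENNReal.ofReal (|f x| ^ p * U x) < ⊤ →
    ∫⁻ x, gstar lam f x ^ p * ENNReal.ofReal (U x) ≤ C * ∫⁻ x, ENNReal.ofReal (|f x| ^ p * U x)

/-! ### the area integral in terms of the Poisson integral -/

section

variable {f : ℝ → ℝ} (hf : Integrable (fun t => f t / (1 + t ^ 2)))
include hf

theorem pois_eq {z y : ℝ} (hy : 0 < y) : pois f z y = hI (CF f) z y := by
  unfold pois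
  rw [hI_CF hf hy]
  have h1 := integral_sub_left_eq_self (fun t => y * f t / ((z - t) ^ 2 + y ^ 2)) volume z
  have e1 : ∀ x, y * f (z - x) / ((z - (z - x)) ^ 2 + y ^ 2) = y * f (z - x) / (x ^ 2 + y ^ 2) := by
    intro x; congr 2; ring
  simp only [e1] at h1
  rw [h1, ← integral_const_mul]
  congr 1
  ext t
  unfold pk
  have : (z - t) ^ 2 = (t - z) ^ 2 := by ring
  rw [this]
  have := Real.pi_ne_zero
  have : (t - z) ^ 2 + y ^ 2 ≠ 0 := by positivity
  field_simp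

theorem gradSq_eq {z y : ℝ} (hy : 0 < y) : gradSq f z y = gsq f z y := by
  unfold gradSq gsq
  have d := diff_CF hf
  congr 2
  · have e : (fun s => pois f s y) = fun s => hI (CF f) s y := funext fun s => pois_eq hf hy
    rw [e]
    exact (hI_z d hy).deriv
  · have e : (fun s => pois f z s) =ᶠ[𝓝 y] fun s => hI (CF f) z s := by
      filter_upwards [lt_mem_nhds hy] with s hs using pois_eq hf hs
    rw [e.deriv_eq]
    exact (hI_y d hy).deriv

theorem gstar_eq {lam : ℝ} (x : ℝ) : gstar lam f x = Gst lam (Hh f) x ^ (1 / 2 : ℝ) := by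
  unfold gstar Gst
  congr 1
  have hm : Measurable (fun p : ℝ × ℝ => ENNReal.ofReal ((p.2 / (|x - p.1| + p.2)) ^ lam) * Hh f p) :=
    (by fun_prop : Measurable (fun p : ℝ × ℝ =>
      ENNReal.ofReal ((p.2 / (|x - p.1| + p.2)) ^ lam))).mul (measurable_Hh hf)
  have e1 : (volume.restrict UH : Measure (ℝ × ℝ)) = volume.prod (volume.restrict (Ioi (0:ℝ))) := by
    have : UH = univ ×ˢ Ioi (0:ℝ) := by
      ext p; simp [UH]
    rw [this, Measure.volume_eq_prod, ← Measure.prod_restrict, Measure.restrict_univ]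
  rw [e1, lintegral_prod _ hm.aemeasurable]
  refine lintegral_congr fun z => ?_
  refine setLIntegral_congr_fun measurableSet_Ioi fun y hy => ?_
  have hy0 : 0 < y := hy
  simp only
  rw [gradSq_eq hf hy0, ENNReal.ofReal_mul (by positivity)]
  unfold Hh
  rw [indicator_of_mem (by exact hy0)]

end

/-! ### necessity -/

theorem Gk1_re (z y t : ℝ) (hy : 0 < y) : (Gk1 ⟨z, y⟩ t).re =
    (1 + t ^ 2) * (((t - z) ^ 2 - y ^ 2) / ((t - z) ^ 2 + y ^ 2) ^ 2) := by
  unfold Gk1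
  have e : (1 + (t:ℂ) ^ 2) = ((1 + t ^ 2 : ℝ) : ℂ) := by push_cast; ring
  rw [e, Complex.div_re]
  have e2 : (((t:ℂ) - (⟨z, y⟩ : ℂ)) ^ 2).re = (t - z) ^ 2 - y ^ 2 := by
    rw [sq, Complex.mul_re]
    simp only [Complex.sub_re, Complex.sub_im, Complex.ofReal_re, Complex.ofReal_im]
    ring
  have e3 : Complex.normSq (((t:ℂ) - (⟨z, y⟩ : ℂ)) ^ 2) = ((t - z) ^ 2 + y ^ 2) ^ 2 := by
    rw [map_pow, Complex.normSq_apply]
    simp only [Complex.sub_re, Complex.sub_im, Complex.ofReal_re, Complex.ofReal_im]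
    ring
  rw [e2, e3, Complex.ofReal_re, Complex.ofReal_im]
  ring

theorem uy_eq {f : ℝ → ℝ} (hf : Integrable (fun t => f t / (1 + t ^ 2))) {z y : ℝ} (hy : 0 < y) :
    hR (deriv (CF f)) z y = (1 / Real.pi) *
      ∫ t, f t * (((t - z) ^ 2 - y ^ 2) / ((t - z) ^ 2 + y ^ 2) ^ 2) := by
  unfold hR
  rw [deriv_CF hf (show 0 < (⟨z, y⟩ : ℂ).im from hy)]
  unfold CF1
  have h0 := integral_re (integrable_Gk1 hf (ζ := ⟨z, y⟩) hy)
  have h1 : (∫ t, ((f t / (1 + t ^ 2) : ℝ) : ℂ) * Gk1 ⟨z, y⟩ t).re =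
      ∫ t, (((f t / (1 + t ^ 2) : ℝ) : ℂ) * Gk1 ⟨z, y⟩ t).re := h0.symm
  rw [h1, div_eq_inv_mul, one_div]
  congr 2
  ext t
  rw [Complex.re_ofReal_mul, Gk1_re z y t hy]
  have : (1 + t ^ 2) ≠ 0 := by positivity
  field_simp

/-- lower bound of the gradient -/
theorem grad_low {f : ℝ → ℝ} (hf : Integrable f) (hf0 : ∀ t, 0 ≤ f t)
    {a b : ℝ} (hab : a < b) (hs : ∀ t, t ∉ Ioo a b → f t = 0) {z y : ℝ} (hz : z ∈ Ioo a b)
    (hy : y ∈ Icc (2 * (b - a)) (3 * (b - a))) :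
    (3 / (100 * Real.pi * (b - a) ^ 2) * ∫ t, f t) ^ 2 ≤ gsq f z y := by
  have hL : 0 < b - a := sub_pos.2 hab
  have hy0 : 0 < y := by linarith [hy.1]
  have hfi' := integrable_div_of hf
  have hpi := Real.pi_pos
  set L := b - a with hLd
  have hk : ∀ t, |((t - z) ^ 2 - y ^ 2) / ((t - z) ^ 2 + y ^ 2) ^ 2| ≤ 1 / y ^ 2 := by
    intro t
    have h1 : 0 < (t - z) ^ 2 + y ^ 2 := by positivity
    rw [abs_div, abs_of_pos (by positivity : 0 < ((t - z) ^ 2 + y ^ 2) ^ 2),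
      div_le_div_iff₀ (by positivity) (by positivity)]
    have h2 : |(t - z) ^ 2 - y ^ 2| ≤ (t - z) ^ 2 + y ^ 2 := by
      rw [abs_le]
      constructor <;> nlinarith [sq_nonneg (t - z), sq_nonneg y]
    have h3 : y ^ 2 ≤ (t - z) ^ 2 + y ^ 2 := by nlinarith [sq_nonneg (t - z)]
    calc |(t - z) ^ 2 - y ^ 2| * y ^ 2 ≤ ((t - z) ^ 2 + y ^ 2) * ((t - z) ^ 2 + y ^ 2) :=
          mul_le_mul h2 h3 (by positivity) h1.le
      _ = _ := by ring
  have hint : Integrable (fun t => f t * (((t - z) ^ 2 - y ^ 2) / ((t - z) ^ 2 + y ^ 2) ^ 2)) := by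
    refine hf.mul_bdd (c := 1 / y ^ 2) (Measurable.aestronglyMeasurable (by fun_prop)) ?_
    exact Eventually.of_forall fun t => hk t
  have hlow : 3 / (100 * L ^ 2) * ∫ t, f t ≤
      -∫ t, f t * (((t - z) ^ 2 - y ^ 2) / ((t - z) ^ 2 + y ^ 2) ^ 2) := by
    rw [← integral_neg, ← integral_const_mul]
    refine integral_mono (hf.const_mul _) hint.neg fun t => ?_
    by_cases ht : t ∈ Ioo a b
    · have h1 : (t - z) ^ 2 ≤ L ^ 2 := by
        have : |t - z| ≤ L := by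
          rw [abs_le]
          constructor <;> linarith [ht.1, ht.2, hz.1, hz.2]
        rw [← sq_abs (t - z)]
        exact pow_le_pow_left₀ (abs_nonneg _) this 2
      have h2 : 4 * L ^ 2 ≤ y ^ 2 := by nlinarith [hy.1]
      have h3 : y ^ 2 ≤ 9 * L ^ 2 := by nlinarith [hy.2, hy.1]
      have h4 : 3 / (100 * L ^ 2) ≤ -(((t - z) ^ 2 - y ^ 2) / ((t - z) ^ 2 + y ^ 2) ^ 2) := by
        rw [← neg_div, div_le_div_iff₀ (by positivity) (by positivity)]
        have h5 : ((t - z) ^ 2 + y ^ 2) ^ 2 ≤ (10 * L ^ 2) ^ 2 :=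
          pow_le_pow_left₀ (by positivity) (by linarith) 2
        have h6 : 3 * L ^ 2 ≤ -((t - z) ^ 2 - y ^ 2) := by linarith
        have h7 : 3 * L ^ 2 * (100 * L ^ 2) ≤ -((t - z) ^ 2 - y ^ 2) * (100 * L ^ 2) :=
          mul_le_mul_of_nonneg_right h6 (by positivity)
        nlinarith
      have h8 := mul_le_mul_of_nonneg_left h4 (hf0 t)
      simp only
      linarith
    · simp only [hs t ht]
      simp
  have huy := uy_eq hfi' (z := z) hy0
  have hF0 : 0 ≤ ∫ t, f t := integral_nonneg hf0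
  unfold gsq
  have h9 : (3 / (100 * Real.pi * L ^ 2) * ∫ t, f t) ^ 2 ≤ hR (deriv (CF f)) z y ^ 2 := by
    rw [huy]
    have h10 : 3 / (100 * Real.pi * L ^ 2) * ∫ t, f t ≤
        -((1 / Real.pi) * ∫ t, f t * (((t - z) ^ 2 - y ^ 2) / ((t - z) ^ 2 + y ^ 2) ^ 2)) := by
      have := mul_le_mul_of_nonneg_left hlow (by positivity : 0 ≤ 1 / Real.pi)
      calc 3 / (100 * Real.pi * L ^ 2) * ∫ t, f t = 1 / Real.pi * (3 / (100 * L ^ 2) * ∫ t, f t) := by
            field_simp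
        _ ≤ _ := this
        _ = _ := by ring
    have h11 := pow_le_pow_left₀ (by positivity) h10 2
    rwa [neg_sq] at h11
  nlinarith [sq_nonneg (hI (deriv (CF f)) z y)]

/-- the lower bound of `g_λ^*` -/
theorem gst_low {lam : ℝ} (hlam : 0 < lam) {f : ℝ → ℝ} (hf : Integrable f) (hf0 : ∀ t, 0 ≤ f t)
    {a b : ℝ} (hab : a < b) (hs : ∀ t, t ∉ Ioo a b → f t = 0) (x : ℝ) :
    ENNReal.ofReal ((3 / (100 * Real.pi)) ^ 2 * ((∫ t, f t) / (b - a)) ^ 2 *
      (4 / 5 * ((b - a) / (|x - (a + b) / 2| + (b - a)))) ^ lam) ≤ Gst lam (Hh f) x := by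
  have hL : 0 < b - a := sub_pos.2 hab
  have hpi := Real.pi_pos
  set L := b - a with hLd
  set c := (a + b) / 2 with hc
  set box : Set (ℝ × ℝ) := Ioo a b ×ˢ Icc (2 * L) (3 * L) with hbox
  have hbm : MeasurableSet box := measurableSet_Ioo.prod measurableSet_Icc
  have hsub : box ⊆ UH := by
    intro p hp
    have : 0 < p.2 := by linarith [hp.2.1]
    exact this
  have hvol : volume box = ENNReal.ofReal (L ^ 2) := by
    rw [hbox, Measure.volume_eq_prod, Measure.prod_prod, Real.volume_Ioo, Real.volume_Icc,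
      ← ENNReal.ofReal_mul hL.le]
    congr 1
    ring
  set A : ℝ := (4 / 5 * (L / (|x - c| + L))) ^ lam * (3 / (100 * Real.pi * L ^ 2) * ∫ t, f t) ^ 2 with hA
  have hA0 : 0 ≤ A := by positivity
  unfold Gst
  calc ENNReal.ofReal ((3 / (100 * Real.pi)) ^ 2 * ((∫ t, f t) / L) ^ 2 *
      (4 / 5 * (L / (|x - c| + L))) ^ lam) = ENNReal.ofReal A * volume box := by
        rw [hvol, ← ENNReal.ofReal_mul hA0]
        congr 1
        rw [hA]
        field_simp
    _ = ∫⁻ p in box, ENNReal.ofReal A := by rw [setLIntegral_const]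
    _ ≤ ∫⁻ p in box, ENNReal.ofReal ((p.2 / (|x - p.1| + p.2)) ^ lam) * Hh f p := by
        refine setLIntegral_mono' hbm fun p hp => ?_
        unfold Hh
        rw [indicator_of_mem (hsub hp), hA, ENNReal.ofReal_mul (by positivity)]
        refine mul_le_mul' (ENNReal.ofReal_le_ofReal (Real.rpow_le_rpow (by positivity) ?_ hlam.le))
          (ENNReal.ofReal_le_ofReal (grad_low hf hf0 hab hs hp.1 hp.2))
        have hp2 : 2 * L ≤ p.2 := hp.2.1
        have hp20 : 0 < p.2 := by linarith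
        have h1 : |x - p.1| ≤ |x - c| + L / 2 := by
          have h2 : |c - p.1| ≤ L / 2 := by
            rw [abs_le]
            constructor <;> linarith [hp.1.1, hp.1.2]
          calc |x - p.1| = |(x - c) + (c - p.1)| := by ring_nf
            _ ≤ |x - c| + |c - p.1| := abs_add_le _ _
            _ ≤ _ := by linarith
        have h0 := abs_nonneg (x - c)
        have h00 := abs_nonneg (x - p.1)
        rw [← mul_div_assoc, div_le_div_iff₀ (by positivity) (by positivity)]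
        nlinarith [mul_nonneg h0 hp20.le, mul_nonneg hL.le h0, mul_nonneg hL.le hp20.le,
          mul_nonneg (sub_nonneg.2 hp2) h0, mul_nonneg (sub_nonneg.2 hp2) hL.le,
          mul_le_mul_of_nonneg_left h1 hL.le]
    _ ≤ _ := lintegral_mono' (Measure.restrict_mono hsub le_rfl) le_rfl

end Pool.Agent.W755.Gl
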