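import Pool.Agent.W755.GlM

set_option autoImplicit false

open MeasureTheory Filter Topology Set
open scoped ENNReal NNReal

namespace Pool.Agent.W755.Gl

open Pool.Agent.W755.Mz

section

variable {lam p : ℝ} (hlam : 0 < lam) (hp : 1 < p) {U : ℝ → ℝ} (hU : Br.IsWt U) {C : ℝ≥0}
  (hC : ∀ f : ℝ → ℝ, AEMeasurable f → ∫⁻ x, ENNReal.ofReal (|f x| ^ p * U x) < ⊤ →
    ∫⁻ x, gstar lam f x ^ p * ENNReal.ofReal (U x) ≤ C * ∫⁻ x, ENNReal.ofReal (|f x| ^ p * U x))
include hlam hp hC

/-- testing on nonnegative functions supported in an interval -/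
theorem test_ineq {f : ℝ → ℝ} (hfm : Measurable f) (hf : Integrable f) (hf0 : ∀ t, 0 ≤ f t)
    {a b : ℝ} (hab : a < b) (hs : ∀ t, t ∉ Ioo a b → f t = 0)
    (hfin : ∫⁻ x, ENNReal.ofReal (|f x| ^ p * U x) < ⊤) :
    ENNReal.ofReal ((4 / 5) ^ (lam * p / 2) * (3 / (100 * Real.pi)) ^ p * ((∫ t, f t) / (b - a)) ^ p) *
      ∫⁻ x, ENNReal.ofReal (((b - a) / (|x - (a + b) / 2| + (b - a))) ^ (lam * p / 2)) *
        ENNReal.ofReal (U x) ≤ C * ∫⁻ x, ENNReal.ofReal (|f x| ^ p * U x) := by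
  have hL : 0 < b - a := sub_pos.2 hab
  have hp0 : 0 < p := by linarith
  have hpi := Real.pi_pos
  have hF0 : 0 ≤ ∫ t, f t := integral_nonneg hf0
  refine le_trans ?_ (hC f hfm.aemeasurable hfin)
  rw [← lintegral_const_mul' _ _ ENNReal.ofReal_ne_top]
  refine lintegral_mono fun x => ?_
  rw [← mul_assoc]
  refine mul_le_mul' ?_ le_rfl
  rw [gstar_eq (integrable_div_of hf), ← ENNReal.rpow_mul]
  have h1 := gst_low hlam hf hf0 hab hs x
  have h2 := ENNReal.rpow_le_rpow h1 (by positivity : (0:ℝ) ≤ 1 / 2 * p)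
  refine le_trans (le_of_eq ?_) h2
  set v : ℝ := (b - a) / (|x - (a + b) / 2| + (b - a)) with hv
  have hv0 : 0 ≤ v := by positivity
  set G : ℝ := (∫ t, f t) / (b - a) with hG
  have hG0 : 0 ≤ G := by positivity
  rw [ENNReal.ofReal_rpow_of_nonneg (by positivity) (by positivity), ← ENNReal.ofReal_mul (by positivity)]
  congr 1
  have e1 : ((3 / (100 * Real.pi)) ^ 2 * G ^ 2 * (4 / 5 * v) ^ lam) ^ (1 / 2 * p) =
      (3 / (100 * Real.pi)) ^ p * G ^ p * ((4 / 5) ^ (lam * p / 2) * v ^ (lam * p / 2)) := by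
    rw [Real.mul_rpow (by positivity) (by positivity), Real.mul_rpow (by positivity) (by positivity),
      ← Real.rpow_natCast, ← Real.rpow_natCast, ← Real.rpow_mul (by positivity),
      ← Real.rpow_mul hG0, ← Real.rpow_mul (by positivity), Real.mul_rpow (by norm_num) hv0]
    have e2 : ((2:ℕ):ℝ) * (1 / 2 * p) = p := by push_cast; ring
    have e3 : lam * (1 / 2 * p) = lam * p / 2 := by ring
    rw [e2, e3]
  rw [e1]
  ring

include hU in
theorem nec_B : Br.MemB (lam * p / 2) U := by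
  have hp0 : 0 < p := by linarith
  have hpi := Real.pi_pos
  set r := lam * p / 2 with hr
  have hr0 : 0 < r := by positivity
  set κ : ℝ := (4 / 5) ^ r * (3 / (100 * Real.pi)) ^ p with hκ
  have hκ0 : 0 < κ := by positivity
  refine ⟨Real.toNNReal (2 ^ r * κ⁻¹) * C, fun a b hab => ?_⟩
  have hL : 0 < b - a := sub_pos.2 hab
  set L := b - a with hLd
  set f : ℝ → ℝ := (Ioo a b).indicator (fun _ => 1) with hf
  have hfm : Measurable f := measurable_const.indicator measurableSet_Ioo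
  have hfi : Integrable f := by
    rw [hf, integrable_indicator_iff measurableSet_Ioo]
    exact integrableOn_const (by rw [Real.volume_Ioo]; exact ENNReal.ofReal_ne_top)
  have hf0 : ∀ t, 0 ≤ f t := fun t => indicator_nonneg (fun _ _ => zero_le_one) t
  have hfs : ∀ t, t ∉ Ioo a b → f t = 0 := fun t ht => indicator_of_notMem ht _
  have hpt : ∀ x, ENNReal.ofReal (|f x| ^ p * U x) =
      (Ioo a b).indicator (fun x => ENNReal.ofReal (U x)) x := by
    intro x
    by_cases hx : x ∈ Ioo a b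
    · rw [hf, indicator_of_mem hx, indicator_of_mem hx, abs_one, Real.one_rpow, one_mul]
    · rw [hf, indicator_of_notMem hx, indicator_of_notMem hx, abs_zero, Real.zero_rpow hp0.ne', zero_mul,
        ENNReal.ofReal_zero]
  have hI : ∫⁻ x, ENNReal.ofReal (|f x| ^ p * U x) = ∫⁻ x in Ioo a b, ENNReal.ofReal (U x) := by
    simp only [hpt]
    rw [lintegral_indicator measurableSet_Ioo]
  have hIt : ∫⁻ x in Ioo a b, ENNReal.ofReal (U x) < ⊤ := by
    have h1 : IntegrableOn U (Icc a b) := hU.locInt.integrableOn_isCompact isCompact_Icc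
    have h2 : IntegrableOn U (Ioo a b) := h1.mono_set Ioo_subset_Icc_self
    have h3 := h2.2
    rwa [hasFiniteIntegral_iff_ofReal (Eventually.of_forall hU.nonneg)] at h3
  have h1 := test_ineq hlam hp hC hfm hfi hf0 hab hfs (by rw [hI]; exact hIt)
  have hF : (∫ t, f t) = L := by
    rw [hf, integral_indicator measurableSet_Ioo, integral_const, smul_eq_mul, mul_one,
      measureReal_restrict_apply_univ, Real.volume_real_Ioo_of_le hab.le]
  rw [hI, hF, ← hLd, div_self hL.ne', Real.one_rpow, mul_one, ← hr, ← hκ] at h1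
  set J := ∫⁻ x, ENNReal.ofReal ((L / (|x - (a + b) / 2| + L)) ^ r) * ENNReal.ofReal (U x) with hJ
  have h2 : ∫⁻ x, ENNReal.ofReal (L ^ (r - 1) * U x / (L ^ r + |x - (a + b) / 2| ^ r)) ≤
      ENNReal.ofReal (2 ^ r / L) * J := by
    rw [hJ, ← lintegral_const_mul' _ _ ENNReal.ofReal_ne_top]
    refine lintegral_mono fun x => ?_
    have hu := hU.nonneg x
    rw [← ENNReal.ofReal_mul (by positivity), ← ENNReal.ofReal_mul (by positivity)]
    refine ENNReal.ofReal_le_ofReal ?_
    set t := |x - (a + b) / 2| with ht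
    have ht0 : 0 ≤ t := abs_nonneg _
    have hLr : 0 < L ^ r := by positivity
    have htr : 0 ≤ t ^ r := Real.rpow_nonneg ht0 r
    have h3 : (t + L) ^ r ≤ 2 ^ r * (L ^ r + t ^ r) := by
      rcases le_total t L with h | h
      · calc (t + L) ^ r ≤ (2 * L) ^ r := Real.rpow_le_rpow (by positivity) (by linarith) hr0.le
          _ = 2 ^ r * L ^ r := Real.mul_rpow (by norm_num) hL.le
          _ ≤ _ := by gcongr; linarith
      · calc (t + L) ^ r ≤ (2 * t) ^ r := Real.rpow_le_rpow (by positivity) (by linarith) hr0.le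
          _ = 2 ^ r * t ^ r := Real.mul_rpow (by norm_num) ht0
          _ ≤ _ := by gcongr; linarith
    rw [Real.rpow_sub_one hL.ne', Real.div_rpow hL.le (by positivity)]
    have h4 : 0 < (t + L) ^ r := by positivity
    rw [div_mul_eq_mul_div, div_div, div_le_iff₀ (by positivity)]
    have h5 : 2 ^ r / L * (L ^ r / (t + L) ^ r * U x) * (L * (L ^ r + t ^ r)) =
        (L ^ r * U x) * ((2 ^ r * (L ^ r + t ^ r)) / (t + L) ^ r) := by
      field_simp
    rw [h5]
    have h6 : 1 ≤ (2 ^ r * (L ^ r + t ^ r)) / (t + L) ^ r := by rw [one_le_div h4]; exact h3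
    nlinarith [mul_le_mul_of_nonneg_left h6 (mul_nonneg hLr.le hu)]
  have h7 : J ≤ ENNReal.ofReal κ⁻¹ * (C * ∫⁻ x in Ioo a b, ENNReal.ofReal (U x)) := by
    calc J = ENNReal.ofReal κ⁻¹ * (ENNReal.ofReal κ * J) := by
          rw [← mul_assoc, ← ENNReal.ofReal_mul (by positivity), inv_mul_cancel₀ hκ0.ne',
            ENNReal.ofReal_one, one_mul]
      _ ≤ _ := mul_le_mul' le_rfl h1
  refine h2.trans ((mul_le_mul' le_rfl h7).trans (le_of_eq ?_))
  push_cast
  rw [show ((Real.toNNReal (2 ^ r * κ⁻¹) : ℝ≥0) : ℝ≥0∞) = ENNReal.ofReal (2 ^ r * κ⁻¹) from rfl,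
    ENNReal.ofReal_mul (by positivity), div_eq_mul_inv, ENNReal.ofReal_mul (by positivity),
    ENNReal.ofReal_inv_of_pos hL]
  ring

include hU in
theorem nec_A : MemAp p U := by
  have hp0 : 0 < p := by linarith
  have hp1 : 0 < p - 1 := by linarith
  have hpi := Real.pi_pos
  set r := lam * p / 2 with hr
  have hr0 : 0 < r := by positivity
  set κ : ℝ := (4 / 5) ^ r * (3 / (100 * Real.pi)) ^ p * (2 / 3) ^ r with hκ
  have hκ0 : 0 < κ := by positivity
  refine ⟨Real.toNNReal κ⁻¹ * C, fun a b hab => ?_⟩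
  have hL : 0 < b - a := sub_pos.2 hab
  set L := b - a with hLd
  set I1 := ∫⁻ x in Ioo a b, ENNReal.ofReal (U x) with hI1
  have hI1t : I1 ≠ ⊤ := by
    have h1 : IntegrableOn U (Icc a b) := hU.locInt.integrableOn_isCompact isCompact_Icc
    have h2 : IntegrableOn U (Ioo a b) := h1.mono_set Ioo_subset_Icc_self
    have h3 := h2.2
    rw [hasFiniteIntegral_iff_ofReal (Eventually.of_forall hU.nonneg)] at h3
    exact h3.ne
  have hρ0 : ENNReal.ofReal L ≠ 0 := (ENNReal.ofReal_pos.2 hL).ne'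
  have hρi : (ENNReal.ofReal L)⁻¹ ≠ ⊤ := ENNReal.inv_ne_top.2 hρ0
  -- the truncated estimate
  have hk : ∀ k : ℕ, (ENNReal.ofReal L)⁻¹ * I1 *
      ((ENNReal.ofReal L)⁻¹ * ∫⁻ x in Ioo a b, tE p U k x) ^ (p - 1) ≤
      ((Real.toNNReal κ⁻¹ * C : ℝ≥0) : ℝ≥0∞) := by
    intro k
    set f : ℝ → ℝ := (Ioo a b).indicator (tk p U k) with hf
    have hfm : Measurable f := (measurable_tk hU.meas k).indicator measurableSet_Ioo
    have hf0 : ∀ t, 0 ≤ f t := fun t => indicator_nonneg (fun x _ => tk_nonneg k x) t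
    have hfs : ∀ t, t ∉ Ioo a b → f t = 0 := fun t ht => indicator_of_notMem ht _
    have hfi : Integrable f := by
      rw [hf, integrable_indicator_iff measurableSet_Ioo]
      refine Measure.integrableOn_of_bounded (M := k) ?_ (measurable_tk hU.meas k).aestronglyMeasurable ?_
      · rw [Real.volume_Ioo]; exact ENNReal.ofReal_ne_top
      · refine Eventually.of_forall fun x => ?_
        rw [Real.norm_eq_abs, abs_of_nonneg (tk_nonneg k x)]
        exact tk_le k x
    set Fk := ∫⁻ x in Ioo a b, tE p U k x with hFk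
    have hFF : ENNReal.ofReal (∫ t, f t) = Fk := by
      rw [ofReal_integral_eq_lintegral_ofReal hfi (Eventually.of_forall hf0), hFk,
        ← lintegral_indicator measurableSet_Ioo]
      refine lintegral_congr fun x => ?_
      by_cases hx : x ∈ Ioo a b
      · rw [hf, indicator_of_mem hx, indicator_of_mem hx, ofReal_tk]
      · rw [hf, indicator_of_notMem hx, indicator_of_notMem hx, ENNReal.ofReal_zero]
    have hFkt : Fk ≠ ⊤ := by rw [← hFF]; exact ENNReal.ofReal_ne_top
    have hpw : ∫⁻ x, ENNReal.ofReal (|f x| ^ p * U x) ≤ Fk := by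
      rw [hFk, ← lintegral_indicator measurableSet_Ioo]
      refine lintegral_mono fun x => ?_
      by_cases hx : x ∈ Ioo a b
      · rw [hf, indicator_of_mem hx, indicator_of_mem hx, abs_of_nonneg (tk_nonneg k x),
          ENNReal.ofReal_mul (Real.rpow_nonneg (tk_nonneg k x) p),
          ← ENNReal.ofReal_rpow_of_nonneg (tk_nonneg k x) hp0.le, ofReal_tk]
        exact tE_pow hp k x
      · rw [hf, indicator_of_notMem hx, indicator_of_notMem hx, abs_zero, Real.zero_rpow hp0.ne', zero_mul,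
          ENNReal.ofReal_zero]
    have h1 := test_ineq hlam hp hC hfm hfi hf0 hab hfs (lt_of_le_of_lt hpw hFkt.lt_top)
    -- lower bound of the integral by the interval
    have h2 : ENNReal.ofReal ((2 / 3) ^ r) * I1 ≤
        ∫⁻ x, ENNReal.ofReal ((L / (|x - (a + b) / 2| + L)) ^ r) * ENNReal.ofReal (U x) := by
      rw [hI1, ← lintegral_const_mul' _ _ ENNReal.ofReal_ne_top]
      refine le_trans ?_ (setLIntegral_le_lintegral (Ioo a b) _)
      refine setLIntegral_mono' measurableSet_Ioo fun x hx => ?_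
      refine mul_le_mul' (ENNReal.ofReal_le_ofReal (Real.rpow_le_rpow (by norm_num) ?_ hr0.le)) le_rfl
      have h3 : |x - (a + b) / 2| ≤ L / 2 := by
        rw [abs_le]
        constructor <;> linarith [hx.1, hx.2]
      rw [div_le_div_iff₀ (by norm_num) (by positivity)]
      linarith
    rw [← hLd, ← hr] at h1
    have h4 : ENNReal.ofReal κ * ((ENNReal.ofReal L)⁻¹ * Fk) ^ p * I1 ≤ C * Fk := by
      calc ENNReal.ofReal κ * ((ENNReal.ofReal L)⁻¹ * Fk) ^ p * I1 =
          ENNReal.ofReal ((4 / 5) ^ r * (3 / (100 * Real.pi)) ^ p * ((∫ t, f t) / L) ^ p) *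
            (ENNReal.ofReal ((2 / 3) ^ r) * I1) := by
            have hF0 : 0 ≤ ∫ t, f t := integral_nonneg hf0
            have e1 : ((ENNReal.ofReal L)⁻¹ * Fk) ^ p = ENNReal.ofReal (((∫ t, f t) / L) ^ p) := by
              rw [← hFF, ← ENNReal.ofReal_inv_of_pos hL, ← ENNReal.ofReal_mul (by positivity),
                ENNReal.ofReal_rpow_of_nonneg (by positivity) hp0.le]
              congr 2
              ring
            rw [e1, ← mul_assoc, ← ENNReal.ofReal_mul (by positivity), ← ENNReal.ofReal_mul (by positivity)]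
            congr 2
            rw [hκ]
            ring
        _ ≤ _ := mul_le_mul' le_rfl h2
        _ ≤ _ := h1
        _ ≤ _ := mul_le_mul' le_rfl hpw
    rcases eq_or_ne Fk 0 with hz | hz
    · rw [hz, mul_zero, ENNReal.zero_rpow_of_pos hp1, mul_zero]; exact bot_le
    set X := (ENNReal.ofReal L)⁻¹ * Fk with hX
    have hX0 : X ≠ 0 := mul_ne_zero (ENNReal.inv_ne_zero.2 ENNReal.ofReal_ne_top) hz
    have hXt : X ≠ ⊤ := ENNReal.mul_ne_top hρi hFkt
    have e2 : X ^ p = X * X ^ (p - 1) := by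
      conv_lhs => rw [show p = 1 + (p - 1) by ring]
      rw [ENNReal.rpow_add_of_nonneg _ _ zero_le_one hp1.le, ENNReal.rpow_one]
    have e3 : Fk = ENNReal.ofReal L * X := by
      rw [hX, ← mul_assoc, ENNReal.mul_inv_cancel hρ0 ENNReal.ofReal_ne_top, one_mul]
    have hκe : ENNReal.ofReal κ⁻¹ * ENNReal.ofReal κ = 1 := by
      rw [← ENNReal.ofReal_mul (by positivity), inv_mul_cancel₀ hκ0.ne', ENNReal.ofReal_one]
    calc (ENNReal.ofReal L)⁻¹ * I1 * X ^ (p - 1) =
        ENNReal.ofReal κ⁻¹ * X⁻¹ * (ENNReal.ofReal L)⁻¹ * (ENNReal.ofReal κ * X ^ p * I1) := by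
          rw [e2]
          calc _ = 1 * 1 * ((ENNReal.ofReal L)⁻¹ * I1 * X ^ (p - 1)) := by ring
            _ = (ENNReal.ofReal κ⁻¹ * ENNReal.ofReal κ) * (X⁻¹ * X) *
                ((ENNReal.ofReal L)⁻¹ * I1 * X ^ (p - 1)) := by
                rw [hκe, ENNReal.inv_mul_cancel hX0 hXt]
            _ = _ := by ring
      _ ≤ ENNReal.ofReal κ⁻¹ * X⁻¹ * (ENNReal.ofReal L)⁻¹ * (C * Fk) := mul_le_mul' le_rfl h4
      _ = ENNReal.ofReal κ⁻¹ * C * (X⁻¹ * X) * ((ENNReal.ofReal L)⁻¹ * ENNReal.ofReal L) := by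
          rw [e3]; ring
      _ = ENNReal.ofReal κ⁻¹ * C := by
          rw [ENNReal.inv_mul_cancel hX0 hXt, ENNReal.inv_mul_cancel hρ0 ENNReal.ofReal_ne_top,
            mul_one, mul_one]
      _ = _ := by rw [ENNReal.coe_mul]; rfl
  -- pass to the limit
  have hlim : Tendsto (fun k : ℕ => (ENNReal.ofReal L)⁻¹ * I1 *
      ((ENNReal.ofReal L)⁻¹ * ∫⁻ x in Ioo a b, tE p U k x) ^ (p - 1)) atTop
      (𝓝 ((ENNReal.ofReal L)⁻¹ * I1 *
      ((ENNReal.ofReal L)⁻¹ * ∫⁻ x in Ioo a b, ss p U x) ^ (p - 1))) := by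
    refine ENNReal.Tendsto.const_mul ?_ (Or.inr (ENNReal.mul_ne_top hρi hI1t))
    refine (ENNReal.continuous_rpow_const.tendsto _).comp ?_
    refine ENNReal.Tendsto.const_mul ?_ (Or.inr hρi)
    rw [lintegral_ss' hU.meas (Ioo a b)]
    refine tendsto_atTop_iSup fun k l hkl => ?_
    exact lintegral_mono fun x => monotone_tE x hkl
  exact le_of_tendsto' hlim hk

end

/-- necessity -/
theorem necessity {lam p : ℝ} (hlam : 0 < lam) (hp : 1 < p) {U : ℝ → ℝ} (hU : Br.IsWt U)
    (h : Star lam p U) : MemAp p U ∧ Br.MemB (lam * p / 2) U := by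
  obtain ⟨C, hC⟩ := h
  exact ⟨nec_A hlam hp hU hC, nec_B hlam hp hU hC⟩

end Pool.Agent.W755.Gl
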